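import Pool.Agent.H18.Tl.LmC

/-!
# Module Greedy (TL): extraction of blocks

Induction on `e` (strong) or on `S.card`: if `e < Bs b + A` or if `S.count μ < Sn μ` for all `μ` with `1 ≤ μ`, `2 μ ≤ Bs b + 1`, take `ms = []`,
`S' = S`.  Otherwise choose such a `μ` with `Sn μ ≤ S.count μ`, so `S = S₁ + replicate (Sn μ) μ`, and `e₁ = e - an μ ≥ Bs b`; from
`Lm b (e + 1) = Lm b (e₁ + 1) + an μ * Pc b` (`Lm_add`) and `heq`: `Lm b (e₁ + 1) ≤ X + (S₁.map (Lm b)).sum`; apply the induction hypothesis.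
-/

namespace Pool.Agent.H18.Tl

open Finset

variable {τ : Type} [Fintype τ] [DecidableEq τ]

theorem greedy (b : τ → ℕ) (Sn an : ℕ → ℕ) (A X : ℕ) (hpos : ∀ μ, 1 ≤ Sn μ ∧ 1 ≤ an μ)
    (hA : ∀ μ, 1 ≤ μ → 2 * μ ≤ Bs b + 1 → an μ ≤ A)
    (heq : ∀ μ, 1 ≤ μ → 2 * μ ≤ Bs b + 1 → Sn μ * Lm b μ = an μ * Pc b) :
    ∀ (e : ℕ) (S : Multiset ℕ), Bs b ≤ e → Lm b (e + 1) ≤ X + (S.map (Lm b)).sum →
      ∃ (ms : List ℕ) (S' : Multiset ℕ) (e₀ : ℕ), (∀ μ ∈ ms, 1 ≤ μ ∧ 2 * μ ≤ Bs b + 1) ∧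
        S = S' + (ms.map fun μ => Multiset.replicate (Sn μ) μ).sum ∧
        e = e₀ + (ms.map an).sum ∧ Bs b ≤ e₀ ∧ Lm b (e₀ + 1) ≤ X + (S'.map (Lm b)).sum ∧
        (e₀ < Bs b + A ∨ ∀ μ, 1 ≤ μ → 2 * μ ≤ Bs b + 1 → S'.count μ < Sn μ) := by
  intro e
  induction e using Nat.strong_induction_on with
  | _ e ih =>
    intro S hBe hL
    by_cases h1 : e < Bs b + A
    · exact ⟨[], S, e, by simp, by simp, by simp, hBe, hL, Or.inl h1⟩
    by_cases h2 : ∀ μ, 1 ≤ μ → 2 * μ ≤ Bs b + 1 → S.count μ < Sn μ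
    · exact ⟨[], S, e, by simp, by simp, by simp, hBe, hL, Or.inr h2⟩
    push Not at h1 h2
    obtain ⟨μ, hμ1, hμ2, hc⟩ := h2
    have haA : an μ ≤ A := hA μ hμ1 hμ2
    have ha1 : 1 ≤ an μ := (hpos μ).2
    obtain ⟨e₁, he₁⟩ : ∃ e₁, e = e₁ + an μ := ⟨e - an μ, by omega⟩
    have hle : Multiset.replicate (Sn μ) μ ≤ S := Multiset.le_count_iff_replicate_le.mp hc
    obtain ⟨S₁, hS₁⟩ := Multiset.le_iff_exists_add.mp hle
    have hBe₁ : Bs b ≤ e₁ := by omega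
    have hlm : Lm b (e + 1) = Lm b (e₁ + 1) + an μ * Pc b := by
      have hadd := Lm_add b (e₁ + 1) (an μ) (by omega)
      have hee : e + 1 = e₁ + 1 + an μ := by omega
      rw [hee]
      exact hadd
    have hsum : (S.map (Lm b)).sum = an μ * Pc b + (S₁.map (Lm b)).sum := by
      rw [hS₁, Multiset.map_add, Multiset.sum_add, Multiset.map_replicate, Multiset.sum_replicate,
        smul_eq_mul, heq μ hμ1 hμ2]
    have hL₁ : Lm b (e₁ + 1) ≤ X + (S₁.map (Lm b)).sum := by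
      rw [hlm, hsum] at hL
      omega
    obtain ⟨ms, S', e₀, hms, hS', he₀, hB₀, hL₀, hor⟩ := ih e₁ (by omega) S₁ hBe₁ hL₁
    refine ⟨μ :: ms, S', e₀, ?_, ?_, ?_, hB₀, hL₀, hor⟩
    · intro ν hν
      rcases List.mem_cons.mp hν with h | h
      · subst h
        exact ⟨hμ1, hμ2⟩
      · exact hms ν h
    · rw [hS₁, hS', List.map_cons, List.sum_cons]
      abel
    · rw [List.map_cons, List.sum_cons, he₁, he₀]
      omega

end Pool.Agent.H18.Tl
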