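import Pool.Agent.H18.Tl.Chain
import Pool.Agent.H18.Tl.Greedy

/-!
# Module Asm (TL): the thin theorem

`exists_stp` gives `Sn`, `an`; `A = ∑_{μ ≤ Bs b + 1} an μ` (`≥ 1`).  Let `C = Bs b + A + R * Lm b M + ∑_{μ ≤ Bs b + 1} Sn μ * Lm b μ` and
`D = C + Bs b + A * (Lm b (C + 1) + 1)`.  `greedy` for `S₁` with `X = (S₀.map (Lm b)).sum ≤ R * Lm b M` (`Lm_mono`) gives `ms`, `S'`, `e₀`.  `e₀ ≤ C`:
either `e₀ < Bs b + A`, or `e₀ + 1 ≤ Lm b (e₀ + 1) ≤ X + ∑_{S'} Lm b ≤ R * Lm b M + ∑_{μ ≤ Bs b + 1} Sn μ * Lm b μ` (`le_Lm`; `S'` has only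
elements `μ ≤ Bs b + 1`, those with `μ ≥ 1` have `count < Sn μ`, `Lm b 0 = 0`; `Multiset.sum_map_count`/`Finset.sum_multiset_map_count`).
`e - e₀ = ∑ an ≤ A * ms.length`, so `ms.length ≥ Lm b (C + 1)`.  Let `L` be points with the multiplicities `S₀ + S'` and distinct `x`.
`chain`: `h0 b e L' ≤ h0 b e₀ L - ms.length = 0` since `h0 b e₀ L ≤ Lm b (e₀ + 1) ≤ Lm b (C + 1)` (`h0_le`); `h0_eq_zero`.
-/

namespace Pool.Agent.H18.Tl

open Finset Polynomial

variable {τ : Type} [Fintype τ] [DecidableEq τ]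

private theorem Asm_pts (S : Multiset ℕ) :
    ∃ L : List (Pt τ), (L.map Pt.x).Nodup ∧ (↑(L.map Pt.m) : Multiset ℕ) = S := by
  obtain ⟨l, rfl⟩ := Quot.exists_rep S
  refine ⟨(List.finRange l.length).map fun i => ⟨l.get i, (i : ℂ), 0⟩, ?_, ?_⟩
  · rw [List.map_map]
    refine (List.nodup_finRange _).map ?_
    intro i j h
    have h' : ((i : ℕ) : ℂ) = ((j : ℕ) : ℂ) := h
    exact Fin.ext (Nat.cast_injective h')
  · rw [List.map_map]
    have : (Pt.m ∘ fun i : Fin l.length => (⟨l.get i, (i : ℂ), 0⟩ : Pt τ)) = l.get := by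
      funext i; rfl
    rw [this]
    simp

private theorem Asm_cL (b : τ → ℕ) (L : List (Pt τ)) :
    cL b L = ((↑(L.map Pt.m) : Multiset ℕ).map (Lm b)).sum := by
  unfold cL
  rw [Multiset.map_coe, Multiset.sum_coe, List.map_map]
  rfl

theorem asm (b : τ → ℕ) (hB : 1 ≤ Bs b) (M R : ℕ) : ∃ D : ℕ, ∀ (e : ℕ) (S₀ S₁ : Multiset ℕ),
    D ≤ e → S₀.card ≤ R → (∀ m ∈ S₀, m ≤ M) → (∀ m ∈ S₁, 2 * m ≤ Bs b + 1) →
    Lm b (e + 1) ≤ ((S₀ + S₁).map (Lm b)).sum →
    ∃ L : List (Pt τ), (↑(L.map Pt.m) : Multiset ℕ) = S₀ + S₁ ∧ ∀ F ∈ Sol b e L, F = 0 := by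
  obtain ⟨Sn, an, hS⟩ := exists_stp b hB
  have hA : ∀ μ, μ ≤ Bs b + 1 → an μ ≤ ∑ μ ∈ range (Bs b + 2), an μ := fun μ hμ =>
    Finset.single_le_sum (f := an) (fun i _ => Nat.zero_le _) (mem_range.2 (by omega))
  set A := ∑ μ ∈ range (Bs b + 2), an μ with hAdef
  set W := ∑ μ ∈ range (Bs b + 2), Sn μ * Lm b μ with hWdef
  have hA1 : 1 ≤ A := le_trans (hS.pos 0).2 (hA 0 (by omega))
  set C := Bs b + A + R * Lm b M + W with hC
  refine ⟨C + Bs b + A * (Lm b (C + 1) + 1), fun e S₀ S₁ hD hcard hM hS1 hL => ?_⟩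
  rw [Multiset.map_add, Multiset.sum_add] at hL
  obtain ⟨ms, S', e₀, hms, hS', he, hBe₀, hL₀, hor⟩ := greedy b Sn an A (S₀.map (Lm b)).sum hS.pos
    (fun μ h1 h2 => hA μ (by omega)) hS.eq e S₁ (by omega) hL
  have hX : (S₀.map (Lm b)).sum ≤ R * Lm b M := by
    have h1 : (S₀.map (Lm b)).sum ≤ (S₀.map (Lm b)).card • Lm b M := by
      refine Multiset.sum_le_card_nsmul _ _ fun x hx => ?_
      obtain ⟨m, hm, rfl⟩ := Multiset.mem_map.1 hx
      exact Lm_mono b (hM m hm)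
    rw [Multiset.card_map, smul_eq_mul] at h1
    exact h1.trans (Nat.mul_le_mul_right _ hcard)
  have he₀ : e₀ ≤ C := by
    rcases hor with h | h
    · omega
    · have hW : (S'.map (Lm b)).sum ≤ W := by
        rw [Finset.sum_multiset_map_count, hWdef]
        have hsub : S'.toFinset ⊆ range (Bs b + 2) := by
          intro m hm
          have : m ∈ S₁ := by
            rw [hS']
            exact Multiset.mem_add.2 (Or.inl (Multiset.mem_toFinset.1 hm))
          have := hS1 m this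
          exact mem_range.2 (by omega)
        refine (Finset.sum_le_sum_of_subset hsub).trans (Finset.sum_le_sum fun m hm => ?_)
        rw [smul_eq_mul]
        rcases Nat.eq_zero_or_pos m with h0 | hpos
        · subst h0
          rw [Lm_zero, mul_zero, mul_zero]
        · by_cases h2 : 2 * m ≤ Bs b + 1
          · exact Nat.mul_le_mul_right _ (h m hpos h2).le
          · have : S'.count m = 0 := by
              rw [Multiset.count_eq_zero]
              intro hm'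
              apply h2
              apply hS1 m
              rw [hS']
              exact Multiset.mem_add.2 (Or.inl hm')
            rw [this, zero_mul]
            exact Nat.zero_le _
      have := le_Lm b (e₀ + 1)
      omega
  have hsum : (ms.map an).sum ≤ ms.length * A := by
    have h1 : (ms.map an).sum ≤ (ms.map an).length • A := by
      refine List.sum_le_card_nsmul _ _ fun x hx => ?_
      obtain ⟨m, hm, rfl⟩ := List.mem_map.1 hx
      exact hA m (by have := hms m hm; omega)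
    rwa [List.length_map, smul_eq_mul] at h1
  have hlen : Lm b (C + 1) ≤ ms.length := by
    by_contra hcon
    have h1 : ms.length * A ≤ Lm b (C + 1) * A := Nat.mul_le_mul_right _ (by omega)
    have h2 : A * (Lm b (C + 1) + 1) = Lm b (C + 1) * A + A := by ring
    omega
  obtain ⟨L, hnd, hm⟩ := Asm_pts (τ := τ) (S₀ + S')
  have hcL : Lm b (e₀ + 1) ≤ cL b L := by
    rw [Asm_cL, hm, Multiset.map_add, Multiset.sum_add]
    exact hL₀
  obtain ⟨L', -, hm', hh'⟩ := chain hS ms hms L e₀ hnd (hBe₀.trans (Nat.le_succ _)) hcL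
  refine ⟨L', ?_, ?_⟩
  · rw [hm', hm, add_assoc, ← hS']
  · rw [he]
    refine (h0_eq_zero _ _).1 ?_
    have h1 := h0_le (b := b) e₀ L
    have h2 := Lm_mono b (Nat.succ_le_succ he₀)
    have h3 : Lm b (e₀ + 1) ≤ Lm b (C + 1) := h2
    omega

end Pool.Agent.H18.Tl
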