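import Pool.Agent.H18.Tl.Vn

/-!
# Module Asm0 (TL): the case `b = 0`

`Box b` has one element `zb b`, `Lm b m = m`, `act (tz b z) F = F`.  Points with the multiplicities `S` and distinct `x_i`
(`S.toList`, `x_i = i`).  `F ∈ Sol b e L`: `F (zb b)` has degree `≤ e` and is divisible by `(X - x_i)^(m_i)` for all `i`, so by the product
(pairwise coprime), of degree `∑ m_i ≥ e + 1`; so it is `0`.
-/

namespace Pool.Agent.H18.Tl

open Finset Polynomial

variable {τ : Type} [Fintype τ] [DecidableEq τ]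

omit [DecidableEq τ] in
private lemma Asm0_bz {b : τ → ℕ} (hB : Bs b = 0) (l : τ) : b l = 0 := by
  have h := Finset.sum_eq_zero_iff.1 (show ∑ l, b l = 0 from hB)
  exact h l (Finset.mem_univ l)

omit [DecidableEq τ] in
private lemma Asm0_val {b : τ → ℕ} (hB : Bs b = 0) (γ : Box b) (l : τ) : (γ l : ℕ) = 0 := by
  have h := (γ l).isLt
  have h2 := Asm0_bz hB l
  omega

omit [DecidableEq τ] in
private lemma Asm0_eq {b : τ → ℕ} (hB : Bs b = 0) (γ : Box b) : γ = zb b := by
  funext l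
  apply Fin.ext
  rw [Asm0_val hB γ l]
  rfl

omit [DecidableEq τ] in
private lemma Asm0_dg {b : τ → ℕ} (hB : Bs b = 0) (γ : Box b) : dg γ = 0 := by
  unfold dg
  exact Finset.sum_eq_zero fun l _ => Asm0_val hB γ l

private lemma Asm0_univ {b : τ → ℕ} (hB : Bs b = 0) : (Finset.univ : Finset (Box b)) = {zb b} := by
  ext γ
  simp only [Finset.mem_univ, Finset.mem_singleton, true_iff]
  exact Asm0_eq hB γ

private lemma Asm0_Lm {b : τ → ℕ} (hB : Bs b = 0) (μ : ℕ) : Lm b μ = μ := by
  unfold Lm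
  rw [Asm0_univ hB, Finset.sum_singleton, Asm0_dg hB, Nat.sub_zero]

omit [DecidableEq τ] in
private lemma Asm0_tz {b : τ → ℕ} (hB : Bs b = 0) (z : τ → ℂ) (γ β : Box b) : tz b z γ β = 1 := by
  unfold tz
  apply Finset.prod_eq_one
  intro l _
  rw [Asm0_val hB γ l, Asm0_val hB β l]
  simp

private lemma Asm0_act {b : τ → ℕ} (hB : Bs b = 0) (z : τ → ℂ) (F : V b) (γ : Box b) :
    act (tz b z) F γ = F γ := by
  rw [act_apply, Asm0_univ hB, Finset.sum_singleton, Asm0_tz hB, Asm0_eq hB γ]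
  simp

theorem asm0 (b : τ → ℕ) (hB : Bs b = 0) (e : ℕ) (S : Multiset ℕ)
    (h : Lm b (e + 1) ≤ (S.map (Lm b)).sum) :
    ∃ L : List (Pt τ), (↑(L.map Pt.m) : Multiset ℕ) = S ∧ ∀ F ∈ Sol b e L, F = 0 := by
  have hmap : S.map (Lm b) = S := by
    conv_rhs => rw [← Multiset.map_id S]
    apply Multiset.map_congr rfl
    intro m _
    exact Asm0_Lm hB m
  rw [hmap, Asm0_Lm hB] at h
  set l : List ℕ := S.toList with hl
  have hlS : (↑l : Multiset ℕ) = S := Multiset.coe_toList S
  refine ⟨List.ofFn (fun i : Fin l.length => (⟨l.get i, ((i : ℕ) : ℂ), 0⟩ : Pt τ)), ?_, ?_⟩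
  · rw [List.map_ofFn]
    have h1 : (Pt.m ∘ fun i : Fin l.length => (⟨l.get i, ((i : ℕ) : ℂ), 0⟩ : Pt τ)) = l.get := rfl
    rw [h1, List.ofFn_get, hlS]
  · intro F hF
    rw [mem_Sol] at hF
    obtain ⟨hF1, hF2⟩ := hF
    funext γ
    have hdeg : ∀ j, e < j → (F γ).coeff j = 0 := by
      intro j hj
      apply mem_Ve.1 hF1 γ j
      omega
    have hdvd : ∀ i : Fin l.length, (X - C (((i : ℕ) : ℂ))) ^ (l.get i) ∣ F γ := by
      intro i
      have h1 := mem_vanL.1 hF2 ⟨l.get i, ((i : ℕ) : ℂ), 0⟩ (by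
        rw [List.mem_ofFn]
        exact ⟨i, rfl⟩)
      have h2 := mem_van.1 h1 γ
      rw [Asm0_act hB, Asm0_dg hB, Nat.sub_zero] at h2
      exact h2
    have hprod : (∏ i : Fin l.length, (X - C (((i : ℕ) : ℂ))) ^ (l.get i)) ∣ F γ := by
      apply Finset.prod_dvd_of_coprime
      · intro i _ j _ hij
        apply IsCoprime.pow
        apply Polynomial.isCoprime_X_sub_C_of_isUnit_sub
        rw [isUnit_iff_ne_zero, sub_ne_zero]
        intro hc
        apply hij
        apply Fin.ext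
        exact_mod_cast hc
      · intro i _
        exact hdvd i
    have hnd : (∏ i : Fin l.length, (X - C (((i : ℕ) : ℂ))) ^ (l.get i)).natDegree = S.sum := by
      rw [Polynomial.natDegree_prod_of_monic _ _ (fun i _ => (monic_X_sub_C _).pow _)]
      have h1 : ∀ i : Fin l.length,
          ((X - C (((i : ℕ) : ℂ))) ^ (l.get i) : ℂ[X]).natDegree = l.get i := by
        intro i
        rw [Polynomial.natDegree_pow, natDegree_X_sub_C, mul_one]
      rw [Finset.sum_congr rfl (fun i _ => h1 i), ← List.sum_ofFn, List.ofFn_get, ← hlS,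
        Multiset.sum_coe]
    show F γ = 0
    by_contra hne
    have h1 := Polynomial.natDegree_le_of_dvd hprod hne
    have h2 : (F γ).natDegree ≤ e := by
      rw [Polynomial.natDegree_le_iff_coeff_eq_zero]
      intro j hj
      exact hdeg j hj
    omega

end Pool.Agent.H18.Tl
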