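import Pool.Agent.H18.Tl.ShB

/-!
# Module Big (TL): in large degree the conditions are independent

`big_one`: one point.  By `h0_sh` and `act (tz b _)` (an automorphism of `Ve b e`, `tz_mem_Ve`, `van_tz`) we may assume `p = ⟨m, 0, 0⟩`; then
`Sol b e [p]` consists of the `F` with `(F γ).coeff j = 0` unless `m - dg γ ≤ j ≤ e - dg γ`, of dimension
`∑_γ ((e + 1 - dg γ) - (m - dg γ)) = Lm b (e + 1) - Lm b m` if `Bs b + m ≤ e + 1`.
`big`: induction on `L`, `L = p :: L'`.  Let `g = ∏_{p' ∈ L'} (X - C p'.x)^(p'.m)`, of degree `γ₀`, `g(p.x) ≠ 0`; `g • F ∈ vanL b L'` for all `F`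
(the coefficients of `act` are multiplied by `g`), and `g • F ∈ van b p ↔ F ∈ van b p` (`van_unit`).  The map `F ↦ g • F` from
`Ve b (e - γ₀)` to `Sol b e L' ⧸ Sol b e L` (quotient by the subspace `Sol b e L ≤ Sol b e L'`) has the kernel `Sol b (e - γ₀) [p]`, so
`Lm b (e - γ₀ + 1) - h0 b (e - γ₀) [p] ≤ h0 b e L' - h0 b e L`; the left side is `≥ Lm b p.m` by `big_one`.  So
`h0 b e L + Lm b p.m ≤ h0 b e L'`; `e₀` is the maximum of the bound for `L'` and `γ₀ + Bs b + p.m`.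
-/

namespace Pool.Agent.H18.Tl

open Finset Polynomial

variable {τ : Type} [Fintype τ] [DecidableEq τ] {b : τ → ℕ}

private theorem Big_taylor_coeff (x : ℂ) (f : ℂ[X]) (k : ℕ) (h : ∀ j, k ≤ j → f.coeff j = 0) :
    ∀ j, k ≤ j → (taylor x f).coeff j = 0 := by
  have h1 : f.degree < k := (degree_lt_iff_coeff_zero f k).mpr h
  have h2 : (taylor x f).degree < k := by rw [degree_taylor]; exact h1
  exact (degree_lt_iff_coeff_zero _ k).mp h2

omit [DecidableEq τ] in
private theorem Big_sh_mem_Ve (x : ℂ) (e : ℕ) (F : V b) (hF : F ∈ Ve b e) : sh x F ∈ Ve b e := by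
  intro γ j hj
  rw [sh_apply]
  refine Big_taylor_coeff x (F γ) (e + 1 - dg γ) (fun i hi => hF γ i (by omega)) j (by omega)

private theorem Big_act_back (z : τ → ℂ) (F : V b) : act (tz b (-z)) (act (tz b z) F) = F := by
  rw [← act_mul, tz_neg_mul, act_one]

private theorem Big_act_forth (z : τ → ℂ) (F : V b) : act (tz b z) (act (tz b (-z)) F) = F := by
  rw [← act_mul, tz_mul_neg, act_one]

/-- The coefficients below the diagonal. -/
private noncomputable def Big_coe (p : Pt τ) (lo hi : Box b → ℕ) :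
    V b →ₗ[ℂ] ((Σ γ : Box b, Fin (hi γ - lo γ)) → ℂ) :=
  LinearMap.pi fun i => (lcoeff ℂ (lo i.1 + (i.2 : ℕ))) ∘ₗ (taylor p.x) ∘ₗ
    (LinearMap.proj i.1 : V b →ₗ[ℂ] ℂ[X]) ∘ₗ ((act (tz b p.z)).restrictScalars ℂ)

private theorem Big_coe_apply (p : Pt τ) (lo hi : Box b → ℕ) (F : V b)
    (i : Σ γ : Box b, Fin (hi γ - lo γ)) :
    Big_coe p lo hi F i = (taylor p.x (act (tz b p.z) F i.1)).coeff (lo i.1 + (i.2 : ℕ)) := rfl

/-- Injectivity of the coefficients on the solutions. -/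
private theorem Big_inj (p : Pt τ) (e : ℕ) (F : V b) (hF : F ∈ Sol b e [p])
    (h0 : Big_coe p (fun γ => p.m - dg γ) (fun γ => e + 1 - dg γ) F = 0) : F = 0 := by
  have hv : F ∈ van b p := (mem_vanL.mp (mem_Sol.mp hF).2) p (List.mem_singleton.mpr rfl)
  have hV : act (tz b p.z) F ∈ Ve b e := tz_mem_Ve _ _ _ (mem_Sol.mp hF).1
  have h1 : act (tz b p.z) F = 0 := by
    funext γ
    apply taylor_injective p.x
    rw [Pi.zero_apply, map_zero]
    ext j
    rw [coeff_zero]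
    by_cases hj : j + dg γ < p.m
    · exact (van_iff p F).mp hv γ j hj
    · by_cases hj2 : e + 1 - dg γ ≤ j
      · exact Big_taylor_coeff p.x _ (e + 1 - dg γ) (fun i hi => hV γ i (by omega)) j hj2
      · have h2 := congrFun h0 ⟨γ, ⟨j - (p.m - dg γ), by omega⟩⟩
        rw [Big_coe_apply, Pi.zero_apply] at h2
        have h3 : p.m - dg γ + (j - (p.m - dg γ)) = j := by omega
        simpa only [h3] using h2
  rw [← Big_act_back p.z F, h1, map_zero]

private theorem Big_finite (e : ℕ) (L : List (Pt τ)) : Module.Finite ℂ (Sol b e L) := by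
  classical
  let f : Sol b e L →ₗ[ℂ] ((Σ γ : Box b, Fin ((e + 1 - dg γ) - (0 - dg γ))) → ℂ) :=
    (Big_coe (b := b) (⟨0, 0, 0⟩ : Pt τ) (fun γ => 0 - dg γ) (fun γ => e + 1 - dg γ)) ∘ₗ
      (Sol b e L).subtype
  apply Module.Finite.of_injective f
  rw [← LinearMap.ker_eq_bot, LinearMap.ker_eq_bot']
  rintro ⟨F, hF⟩ h
  apply Subtype.ext
  refine Big_inj (⟨0, 0, 0⟩ : Pt τ) e F ?_ h
  refine mem_Sol.mpr ⟨(mem_Sol.mp hF).1, ?_⟩
  intro q hq γ
  rw [List.mem_singleton.mp hq]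
  simp

theorem big_one (p : Pt τ) (e : ℕ) (he : Bs b + p.m ≤ e + 1) :
    h0 b e [p] + Lm b p.m ≤ Lm b (e + 1) := by
  classical
  let f : Sol b e [p] →ₗ[ℂ] ((Σ γ : Box b, Fin ((e + 1 - dg γ) - (p.m - dg γ))) → ℂ) :=
    (Big_coe (b := b) p (fun γ => p.m - dg γ) (fun γ => e + 1 - dg γ)) ∘ₗ
      (Sol b e [p]).subtype
  have hf : Function.Injective f := by
    rw [← LinearMap.ker_eq_bot, LinearMap.ker_eq_bot']
    rintro ⟨F, hF⟩ h
    exact Subtype.ext (Big_inj p e F hF h)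
  have h1 := LinearMap.finrank_le_finrank_of_injective hf
  rw [Module.finrank_fintype_fun_eq_card, Fintype.card_sigma] at h1
  simp only [Fintype.card_fin] at h1
  have h2 : ∑ γ : Box b, ((e + 1 - dg γ) - (p.m - dg γ)) + ∑ γ : Box b, (p.m - dg γ)
      = ∑ γ : Box b, (e + 1 - dg γ) := by
    rw [← Finset.sum_add_distrib]
    refine Finset.sum_congr rfl fun γ _ => ?_
    omega
  unfold h0 Lm
  omega

/-- The vector with prescribed Taylor coefficients at `p`. -/
private noncomputable def Big_th (p : Pt τ) :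
    ((Σ γ : Box b, Fin (p.m - dg γ)) → ℂ) →ₗ[ℂ] V b :=
  ((act (tz b (-p.z))).restrictScalars ℂ) ∘ₗ (sh (-p.x)) ∘ₗ
    (LinearMap.pi fun γ => ∑ i : Fin (p.m - dg γ),
      (monomial (R := ℂ) (i : ℕ)) ∘ₗ (LinearMap.proj (⟨γ, i⟩ : Σ γ : Box b, Fin (p.m - dg γ))))

/-- The prescribed polynomials. -/
private noncomputable def Big_g (p : Pt τ) (c : (Σ γ : Box b, Fin (p.m - dg γ)) → ℂ) : V b :=
  fun γ => ∑ i : Fin (p.m - dg γ), monomial (i : ℕ) (c ⟨γ, i⟩)

private theorem Big_th_eq (p : Pt τ) (c : (Σ γ : Box b, Fin (p.m - dg γ)) → ℂ) :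
    Big_th p c = act (tz b (-p.z)) (sh (-p.x) (Big_g p c)) := by
  have h : (LinearMap.pi fun γ => ∑ i : Fin (p.m - dg γ),
      (monomial (R := ℂ) (i : ℕ)) ∘ₗ
        (LinearMap.proj (⟨γ, i⟩ : Σ γ : Box b, Fin (p.m - dg γ)))) c = Big_g p c := by
    funext γ
    simp [Big_g, LinearMap.pi_apply, LinearMap.sum_apply]
  unfold Big_th
  rw [LinearMap.comp_apply, LinearMap.comp_apply, h]
  rfl

omit [DecidableEq τ] in
private theorem Big_g_coeff (p : Pt τ) (c : (Σ γ : Box b, Fin (p.m - dg γ)) → ℂ) (γ : Box b)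
    (j : ℕ) : (Big_g p c γ).coeff j = if h : j < p.m - dg γ then c ⟨γ, ⟨j, h⟩⟩ else 0 := by
  unfold Big_g
  rw [finsetSum_coeff]
  simp only [coeff_monomial]
  split_ifs with h
  · rw [Finset.sum_eq_single (⟨j, h⟩ : Fin (p.m - dg γ))]
    · simp
    · intro i _ hi
      rw [if_neg]
      intro h2
      exact hi (Fin.ext h2)
    · intro h2
      exact absurd (Finset.mem_univ _) h2
  · refine Finset.sum_eq_zero fun i _ => ?_
    rw [if_neg]
    intro h2
    exact h (h2 ▸ i.2)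

private theorem Big_th_taylor (p : Pt τ) (c : (Σ γ : Box b, Fin (p.m - dg γ)) → ℂ) (γ : Box b) :
    taylor p.x (act (tz b p.z) (Big_th p c) γ) = Big_g p c γ := by
  rw [Big_th_eq, Big_act_forth, sh_apply, taylor_taylor, add_neg_cancel, taylor_zero]

private theorem Big_th_mem_Ve (p : Pt τ) (c : (Σ γ : Box b, Fin (p.m - dg γ)) → ℂ) (e : ℕ)
    (he : p.m ≤ e + 1) : Big_th p c ∈ Ve b e := by
  rw [Big_th_eq]
  refine tz_mem_Ve _ _ _ (Big_sh_mem_Ve _ _ _ ?_)
  intro γ j hj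
  rw [Big_g_coeff, dif_neg]
  omega

private theorem Big_th_van (p : Pt τ) (c : (Σ γ : Box b, Fin (p.m - dg γ)) → ℂ)
    (h : Big_th p c ∈ van b p) : c = 0 := by
  funext i
  obtain ⟨γ, i⟩ := i
  have h1 := (van_iff p _).mp h γ i (by have := i.2; omega)
  rw [Big_th_taylor, Big_g_coeff, dif_pos i.2] at h1
  exact h1

private theorem Big_smul_van (q : ℂ[X]) (p : Pt τ) (hq : (X - C p.x) ^ p.m ∣ q) (F : V b) :
    q • F ∈ van b p := by
  intro γ
  rw [map_smul, Pi.smul_apply, smul_eq_mul]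
  exact Dvd.dvd.mul_right ((pow_dvd_pow _ (Nat.sub_le _ _)).trans hq) _

omit [DecidableEq τ] in
private theorem Big_smul_Ve (q : ℂ[X]) (e k : ℕ) (hq : q.natDegree ≤ k) (F : V b)
    (hF : F ∈ Ve b e) : q • F ∈ Ve b (e + k) := by
  intro γ j hj
  rw [Pi.smul_apply, smul_eq_mul, coeff_mul]
  refine Finset.sum_eq_zero fun x hx => ?_
  replace hx := Finset.HasAntidiagonal.mem_antidiagonal.mp hx
  by_cases h : k < x.1
  · rw [coeff_eq_zero_of_natDegree_lt (lt_of_le_of_lt hq h), zero_mul]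
  · rw [hF γ x.2 (by omega), mul_zero]

/-- One more point. -/
private theorem Big_step (p : Pt τ) (L : List (Pt τ)) (q : ℂ[X]) (hq0 : q.eval p.x ≠ 0)
    (hq : ∀ p' ∈ L, (X - C p'.x) ^ p'.m ∣ q) (e : ℕ) (he : q.natDegree + p.m ≤ e) :
    h0 b e (p :: L) + Lm b p.m ≤ h0 b e L := by
  classical
  have := Big_finite (b := b) e L
  have := Big_finite (b := b) e (p :: L)
  have hmem : ∀ c : (Σ γ : Box b, Fin (p.m - dg γ)) → ℂ, q • Big_th p c ∈ Sol b e L := by
    intro c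
    refine mem_Sol.mpr ⟨?_, ?_⟩
    · have h1 := Big_smul_Ve q (e - q.natDegree) q.natDegree le_rfl (Big_th p c)
        (Big_th_mem_Ve p c _ (by omega))
      rwa [Nat.sub_add_cancel (by omega)] at h1
    · intro p' hp'
      exact Big_smul_van q p' (hq p' hp') _
  have hsub : ∀ F : V b, F ∈ Sol b e (p :: L) → F ∈ Sol b e L := by
    intro F hF
    refine mem_Sol.mpr ⟨(mem_Sol.mp hF).1, ?_⟩
    intro p' hp'
    exact (mem_vanL.mp (mem_Sol.mp hF).2) p' (List.mem_cons_of_mem _ hp')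
  let f1 : Sol b e (p :: L) →ₗ[ℂ] Sol b e L :=
    LinearMap.codRestrict _ (Sol b e (p :: L)).subtype fun F => hsub F F.2
  let f2 : ((Σ γ : Box b, Fin (p.m - dg γ)) → ℂ) →ₗ[ℂ] Sol b e L :=
    LinearMap.codRestrict _ (((LinearMap.lsmul ℂ[X] (V b) q).restrictScalars ℂ) ∘ₗ Big_th p)
      fun c => hmem c
  let f : (Sol b e (p :: L) × ((Σ γ : Box b, Fin (p.m - dg γ)) → ℂ)) →ₗ[ℂ] Sol b e L :=
    LinearMap.coprod f1 f2
  have hf : Function.Injective f := by
    rw [← LinearMap.ker_eq_bot, LinearMap.ker_eq_bot']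
    rintro ⟨F, c⟩ h
    have h1 : (F : V b) + q • Big_th p c = 0 := congrArg Subtype.val h
    have h2 : (F : V b) ∈ van b p :=
      (mem_vanL.mp (mem_Sol.mp F.2).2) p List.mem_cons_self
    have h3 : q • Big_th p c ∈ van b p := by
      have h4 : q • Big_th p c = -(F : V b) := by
        rw [eq_neg_iff_add_eq_zero, add_comm]; exact h1
      rw [h4]
      exact (van b p).neg_mem h2
    have h5 : c = 0 := Big_th_van p c (van_unit p q hq0 _ h3)
    have h6 : (F : V b) = 0 := by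
      rw [h5, map_zero, smul_zero, add_zero] at h1
      exact h1
    refine Prod.ext (Subtype.ext h6) h5
  have h1 := LinearMap.finrank_le_finrank_of_injective hf
  rw [Module.finrank_prod, Module.finrank_fintype_fun_eq_card, Fintype.card_sigma] at h1
  simp only [Fintype.card_fin] at h1
  unfold h0 Lm
  exact h1

omit [Fintype τ] [DecidableEq τ] in
private theorem Big_prod (L : List (Pt τ)) :
    ∃ q : ℂ[X], (∀ p' ∈ L, (X - C p'.x) ^ p'.m ∣ q) ∧
      ∀ x : ℂ, x ∉ L.map Pt.x → q.eval x ≠ 0 := by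
  induction L with
  | nil => exact ⟨1, by simp, by simp⟩
  | cons p L ih =>
    obtain ⟨q, h1, h2⟩ := ih
    refine ⟨(X - C p.x) ^ p.m * q, ?_, ?_⟩
    · intro p' hp'
      rcases List.mem_cons.mp hp' with h | h
      · rw [h]; exact dvd_mul_right _ _
      · exact Dvd.dvd.mul_left (h1 p' h) _
    · intro x hx
      rw [List.map_cons, List.mem_cons, not_or] at hx
      rw [eval_mul, eval_pow, eval_sub, eval_X, eval_C]
      exact mul_ne_zero (pow_ne_zero _ (sub_ne_zero.mpr hx.1)) (h2 x hx.2)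

theorem big (L : List (Pt τ)) (hd : (L.map Pt.x).Nodup) :
    ∃ e₀, ∀ e, e₀ ≤ e → h0 b e L + cL b L ≤ Lm b (e + 1) := by
  induction L with
  | nil =>
    refine ⟨Bs b, fun e he => ?_⟩
    have h1 := big_one (b := b) (⟨0, 0, 0⟩ : Pt τ) e (by simpa using Nat.le_succ_of_le he)
    have h2 : Sol b e ([] : List (Pt τ)) = Sol b e [(⟨0, 0, 0⟩ : Pt τ)] := by
      ext F
      rw [mem_Sol, mem_Sol]
      refine and_congr_right fun _ => ⟨fun _ => ?_, fun _ => ?_⟩
      · intro q hq γ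
        rw [List.mem_singleton.mp hq]
        simp
      · intro q hq
        exact absurd hq List.not_mem_nil
    have h3 : h0 b e ([] : List (Pt τ)) = h0 b e [(⟨0, 0, 0⟩ : Pt τ)] := by
      unfold h0
      rw [h2]
    have h4 : cL b ([] : List (Pt τ)) = 0 := rfl
    rw [h3, h4]
    omega
  | cons p L ih =>
    rw [List.map_cons, List.nodup_cons] at hd
    obtain ⟨e₀, h⟩ := ih hd.2
    obtain ⟨q, h1, h2⟩ := Big_prod L
    refine ⟨max e₀ (q.natDegree + p.m), fun e he => ?_⟩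
    have h3 := h e (le_trans (le_max_left _ _) he)
    have h4 := Big_step (b := b) p L q (h2 p.x hd.1) h1 e (le_trans (le_max_right _ _) he)
    have h5 : cL b (p :: L) = Lm b p.m + cL b L := by
      unfold cL
      rw [List.map_cons, List.sum_cons]
    rw [h5]
    omega

end Pool.Agent.H18.Tl
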