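import Pool.Agent.H18.Tl.ShB

/-!
# Module Loc (TL): the local form of `Φ` at a point of the block

`loc`: the column `β` of `Φ` vanishes at `⟨μ, 0, 0⟩`, so `X^(μ - dg γ) ∣ Φ γ β` (`van_zero_iff`, `C 0 = 0`); this defines `H`.
`det ≠ 0`: otherwise `(ev H 0).mulVec w = 0` with `w ≠ 0` (`Matrix.exists_mulVec_eq_zero_iff`); `H.mulVec (cv w)` vanishes at `0`, so it
is `X • g`; `G γ = X^(μ - dg γ) * g γ` satisfies `X • G = Φ.mulVec (cv w)` (`Ph.comb`), so `G ∈ U b a`, `G` vanishes at the point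
`⟨μ, 0, 0⟩` (`van_zero_iff`) and at the points of `L₀` (`vanL_unit` with `q = X`: their `x` are `≠ 0` by `h.dist`), so `G = 0`, and
`Φ.mulVec (cv w) = 0`, `w = 0` (top coefficient).

`exists_orig`: take the first point `p` of `L`, `shL (-p.x)`, `tzL (-p.z)` (`Blk.sh`, `Blk.tz`).
-/

namespace Pool.Agent.H18.Tl

open Finset Polynomial

variable {τ : Type} [Fintype τ] [DecidableEq τ] {b : τ → ℕ} {μ a : ℕ} {L₀ : List (Pt τ)}
  {Φ : Matrix (Box b) (Box b) ℂ[X]}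

theorem Blk.ne_zero (h : Blk b μ a (⟨μ, 0, 0⟩ :: L₀)) : ∀ p ∈ L₀, p.x ≠ 0 := by
  intro p hp h0
  have h1 := h.dist
  rw [List.map_cons, List.nodup_cons] at h1
  apply h1.1
  rw [List.mem_map]
  exact ⟨p, hp, h0⟩

theorem loc (h : Blk b μ a (⟨μ, 0, 0⟩ :: L₀)) (hΦ : Ph b a (⟨μ, 0, 0⟩ :: L₀) Φ) :
    ∃ H : Matrix (Box b) (Box b) ℂ[X], (∀ γ β, Φ γ β = X ^ (μ - dg γ) * H γ β) ∧
      (ev H 0).det ≠ 0 := by
  have hdv : ∀ γ β, X ^ (μ - dg γ) ∣ Φ γ β := by
    intro γ β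
    have h1 := hΦ.van β ⟨μ, 0, 0⟩ (List.mem_cons_self ..)
    have h2 := (van_zero_iff μ 0 _).1 h1 γ
    simpa using h2
  choose H hH using hdv
  refine ⟨fun γ β => H γ β, hH, ?_⟩
  intro hdet
  obtain ⟨w, hw0, hw⟩ := Matrix.exists_mulVec_eq_zero_iff.2 hdet
  have hK : ∀ γ, X ∣ ∑ β, H γ β * C (w β) := by
    intro γ
    rw [X_dvd_iff, coeff_zero_eq_eval_zero, eval_finsetSum]
    simpa [ev, Matrix.mulVec, dotProduct] using congrFun hw γ
  choose g hg using hK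
  set G : V b := fun γ => X ^ (μ - dg γ) * g γ with hG
  have hGX : (X : ℂ[X]) • G = Φ.mulVec (cv w) := by
    funext γ
    have e1 : Φ.mulVec (cv w) γ = ∑ β, Φ γ β * C (w β) := rfl
    rw [e1, Pi.smul_apply, smul_eq_mul, hG]
    have e2 : ∑ β, Φ γ β * C (w β) = X ^ (μ - dg γ) * ∑ β, H γ β * C (w β) := by
      rw [Finset.mul_sum]
      refine Finset.sum_congr rfl fun β _ => ?_
      rw [hH γ β]
      ring
    rw [e2, hg γ]
    ring
  obtain ⟨c1, c2, c3, -⟩ := hΦ.comb w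
  have hGU : G ∈ U b a := by
    intro β j hj
    have h3 : (Φ.mulVec (cv w) β).coeff (j + 1) = 0 := c2 β (j + 1) (by omega)
    rw [← hGX, Pi.smul_apply, smul_eq_mul, coeff_X_mul] at h3
    exact h3
  have hGv : G ∈ vanL b (⟨μ, 0, 0⟩ :: L₀) := by
    intro p hp
    rcases List.mem_cons.1 hp with rfl | hp
    · rw [van_zero_iff]
      intro γ
      rw [C_0, sub_zero, hG]
      exact dvd_mul_right _ _
    · refine vanL_unit L₀ X (fun q hq => ?_) G (fun q hq => ?_) p hp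
      · rw [eval_X]
        exact h.ne_zero q hq
      · rw [hGX]
        exact c1 q (List.mem_cons_of_mem _ hq)
  have hG0 := h.inj G hGU hGv
  apply hw0
  funext β
  have h4 := c3 β
  rw [← hGX, hG0, smul_zero] at h4
  simpa using h4.symm

/-- There is a block with the same number of points, one of them at the origin. -/
theorem exists_orig (hex : ∃ a L, Blk b μ a L ∧ L ≠ []) :
    ∃ a L₀, Blk b μ a (⟨μ, 0, 0⟩ :: L₀) := by
  obtain ⟨a, L, h, hL⟩ := hex
  cases L with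
  | nil => exact absurd rfl hL
  | cons p L' =>
    have h1 := (h.sh (-p.x)).tz (-p.z)
    have h2 : p.m = μ := h.mult p (List.mem_cons_self ..)
    refine ⟨a, tzL (-p.z) (shL (-p.x) L'), ?_⟩
    have h3 : tzL (-p.z) (shL (-p.x) (p :: L')) =
        (⟨μ, 0, 0⟩ : Pt τ) :: tzL (-p.z) (shL (-p.x) L') := by
      simp only [tzL, shL, List.map_cons, add_neg_cancel, h2]
    rw [h3] at h1
    exact h1

end Pool.Agent.H18.Tl
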