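import Pool.Agent.H18.Tl.Mx
import Pool.Agent.H18.Tl.Loc

/-!
# Module CaseA (TL): a matrix of rank one

Let `Φ γ β = X^(μ - dg γ) H γ β` (`loc`), `R = H.adjugate`, `P γ β = C (Y γ β) * X^(μ - (μ - dg γ) + (μ - dg β))` (polynomial, since
`μ - dg γ ≤ μ`), `Q = R * P * H`.  For all `x` different from `0` and the `p.x` the matrix `ev Φ x` is invertible and
`ev Φ x * ev Q x = x^μ det(ev H x) • (Y * ev Φ x)` (`ev Φ x = Λ ev H x`, `Λ` diagonal with entries `x^(μ - dg γ)`, `Λ * ev P x = x^μ • (Y * Λ)`,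
`ev H x * ev R x = det (ev H x) • 1`).  So `ev Q x ∈ D` (`Mxl.adx` for `Y' = x^μ det(ev H x) • Y`).  By `mem_of_poly` (coefficients `cf Q k`)
`cf Q 0 = ev Q 0 ∈ D`.  `ev P 0 γ β = Y γ β` if `μ - (μ - dg γ) + (μ - dg β) = 0`, i.e. `γ = zb b` (`dg γ = 0`) and `μ ≤ dg β`, and `0` otherwise; so
`ev P 0 = vecMulVec (Pi.single (zb b) 1) y`, `y β = Y (zb b) β` if `μ ≤ dg β`, else `0`; `y ≠ 0`; and
`ev Q 0 = vecMulVec (adj(ev H 0) e_0) (y ᵥ* ev H 0)`; both vectors are not zero since `det (ev H 0) ≠ 0`.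

`ev_mem`: the evaluation of a polynomial matrix at almost all points is in `D` implies that the coefficients are in `D`.
-/

namespace Pool.Agent.H18.Tl

open Finset Polynomial Matrix

variable {τ : Type} [Fintype τ] [DecidableEq τ] {b : τ → ℕ} {μ a : ℕ} {L₀ : List (Pt τ)}

theorem cf_mem_of_ev (D : Submodule ℂ (Mt b)) (Q : Matrix (Box b) (Box b) ℂ[X]) (T : Set ℂ)
    (hT : T.Finite) (h : ∀ x : ℂ, x ∉ T → ev Q x ∈ D) (k : ℕ) : cf Q k ∈ D := by
  have hdeg : ∀ γ β : Box b,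
      (Q γ β).natDegree < k + 1 + ∑ γ' : Box b, ∑ β' : Box b, (Q γ' β').natDegree := by
    intro γ β
    have h1 : (Q γ β).natDegree ≤ ∑ β' : Box b, (Q γ β').natDegree :=
      Finset.single_le_sum (f := fun β' => (Q γ β').natDegree) (fun _ _ => Nat.zero_le _)
        (Finset.mem_univ β)
    have h2 : ∑ β' : Box b, (Q γ β').natDegree ≤
        ∑ γ' : Box b, ∑ β' : Box b, (Q γ' β').natDegree :=
      Finset.single_le_sum (f := fun γ' => ∑ β' : Box b, (Q γ' β').natDegree)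
        (fun _ _ => Nat.zero_le _) (Finset.mem_univ γ)
    omega
  refine mem_of_poly D (k + 1 + ∑ γ' : Box b, ∑ β' : Box b, (Q γ' β').natDegree)
    (fun j => cf Q j) T hT ?_ k (by omega)
  intro δ hδ
  have heq : ∑ j ∈ range (k + 1 + ∑ γ' : Box b, ∑ β' : Box b, (Q γ' β').natDegree),
      δ ^ j • cf Q j = ev Q δ := by
    ext γ β
    rw [Matrix.sum_apply]
    simp only [Matrix.smul_apply, cf, ev, smul_eq_mul]
    rw [Polynomial.eval_eq_sum_range' (hdeg γ β)]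
    exact Finset.sum_congr rfl fun j _ => mul_comm _ _
  rw [heq]
  exact h δ hδ

private theorem CaseA_ev_mul (A B : Matrix (Box b) (Box b) ℂ[X]) (x : ℂ) :
    ev (A * B) x = ev A x * ev B x :=
  map_mul (evalRingHom x).mapMatrix A B

private theorem CaseA_ev_adj (A : Matrix (Box b) (Box b) ℂ[X]) (x : ℂ) :
    ev A.adjugate x = (ev A x).adjugate :=
  (evalRingHom x).map_adjugate A

/-- The conjugated matrix multiplied by the powers of `t`. -/
private noncomputable def CaseA_P (μ : ℕ) (Y : Mt b) : Matrix (Box b) (Box b) ℂ[X] :=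
  fun γ β => C (Y γ β) * X ^ (μ - (μ - dg γ) + (μ - dg β))

private theorem CaseA_conj (Φ H : Matrix (Box b) (Box b) ℂ[X])
    (hH : ∀ γ β, Φ γ β = X ^ (μ - dg γ) * H γ β) (Y : Mt b) (x : ℂ) :
    ev Φ x * ev (H.adjugate * CaseA_P μ Y * H) x =
      ((x ^ μ * (ev H x).det) • Y) * ev Φ x := by
  have h1 : ev Φ x = Matrix.diagonal (fun γ : Box b => x ^ (μ - dg γ)) * ev H x := by
    ext γ β
    rw [Matrix.diagonal_mul]
    simp only [ev, hH γ β, eval_mul, eval_pow, eval_X]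
  have h2 : Matrix.diagonal (fun γ : Box b => x ^ (μ - dg γ)) * ev (CaseA_P μ Y) x =
      (x ^ μ) • (Y * Matrix.diagonal (fun γ : Box b => x ^ (μ - dg γ))) := by
    ext γ β
    rw [Matrix.diagonal_mul, Matrix.smul_apply, Matrix.mul_diagonal]
    simp only [ev, CaseA_P, eval_mul, eval_pow, eval_X, eval_C, smul_eq_mul]
    have h3 : x ^ (μ - dg γ) * (Y γ β * x ^ (μ - (μ - dg γ) + (μ - dg β))) =
        Y γ β * x ^ ((μ - dg γ) + (μ - (μ - dg γ) + (μ - dg β))) := by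
      rw [pow_add x (μ - dg γ)]
      ring
    have h4 : (μ - dg γ) + (μ - (μ - dg γ) + (μ - dg β)) = μ + (μ - dg β) := by omega
    rw [h3, h4, pow_add]
    ring
  rw [CaseA_ev_mul, CaseA_ev_mul, CaseA_ev_adj, h1]
  calc Matrix.diagonal (fun γ : Box b => x ^ (μ - dg γ)) * ev H x *
        ((ev H x).adjugate * ev (CaseA_P μ Y) x * ev H x)
      = Matrix.diagonal (fun γ : Box b => x ^ (μ - dg γ)) * (ev H x * (ev H x).adjugate) *
        ev (CaseA_P μ Y) x * ev H x := by simp only [Matrix.mul_assoc]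
    _ = (ev H x).det • ((Matrix.diagonal (fun γ : Box b => x ^ (μ - dg γ)) *
        ev (CaseA_P μ Y) x) * ev H x) := by
          rw [Matrix.mul_adjugate, Matrix.mul_smul, Matrix.mul_one, Matrix.smul_mul,
            Matrix.smul_mul]
    _ = (ev H x).det • (((x ^ μ) • (Y * Matrix.diagonal (fun γ : Box b => x ^ (μ - dg γ)))) *
        ev H x) := by rw [h2]
    _ = ((x ^ μ * (ev H x).det) • Y) *
        (Matrix.diagonal (fun γ : Box b => x ^ (μ - dg γ)) * ev H x) := by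
          rw [Matrix.smul_mul, Matrix.smul_mul, smul_smul, mul_comm ((ev H x).det),
            Matrix.mul_assoc]

private theorem CaseA_dg_eq_zero (γ : Box b) (h : dg γ = 0) : γ = zb b := by
  funext l
  have h1 := (Finset.sum_eq_zero_iff.mp h) l (Finset.mem_univ l)
  exact Fin.ext h1

private theorem CaseA_dg_zb : dg (zb b) = 0 := by
  simp [dg, zb]

private theorem CaseA_P_zero (hμ : 1 ≤ μ) (Y : Mt b) :
    ev (CaseA_P μ Y) 0 = vecMulVec (Pi.single (zb b) 1 : Box b → ℂ)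
      (fun β => if μ ≤ dg β then Y (zb b) β else 0) := by
  ext γ β
  rw [vecMulVec_apply]
  simp only [ev, CaseA_P, eval_mul, eval_pow, eval_X, eval_C]
  by_cases hγ : γ = zb b
  · subst hγ
    rw [Pi.single_eq_same, one_mul, CaseA_dg_zb]
    by_cases hβ : μ ≤ dg β
    · rw [if_pos hβ]
      have h1 : μ - (μ - 0) + (μ - dg β) = 0 := by omega
      rw [h1, pow_zero, mul_one]
    · rw [if_neg hβ]
      have h1 : μ - (μ - 0) + (μ - dg β) ≠ 0 := by omega
      rw [zero_pow h1, mul_zero]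
  · have h0 : dg γ ≠ 0 := fun h => hγ (CaseA_dg_eq_zero γ h)
    rw [Pi.single_eq_of_ne hγ, zero_mul]
    have h1 : μ - (μ - dg γ) + (μ - dg β) ≠ 0 := by omega
    rw [zero_pow h1, mul_zero]

theorem caseA {D : Submodule ℂ (Mt b)} (hD : Mxl b μ D) (hμ : 1 ≤ μ)
    (h : Blk b μ a (⟨μ, 0, 0⟩ :: L₀)) (Y : Mt b) (hY : Y ∈ D) (β : Box b) (hβ : μ ≤ dg β)
    (hβ' : Y (zb b) β ≠ 0) : ∃ v ξ : Box b → ℂ, v ≠ 0 ∧ ξ ≠ 0 ∧ vecMulVec v ξ ∈ D := by
  obtain ⟨Φ, hΦ⟩ := exists_ph h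
  obtain ⟨H, hH, hdet⟩ := loc h hΦ
  have hfin : ({x : ℂ | ∃ p ∈ ((⟨μ, 0, 0⟩ : Pt τ) :: L₀), p.x = x} : Set ℂ).Finite := by
    have h1 : ({x : ℂ | ∃ p ∈ ((⟨μ, 0, 0⟩ : Pt τ) :: L₀), p.x = x} : Set ℂ) =
        {x : ℂ | x ∈ (((⟨μ, 0, 0⟩ : Pt τ) :: L₀).map Pt.x)} := by
      ext x
      simp only [Set.mem_setOf_eq, List.mem_map]
    rw [h1]
    exact List.finite_toSet _
  have hmem : cf (H.adjugate * CaseA_P μ Y * H) 0 ∈ D := by
    refine cf_mem_of_ev D _ _ hfin ?_ 0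
    intro x hx
    have hx' : ∀ p ∈ ((⟨μ, 0, 0⟩ : Pt τ) :: L₀), p.x ≠ x := fun p hp h1 => hx ⟨p, hp, h1⟩
    exact hD.adx h hΦ (List.cons_ne_nil _ _) x hx' _
      (D.smul_mem (x ^ μ * (ev H x).det) hY) _ (CaseA_conj Φ H hH Y x)
  have hcf : cf (H.adjugate * CaseA_P μ Y * H) 0 = ev (H.adjugate * CaseA_P μ Y * H) 0 := by
    ext γ β
    simp only [cf, ev, coeff_zero_eq_eval_zero]
  rw [hcf, CaseA_ev_mul, CaseA_ev_mul, CaseA_ev_adj, CaseA_P_zero hμ Y,
    Matrix.mul_vecMulVec, Matrix.vecMulVec_mul] at hmem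
  refine ⟨_, _, ?_, ?_, hmem⟩
  · intro h1
    have h2 : (ev H 0).mulVec ((ev H 0).adjugate.mulVec (Pi.single (zb b) 1 : Box b → ℂ)) = 0 := by
      rw [h1, Matrix.mulVec_zero]
    rw [Matrix.mulVec_mulVec, Matrix.mul_adjugate, Matrix.smul_mulVec, Matrix.one_mulVec] at h2
    have h3 := congrFun h2 (zb b)
    rw [Pi.smul_apply, Pi.single_eq_same, smul_eq_mul, mul_one] at h3
    exact hdet h3
  · intro h1
    have h2 : ((fun β : Box b => if μ ≤ dg β then Y (zb b) β else 0) ᵥ* ev H 0) ᵥ*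
        (ev H 0).adjugate = 0 := by
      rw [h1, Matrix.zero_vecMul]
    rw [Matrix.vecMul_vecMul, Matrix.mul_adjugate, Matrix.vecMul_smul, Matrix.vecMul_one] at h2
    have h3 := congrFun h2 β
    rw [Pi.smul_apply, smul_eq_mul, if_pos hβ] at h3
    exact (mul_ne_zero hdet hβ') h3

end Pool.Agent.H18.Tl
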