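import Pool.Agent.H18.Tl.Rv

/-!
# Module Orb (TL): orbits

`common`: the polynomials `∑_κ a κ ∏ X_l^(κ_l)` (`MvPolynomial.monomial`, different exponents for different `κ`) are not zero,
so their product is not zero and has a non-root (`MvPolynomial.funext`).

`(tz b c').mulVec v` at `zb b` is `∑_β v β ∏ c'_l^(β_l)`.  The vector `u = (rv b * tz b c').mulVec v` has this value at the exponent `b`
(`rb (zb b)`).  For any `ψ`, `u`: `ψ ⬝ᵥ (tz b c).mulVec u = ∑_κ A κ ∏ c_l^(κ_l)`, `A κ = ∑_{γ, γ + κ ≤ b} ψ γ (∏ binom(γ_l + κ_l, γ_l)) u (γ + κ)`.  If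
`ψ ≠ 0` and `u (rb (zb b)) ≠ 0`, then `A ≠ 0`: let `γ*` be an exponent with `ψ γ* ≠ 0` and `dg γ*` minimal, `κ = rb γ*`; in `A κ` only the
`γ ≤ γ*` occur, so only `γ = γ*`: `A κ = ψ γ* binom(b, γ*) u b ≠ 0`.  If `ψ (zb b) ≠ 0` and `u ≠ 0`, then `A ≠ 0`: let `κ` be an
exponent with `u κ ≠ 0` and `dg κ` maximal: only `γ = 0` contributes (for `γ ≠ 0` the exponent `γ + κ` has a larger degree).
`orb`: choose `c'` with `((tz b c').mulVec v) (zb b) ≠ 0` and `ξ ᵥ* tz b (-c') * rv b` not `0` at `zb b`: the latter is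
`∑_γ ξ γ (tz b (-c')) γ (rb (zb b)) = ∑_γ ξ γ binom(b, γ) ∏ (-c'_l)^(b_l - γ_l)`, a nonzero polynomial in `c'` (`common` with
`a κ = ± ξ (rb κ) binom(b, rb κ)`).  Then choose `c` by `common` for the two families `A`, the second one at `-c` (sign `(-1)^(dg κ)`).
`orb2`: choose `c'` for `v`, then `c` by `common` for `ψ₁`, `ψ₂` and `u`.
-/

namespace Pool.Agent.H18.Tl

open Finset Polynomial Matrix

variable {τ : Type} [Fintype τ] [DecidableEq τ] {b : τ → ℕ}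

/-- the exponent of a box as a finitely supported function -/
private noncomputable def Orb_e (κ : Box b) : τ →₀ ℕ :=
  Finsupp.equivFunOnFinite.symm fun l => (κ l : ℕ)

omit [DecidableEq τ] in
private theorem Orb_e_inj (κ κ' : Box b) (h : Orb_e κ = Orb_e κ') : κ = κ' := by
  funext l
  have h1 := DFunLike.congr_fun h l
  exact Fin.ext h1

/-- the polynomial with the coefficients `A` -/
private noncomputable def Orb_p (A : Box b → ℂ) : MvPolynomial τ ℂ :=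
  ∑ κ, MvPolynomial.monomial (Orb_e κ) (A κ)

private theorem Orb_p_eval (A : Box b → ℂ) (c : τ → ℂ) :
    MvPolynomial.eval c (Orb_p A) = ∑ κ, A κ * ∏ l, c l ^ (κ l : ℕ) := by
  unfold Orb_p
  rw [map_sum]
  refine Finset.sum_congr rfl fun κ _ => ?_
  rw [MvPolynomial.eval_monomial, Finsupp.prod_fintype _ _ (fun i => pow_zero _)]
  rfl

private theorem Orb_p_ne (A : Box b → ℂ) (hA : A ≠ 0) : Orb_p A ≠ 0 := by
  obtain ⟨κ, hκ⟩ := Function.ne_iff.mp hA
  intro h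
  apply hκ
  have h1 : (Orb_p A).coeff (Orb_e κ) = A κ := by
    classical
    unfold Orb_p
    rw [MvPolynomial.coeff_sum, Finset.sum_eq_single κ]
    · rw [MvPolynomial.coeff_monomial, if_pos rfl]
    · intro κ' _ hne
      rw [MvPolynomial.coeff_monomial, if_neg]
      intro h2
      exact hne (Orb_e_inj _ _ h2)
    · intro h2
      exact absurd (Finset.mem_univ κ) h2
  rw [← h1, h]
  rfl

theorem common (A A' : Box b → ℂ) (hA : A ≠ 0) (hA' : A' ≠ 0) :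
    ∃ c : τ → ℂ, ∑ κ, A κ * ∏ l, c l ^ (κ l : ℕ) ≠ 0 ∧ ∑ κ, A' κ * ∏ l, c l ^ (κ l : ℕ) ≠ 0 := by
  have h := mul_ne_zero (Orb_p_ne A hA) (Orb_p_ne A' hA')
  by_contra hc
  push Not at hc
  apply h
  refine MvPolynomial.funext fun c => ?_
  rw [map_mul, Orb_p_eval, Orb_p_eval, map_zero]
  by_cases h1 : ∑ κ, A κ * ∏ l, c l ^ (κ l : ℕ) = 0
  · rw [h1, zero_mul]
  · rw [hc c h1, mul_zero]

/-- the coefficients of the polynomial `c ↦ ψ ⬝ᵥ (tz b c).mulVec u` -/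
private noncomputable def Orb_A (ψ u : Box b → ℂ) (κ : Box b) : ℂ :=
  ∑ γ : Box b, ∑ β : Box b, if ∀ l, (γ l : ℕ) + κ l = β l then
    ψ γ * (∏ l, (((β l : ℕ).choose (γ l : ℕ) : ℕ) : ℂ)) * u β else 0

private theorem Orb_A_eq (ψ u : Box b → ℂ) (c : τ → ℂ) :
    ψ ⬝ᵥ (tz b c).mulVec u = ∑ κ, Orb_A ψ u κ * ∏ l, c l ^ (κ l : ℕ) := by
  have h1 : ∀ γ β : Box b, ψ γ * (tz b c γ β * u β) =
      ∑ κ : Box b, (if ∀ l, (γ l : ℕ) + κ l = β l then
        ψ γ * (∏ l, (((β l : ℕ).choose (γ l : ℕ) : ℕ) : ℂ)) * u β else 0) *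
          ∏ l, c l ^ (κ l : ℕ) := by
    intro γ β
    by_cases h : ∀ l, (γ l : ℕ) ≤ β l
    · have hb : ∀ l, (β l : ℕ) - (γ l : ℕ) < b l + 1 := fun l => by
        have := (β l).isLt
        omega
      rw [Finset.sum_eq_single (fun l => (⟨(β l : ℕ) - (γ l : ℕ), hb l⟩ : Fin (b l + 1)))]
      · rw [if_pos (fun l => by
          have := h l
          show (γ l : ℕ) + ((β l : ℕ) - (γ l : ℕ)) = β l
          omega)]
        unfold tz
        rw [Finset.prod_mul_distrib]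
        ring
      · intro κ _ hne
        rw [if_neg, zero_mul]
        intro h2
        apply hne
        funext l
        apply Fin.ext
        have := h2 l
        show (κ l : ℕ) = (β l : ℕ) - (γ l : ℕ)
        omega
      · intro h2
        exact absurd (Finset.mem_univ _) h2
    · rw [tz_eq_zero c γ β h, zero_mul, mul_zero]
      symm
      refine Finset.sum_eq_zero fun κ _ => ?_
      rw [if_neg, zero_mul]
      intro h2
      exact h fun l => by
        have := h2 l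
        omega
  calc ψ ⬝ᵥ (tz b c).mulVec u = ∑ γ, ∑ β, ψ γ * (tz b c γ β * u β) := by
        simp only [dotProduct, mulVec, Finset.mul_sum]
    _ = ∑ γ, ∑ β, ∑ κ : Box b, (if ∀ l, (γ l : ℕ) + κ l = β l then
        ψ γ * (∏ l, (((β l : ℕ).choose (γ l : ℕ) : ℕ) : ℂ)) * u β else 0) *
          ∏ l, c l ^ (κ l : ℕ) :=
        Finset.sum_congr rfl fun γ _ => Finset.sum_congr rfl fun β _ => h1 γ β
    _ = ∑ κ : Box b, ∑ γ, ∑ β, (if ∀ l, (γ l : ℕ) + κ l = β l then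
        ψ γ * (∏ l, (((β l : ℕ).choose (γ l : ℕ) : ℕ) : ℂ)) * u β else 0) *
          ∏ l, c l ^ (κ l : ℕ) := by
        rw [Finset.sum_congr rfl fun (γ : Box b) _ => Finset.sum_comm]
        exact Finset.sum_comm
    _ = _ := by
        refine Finset.sum_congr rfl fun κ _ => ?_
        unfold Orb_A
        rw [Finset.sum_mul]
        exact Finset.sum_congr rfl fun γ _ => (Finset.sum_mul _ _ _).symm

omit [DecidableEq τ] in
private theorem Orb_choose_ne (β γ : Box b) (h : ∀ l, (γ l : ℕ) ≤ β l) :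
    (∏ l, (((β l : ℕ).choose (γ l : ℕ) : ℕ) : ℂ)) ≠ 0 :=
  Finset.prod_ne_zero_iff.mpr fun l _ => Nat.cast_ne_zero.mpr (Nat.choose_pos (h l)).ne'

omit [DecidableEq τ] in
private theorem Orb_dg_lt {γ β : Box b} (h : ∀ l, (γ l : ℕ) ≤ β l) (hne : γ ≠ β) :
    dg γ < dg β := by
  obtain ⟨l, hl⟩ := Function.ne_iff.mp hne
  refine Finset.sum_lt_sum (fun l _ => h l) ⟨l, Finset.mem_univ l, ?_⟩
  exact lt_of_le_of_ne (h l) fun h2 => hl (Fin.ext h2)

private theorem Orb_A_ne1 (ψ u : Box b → ℂ) (hψ : ψ ≠ 0) (hu : u (rb (zb b)) ≠ 0) :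
    Orb_A ψ u ≠ 0 := by
  classical
  obtain ⟨γ₁, hγ₁⟩ := Function.ne_iff.mp hψ
  obtain ⟨γ, hγ, hmin⟩ := Finset.exists_min_image
    (Finset.univ.filter fun γ : Box b => ψ γ ≠ 0) dg ⟨γ₁, by simpa using hγ₁⟩
  have hγ0 : ψ γ ≠ 0 := (Finset.mem_filter.mp hγ).2
  intro h
  have h1 := congrFun h (rb γ)
  have hval : ∀ (δ : Box b) (l : τ), ((rb δ l : Fin (b l + 1)) : ℕ) = b l - δ l := by
    intro δ l
    unfold rb
    rw [Fin.val_rev]
    omega
  have h2 : Orb_A ψ u (rb γ) =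
      ψ γ * (∏ l, ((((rb (zb b) : Box b) l : ℕ).choose (γ l : ℕ) : ℕ) : ℂ)) * u (rb (zb b)) := by
    unfold Orb_A
    rw [Finset.sum_eq_single γ, Finset.sum_eq_single (rb (zb b))]
    · rw [if_pos]
      intro l
      rw [hval, hval]
      have := (γ l).isLt
      show (γ l : ℕ) + (b l - γ l) = b l - 0
      omega
    · intro β _ hne
      rw [if_neg]
      intro h3
      apply hne
      funext l
      apply Fin.ext
      have h4 := h3 l
      rw [hval] at h4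
      rw [hval]
      have := (γ l).isLt
      show (β l : ℕ) = b l - 0
      omega
    · intro h3
      exact absurd (Finset.mem_univ _) h3
    · intro δ _ hne
      refine Finset.sum_eq_zero fun β _ => ?_
      split_ifs with h3
      · have h4 : ∀ l, (δ l : ℕ) ≤ γ l := by
          intro l
          have h5 := h3 l
          rw [hval] at h5
          have h6 := (β l).isLt
          have h7 := (γ l).isLt
          omega
        have h5 := Orb_dg_lt h4 hne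
        have h6 : ψ δ = 0 := by
          by_contra h7
          have h8 := hmin δ (Finset.mem_filter.mpr ⟨Finset.mem_univ _, h7⟩)
          omega
        rw [h6, zero_mul, zero_mul]
      · rfl
    · intro h3
      exact absurd (Finset.mem_univ _) h3
  rw [h2] at h1
  refine mul_ne_zero (mul_ne_zero hγ0 (Orb_choose_ne _ _ fun l => ?_)) hu h1
  rw [hval]
  have := (γ l).isLt
  show (γ l : ℕ) ≤ b l - 0
  omega

private theorem Orb_A_ne2 (ψ u : Box b → ℂ) (hψ : ψ (zb b) ≠ 0) (hu : u ≠ 0) :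
    Orb_A ψ u ≠ 0 := by
  classical
  obtain ⟨κ₁, hκ₁⟩ := Function.ne_iff.mp hu
  obtain ⟨κ, hκ, hmax⟩ := Finset.exists_max_image
    (Finset.univ.filter fun κ : Box b => u κ ≠ 0) dg ⟨κ₁, by simpa using hκ₁⟩
  have hκ0 : u κ ≠ 0 := (Finset.mem_filter.mp hκ).2
  intro h
  have h1 := congrFun h κ
  have hz : ∀ l, ((zb b l : Fin (b l + 1)) : ℕ) = 0 := fun l => rfl
  have h2 : Orb_A ψ u κ = ψ (zb b) * (∏ l, (((κ l : ℕ).choose (zb b l : ℕ) : ℕ) : ℂ)) * u κ := by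
    unfold Orb_A
    rw [Finset.sum_eq_single (zb b), Finset.sum_eq_single κ]
    · rw [if_pos]
      intro l
      rw [hz, zero_add]
    · intro β _ hne
      rw [if_neg]
      intro h3
      apply hne
      funext l
      apply Fin.ext
      have h4 := h3 l
      rw [hz, zero_add] at h4
      exact h4.symm
    · intro h3
      exact absurd (Finset.mem_univ _) h3
    · intro δ _ hne
      refine Finset.sum_eq_zero fun β _ => ?_
      split_ifs with h3
      · have h4 : ∀ l, (κ l : ℕ) ≤ β l := fun l => by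
          have := h3 l
          omega
        have h5 : κ ≠ β := by
          rintro rfl
          apply hne
          funext l
          apply Fin.ext
          have := h3 l
          rw [hz]
          omega
        have h6 := Orb_dg_lt h4 h5
        have h7 : u β = 0 := by
          by_contra h8
          have h9 := hmax β (Finset.mem_filter.mpr ⟨Finset.mem_univ _, h8⟩)
          omega
        rw [h7, mul_zero]
      · rfl
    · intro h3
      exact absurd (Finset.mem_univ _) h3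
  rw [h2] at h1
  refine mul_ne_zero (mul_ne_zero hψ (Orb_choose_ne _ _ fun l => ?_)) hκ0 h1
  rw [hz]
  exact Nat.zero_le _

private theorem Orb_neg (A : Box b → ℂ) (c : τ → ℂ) :
    ∑ κ, A κ * ∏ l, (-c) l ^ (κ l : ℕ) =
      ∑ κ, (A κ * ∏ l, (-1 : ℂ) ^ (κ l : ℕ)) * ∏ l, c l ^ (κ l : ℕ) := by
  refine Finset.sum_congr rfl fun κ _ => ?_
  rw [mul_assoc, ← Finset.prod_mul_distrib]
  congr 1
  refine Finset.prod_congr rfl fun l _ => ?_
  rw [Pi.neg_apply, neg_pow]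

omit [DecidableEq τ] in
private theorem Orb_neg_ne (A : Box b → ℂ) (hA : A ≠ 0) :
    (fun κ : Box b => A κ * ∏ l, (-1 : ℂ) ^ (κ l : ℕ)) ≠ 0 := by
  obtain ⟨κ, hκ⟩ := Function.ne_iff.mp hA
  refine Function.ne_iff.mpr ⟨κ, mul_ne_zero hκ (Finset.prod_ne_zero_iff.mpr fun l _ => ?_)⟩
  exact pow_ne_zero _ (neg_ne_zero.mpr one_ne_zero)

private theorem Orb_v (v : Box b → ℂ) (c : τ → ℂ) :
    (tz b c).mulVec v (zb b) = ∑ κ, v κ * ∏ l, c l ^ (κ l : ℕ) := by
  simp only [mulVec, dotProduct]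
  refine Finset.sum_congr rfl fun κ _ => ?_
  rw [mul_comm]
  congr 1
  unfold tz
  refine Finset.prod_congr rfl fun l _ => ?_
  show ((((κ l : ℕ).choose 0 : ℕ) : ℂ) * c l ^ ((κ l : ℕ) - 0)) = _
  rw [Nat.choose_zero_right, Nat.sub_zero, Nat.cast_one, one_mul]

private theorem Orb_u (v : Box b → ℂ) (c : τ → ℂ) :
    (rv b * tz b c).mulVec v (rb (zb b)) = ∑ κ, v κ * ∏ l, c l ^ (κ l : ℕ) := by
  rw [← mulVec_mulVec, rv_mulVec, rb_rb, Orb_v]

private theorem Orb_xi (ξ : Box b → ℂ) (c : τ → ℂ) :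
    (ξ ᵥ* (tz b c * rv b)) (zb b) = ∑ κ, (ξ (rb κ) *
      ∏ l, ((((rb (zb b) : Box b) l : ℕ).choose ((rb κ : Box b) l : ℕ) : ℕ) : ℂ)) *
        ∏ l, c l ^ (κ l : ℕ) := by
  rw [← vecMul_vecMul]
  have h1 : ∀ (w : Box b → ℂ), (w ᵥ* rv b) (zb b) = w (rb (zb b)) := by
    intro w
    simp only [vecMul, dotProduct, rv, mul_ite, mul_one, mul_zero]
    rw [Finset.sum_ite_eq' Finset.univ, if_pos (Finset.mem_univ _)]
  rw [h1]
  simp only [vecMul, dotProduct]
  rw [← Equiv.sum_comp (Function.Involutive.toPerm rb rb_rb)]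
  refine Finset.sum_congr rfl fun κ _ => ?_
  show ξ (rb κ) * tz b c (rb κ) (rb (zb b)) = _
  rw [mul_assoc]
  congr 1
  unfold tz
  rw [← Finset.prod_mul_distrib]
  refine Finset.prod_congr rfl fun l _ => ?_
  congr 2
  unfold rb
  rw [Fin.val_rev, Fin.val_rev]
  have := (κ l).isLt
  show b l + 1 - (0 + 1) - (b l + 1 - ((κ l : ℕ) + 1)) = κ l
  omega

theorem orb (v w ψ ξ : Box b → ℂ) (hv : v ≠ 0) (hw : w ≠ 0) (hψ : ψ ≠ 0) (hξ : ξ ≠ 0) :
    ∃ c c' : τ → ℂ, ψ ⬝ᵥ (tz b c * rv b * tz b c').mulVec v ≠ 0 ∧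
      ξ ⬝ᵥ (tz b (-c') * rv b * tz b (-c)).mulVec w ≠ 0 := by
  have hv' : ∃ c' : τ → ℂ, ∑ κ, v κ * ∏ l, c' l ^ (κ l : ℕ) ≠ 0 ∧
      (ξ ᵥ* (tz b (-c') * rv b)) (zb b) ≠ 0 := by
    have h1 : (fun κ : Box b => ξ (rb κ) *
        ∏ l, ((((rb (zb b) : Box b) l : ℕ).choose ((rb κ : Box b) l : ℕ) : ℕ) : ℂ)) ≠ 0 := by
      obtain ⟨γ, hγ⟩ := Function.ne_iff.mp hξ
      refine Function.ne_iff.mpr ⟨rb γ, mul_ne_zero ?_ (Orb_choose_ne _ _ fun l => ?_)⟩
      · rw [rb_rb]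
        exact hγ
      · unfold rb
        rw [Fin.val_rev, Fin.val_rev]
        show _ ≤ b l + 1 - (0 + 1)
        omega
    obtain ⟨c', h2, h3⟩ := common v _ hv (Orb_neg_ne _ h1)
    refine ⟨c', h2, ?_⟩
    rw [Orb_xi, Orb_neg]
    exact h3
  obtain ⟨c', h1, h2⟩ := hv'
  have h3 : Orb_A ψ ((rv b * tz b c').mulVec v) ≠ 0 := by
    refine Orb_A_ne1 _ _ hψ ?_
    rw [Orb_u]
    exact h1
  have h4 : Orb_A (ξ ᵥ* (tz b (-c') * rv b)) w ≠ 0 := Orb_A_ne2 _ _ h2 hw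
  obtain ⟨c, h5, h6⟩ := common _ _ h3 (Orb_neg_ne _ h4)
  refine ⟨c, c', ?_, ?_⟩
  · rw [mul_assoc, ← mulVec_mulVec, Orb_A_eq]
    exact h5
  · rw [← mulVec_mulVec, dotProduct_mulVec, Orb_A_eq, Orb_neg]
    exact h6

theorem orb2 (v ψ₁ ψ₂ : Box b → ℂ) (hv : v ≠ 0) (hψ₁ : ψ₁ ≠ 0) (hψ₂ : ψ₂ ≠ 0) :
    ∃ c c' : τ → ℂ, ψ₁ ⬝ᵥ (tz b c * rv b * tz b c').mulVec v ≠ 0 ∧
      ψ₂ ⬝ᵥ (tz b c * rv b * tz b c').mulVec v ≠ 0 := by
  obtain ⟨c', h1, -⟩ := common v v hv hv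
  have h2 : (rv b * tz b c').mulVec v (rb (zb b)) ≠ 0 := by
    rw [Orb_u]
    exact h1
  obtain ⟨c, h3, h4⟩ := common _ _ (Orb_A_ne1 ψ₁ _ hψ₁ h2) (Orb_A_ne1 ψ₂ _ hψ₂ h2)
  refine ⟨c, c', ?_, ?_⟩
  · rw [mul_assoc, ← mulVec_mulVec, Orb_A_eq]
    exact h3
  · rw [mul_assoc, ← mulVec_mulVec, Orb_A_eq]
    exact h4

end Pool.Agent.H18.Tl
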