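import Pool.Agent.H18.Tl.CaseA
import Pool.Agent.H18.Tl.Orb

/-!
# Module CaseB (TL): a common eigenvector

Assume `Y (zb b) β = 0` for all `Y ∈ D`, `μ ≤ dg β`.

`jet`: `(tz b c * Y).mulVec w (zb b) = ∑_β (tz b c * Y * tz b (-c)) (zb b) β * ((tz b c).mulVec w) β`, and the terms with `μ ≤ dg β`
vanish (`hD.tz` for `-c`).  So if `((tz b c).mulVec w) β = 0` for `dg β < μ` …

`kill`: let `Y ∈ D` and let the columns `κ` of `Y` with `Bs b + 1 ≤ dg κ + μ` be zero.  `Z = rv b * Y * rv b ∈ D` has zero columns for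
`dg κ < μ` (`dg (rb κ) = Bs b - dg κ`).  For all `c`, `w`: `(Z.mulVec w)(c) := ((tz b c).mulVec (Z.mulVec w)) (zb b) =
∑_{dg β < μ} (tz b c * Z * tz b (-c)) (zb b) β * ((tz b c).mulVec w) β`, and the column `β`, `dg β < μ`, of `Z * tz b (-c)` is a
combination of the columns `κ ≤ β` of `Z` (`tz_eq_zero`), so it is zero.  So `∑_κ (Z.mulVec w) κ ∏ c_l^(κ_l) = 0` for all `c`, so `Z.mulVec w = 0`
(`common`), `Z = 0`, `Y = 0`.

`caseB`: let `Φ γ β = X^(μ - dg γ) H γ β` (`loc`), `R = H.adjugate`, `Y ∈ D`,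
`Q γ κ = X^((μ - dg γ) + (μ - (μ - dg κ))) * (H * Y.map C * R) γ κ`.  For all `x` different from `0` and the `p.x`:
`ev Q x * ev Φ x = x^μ det(ev H x) • (ev Φ x * Y)`, so `ev Q x ∈ D` (`Mxl.adx'`), so `cf Q k ∈ D` (`cf_mem_of_ev`).  The columns `κ` with
`μ ≤ dg κ` of `Q` are divisible by `X^μ`; they include the columns with `Bs b + 1 ≤ dg κ + μ` since `2 μ ≤ Bs b + 1`.  By `kill`,
`cf Q k = 0` for `k < μ`.  The column `zb b`: `X^(μ - dg γ) * N γ (zb b)`, `N = H * Y.map C * R`; for `γ ≠ zb b` we have `μ - dg γ < μ`, so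
`(N γ (zb b)).coeff 0 = 0`: `ev N 0 = ev H 0 * Y * adj(ev H 0)` maps `e_0` to a multiple of `e_0`.  So `u = adj(ev H 0) e_0 ≠ 0` satisfies
`ev H 0 (Y u) = χ e_0`, and `ev H 0 u = det • e_0`: `Y u = (χ / det) u`.  (`u` does not depend on `Y`.)
-/

namespace Pool.Agent.H18.Tl

open Finset Polynomial Matrix

variable {τ : Type} [Fintype τ] [DecidableEq τ] {b : τ → ℕ} {μ a : ℕ} {L₀ : List (Pt τ)}

omit [DecidableEq τ] in
private theorem CaseB_dg_eq_zero (γ : Box b) (h : dg γ = 0) : γ = zb b := by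
  funext l
  have h1 := (Finset.sum_eq_zero_iff.mp h) l (Finset.mem_univ l)
  exact Fin.ext h1

omit [DecidableEq τ] in
private theorem CaseB_dg_zb : dg (zb b) = 0 := by
  simp [dg, zb]

private theorem CaseB_rv_conj (Y : Mt b) (γ κ : Box b) :
    (rv b * Y * rv b) γ κ = Y (rb γ) (rb κ) := by
  rw [Matrix.mul_apply, Finset.sum_eq_single (rb κ)]
  · have h1 : rv b (rb κ) κ = 1 := by simp [rv]
    rw [h1, mul_one, Matrix.mul_apply, Finset.sum_eq_single (rb γ)]
    · have h2 : rv b γ (rb γ) = 1 := by simp [rv, rb_rb]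
      rw [h2, one_mul]
    · intro κ' _ hne
      have h2 : rv b γ κ' = 0 := by
        unfold rv
        rw [if_neg]
        intro h3
        exact hne (by rw [h3, rb_rb])
      rw [h2, zero_mul]
    · intro h3
      exact absurd (Finset.mem_univ _) h3
  · intro κ' _ hne
    have h2 : rv b κ' κ = 0 := by
      unfold rv
      rw [if_neg hne]
    rw [h2, mul_zero]
  · intro h3
    exact absurd (Finset.mem_univ _) h3

omit [DecidableEq τ] in
private theorem CaseB_tz_zb (c : τ → ℂ) (κ : Box b) :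
    tz b c (zb b) κ = ∏ l, c l ^ (κ l : ℕ) := by
  unfold tz zb
  refine Finset.prod_congr rfl fun l _ => ?_
  simp

theorem kill {D : Submodule ℂ (Mt b)} (hD : Mxl b μ D)
    (h0 : ∀ Y ∈ D, ∀ β : Box b, μ ≤ dg β → Y (zb b) β = 0) (Y : Mt b) (hY : Y ∈ D)
    (hk : ∀ γ κ : Box b, Bs b + 1 ≤ dg κ + μ → Y γ κ = 0) : Y = 0 := by
  classical
  set Z : Mt b := rv b * Y * rv b with hZdef
  have hZD : Z ∈ D := hD.rv Y hY
  have hZcol : ∀ γ κ : Box b, dg κ < μ → Z γ κ = 0 := by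
    intro γ κ hκ
    rw [hZdef, CaseB_rv_conj]
    refine hk _ _ ?_
    have h1 := dg_rb κ
    omega
  have hrow : ∀ c : τ → ℂ, ∀ β : Box b, (tz b c * Z) (zb b) β = 0 := by
    intro c β
    have hM : tz b c * Z * tz b (-c) ∈ D := by
      have h1 := hD.tz Z hZD (-c)
      rwa [neg_neg] at h1
    have hMrow : ∀ β' : Box b, (tz b c * Z * tz b (-c)) (zb b) β' = 0 := by
      intro β'
      by_cases hβ : μ ≤ dg β'
      · exact h0 _ hM β' hβ
      · rw [Matrix.mul_assoc, Matrix.mul_apply]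
        refine Finset.sum_eq_zero fun γ _ => ?_
        have h2 : (Z * tz b (-c)) γ β' = 0 := by
          rw [Matrix.mul_apply]
          refine Finset.sum_eq_zero fun κ _ => ?_
          by_cases hκ : ∀ l, (κ l : ℕ) ≤ β' l
          · have h3 : dg κ ≤ dg β' := Finset.sum_le_sum fun l _ => hκ l
            rw [hZcol γ κ (by omega), zero_mul]
          · rw [tz_eq_zero _ _ _ hκ, mul_zero]
        rw [h2, mul_zero]
    have h4 : tz b c * Z = tz b c * Z * tz b (-c) * tz b c := by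
      rw [Matrix.mul_assoc (tz b c * Z), tz_neg_mul, Matrix.mul_one]
    rw [h4, Matrix.mul_apply]
    refine Finset.sum_eq_zero fun κ _ => ?_
    rw [hMrow κ, zero_mul]
  have hZ0 : Z = 0 := by
    ext γ β
    by_contra hne
    have hA : (fun κ : Box b => Z κ β) ≠ 0 := fun h1 => hne (congrFun h1 γ)
    obtain ⟨c, hc, -⟩ := common (fun κ : Box b => Z κ β) (fun κ : Box b => Z κ β) hA hA
    apply hc
    have h5 := hrow c β
    rw [Matrix.mul_apply] at h5
    rw [← h5]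
    refine Finset.sum_congr rfl fun κ _ => ?_
    rw [CaseB_tz_zb]
    ring
  have h6 : Y = rv b * Z * rv b := by
    rw [hZdef, ← Matrix.mul_assoc, ← Matrix.mul_assoc, rv_mul_rv, Matrix.one_mul,
      Matrix.mul_assoc, rv_mul_rv, Matrix.mul_one]
  rw [h6, hZ0, Matrix.mul_zero, Matrix.zero_mul]

private theorem CaseB_ev_mul (A B : Matrix (Box b) (Box b) ℂ[X]) (x : ℂ) :
    ev (A * B) x = ev A x * ev B x :=
  map_mul (evalRingHom x).mapMatrix A B

private theorem CaseB_ev_adj (A : Matrix (Box b) (Box b) ℂ[X]) (x : ℂ) :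
    ev A.adjugate x = (ev A x).adjugate :=
  (evalRingHom x).map_adjugate A

omit [Fintype τ] [DecidableEq τ] in
private theorem CaseB_ev_C (Y : Mt b) (x : ℂ) :
    ev (Y.map C) x = Y := by
  ext γ β
  simp [ev]

/-- The matrix `Q`. -/
private noncomputable def CaseB_Q (μ : ℕ) (N : Matrix (Box b) (Box b) ℂ[X]) :
    Matrix (Box b) (Box b) ℂ[X] :=
  fun γ κ => X ^ ((μ - dg γ) + (μ - (μ - dg κ))) * N γ κ

private theorem CaseB_conj (Φ H : Matrix (Box b) (Box b) ℂ[X])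
    (hH : ∀ γ β, Φ γ β = X ^ (μ - dg γ) * H γ β) (Y : Mt b) (x : ℂ) :
    ev (CaseB_Q μ (H * Y.map C * H.adjugate)) x * ev Φ x =
      ev Φ x * ((x ^ μ * (ev H x).det) • Y) := by
  have h1 : ev Φ x = Matrix.diagonal (fun γ : Box b => x ^ (μ - dg γ)) * ev H x := by
    ext γ β
    rw [Matrix.diagonal_mul]
    simp only [ev, hH γ β, eval_mul, eval_pow, eval_X]
  have h2 : ev (CaseB_Q μ (H * Y.map C * H.adjugate)) x =
      Matrix.diagonal (fun γ : Box b => x ^ (μ - dg γ)) * ev (H * Y.map C * H.adjugate) x *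
        Matrix.diagonal (fun κ : Box b => x ^ (μ - (μ - dg κ))) := by
    ext γ β
    rw [Matrix.mul_diagonal, Matrix.diagonal_mul]
    simp only [ev, CaseB_Q, eval_mul, eval_pow, eval_X, pow_add]
    ring
  have h3 : Matrix.diagonal (fun κ : Box b => x ^ (μ - (μ - dg κ))) *
      Matrix.diagonal (fun γ : Box b => x ^ (μ - dg γ)) = (x ^ μ) • (1 : Mt b) := by
    rw [Matrix.diagonal_mul_diagonal, ← Matrix.diagonal_one, ← Matrix.diagonal_smul]
    congr 1
    funext κ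
    rw [← pow_add, Pi.smul_apply, smul_eq_mul, mul_one]
    congr 1
    omega
  rw [h2, h1, CaseB_ev_mul, CaseB_ev_mul, CaseB_ev_adj, CaseB_ev_C]
  calc Matrix.diagonal (fun γ : Box b => x ^ (μ - dg γ)) *
          (ev H x * Y * (ev H x).adjugate) *
          Matrix.diagonal (fun κ : Box b => x ^ (μ - (μ - dg κ))) *
        (Matrix.diagonal (fun γ : Box b => x ^ (μ - dg γ)) * ev H x)
      = Matrix.diagonal (fun γ : Box b => x ^ (μ - dg γ)) * ev H x * Y *
          ((ev H x).adjugate *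
          (Matrix.diagonal (fun κ : Box b => x ^ (μ - (μ - dg κ))) *
        Matrix.diagonal (fun γ : Box b => x ^ (μ - dg γ))) * ev H x) := by
          simp only [Matrix.mul_assoc]
    _ = Matrix.diagonal (fun γ : Box b => x ^ (μ - dg γ)) * ev H x *
        ((x ^ μ * (ev H x).det) • Y) := by
          rw [h3, Matrix.mul_smul, Matrix.mul_one, Matrix.smul_mul, Matrix.adjugate_mul,
            smul_smul, Matrix.mul_smul, Matrix.mul_one, Matrix.mul_smul]

theorem caseB {D : Submodule ℂ (Mt b)} (hD : Mxl b μ D) (hμ : 1 ≤ μ) (hμB : 2 * μ ≤ Bs b + 1)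
    (h : Blk b μ a (⟨μ, 0, 0⟩ :: L₀)) (h0 : ∀ Y ∈ D, ∀ β : Box b, μ ≤ dg β → Y (zb b) β = 0) :
    ∃ u : Box b → ℂ, u ≠ 0 ∧ ∀ Y ∈ D, ∃ χ : ℂ, Y.mulVec u = χ • u := by
  obtain ⟨Φ, hΦ⟩ := exists_ph h
  obtain ⟨H, hH, hdet⟩ := loc h hΦ
  have hfin : ({x : ℂ | ∃ p ∈ ((⟨μ, 0, 0⟩ : Pt τ) :: L₀), p.x = x} : Set ℂ).Finite := by
    have h1 : ({x : ℂ | ∃ p ∈ ((⟨μ, 0, 0⟩ : Pt τ) :: L₀), p.x = x} : Set ℂ) =
        {x : ℂ | x ∈ (((⟨μ, 0, 0⟩ : Pt τ) :: L₀).map Pt.x)} := by
      ext x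
      simp only [Set.mem_ofPred_eq, List.mem_map]
    rw [h1]
    exact List.finite_toSet _
  have hu : (ev H 0).mulVec ((ev H 0).adjugate.mulVec (Pi.single (zb b) 1 : Box b → ℂ)) =
      (ev H 0).det • (Pi.single (zb b) 1 : Box b → ℂ) := by
    rw [Matrix.mulVec_mulVec, Matrix.mul_adjugate, Matrix.smul_mulVec, Matrix.one_mulVec]
  refine ⟨(ev H 0).adjugate.mulVec (Pi.single (zb b) 1 : Box b → ℂ), ?_, ?_⟩
  · intro h1
    rw [h1, Matrix.mulVec_zero] at hu
    have h3 := congrFun hu (zb b)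
    rw [Pi.smul_apply, Pi.single_eq_same, smul_eq_mul, mul_one] at h3
    exact hdet h3.symm
  · intro Y hY
    have hQ : ∀ k, cf (CaseB_Q μ (H * Y.map C * H.adjugate)) k ∈ D := by
      intro k
      refine cf_mem_of_ev D _ _ hfin ?_ k
      intro x hx
      have hx' : ∀ p ∈ ((⟨μ, 0, 0⟩ : Pt τ) :: L₀), p.x ≠ x := fun p hp h1 => hx ⟨p, hp, h1⟩
      exact hD.adx' h hΦ (List.cons_ne_nil _ _) x hx' _
        (D.smul_mem (x ^ μ * (ev H x).det) hY) _ (CaseB_conj Φ H hH Y x)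
    have hQ0 : ∀ k, k < μ → cf (CaseB_Q μ (H * Y.map C * H.adjugate)) k = 0 := by
      intro k hk
      refine kill hD h0 _ (hQ k) ?_
      intro γ κ hκ
      simp only [cf, CaseB_Q]
      rw [coeff_X_pow_mul']
      rw [if_neg]
      omega
    have hN : ∀ γ : Box b, γ ≠ zb b →
        ev (H * Y.map C * H.adjugate) 0 γ (zb b) = 0 := by
      intro γ hγ
      have hd : dg γ ≠ 0 := fun h1 => hγ (CaseB_dg_eq_zero γ h1)
      have h2 := congrFun (congrFun (hQ0 (μ - dg γ) (by omega)) γ) (zb b)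
      simp only [cf, CaseB_Q] at h2
      rw [coeff_X_pow_mul', CaseB_dg_zb, if_pos (by omega)] at h2
      have h3 : μ - dg γ - (μ - dg γ + (μ - (μ - 0))) = 0 := by omega
      rw [h3] at h2
      simp only [ev]
      rw [← coeff_zero_eq_eval_zero]
      exact h2
    have hcol : (ev (H * Y.map C * H.adjugate) 0).mulVec (Pi.single (zb b) 1 : Box b → ℂ) =
        (ev (H * Y.map C * H.adjugate) 0 (zb b) (zb b)) • (Pi.single (zb b) 1 : Box b → ℂ) := by
      rw [Matrix.mulVec_single_one]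
      funext γ
      rw [Pi.smul_apply, smul_eq_mul]
      by_cases hγ : γ = zb b
      · rw [hγ, Pi.single_eq_same, mul_one]
        rfl
      · rw [Pi.single_eq_of_ne hγ, mul_zero]
        exact hN γ hγ
    rw [CaseB_ev_mul, CaseB_ev_mul, CaseB_ev_adj, CaseB_ev_C] at hcol
    generalize hχ : ((ev H 0 * Y * (ev H 0).adjugate) (zb b) (zb b)) = χ at hcol
    refine ⟨χ / (ev H 0).det, ?_⟩
    have hinj : ∀ w : Box b → ℂ, (ev H 0).mulVec w = 0 → w = 0 := by
      intro w hw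
      have h4 : (ev H 0).adjugate.mulVec ((ev H 0).mulVec w) = 0 := by
        rw [hw, Matrix.mulVec_zero]
      rw [Matrix.mulVec_mulVec, Matrix.adjugate_mul, Matrix.smul_mulVec, Matrix.one_mulVec] at h4
      exact (smul_eq_zero.mp h4).resolve_left hdet
    rw [← sub_eq_zero]
    apply hinj
    rw [Matrix.mulVec_sub, Matrix.mulVec_smul, hu, Matrix.mulVec_mulVec, Matrix.mulVec_mulVec,
      hcol, smul_smul, div_mul_cancel₀ _ hdet, sub_self]

end Pool.Agent.H18.Tl
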