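import Pool.Agent.H18.Tl.Vn

/-!
# Module Qt (TL): the number of conditions

`quot_le`: the linear map from `V b` to the functions on `{(i, γ, j) : i < L.length, j < (L i).m - dg γ}` given by the
coefficients of `van_iff` (`(taylor x (act (tz b z) F γ)).coeff j`) has the kernel `vanL b L` (as a `ℂ`-subspace), so the
quotient embeds into a space of dimension `cL b L` (`LinearMap.quotKerEquivRange`, `Submodule.finrank_le`; or induction
on `L`: `vanL b (p :: L) = van b p ⊓ vanL b L`).
-/

namespace Pool.Agent.H18.Tl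

open Finset Polynomial

variable {τ : Type} [Fintype τ] [DecidableEq τ] {b : τ → ℕ}

/-- The index set of the conditions. -/
private abbrev Qt_Ix (b : τ → ℕ) (L : List (Pt τ)) : Type :=
  (i : Fin L.length) × (γ : Box b) × Fin ((L.get i).m - dg γ)

/-- The conditions. -/
private noncomputable def Qt_map (b : τ → ℕ) (L : List (Pt τ)) : V b →ₗ[ℂ] (Qt_Ix b L → ℂ) :=
  LinearMap.pi fun k => (Polynomial.lcoeff ℂ (k.2.2 : ℕ)) ∘ₗ (taylor (L.get k.1).x) ∘ₗ
    (LinearMap.proj k.2.1 : V b →ₗ[ℂ] ℂ[X]) ∘ₗ ((act (tz b (L.get k.1).z)).restrictScalars ℂ)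

private theorem Qt_map_apply (L : List (Pt τ)) (F : V b) (k : Qt_Ix b L) :
    Qt_map b L F k = (taylor (L.get k.1).x (act (tz b (L.get k.1).z) F k.2.1)).coeff (k.2.2 : ℕ) := rfl

private theorem Qt_ker (L : List (Pt τ)) :
    LinearMap.ker (Qt_map b L) = (vanL b L).restrictScalars ℂ := by
  ext F
  rw [LinearMap.mem_ker, Submodule.restrictScalars_mem, mem_vanL]
  constructor
  · intro h p hp
    obtain ⟨i, rfl⟩ := List.get_of_mem hp
    rw [van_iff]
    intro γ j hj
    have := congrFun h ⟨i, γ, ⟨j, by omega⟩⟩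
    rw [Qt_map_apply] at this
    exact this
  · intro h
    funext k
    rw [Qt_map_apply]
    have h1 := (van_iff (L.get k.1) F).mp (h _ (List.get_mem L k.1)) k.2.1 (k.2.2 : ℕ) (by
      have := k.2.2.isLt
      omega)
    exact h1

private theorem Qt_card (L : List (Pt τ)) : Fintype.card (Qt_Ix b L) = cL b L := by
  simp only [Qt_Ix, Fintype.card_sigma, Fintype.card_fin]
  unfold cL Lm
  rw [← List.sum_ofFn]
  congr 1
  apply List.ext_getElem
  · simp
  · intro n h1 h2
    simp

instance (L : List (Pt τ)) : FiniteDimensional ℂ (V b ⧸ (vanL b L).restrictScalars ℂ) := by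
  rw [← Qt_ker]
  exact Module.Finite.equiv (LinearMap.quotKerEquivRange (Qt_map b L)).symm

theorem quot_le (L : List (Pt τ)) :
    Module.finrank ℂ (V b ⧸ (vanL b L).restrictScalars ℂ) ≤ cL b L := by
  rw [← Qt_ker, LinearEquiv.finrank_eq (LinearMap.quotKerEquivRange (Qt_map b L)), ← Qt_card L,
    ← Module.finrank_fintype_fun_eq_card (R := ℂ)]
  exact Submodule.finrank_le _

end Pool.Agent.H18.Tl
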