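import Pool.Agent.H18.Tl.Dm
import Pool.Agent.H18.Tl.Qt

/-!
# Module Dv (TL): division by an exact block

`exists_rho`: the quotient map `U b a → V b ⧸ vanL b L` is injective (`h.inj`); the dimensions are `a * Pc b` and at most
`cL b L = L.length * Lm b μ = a * Pc b`, so it is bijective; `ρ` is minus its inverse composed with the quotient map.
`exists_ph`: the column `β` of `Φ` is `G + ρ G`, `G = X^a` at `β`, `0` elsewhere.
`Ph.uniq`: the difference of two columns is in `U b a` and vanishes at `L`.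
`Ph.eq_mul`: the difference is in `U b a` and vanishes at `L`.
`Ph.ev_inj`: let `G = Φ w` (`G γ = ∑_β Φ γ β * C (w β)`), in `vanL b L`, with top coefficient `w`.  If `G` vanishes at `t = x₀`, then
`G = (X - C x₀) • G'`, `G' ∈ U b a`, and `G' ∈ vanL b L` by `vanL_unit`; so `G' = 0`, `G = 0`, `w = 0`.
`Blk.pos`: `Lm b μ ≥ μ - dg (zb b) = μ ≥ 1`, so `0 < L.length * Lm b μ = a * Pc b`.
-/

namespace Pool.Agent.H18.Tl

open Finset Polynomial

variable {τ : Type} [Fintype τ] [DecidableEq τ] {b : τ → ℕ} {μ a : ℕ} {L : List (Pt τ)}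
  {Φ : Matrix (Box b) (Box b) ℂ[X]}

private theorem Dv_Lm_pos (hμ : 1 ≤ μ) : 1 ≤ Lm b μ := by
  have h1 : μ - dg (zb b) ≤ ∑ γ : Box b, (μ - dg γ) :=
    Finset.single_le_sum (f := fun γ : Box b => μ - dg γ) (fun _ _ => Nat.zero_le _)
      (Finset.mem_univ (zb b))
  have h2 : dg (zb b) = 0 := by simp [dg, zb]
  unfold Lm
  omega

theorem Blk.pos (h : Blk b μ a L) (hμ : 1 ≤ μ) (hL : L ≠ []) : 1 ≤ a := by
  rcases Nat.eq_zero_or_pos a with h0 | h0
  · exfalso
    have h1 := h.cnt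
    rw [h0, Nat.zero_mul] at h1
    have h2 : 0 < L.length := List.length_pos_of_ne_nil hL
    have h3 : 1 ≤ Lm b μ := Dv_Lm_pos hμ
    have h4 : 0 < L.length * Lm b μ := Nat.mul_pos h2 h3
    omega
  · exact h0

private theorem Dv_cL (h : Blk b μ a L) : cL b L = L.length * Lm b μ := by
  have h1 : (L.map fun p => Lm b p.m) = L.map fun _ => Lm b μ := by
    apply List.map_congr_left
    intro p hp
    rw [h.mult p hp]
  unfold cL
  rw [h1]
  simp

theorem exists_rho (h : Blk b μ a L) :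
    ∃ ρ : V b →ₗ[ℂ] V b, (∀ G, ρ G ∈ U b a) ∧ ∀ G, G + ρ G ∈ vanL b L := by
  set q : V b →ₗ[ℂ] V b ⧸ (vanL b L).restrictScalars ℂ := ((vanL b L).restrictScalars ℂ).mkQ
    with hq
  let φ : U b a →ₗ[ℂ] V b ⧸ (vanL b L).restrictScalars ℂ := q ∘ₗ (U b a).subtype
  have hinj : Function.Injective φ := by
    rw [← LinearMap.ker_eq_bot, LinearMap.ker_eq_bot']
    intro F hF
    have h1 : (F : V b) ∈ (vanL b L).restrictScalars ℂ := by
      have h2 : q (F : V b) = 0 := hF
      rw [hq, Submodule.mkQ_apply, Submodule.Quotient.mk_eq_zero] at h2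
      exact h2
    exact Subtype.ext (h.inj F F.2 h1)
  have hfr : Module.finrank ℂ (U b a) = Module.finrank ℂ (V b ⧸ (vanL b L).restrictScalars ℂ) := by
    apply le_antisymm
    · exact LinearMap.finrank_le_finrank_of_injective hinj
    · calc Module.finrank ℂ (V b ⧸ (vanL b L).restrictScalars ℂ) ≤ cL b L := quot_le L
        _ = a * Pc b := by rw [Dv_cL h, h.cnt]
        _ = Module.finrank ℂ (U b a) := (finrank_U a).symm
  have hsurj : Function.Surjective φ :=
    (LinearMap.injective_iff_surjective_of_finrank_eq_finrank hfr).1 hinj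
  let e : U b a ≃ₗ[ℂ] V b ⧸ (vanL b L).restrictScalars ℂ := LinearEquiv.ofBijective φ ⟨hinj, hsurj⟩
  refine ⟨-((U b a).subtype ∘ₗ e.symm.toLinearMap ∘ₗ q), ?_, ?_⟩
  · intro G
    rw [LinearMap.neg_apply]
    exact (U b a).neg_mem (e.symm (q G)).2
  · intro G
    have h1 : q (((e.symm (q G) : U b a) : V b)) = q G := e.apply_symm_apply (q G)
    have h2 : q (G + (-((U b a).subtype ∘ₗ e.symm.toLinearMap ∘ₗ q)) G) = 0 := by
      rw [map_add, LinearMap.neg_apply, map_neg]
      change q G + -(q ((e.symm (q G) : U b a) : V b)) = 0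
      rw [h1, add_neg_cancel]
    rw [hq, Submodule.mkQ_apply, Submodule.Quotient.mk_eq_zero] at h2
    exact h2

theorem exists_ph (h : Blk b μ a L) : ∃ Φ : Matrix (Box b) (Box b) ℂ[X], Ph b a L Φ := by
  obtain ⟨ρ, h1, h2⟩ := exists_rho h
  let G : Box b → V b := fun β => Pi.single β (X ^ a)
  have hG : ∀ β γ : Box b, G β γ = if γ = β then X ^ a else 0 := by
    intro β γ
    simp only [G, Pi.single_apply]
  refine ⟨fun γ β => (G β + ρ (G β)) γ, ?_, ?_, ?_⟩
  · intro β
    exact h2 (G β)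
  · intro γ β
    change ((G β γ) + (ρ (G β) γ)).coeff a = _
    rw [coeff_add, h1 (G β) γ a le_rfl, add_zero, hG]
    split_ifs with h3
    · rw [coeff_X_pow, if_pos rfl]
    · rw [coeff_zero]
  · intro γ β j hj
    change ((G β γ) + (ρ (G β) γ)).coeff j = _
    rw [coeff_add, h1 (G β) γ j hj.le, add_zero, hG]
    split_ifs with h3
    · rw [coeff_X_pow, if_neg (by omega)]
    · rw [coeff_zero]

theorem Ph.uniq {Ψ : Matrix (Box b) (Box b) ℂ[X]} (h : Blk b μ a L) (h1 : Ph b a L Φ)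
    (h2 : Ph b a L Ψ) : Φ = Ψ := by
  have key : ∀ β, (fun γ => Φ γ β) - (fun γ => Ψ γ β) = (0 : V b) := by
    intro β
    apply h.inj
    · intro γ j hj
      change (Φ γ β - Ψ γ β).coeff j = 0
      rw [coeff_sub]
      rcases hj.eq_or_lt with h3 | h3
      · rw [← h3, h1.top, h2.top, sub_self]
      · rw [h1.deg γ β j h3, h2.deg γ β j h3, sub_self]
    · exact (vanL b L).sub_mem (h1.van β) (h2.van β)
  funext γ β
  have h3 := congrFun (key β) γ
  exact sub_eq_zero.1 h3

private theorem Dv_coeff (w : Box b → ℂ) (β : Box b) (j : ℕ) :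
    (Φ.mulVec (cv w) β).coeff j = (cf Φ j).mulVec w β := by
  simp only [Matrix.mulVec, dotProduct, cv, cf, finsetSum_coeff, coeff_mul_C]

/-- The combination of the columns with constant coefficients `w`. -/
theorem Ph.comb (hΦ : Ph b a L Φ) (w : Box b → ℂ) :
    Φ.mulVec (cv w) ∈ vanL b L ∧ Φ.mulVec (cv w) ∈ U b (a + 1) ∧
      (∀ β, (Φ.mulVec (cv w) β).coeff a = w β) ∧
      ∀ β j, (Φ.mulVec (cv w) β).coeff j = (cf Φ j).mulVec w β := by
  refine ⟨?_, ?_, ?_, fun β j => Dv_coeff w β j⟩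
  · have h1 : Φ.mulVec (cv w) = ∑ β, C (w β) • (fun γ => Φ γ β : V b) := by
      funext γ
      rw [Finset.sum_apply]
      simp only [Matrix.mulVec, dotProduct, cv, Pi.smul_apply, smul_eq_mul]
      exact Finset.sum_congr rfl fun β _ => mul_comm _ _
    rw [h1]
    exact (vanL b L).sum_mem fun β _ => (vanL b L).smul_mem _ (hΦ.van β)
  · intro β j hj
    rw [Dv_coeff]
    simp only [Matrix.mulVec, dotProduct, cf]
    apply Finset.sum_eq_zero
    intro γ _
    rw [hΦ.deg β γ j (by omega), zero_mul]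
  · intro β
    rw [Dv_coeff]
    simp only [Matrix.mulVec, dotProduct, cf, hΦ.top]
    simp

theorem Ph.eq_mul (h : Blk b μ a L) (hΦ : Ph b a L Φ) (F : V b) (hF : F ∈ vanL b L)
    (hU : F ∈ U b (a + 1)) : F = Φ.mulVec (cv fun β => (F β).coeff a) := by
  obtain ⟨h1, h2, h3, -⟩ := hΦ.comb fun β => (F β).coeff a
  rw [← sub_eq_zero]
  apply h.inj
  · intro β j hj
    change (F β - Φ.mulVec (cv fun β => (F β).coeff a) β).coeff j = 0
    rw [coeff_sub]
    rcases hj.eq_or_lt with h4 | h4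
    · rw [← h4, h3, sub_self]
    · rw [hU β j h4, h2 β j h4, sub_self]
  · exact (vanL b L).sub_mem hF h1

theorem Ph.ev_inj (h : Blk b μ a L) (hΦ : Ph b a L Φ) (x₀ : ℂ) (hx : ∀ p ∈ L, p.x ≠ x₀)
    (w : Box b → ℂ) (hw : (ev Φ x₀).mulVec w = 0) : w = 0 := by
  obtain ⟨h1, h2, h3, -⟩ := hΦ.comb w
  have hd : ∀ β, ∃ g : ℂ[X], Φ.mulVec (cv w) β = (X - C x₀) * g := by
    intro β
    have h4 : (Φ.mulVec (cv w) β).eval x₀ = 0 := by
      have h5 := congrFun hw β
      simp only [Matrix.mulVec, dotProduct, ev, Pi.zero_apply] at h5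
      simp only [Matrix.mulVec, dotProduct, cv, eval_finsetSum, eval_mul, eval_C]
      exact h5
    exact dvd_iff_isRoot.2 h4
  choose g hg using hd
  have hG : Φ.mulVec (cv w) = (X - C x₀) • (g : V b) := by
    funext β
    rw [hg β]
    rfl
  have hgv : (g : V b) ∈ vanL b L := by
    apply vanL_unit L (X - C x₀) _ g
    · rw [← hG]
      exact h1
    · intro p hp
      rw [eval_sub, eval_X, eval_C]
      exact sub_ne_zero.2 (hx p hp)
  have hgU : (g : V b) ∈ U b a := by
    intro β j hj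
    by_contra hne
    have hg0 : g β ≠ 0 := by
      intro h0
      rw [h0, coeff_zero] at hne
      exact hne rfl
    have hle : j ≤ (g β).natDegree := le_natDegree_of_ne_zero hne
    have hdeg : (Φ.mulVec (cv w) β).natDegree = 1 + (g β).natDegree := by
      rw [hg β, natDegree_mul (X_sub_C_ne_zero x₀) hg0, natDegree_X_sub_C]
    have hne0 : Φ.mulVec (cv w) β ≠ 0 := by
      rw [hg β]
      exact mul_ne_zero (X_sub_C_ne_zero x₀) hg0
    have hz := h2 β (Φ.mulVec (cv w) β).natDegree (by omega)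
    rw [coeff_natDegree, leadingCoeff_eq_zero] at hz
    exact hne0 hz
  have hg0 : (g : V b) = 0 := h.inj g hgU hgv
  funext β
  rw [← h3 β, hG, hg0, smul_zero]
  rfl

theorem Ph.isUnit (h : Blk b μ a L) (hΦ : Ph b a L Φ) (x₀ : ℂ) (hx : ∀ p ∈ L, p.x ≠ x₀) :
    IsUnit (ev Φ x₀) := by
  rw [← Matrix.mulVec_injective_iff_isUnit]
  intro v w hvw
  have h1 : (ev Φ x₀).mulVec (v - w) = 0 := by
    rw [Matrix.mulVec_sub]
    exact sub_eq_zero.2 hvw
  exact sub_eq_zero.1 (Ph.ev_inj h hΦ x₀ hx (v - w) h1)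

end Pool.Agent.H18.Tl
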