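import Pool.Agent.H18.Tl.ExB
import Pool.Agent.H18.Tl.Dv

/-!
# Module ExC (TL): existence of exact blocks

`exB` for `M = μ`, `S = replicate (Pc b) μ`, `a = N * Lm b μ`: `GM (bx b a) ((replicate (N * Pc b) μ).map Kind.free)`.  So for `n = N * Pc b` points,
`GI (bx b a) (fun _ : Fin n => Kind.free μ)`; by `GI.general` (`Pool/Agent/H18/Ex/Gen.lean`) and the nonzero polynomial
`∏_{i<j} (X (i, none) - X (j, none))` there are positions `pos` with distinct `pos i none` and `InjAt`.
`L = List.ofFn fun i => ⟨μ, pos i none, fun l => pos i (some l)⟩`.  `inj`: let `F ∈ U b a`, `F ∈ vanL b L`, and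
`f α = (F β).coeff (α none)` for `β l = α (some l)` (`α ∈ bx b a`; otherwise `0`).  For a multi-index `c`, `|c| < μ`:
`∑_{α ∈ bx b a} f α * tcr (pos i) α c` is `(taylor x (act (tz b z) F γ)).coeff (c none)`, `γ l = c (some l)`, if `c (some l) ≤ b l` for all `l`
(`taylor_coeff`, `hasseDeriv`), which is `0` by `van_iff`; otherwise all terms are `0` (`binom = 0`).  So `f = 0` on `bx b a`, `F = 0`.
-/

namespace Pool.Agent.H18.Tl

open Finset Polynomial Pool.Agent.H18.Ex

variable {τ : Type} [Fintype τ] [DecidableEq τ]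

/-- The exponent with first coordinate `j` and the other coordinates `β`. -/
private def ExC_e {b : τ → ℕ} (j : ℕ) (β : Box b) : Option τ → ℕ := fun o =>
  match o with
  | none => j
  | some l => (β l : ℕ)

private theorem ExC_sum {b : τ → ℕ} {a : ℕ} (g : (Option τ → ℕ) → ℂ) :
    ∑ α ∈ bx b a, g α = ∑ β : Box b, ∑ j ∈ range a, g (ExC_e j β) := by
  rw [← Finset.sum_product']
  symm
  refine Finset.sum_nbij (fun p => ExC_e p.2 p.1) ?_ ?_ ?_ ?_
  · intro p hp
    rw [mem_product] at hp
    rw [mem_bx]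
    exact ⟨mem_range.1 hp.2, fun l => Nat.lt_succ_iff.1 (p.1 l).2⟩
  · intro p _ p' _ h
    have h1 : p.2 = p'.2 := congrFun h none
    have h2 : p.1 = p'.1 := by
      funext l
      exact Fin.ext (congrFun h (some l))
    exact Prod.ext h2 h1
  · intro α hα
    have hα' := mem_bx.1 (mem_coe.1 hα)
    refine ⟨(fun l => ⟨α (some l), Nat.lt_succ_iff.2 (hα'.2 l)⟩, α none), ?_, ?_⟩
    · rw [mem_coe, mem_product]
      exact ⟨mem_univ _, mem_range.2 hα'.1⟩
    · funext o
      cases o with
      | none => rfl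
      | some l => rfl
  · intro p _
    rfl

omit [DecidableEq τ] in
private theorem ExC_tcr {b : τ → ℕ} (q : Option τ → ℂ) (j : ℕ) (β : Box b) (c : Option τ → ℕ) :
    tcr q (ExC_e j β) c = (((j.choose (c none) : ℕ) : ℂ) * q none ^ (j - c none)) *
      ∏ l, ((((β l : ℕ).choose (c (some l)) : ℕ) : ℂ) * q (some l) ^ ((β l : ℕ) - c (some l))) := by
  unfold tcr
  rw [Fintype.prod_option]
  rfl

private theorem ExC_taylor (x : ℂ) (P : ℂ[X]) (a n : ℕ) (hP : ∀ j, a ≤ j → P.coeff j = 0) :
    (taylor x P).coeff n =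
      ∑ j ∈ range a, P.coeff j * (((j.choose n : ℕ) : ℂ) * x ^ (j - n)) := by
  have hs : P.support ⊆ range a := by
    intro i hi
    rw [mem_range]
    by_contra h
    exact (mem_support_iff.1 hi) (hP i (not_lt.1 h))
  rw [taylor_coeff, hasseDeriv_apply, Polynomial.sum_eq_of_subset _ ?_ hs, eval_finsetSum]
  · refine sum_congr rfl fun j _ => ?_
    rw [eval_monomial]
    ring
  · intro i
    rw [mul_zero, monomial_zero_right]

private theorem ExC_dvd (x : ℂ) (P : ℂ[X]) (k n : ℕ) (h : (X - C x) ^ k ∣ P) (hn : n < k) :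
    (taylor x P).coeff n = 0 := by
  obtain ⟨Q, rfl⟩ := h
  have h1 : taylor x ((X - C x) ^ k) = X ^ k := by
    rw [taylor_apply, pow_comp, sub_comp, X_comp, C_comp, add_sub_cancel_right]
  rw [taylor_mul, h1, coeff_X_pow_mul', if_neg (not_le.2 hn)]

theorem exists_blk (b : τ → ℕ) (μ : ℕ) (hμ : 1 ≤ μ) :
    ∃ (a : ℕ) (L : List (Pt τ)), Blk b μ a L ∧ L ≠ [] := by
  obtain ⟨N, hN, hE⟩ := exB b μ
  have h1 : GM (bx b (N * Lm b μ)) ((N • Multiset.replicate (Pc b) μ).map Kind.free) := by
    refine hE _ _ ?_ ?_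
    · intro m hm
      rw [Multiset.eq_of_mem_replicate hm]
    · rw [Multiset.map_replicate, Multiset.sum_replicate, smul_eq_mul, mul_assoc,
        mul_comm (Lm b μ)]
  rw [Multiset.nsmul_replicate, Multiset.map_replicate] at h1
  have h2 : GI (bx b (N * Lm b μ)) (fun _ : Fin (N * Pc b) => (Kind.free μ : Kind (Option τ))) := by
    rw [← GM_iff, Multiset.map_const', card_val, card_univ, Fintype.card_fin]
    exact h1
  obtain ⟨G, hG, hG'⟩ := h2.general
  have hD : (∏ x ∈ (univ : Finset (Fin (N * Pc b))).offDiag,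
      ((MvPolynomial.X (x.1, none) - MvPolynomial.X (x.2, none)) :
        MvPolynomial (Fin (N * Pc b) × Option τ) ℂ)) ≠ 0 := by
    refine prod_ne_zero_iff.2 fun x hx => ?_
    rw [mem_offDiag] at hx
    refine sub_ne_zero.2 fun h => hx.2.2 ?_
    exact (Prod.ext_iff.1 (MvPolynomial.X_injective h)).1
  obtain ⟨y, hy⟩ : ∃ y : Fin (N * Pc b) × Option τ → ℂ, MvPolynomial.eval y
      (G * ∏ x ∈ (univ : Finset (Fin (N * Pc b))).offDiag,
      ((MvPolynomial.X (x.1, none) - MvPolynomial.X (x.2, none)) :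
        MvPolynomial (Fin (N * Pc b) × Option τ) ℂ)) ≠ 0 := by
    by_contra hcon
    push Not at hcon
    exact mul_ne_zero hG hD (MvPolynomial.funext fun x => by rw [hcon x, map_zero])
  rw [map_mul] at hy
  have hinj := hG' (fun i o => y (i, o)) (left_ne_zero_of_mul hy)
  have hdis : ∀ i j : Fin (N * Pc b), i ≠ j → y (i, none) ≠ y (j, none) := by
    intro i j hij h
    have h3 := right_ne_zero_of_mul hy
    rw [map_prod, prod_ne_zero_iff] at h3
    have h4 := h3 (i, j) (mem_offDiag.2 ⟨mem_univ _, mem_univ _, hij⟩)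
    rw [map_sub, MvPolynomial.eval_X, MvPolynomial.eval_X] at h4
    exact h4 (sub_eq_zero.2 h)
  refine ⟨N * Lm b μ, List.ofFn fun i : Fin (N * Pc b) =>
    (⟨μ, y (i, none), fun l => y (i, some l)⟩ : Pt τ), ⟨?_, ?_, ?_, ?_⟩, ?_⟩
  · intro p hp
    obtain ⟨i, rfl⟩ := List.mem_ofFn.1 hp
    rfl
  · rw [List.map_ofFn, List.nodup_ofFn]
    intro i j hij
    by_contra hne
    exact hdis i j hne hij
  · rw [List.length_ofFn]
    ring
  · intro F hU hF
    have hf := hinj (fun α => if h : ∀ l, α (some l) < b l + 1 then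
      (F fun l => ⟨α (some l), h l⟩).coeff (α none) else 0) ?_
    · funext β
      ext j
      rw [Pi.zero_apply, coeff_zero]
      rcases lt_or_ge j (N * Lm b μ) with hj | hj
      · have h3 := hf (ExC_e j β) (mem_bx.2 ⟨hj, fun l => Nat.lt_succ_iff.1 (β l).2⟩)
        have hl : ∀ l, ExC_e j β (some l) < b l + 1 := fun l => (β l).2
        rw [dif_pos hl] at h3
        exact h3
      · exact hU β j hj
    · intro i c hc
      have hc' : c none + ∑ l, c (some l) < μ := by
        have h3 : ∑ o, c o < μ := hc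
        rwa [Fintype.sum_option] at h3
      rw [ExC_sum]
      have h4 : ∀ (β : Box b), ∀ j ∈ range (N * Lm b μ),
          (if h : ∀ l, (ExC_e j β) (some l) < b l + 1 then
            (F fun l => ⟨(ExC_e j β) (some l), h l⟩).coeff ((ExC_e j β) none) else 0) *
            tcr ((Kind.free μ : Kind (Option τ)).pt fun o => y (i, o)) (ExC_e j β) c =
          (F β).coeff j * ((((j.choose (c none) : ℕ) : ℂ) * y (i, none) ^ (j - c none)) *
          ∏ l, ((((β l : ℕ).choose (c (some l)) : ℕ) : ℂ) *
            y (i, some l) ^ ((β l : ℕ) - c (some l)))) := by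
        intro β j _
        have hl : ∀ l, ExC_e j β (some l) < b l + 1 := fun l => (β l).2
        rw [dif_pos hl, ExC_tcr]
        rfl
      rw [sum_congr rfl fun β _ => sum_congr rfl (h4 β)]
      by_cases hb : ∀ l, c (some l) < b l + 1
      · have hvan := hF _ ((List.mem_ofFn.2 ⟨i, rfl⟩))
        have h5 := hvan (fun l => ⟨c (some l), hb l⟩)
        have h6 : dg (fun l => ⟨c (some l), hb l⟩ : Box b) = ∑ l, c (some l) := rfl
        have h7 := ExC_dvd _ _ _ (c none) h5 (by
          rw [h6]
          show c none < μ - _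
          omega)
        rw [act_apply, map_sum, finsetSum_coeff] at h7
        refine Eq.trans (sum_congr rfl fun β _ => ?_) h7
        have h8 : ∀ P : ℂ[X], ∀ r s : ℂ, taylor r (C s * P) = C s * taylor r P := by
          intro P r s
          rw [taylor_mul, taylor_C]
        rw [h8, coeff_C_mul, ExC_taylor _ _ _ _ (fun j hj => hU β j hj), mul_sum]
        refine sum_congr rfl fun j _ => ?_
        show _ = (∏ l, ((((β l : ℕ).choose (c (some l)) : ℕ) : ℂ) *
            y (i, some l) ^ ((β l : ℕ) - c (some l)))) * _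
        ring
      · push Not at hb
        obtain ⟨l, hl⟩ := hb
        refine sum_eq_zero fun β _ => sum_eq_zero fun j _ => ?_
        have h9 : ∏ l, ((((β l : ℕ).choose (c (some l)) : ℕ) : ℂ) *
            y (i, some l) ^ ((β l : ℕ) - c (some l))) = 0 := by
          refine prod_eq_zero (mem_univ l) ?_
          rw [Nat.choose_eq_zero_of_lt (lt_of_lt_of_le (β l).2 hl), Nat.cast_zero, zero_mul]
        rw [h9, mul_zero, mul_zero]
  · intro h
    have h3 := congrArg List.length h
    rw [List.length_ofFn, List.length_nil] at h3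
    have h4 := Pc_pos b
    have h5 : 0 < N * Pc b := Nat.mul_pos (by omega) (by omega)
    omega

end Pool.Agent.H18.Tl
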