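import Pool.Agent.H18.Tl.Defs

/-!
# Module LmC (TL): the numbers `Lm`

`Lm_split`: sum over the coordinate `y` of the exponent (`Box b ≃ Fin (b y + 1) × Box (update b y 0)`): for `γ` with `γ y = s` the
summand is `μ - s - dg γ'`.  (E.g. sum over the fibres of `γ ↦ γ y`; the fibre over `s` is in bijection with
`Box (Function.update b y 0)`.)  `Pc_split`: the same for the number of exponents, `Pc b = ∏ (b l + 1)`.
-/

namespace Pool.Agent.H18.Tl

open Finset

variable {τ : Type} [Fintype τ] [DecidableEq τ]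

private def LmC_equiv (b : τ → ℕ) (y : τ) :
    Fin (b y + 1) × Box (Function.update b y 0) ≃ Box b where
  toFun p := fun l => ⟨if l = y then (p.1 : ℕ) else (p.2 l : ℕ), by
    split_ifs with h
    · subst h; exact p.1.2
    · have h2 := (p.2 l).2
      simpa [Function.update_of_ne h] using h2⟩
  invFun γ := (γ y, fun l => ⟨if l = y then 0 else (γ l : ℕ), by
    split_ifs with h
    · exact Nat.succ_pos _
    · have h2 := (γ l).2
      simpa [Function.update_of_ne h] using h2⟩)
  left_inv p := by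
    ext l
    · simp
    · by_cases h : l = y
      · subst h
        have h2 : ((p.2 l : ℕ)) < Function.update b l 0 l + 1 := (p.2 l).2
        have h3 : Function.update b l 0 l = 0 := Function.update_self ..
        show (if l = l then 0 else _) = ((p.2 l : ℕ))
        rw [if_pos rfl]
        omega
      · simp [h]
  right_inv γ := by
    ext l
    by_cases h : l = y
    · subst h; simp
    · simp [h]

private theorem LmC_zero_coord (b : τ → ℕ) (y : τ) (γ : Box (Function.update b y 0)) :
    (γ y : ℕ) = 0 := by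
  have h2 : ((γ y : ℕ)) < Function.update b y 0 y + 1 := (γ y).2
  have h3 : Function.update b y 0 y = 0 := Function.update_self ..
  omega

private theorem LmC_dg (b : τ → ℕ) (y : τ) (p : Fin (b y + 1) × Box (Function.update b y 0)) :
    dg (LmC_equiv b y p) = (p.1 : ℕ) + dg p.2 := by
  unfold dg
  rw [← Finset.add_sum_erase univ (fun l => ((LmC_equiv b y p l : Fin (b l + 1)) : ℕ)) (mem_univ y),
    ← Finset.add_sum_erase univ (fun l => ((p.2 l : Fin _) : ℕ)) (mem_univ y)]
  have h1 : ((LmC_equiv b y p y : Fin (b y + 1)) : ℕ) = p.1 := by simp [LmC_equiv]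
  have h2 := LmC_zero_coord b y p.2
  rw [h1, h2, zero_add]
  congr 1
  refine Finset.sum_congr rfl ?_
  intro l hl
  have hly : l ≠ y := (Finset.mem_erase.mp hl).1
  simp [LmC_equiv, hly]

theorem Lm_zero (b : τ → ℕ) : Lm b 0 = 0 := by
  simp [Lm]

theorem Lm_mono (b : τ → ℕ) {m n : ℕ} (h : m ≤ n) : Lm b m ≤ Lm b n := by
  unfold Lm
  exact Finset.sum_le_sum fun γ _ => Nat.sub_le_sub_right h _

theorem le_Lm (b : τ → ℕ) (m : ℕ) : m ≤ Lm b m := by
  have h1 : m - dg (zb b) = m := by simp [dg, zb]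
  calc m = m - dg (zb b) := h1.symm
    _ ≤ Lm b m := Finset.single_le_sum (f := fun γ : Box b => m - dg γ)
        (fun _ _ => Nat.zero_le _) (mem_univ (zb b))

theorem Lm_dec (b : τ → ℕ) (m i : ℕ) : Lm b (m - (i + 1)) ≤ Lm b (m - i) :=
  Lm_mono b (by omega)

theorem Lm_conv (b : τ → ℕ) (m i : ℕ) :
    2 * Lm b (m - (i + 1)) ≤ Lm b (m - i) + Lm b (m - (i + 2)) := by
  unfold Lm
  rw [Finset.mul_sum, ← Finset.sum_add_distrib]
  refine Finset.sum_le_sum fun γ _ => ?_
  omega

theorem Lm_split (b : τ → ℕ) (y : τ) (m : ℕ) :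
    Lm b m = ∑ s ∈ range (b y + 1), Lm (Function.update b y 0) (m - s) := by
  rw [Finset.sum_range (fun s => Lm (Function.update b y 0) (m - s))]
  unfold Lm
  rw [← Equiv.sum_comp (LmC_equiv b y) (fun γ : Box b => m - dg γ), Fintype.sum_prod_type]
  refine Finset.sum_congr rfl fun s _ => Finset.sum_congr rfl fun γ _ => ?_
  rw [LmC_dg]
  simp only
  omega

theorem Pc_pos (b : τ → ℕ) : 1 ≤ Pc b := by
  unfold Pc
  have : Nonempty (Box b) := ⟨zb b⟩
  exact Fintype.card_pos

theorem Pc_split (b : τ → ℕ) (y : τ) : Pc b = (b y + 1) * Pc (Function.update b y 0) := by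
  unfold Pc
  rw [← Fintype.card_congr (LmC_equiv b y), Fintype.card_prod, Fintype.card_fin]

/-- In degrees `≥ Bs b - 1` the dimension grows by `Pc b`. -/
theorem Lm_succ (b : τ → ℕ) (m : ℕ) (h : Bs b ≤ m) : Lm b (m + 1) = Lm b m + Pc b := by
  unfold Lm Pc
  rw [← Finset.card_univ, Finset.card_eq_sum_ones, ← Finset.sum_add_distrib]
  refine Finset.sum_congr rfl fun γ _ => ?_
  have h1 : dg γ ≤ Bs b := by
    unfold dg Bs
    exact Finset.sum_le_sum fun l _ => Nat.lt_succ_iff.mp (γ l).2
  omega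

theorem Lm_add (b : τ → ℕ) (m a : ℕ) (h : Bs b ≤ m) : Lm b (m + a) = Lm b m + a * Pc b := by
  induction a with
  | zero => simp
  | succ a ih =>
    rw [← Nat.add_assoc, Lm_succ b (m + a) (by omega), ih]
    ring

end Pool.Agent.H18.Tl
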