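import Pool.Agent.H18.Tl.Step
import Pool.Agent.H18.Tl.ExC
import Pool.Agent.H18.Tl.LmC

/-!
# Module Chain (TL): iterated steps

`exists_stp`: `step` and `exists_blk` for the `μ` with `1 ≤ μ`, `2 μ ≤ Bs b + 1` (choice), `Sn μ = an μ = 1` for the others.
`chain`: induction on `ms`; after one step (`Stp.step` with `h = h0 b e L - 1`) the new `L'`, `e + an μ` satisfy the hypotheses:
`Lm b (e + an μ + 1) = Lm b (e + 1) + an μ * Pc b` (`Lm_add`, `Bs b ≤ e + 1`), `cL b L' = cL b L + Sn μ * Lm b μ` (`cL` depends only on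
the multiset of the multiplicities: `cL b L = ((↑(L.map Pt.m) : Multiset ℕ).map (Lm b)).sum`).
-/

namespace Pool.Agent.H18.Tl

open Finset Polynomial

variable {τ : Type} [Fintype τ] [DecidableEq τ]

/-- The outcome of `step` for all multiplicities `μ` with `2 μ ≤ Bs b + 1`. -/
structure Stp (b : τ → ℕ) (Sn an : ℕ → ℕ) : Prop where
  pos : ∀ μ, 1 ≤ Sn μ ∧ 1 ≤ an μ
  eq : ∀ μ, 1 ≤ μ → 2 * μ ≤ Bs b + 1 → Sn μ * Lm b μ = an μ * Pc b
  step : ∀ μ, 1 ≤ μ → 2 * μ ≤ Bs b + 1 → ∀ (L : List (Pt τ)) (e h : ℕ), (L.map Pt.x).Nodup →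
    Bs b ≤ e + 1 → Lm b (e + 1) ≤ cL b L → h0 b e L ≤ h + 1 →
    ∃ L' : List (Pt τ), (L'.map Pt.x).Nodup ∧
      (↑(L'.map Pt.m) : Multiset ℕ) = ↑(L.map Pt.m) + Multiset.replicate (Sn μ) μ ∧
      h0 b (e + an μ) L' ≤ h

theorem exists_stp (b : τ → ℕ) (hB : 1 ≤ Bs b) : ∃ Sn an : ℕ → ℕ, Stp b Sn an := by
  classical
  have key : ∀ μ : ℕ, ∃ S a : ℕ, (1 ≤ S ∧ 1 ≤ a) ∧ (1 ≤ μ → 2 * μ ≤ Bs b + 1 →
      S * Lm b μ = a * Pc b ∧
      ∀ (L : List (Pt τ)) (e h : ℕ), (L.map Pt.x).Nodup →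
        Bs b ≤ e + 1 → Lm b (e + 1) ≤ cL b L → h0 b e L ≤ h + 1 →
        ∃ L' : List (Pt τ), (L'.map Pt.x).Nodup ∧
          (↑(L'.map Pt.m) : Multiset ℕ) = ↑(L.map Pt.m) + Multiset.replicate S μ ∧
          h0 b (e + a) L' ≤ h) := by
    intro μ
    by_cases hc : 1 ≤ μ ∧ 2 * μ ≤ Bs b + 1
    · obtain ⟨S, a, hS, ha, heq, hst⟩ := step b μ hc.1 hc.2 hB (exists_blk b μ hc.1)
      exact ⟨S, a, ⟨hS, ha⟩, fun _ _ => ⟨heq, hst⟩⟩
    · exact ⟨1, 1, ⟨le_refl 1, le_refl 1⟩, fun h1 h2 => absurd ⟨h1, h2⟩ hc⟩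
  choose Sn an hpos hst using key
  exact ⟨Sn, an, ⟨hpos, fun μ h1 h2 => (hst μ h1 h2).1, fun μ h1 h2 => (hst μ h1 h2).2⟩⟩

private theorem Chain_cL_eq (b : τ → ℕ) (L : List (Pt τ)) :
    cL b L = ((↑(L.map Pt.m) : Multiset ℕ).map (Lm b)).sum := by
  unfold cL
  rw [Multiset.map_coe, Multiset.sum_coe, List.map_map]
  rfl

theorem chain {b : τ → ℕ} {Sn an : ℕ → ℕ} (hS : Stp b Sn an) :
    ∀ (ms : List ℕ), (∀ μ ∈ ms, 1 ≤ μ ∧ 2 * μ ≤ Bs b + 1) → ∀ (L : List (Pt τ)) (e : ℕ),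
      (L.map Pt.x).Nodup → Bs b ≤ e + 1 → Lm b (e + 1) ≤ cL b L →
      ∃ L' : List (Pt τ), (L'.map Pt.x).Nodup ∧
        (↑(L'.map Pt.m) : Multiset ℕ) =
          ↑(L.map Pt.m) + (ms.map fun μ => Multiset.replicate (Sn μ) μ).sum ∧
        h0 b (e + (ms.map an).sum) L' ≤ h0 b e L - ms.length := by
  intro ms
  induction ms with
  | nil =>
    intro _ L e hnd _ _
    refine ⟨L, hnd, ?_, ?_⟩
    · rw [List.map_nil, List.sum_nil, add_zero]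
    · rw [List.map_nil, List.sum_nil, add_zero, List.length_nil, Nat.sub_zero]
  | cons μ ms ih =>
    intro hms L e hnd hBe hcL
    obtain ⟨hμ1, hμ2⟩ := hms μ List.mem_cons_self
    obtain ⟨L₁, hnd₁, hm₁, hh₁⟩ := hS.step μ hμ1 hμ2 L e (h0 b e L - 1) hnd hBe hcL (by omega)
    have hcL₁ : Lm b (e + an μ + 1) ≤ cL b L₁ := by
      have e1 : Lm b (e + an μ + 1) = Lm b (e + 1) + an μ * Pc b := by
        rw [← Lm_add b (e + 1) (an μ) hBe]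
        congr 1
        omega
      have e2 : cL b L₁ = cL b L + Sn μ * Lm b μ := by
        rw [Chain_cL_eq, Chain_cL_eq, hm₁, Multiset.map_add, Multiset.sum_add,
          Multiset.map_replicate, Multiset.sum_replicate, smul_eq_mul]
      rw [e1, e2, hS.eq μ hμ1 hμ2]
      exact Nat.add_le_add_right hcL _
    obtain ⟨L', hnd', hm', hh'⟩ := ih (fun ν hν => hms ν (List.mem_cons_of_mem μ hν)) L₁
      (e + an μ) hnd₁ (by omega) hcL₁
    refine ⟨L', hnd', ?_, ?_⟩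
    · rw [hm', hm₁, List.map_cons, List.sum_cons, add_assoc]
    · rw [List.map_cons, List.sum_cons, List.length_cons, ← add_assoc]
      refine hh'.trans ?_
      omega

end Pool.Agent.H18.Tl
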