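import Pool.Agent.H18.Tl.Lin

/-!
# Module LinD (TL): first order solutions of a family of linear systems

Proof.  Let `g'` be a left inverse of `M 0` (`LinearMap.exists_leftInverse_of_injective`), `A k = g' ∘ M k : E → E`, so
`A 0 = 1`, and `A(δ) = ∑_{k<n} δ^k A k`.  With a basis of `E` let `𝔸` be the matrix over `ℂ[X]` of `∑ X^k A k`, `Δ = det 𝔸`,
`Δ(0) = 1`, `adj 𝔸` the adjugate, so `adj 𝔸 * 𝔸 = Δ`, `adj 𝔸 (0) = 1`.  For `δ ∉ T` let `v` be as in `h`: then
`Δ(δ) v = adj 𝔸(δ) A(δ) v = adj 𝔸(δ) g' (g(δ))`.  So the polynomial family `p(δ) = ℓ (adj 𝔸(δ) g' (g(δ))) + Δ(δ) c` has values in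
`D` for `δ ∉ T`; by `mem_of_poly` its coefficients `p_0`, `p_1` are in `D`.  Let `u(δ) = adj 𝔸(δ) g' (g(δ)) = u_0 + δ u_1 + …`.
From `𝔸 u = Δ g' g`: `u_0 = g' g_0 = v₀` and `u_1 + A_1 u_0 = g' g_1 + Δ_1 g' g_0`, and `v₁ + A_1 v₀ = g' g_1`, so
`u_1 = v₁ + Δ_1 v₀`.  So `p_0 = ℓ v₀ + c` and `p_1 = ℓ v₁ + Δ_1 (ℓ v₀ + c)`.

(Alternative without matrices: it is enough to show `ψ (ℓ v₀ + c) = 0` and `ψ (ℓ v₁) = 0` for all functionals `ψ` that
vanish on `D`; Cramer's rule is only used to have a polynomial `u(δ)` and a polynomial `Δ(δ)`, `Δ(0) ≠ 0`, with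
`M(δ) (u(δ)) = Δ(δ) g(δ)`.)
-/

namespace Pool.Agent.H18.Tl

open Finset

/-- A polynomial family `∑ i, u i (δ) • a i + Δ(δ) • c` with values in `D` off a finite set has coefficients in `D`. -/
private theorem LinD_coeff_mem {N : Type*} [AddCommGroup N] [Module ℂ N] (D : Submodule ℂ N)
    {ι : Type*} [Fintype ι] (u : ι → Polynomial ℂ) (a : ι → N) (Δ : Polynomial ℂ) (c : N)
    (T : Set ℂ) (hT : T.Finite)
    (h : ∀ δ : ℂ, δ ∉ T → ∑ i, (u i).eval δ • a i + Δ.eval δ • c ∈ D) (k : ℕ) :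
    ∑ i, (u i).coeff k • a i + Δ.coeff k • c ∈ D := by
  classical
  set B : ℕ := (∑ i, (u i).natDegree) + Δ.natDegree + k + 1 with hB
  have hu : ∀ i, (u i).natDegree < B := by
    intro i
    have h0 : (u i).natDegree ≤ ∑ i, (u i).natDegree :=
      Finset.single_le_sum (f := fun i => (u i).natDegree) (fun j _ => Nat.zero_le _)
        (Finset.mem_univ i)
    omega
  have hΔ : Δ.natDegree < B := by omega
  refine mem_of_poly D B (fun k => ∑ i, (u i).coeff k • a i + Δ.coeff k • c) T hT ?_ k (by omega)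
  intro δ hδ
  have h1 := h δ hδ
  have h2 : ∑ k ∈ range B, δ ^ k • (∑ i, (u i).coeff k • a i + Δ.coeff k • c) =
      ∑ i, (u i).eval δ • a i + Δ.eval δ • c := by
    simp_rw [smul_add, Finset.smul_sum, Finset.sum_add_distrib, smul_smul]
    rw [Finset.sum_comm]
    refine congrArg₂ _ ?_ ?_
    · refine Finset.sum_congr rfl fun i _ => ?_
      rw [← Finset.sum_smul, Polynomial.eval_eq_sum_range' (hu i)]
      simp_rw [mul_comm]
    · rw [← Finset.sum_smul, Polynomial.eval_eq_sum_range' hΔ]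
      simp_rw [mul_comm]
  rw [h2]
  exact h1

theorem diff_lemma {E Q N : Type*} [AddCommGroup E] [Module ℂ E] [FiniteDimensional ℂ E]
    [AddCommGroup Q] [Module ℂ Q] [AddCommGroup N] [Module ℂ N] (M : ℕ → E →ₗ[ℂ] Q) (g : ℕ → Q)
    (n : ℕ) (hn : 2 ≤ n) (hM : ∀ v, M 0 v = 0 → v = 0) (ℓ : E →ₗ[ℂ] N) (c : N)
    (D : Submodule ℂ N) (T : Set ℂ) (hT : T.Finite)
    (h : ∀ δ : ℂ, δ ∉ T → ∃ v : E,
      ∑ k ∈ range n, δ ^ k • M k v = ∑ k ∈ range n, δ ^ k • g k ∧ ℓ v + c ∈ D)
    (v₀ v₁ : E) (h₀ : M 0 v₀ = g 0) (h₁ : M 0 v₁ + M 1 v₀ = g 1) :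
    ℓ v₀ + c ∈ D ∧ ℓ v₁ ∈ D := by
  classical
  obtain ⟨g', hg'⟩ := LinearMap.exists_leftInverse_of_injective (M 0)
    (LinearMap.ker_eq_bot'.2 hM)
  have hg0 : ∀ v, g' (M 0 v) = v := fun v => by
    have := LinearMap.congr_fun hg' v
    simpa using this
  let b := Module.finBasis ℂ E
  let A : ℕ → Matrix (Fin (Module.finrank ℂ E)) (Fin (Module.finrank ℂ E)) ℂ :=
    fun k => LinearMap.toMatrix b b (g' ∘ₗ M k)
  let P : Matrix (Fin (Module.finrank ℂ E)) (Fin (Module.finrank ℂ E)) (Polynomial ℂ) :=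
    Matrix.of fun i j => ∑ k ∈ range n, Polynomial.monomial k (A k i j)
  let G : Fin (Module.finrank ℂ E) → Polynomial ℂ :=
    fun i => ∑ k ∈ range n, Polynomial.monomial k (b.repr (g' (g k)) i)
  let u : Fin (Module.finrank ℂ E) → Polynomial ℂ := P.adjugate.mulVec G
  have hPu : P.mulVec u = P.det • G := by
    simp only [u, Matrix.mulVec_mulVec, Matrix.mul_adjugate, Matrix.smul_mulVec, Matrix.one_mulVec]
  -- coefficients
  have hPc : ∀ i j k, k < n → (P i j).coeff k = A k i j := by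
    intro i j k hk
    simp only [P, Matrix.of_apply, Polynomial.finsetSum_coeff, Polynomial.coeff_monomial]
    rw [Finset.sum_ite_eq' (range n) k (fun k => A k i j), if_pos (mem_range.2 hk)]
  have hGc : ∀ i k, k < n → (G i).coeff k = b.repr (g' (g k)) i := by
    intro i k hk
    simp only [G, Polynomial.finsetSum_coeff, Polynomial.coeff_monomial]
    rw [Finset.sum_ite_eq' (range n) k (fun k => b.repr (g' (g k)) i), if_pos (mem_range.2 hk)]
  have hA0 : A 0 = 1 := by
    simp only [A, hg', LinearMap.toMatrix_id]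
  have hAv : ∀ k v i, ∑ j, A k i j * b.repr v j = b.repr (g' (M k v)) i := by
    intro k v i
    have := congrFun (LinearMap.toMatrix_mulVec_repr b b (g' ∘ₗ M k) v) i
    simpa [Matrix.mulVec, dotProduct] using this
  have hΔ0 : P.det.coeff 0 = 1 := by
    rw [Polynomial.coeff_zero_eq_eval_zero, ← Polynomial.coe_evalRingHom, RingHom.map_det]
    have : (Polynomial.evalRingHom (0 : ℂ)).mapMatrix P = 1 := by
      ext i j
      rw [RingHom.mapMatrix_apply, Matrix.map_apply, Polynomial.coe_evalRingHom,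
        ← Polynomial.coeff_zero_eq_eval_zero, hPc i j 0 (by omega), hA0]
    rw [this, Matrix.det_one]
  have hu0 : ∀ i, (u i).coeff 0 = b.repr v₀ i := by
    intro i
    have h2 := congrArg (fun q : Polynomial ℂ => q.coeff 0) (congrFun hPu i)
    simp only [Matrix.mulVec, dotProduct, Polynomial.finsetSum_coeff, Polynomial.mul_coeff_zero,
      Pi.smul_apply, smul_eq_mul] at h2
    rw [hΔ0, one_mul, hGc i 0 (by omega), ← h₀, hg0] at h2
    rw [← h2]
    simp_rw [hPc i _ 0 (by omega), hA0, Matrix.one_apply]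
    simp
  have hu1 : ∀ i, (u i).coeff 1 = b.repr v₁ i + P.det.coeff 1 * b.repr v₀ i := by
    intro i
    have h2 := congrArg (fun q : Polynomial ℂ => q.coeff 1) (congrFun hPu i)
    simp only [Matrix.mulVec, dotProduct, Polynomial.finsetSum_coeff, Polynomial.mul_coeff_one,
      Pi.smul_apply, smul_eq_mul] at h2
    rw [hΔ0, one_mul, hGc i 0 (by omega), hGc i 1 (by omega), ← h₀, hg0, ← h₁, map_add, hg0,
      map_add, Finsupp.add_apply, Finset.sum_add_distrib] at h2
    have h3 : ∑ j, (P i j).coeff 0 * (u j).coeff 1 = (u i).coeff 1 := by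
      simp_rw [hPc i _ 0 (by omega), hA0, Matrix.one_apply]
      simp
    have h4 : ∑ j, (P i j).coeff 1 * (u j).coeff 0 = b.repr (g' (M 1 v₀)) i := by
      simp_rw [hPc i _ 1 (by omega), hu0]
      exact hAv 1 v₀ i
    linear_combination h2 - h3 - h4
  -- values
  have hval : ∀ δ : ℂ, δ ∉ T →
      ∑ i, (u i).eval δ • ℓ (b i) + P.det.eval δ • c ∈ D := by
    intro δ hδ
    obtain ⟨v, hv1, hv2⟩ := h δ hδ
    have e1 : ∀ i, ∑ j, (P i j).eval δ * b.repr v j = (G i).eval δ := by
      intro i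
      have e2 := congrArg (fun w => b.repr (g' w) i) hv1
      simp only [map_sum, map_smul, Finsupp.coe_finsetSum, Finset.sum_apply, Finsupp.coe_smul,
        Pi.smul_apply, smul_eq_mul] at e2
      have e3 : (G i).eval δ = ∑ k ∈ range n, δ ^ k * b.repr (g' (g k)) i := by
        simp only [G, Polynomial.eval_finsetSum, Polynomial.eval_monomial]
        exact Finset.sum_congr rfl fun k _ => mul_comm _ _
      rw [e3, ← e2]
      simp only [P, Matrix.of_apply, Polynomial.eval_finsetSum, Polynomial.eval_monomial,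
        Finset.sum_mul]
      rw [Finset.sum_comm]
      refine Finset.sum_congr rfl fun k _ => ?_
      rw [← hAv k v i, Finset.mul_sum]
      exact Finset.sum_congr rfl fun j _ => by ring
    have e4 : ((Polynomial.evalRingHom δ).mapMatrix P).mulVec (fun j => b.repr v j) =
        fun i => (G i).eval δ := by
      funext i
      simpa [Matrix.mulVec, dotProduct] using e1 i
    have e5 : ((Polynomial.evalRingHom δ).mapMatrix P).det = P.det.eval δ := by
      rw [← RingHom.map_det, Polynomial.coe_evalRingHom]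
    have e6 : ∀ i, (u i).eval δ = P.det.eval δ * b.repr v i := by
      intro i
      have e7 := congrArg (fun w => ((Polynomial.evalRingHom δ).mapMatrix P).adjugate.mulVec w i) e4
      simp only [Matrix.mulVec_mulVec, Matrix.adjugate_mul, Matrix.smul_mulVec, Matrix.one_mulVec,
        Pi.smul_apply, smul_eq_mul, e5] at e7
      rw [e7]
      simp only [u, Matrix.mulVec, dotProduct, Polynomial.eval_finsetSum, Polynomial.eval_mul]
      refine Finset.sum_congr rfl fun j _ => ?_
      rw [← RingHom.map_adjugate, RingHom.mapMatrix_apply, Matrix.map_apply,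
        Polynomial.coe_evalRingHom]
    have e8 : ∑ i, (u i).eval δ • ℓ (b i) = P.det.eval δ • ℓ v := by
      conv_rhs => rw [← b.sum_repr v, map_sum]
      rw [Finset.smul_sum]
      refine Finset.sum_congr rfl fun i _ => ?_
      rw [e6 i, map_smul, smul_smul]
    rw [e8, ← smul_add]
    exact D.smul_mem _ hv2
  have hk := LinD_coeff_mem D u (fun i => ℓ (b i)) P.det c T hT hval
  have hsum : ∀ v : E, ∑ i, b.repr v i • ℓ (b i) = ℓ v := by
    intro v
    conv_rhs => rw [← b.sum_repr v, map_sum]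
    simp_rw [map_smul]
  have k0 : ℓ v₀ + c ∈ D := by
    have := hk 0
    simp_rw [hu0, hΔ0, one_smul] at this
    rwa [hsum] at this
  refine ⟨k0, ?_⟩
  have k1 := hk 1
  simp_rw [hu1, add_smul, Finset.sum_add_distrib, mul_smul] at k1
  rw [hsum, ← Finset.smul_sum, hsum, add_assoc, ← smul_add] at k1
  exact (Submodule.add_mem_iff_left D (D.smul_mem _ k0)).1 k1

end Pool.Agent.H18.Tl
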