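import Pool.Agent.H18.Tl.CmpB
import Pool.Agent.H18.Tl.LinD

/-!
# Module Cmp (TL): the union of an exact block and a tiny exact block at `t = 0`

Let `Pk` be as in `exists_td` for the block `L'` (height `a'`).

`cmp`: apply `diff_lemma` with `E = Box b → U b a`, `Q = Box b → V b ⧸ vanL b L`, `M k v β = [Pk k (v β)]`, `n = a' + a + 1`,
`g k β = -[Pk k (X^a • cv (Pi.single β 1))]`, `N = Mt b`, `ℓ v γ β = (v β γ).coeff (a - 1)`, `c = 0`, `D = Ds b μ (L.length + L'.length)`.  For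
almost all `δ` the block `L ++ scL δ L'` has a `Ψ` (`exists_ph`), and its column `β` is `∑ δ^k Pk k (s β)`, `s β = X^a • e_β + v β`; the
coefficient of `t^(a+a'-1)` of the column is the coefficient of `t^(a-1)` of `v β` (`a, a' ≥ 1`; the `Pk k`, `k ≥ 1`, have values in `U b a'`).
`v₀ β = Φ e_β - X^a e_β`.  `v₁`: `X • v₁ β = Φ Z e_β - cv (ev Φ 0 * Z) e_β`, i.e. `v₁ β = divX` of `Φ.mulVec (cv (Z column β))`:
`M 0 v₁ + M 1 (s₀) = [X^a' v₁ β + X^(a'-1) cv (Φ'₁ (ev Φ 0) e_β)] = [X^(a'-1) Φ Z e_β] = 0`, and `ℓ v₁ = Z`, `ℓ v₀ = cf Φ (a-1)`.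
-/

namespace Pool.Agent.H18.Tl

open Finset Polynomial

variable {τ : Type} [Fintype τ] [DecidableEq τ] {b : τ → ℕ} {μ a a' : ℕ} {L L' : List (Pt τ)}
  {Φ Φ' : Matrix (Box b) (Box b) ℂ[X]}

omit [Fintype τ] [DecidableEq τ] in
/-- Only the term `k = 0` counts. -/
private theorem Cmp_coeff_sum (n : ℕ) (f : ℕ → V b) (γ : Box b) (j : ℕ) (δ : ℂ)
    (hf : ∀ k, 1 ≤ k → (f k γ).coeff j = 0) :
    ((∑ k ∈ range (n + 1), δ ^ k • f k) γ).coeff j = (f 0 γ).coeff j := by
  rw [Finset.sum_apply, Polynomial.finsetSum_coeff, Finset.sum_range_succ']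
  have h0 : ∑ k ∈ range n, ((δ ^ (k + 1) • f (k + 1)) γ).coeff j = 0 := by
    refine Finset.sum_eq_zero fun k _ => ?_
    rw [Pi.smul_apply, coeff_smul, hf (k + 1) (by omega), smul_zero]
  rw [h0, zero_add, pow_zero, one_smul]

omit [DecidableEq τ] in
/-- The coefficients of `X^a` at the place `β`. -/
private theorem Cmp_single_coeff (a : ℕ) (β γ : Box b) (j : ℕ) :
    (((X : ℂ[X]) ^ a • (cv (Pi.single β 1) : V b)) γ).coeff j =
      if γ = β ∧ j = a then 1 else 0 := by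
  rw [Pi.smul_apply, smul_eq_mul, cv, mul_comm, coeff_C_mul_X_pow, Pi.single_apply]
  by_cases h1 : γ = β <;> by_cases h2 : j = a <;> simp [h1, h2]

/-- The column `β` of `Ψ`. -/
private theorem Cmp_col (h : Blk b μ a L) (h' : Blk b μ a' L')
    (Pk : ℕ → V b →ₗ[ℂ] V b) (P0 : ∀ s, Pk 0 s = (X : ℂ[X]) ^ a' • s)
    (PU : ∀ k s, 1 ≤ k → Pk k s ∈ U b a')
    (Pv : ∀ (n : ℕ) (s : V b), s ∈ U b n → ∀ δ : ℂ, δ ≠ 0 →
        ∑ k ∈ range (a' + n), δ ^ k • Pk k s ∈ vanL b (scL δ L')) (ha' : 1 ≤ a')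
    (δ : ℂ) (hδ : δ ≠ 0) {Ψ : Matrix (Box b) (Box b) ℂ[X]}
    (hΨ : Ph b (a + a') (L ++ scL δ L') Ψ) (β : Box b) :
    ∃ v ∈ U b a, (∀ γ, (v γ).coeff (a - 1) = (Ψ γ β).coeff (a - 1 + a') ∨ a = 0) ∧
      ∑ k ∈ range (a' + (a + 1)), δ ^ k • Pk k (v + (X : ℂ[X]) ^ a • (cv (Pi.single β 1) : V b))
        ∈ vanL b L := by
  obtain ⟨s, hs1, hs2⟩ := exists_div (b := b) a' (fun γ => Ψ γ β)
  have hsU : s ∈ U b (a + 1) := by
    intro γ j hj
    rw [hs2]
    exact hΨ.deg γ β _ (by omega)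
  refine ⟨s - (X : ℂ[X]) ^ a • (cv (Pi.single β 1) : V b), ?_, ?_, ?_⟩
  · intro γ j hj
    rw [Pi.sub_apply, coeff_sub, Cmp_single_coeff, hs2]
    rcases Nat.eq_or_lt_of_le hj with h1 | h1
    · subst h1
      have := hΨ.top γ β
      simp only [this]
      by_cases h2 : γ = β <;> simp [h2]
    · rw [hΨ.deg γ β (j + a') (by omega)]
      have : ¬ (γ = β ∧ j = a) := by omega
      rw [if_neg this, sub_zero]
  · intro γ
    rcases Nat.eq_zero_or_pos a with h1 | h1
    · right; exact h1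
    · left
      rw [Pi.sub_apply, coeff_sub, Cmp_single_coeff, hs2]
      have : ¬ (γ = β ∧ a - 1 = a) := by omega
      rw [if_neg this, sub_zero]
  · rw [sub_add_cancel]
    have hv := (vanL_append (b := b) L (scL δ L') (fun γ => Ψ γ β)).1 (hΨ.van β)
    have hH := Pv (a + 1) s hsU δ hδ
    have hz : (∑ k ∈ range (a' + (a + 1)), δ ^ k • Pk k s) - (fun γ => Ψ γ β) = 0 := by
      refine (h'.sc δ hδ).inj _ ?_ ((vanL b (scL δ L')).sub_mem hH hv.2)
      intro γ j hj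
      rw [Pi.sub_apply, coeff_sub, show a' + (a + 1) = (a' + a) + 1 by ring,
        Cmp_coeff_sum _ (fun k => Pk k s) γ j δ (fun k hk => PU k s hk γ j hj), P0]
      have := hs1 γ j hj
      rw [Pi.sub_apply, coeff_sub] at this
      rw [← neg_sub, this, neg_zero]
    rw [sub_eq_zero.1 hz]
    exact hv.1

theorem cmp (h : Blk b μ a L) (hΦ : Ph b a L Φ) (h' : Blk b μ a' L') (hΦ' : Ph b a' L' Φ')
    (hx : ∀ p ∈ L, p.x ≠ 0) (ha : 1 ≤ a) (ha' : 1 ≤ a') (Z : Mt b)
    (hZ : ev Φ 0 * Z = cf Φ' (a' - 1) * ev Φ 0) :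
    cf Φ (a - 1) ∈ Ds b μ (L.length + L'.length) ∧ Z ∈ Ds b μ (L.length + L'.length) := by
  obtain ⟨Pk, P0, P1, PU, -, Pv⟩ := exists_td h' hΦ' ha'
  obtain ⟨T, hT, hTB⟩ := cmp_blk h h' hx ha'
  -- the maps
  set S : Submodule ℂ (V b) := (vanL b L).restrictScalars ℂ with hS
  let M : ℕ → (Box b → U b a) →ₗ[ℂ] (Box b → V b ⧸ S) := fun k =>
    LinearMap.pi fun β => S.mkQ ∘ₗ Pk k ∘ₗ (U b a).subtype ∘ₗ LinearMap.proj β
  have hMk : ∀ k v β, M k v β = S.mkQ (Pk k (v β : V b)) := fun k v β => rfl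
  let g : ℕ → (Box b → V b ⧸ S) := fun k β =>
    - S.mkQ (Pk k ((X : ℂ[X]) ^ a • (cv (Pi.single β 1) : V b)))
  have hgk : ∀ k β, g k β = - S.mkQ (Pk k ((X : ℂ[X]) ^ a • (cv (Pi.single β 1) : V b))) :=
    fun k β => rfl
  let ℓ : (Box b → U b a) →ₗ[ℂ] Mt b :=
    { toFun := fun v γ β => ((v β : V b) γ).coeff (a - 1)
      map_add' := by
        intro v w
        funext γ β
        change (((v β : V b) + (w β : V b)) γ).coeff (a - 1) = _
        rw [Pi.add_apply, coeff_add]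
        rfl
      map_smul' := by
        intro c v
        funext γ β
        change ((c • (v β : V b)) γ).coeff (a - 1) = _
        rw [Pi.smul_apply, coeff_smul]
        rfl }
  have hℓ : ∀ v γ β, ℓ v γ β = ((v β : V b) γ).coeff (a - 1) := fun v γ β => rfl
  have hmk : ∀ G : V b, S.mkQ G = 0 ↔ G ∈ vanL b L := by
    intro G
    rw [← LinearMap.mem_ker, Submodule.ker_mkQ, hS, Submodule.restrictScalars_mem]
  -- v₀
  have hcol : ∀ β : Box b, (fun γ => Φ γ β) ∈ vanL b L := hΦ.van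
  have hv0 : ∀ β : Box b, ((fun γ => Φ γ β) - (X : ℂ[X]) ^ a • (cv (Pi.single β 1) : V b) : V b)
      ∈ U b a := by
    intro β γ j hj
    rw [Pi.sub_apply, coeff_sub, Cmp_single_coeff]
    rcases Nat.eq_or_lt_of_le hj with h1 | h1
    · subst h1
      rw [hΦ.top γ β]
      by_cases h2 : γ = β <;> simp [h2]
    · rw [hΦ.deg γ β j h1]
      have : ¬ (γ = β ∧ j = a) := by omega
      rw [if_neg this, sub_zero]
  -- v₁
  have hcomb := fun β : Box b => hΦ.comb (fun κ => Z κ β)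
  have hv1 : ∀ β : Box b, ((fun γ => divX (Φ.mulVec (cv fun κ => Z κ β) γ)) : V b) ∈ U b a := by
    intro β γ j hj
    change (divX (Φ.mulVec (cv fun κ => Z κ β) γ)).coeff j = 0
    rw [coeff_divX]
    exact (hcomb β).2.1 γ (j + 1) (by omega)
  let v₀ : Box b → U b a := fun β => ⟨_, hv0 β⟩
  let v₁ : Box b → U b a := fun β => ⟨_, hv1 β⟩
  have hv₀ : ∀ β, (v₀ β : V b) = (fun γ => Φ γ β) - (X : ℂ[X]) ^ a • (cv (Pi.single β 1) : V b) :=
    fun β => rfl
  have hv₁ : ∀ β, (v₁ β : V b) = fun γ => divX (Φ.mulVec (cv fun κ => Z κ β) γ) := fun β => rfl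
  have key := diff_lemma M g (a' + (a + 1)) (by omega) (by
      intro v hv
      funext β
      have h1 : S.mkQ (Pk 0 (v β : V b)) = 0 := by rw [← hMk, hv]; rfl
      rw [hmk, P0] at h1
      have h2 := vanL_unit L ((X : ℂ[X]) ^ a') (by
        intro p hp
        rw [eval_pow, eval_X]
        exact pow_ne_zero _ (hx p hp)) _ h1
      have h3 := h.inj _ (v β).2 h2
      exact Subtype.ext h3) ℓ 0 (Ds b μ (L.length + L'.length)) (T ∪ {0})
      (hT.union (Set.finite_singleton 0)) (by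
      intro δ hδ
      rw [Set.mem_union, not_or, Set.mem_singleton_iff] at hδ
      obtain ⟨Ψ, hΨ⟩ := exists_ph (hTB δ hδ.1)
      have hc := fun β => Cmp_col h h' Pk P0 PU Pv ha' δ hδ.2 hΨ β
      choose v hvU hvc hvv using hc
      refine ⟨fun β => ⟨v β, hvU β⟩, ?_, ?_⟩
      · funext β
        rw [Finset.sum_apply, Finset.sum_apply]
        have h1 := (hmk _).2 (hvv β)
        rw [map_sum] at h1
        rw [← sub_eq_zero, ← Finset.sum_sub_distrib, ← h1]
        refine Finset.sum_congr rfl fun k _ => ?_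
        rw [Pi.smul_apply, Pi.smul_apply, hMk, hgk, smul_neg, sub_neg_eq_add,
          (S.mkQ).map_smul (δ ^ k), (Pk k).map_add, (S.mkQ).map_add, smul_add]
      · rw [add_zero]
        refine Submodule.subset_span ⟨a + a', L ++ scL δ L', Ψ, hTB δ hδ.1, ?_, hΨ, ?_⟩
        · rw [List.length_append, scL, List.length_map]
        · funext γ β
          rw [hℓ]
          rcases hvc β γ with h1 | h1
          · change (v β γ).coeff (a - 1) = (Ψ γ β).coeff (a + a' - 1)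
            rw [h1]
            congr 1
            omega
          · omega) v₀ v₁ (by
      funext β
      rw [hMk, hgk, P0, P0, hv₀, smul_sub, map_sub]
      have : S.mkQ ((X : ℂ[X]) ^ a' • (fun γ => Φ γ β : V b)) = 0 :=
        (hmk _).2 ((vanL b L).smul_mem _ (hcol β))
      rw [this, zero_sub]) (by
      funext β
      rw [Pi.add_apply, hMk, hMk, hgk, P0, ← add_eq_zero_iff_eq_neg, add_assoc, ← map_add, ← map_add,
        ← map_add, hmk, hv₀, sub_add_cancel, P1, hv₁]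
      have hF := (hcomb β).1
      set F : V b := Φ.mulVec (cv fun κ => Z κ β) with hFdef
      have he : (cf Φ' (a' - 1)).mulVec (e0 (fun γ => Φ γ β)) = e0 F := by
        have e1 : e0 (fun γ => Φ γ β : V b) = fun κ => ev Φ 0 κ β := by
          funext κ
          rw [e0, ev, coeff_zero_eq_eval_zero]
        have e2 : e0 F = fun γ => (ev Φ 0 * Z) γ β := by
          funext γ
          rw [e0, hFdef, (hcomb β).2.2.2 γ 0, Matrix.mul_apply, Matrix.mulVec, dotProduct]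
          refine Finset.sum_congr rfl fun κ _ => ?_
          rw [cf, ev, coeff_zero_eq_eval_zero]
        rw [e1, e2, hZ]
        rfl
      rw [he]
      have hX : (X : ℂ[X]) ^ a' • (fun γ => divX (F γ) : V b) + (X : ℂ[X]) ^ (a' - 1) • cv (e0 F) =
          (X : ℂ[X]) ^ (a' - 1) • F := by
        funext γ
        rw [Pi.add_apply, Pi.smul_apply, Pi.smul_apply, Pi.smul_apply, smul_eq_mul, smul_eq_mul,
          smul_eq_mul, cv, e0]
        nth_rewrite 3 [← divX_mul_X_add (F γ)]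
        obtain ⟨a'', rfl⟩ : ∃ a'', a' = a'' + 1 := ⟨a' - 1, by omega⟩
        rw [Nat.add_sub_cancel, pow_succ]
        ring
      rw [hX]
      exact (vanL b L).smul_mem _ hF)
  constructor
  · have h1 := key.1
    rw [add_zero] at h1
    convert h1 using 1
    funext γ β
    rw [hℓ, hv₀, Pi.sub_apply, coeff_sub, Cmp_single_coeff]
    have : ¬ (γ = β ∧ a - 1 = a) := by omega
    rw [if_neg this, sub_zero]
    rfl
  · convert key.2 using 1
    funext γ β
    rw [hℓ, hv₁]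
    change Z γ β = (divX (Φ.mulVec (cv fun κ => Z κ β) γ)).coeff (a - 1)
    rw [coeff_divX, Nat.sub_add_cancel ha, (hcomb β).2.2.1 γ]

end Pool.Agent.H18.Tl
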