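import Mathlib

/-!
# Module Lin (TL): families depending polynomially on one parameter

`mem_of_poly`.  Let `k₀ < n`, `c k₀ ∉ D`.  There is a linear functional `ψ` with `ψ = 0` on `D`, `ψ (c k₀) ≠ 0`
(e.g. `Submodule.exists_dual_map_eq_bot_of_notMem` or `Submodule.exists_le_ker_of_notMem`).  The polynomial
`∑_{k<n} ψ (c k) X^k` vanishes at all `δ ∉ T`, infinitely many, so it is `0` (`Polynomial.eq_zero_of_infinite_isRoot`),
a contradiction.

`inj_of_inj`.  Choose a left inverse `g` of `M 0` (`LinearMap.exists_leftInverse_of_injective`).  In a basis of `E` the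
endomorphisms `g ∘ M k` are matrices `A k`, `A 0 = 1`; the polynomial `det (∑ X^k A k)` has the value `1` at `0`, so it has
only finitely many roots; outside of them `g ∘ ∑ δ^k M k` is injective.

`ker_le`.  Choose a complement `E'` of `ker (M 0)` (`Submodule.exists_isCompl`); `M 0` is injective on `E'`; by `inj_of_inj`
(for the restrictions to `E'`) for almost all `δ` the kernel of `M(δ)` meets `E'` in `0`, so its dimension is at most
`dim E - dim E' = dim ker (M 0)`.

`ker_lt`.  Let `E'' = ℂ v ⊕ E'` (`v ∈ ker (M 0)`).  The family `N(δ) : ℂ × E' → Q`, `N(δ)(c, w) = c ∑_{1 ≤ k < n} δ^(k-1) M k v +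
∑_{k<n} δ^k M k w`, is injective at `δ = 0`: if `c M 1 v + M 0 w = 0` then `c = 0` by `h1` (divide by `c`), so `w = 0`.  So for
almost all `δ ≠ 0` the map `M(δ)` is injective on `E''`, of dimension `dim E - dim ker (M 0) + 1`.
-/

namespace Pool.Agent.H18.Tl

open Finset

theorem mem_of_poly {N : Type*} [AddCommGroup N] [Module ℂ N] (D : Submodule ℂ N) (n : ℕ)
    (c : ℕ → N) (T : Set ℂ) (hT : T.Finite) (h : ∀ δ : ℂ, δ ∉ T → ∑ k ∈ range n, δ ^ k • c k ∈ D) :
    ∀ k < n, c k ∈ D := by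
  intro k₀ hk₀
  by_contra hc
  obtain ⟨ψ, hψ, hD⟩ := Submodule.exists_le_ker_of_notMem hc
  have hP : (∑ k ∈ range n, Polynomial.C (ψ (c k)) * Polynomial.X ^ k : Polynomial ℂ) = 0 := by
    apply Polynomial.eq_zero_of_infinite_isRoot
    refine Set.Infinite.mono ?_ hT.infinite_compl
    intro δ hδ
    have h1 := hD (h δ hδ)
    rw [LinearMap.mem_ker, map_sum] at h1
    change Polynomial.eval δ _ = 0
    rw [Polynomial.eval_finsetSum, ← h1]
    refine Finset.sum_congr rfl fun k _ => ?_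
    rw [Polynomial.eval_mul, Polynomial.eval_C, Polynomial.eval_pow, Polynomial.eval_X, map_smul,
      smul_eq_mul, mul_comm]
  have h2 : (∑ k ∈ range n, Polynomial.C (ψ (c k)) * Polynomial.X ^ k : Polynomial ℂ).coeff k₀ =
      ψ (c k₀) := by
    rw [Polynomial.finsetSum_coeff]
    simp only [Polynomial.coeff_C_mul, Polynomial.coeff_X_pow, mul_ite, mul_one, mul_zero]
    rw [Finset.sum_ite_eq, if_pos (Finset.mem_range.2 hk₀)]
  rw [hP, Polynomial.coeff_zero] at h2
  exact hψ h2.symm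

theorem inj_of_inj {E Q : Type*} [AddCommGroup E] [Module ℂ E] [FiniteDimensional ℂ E]
    [AddCommGroup Q] [Module ℂ Q] (M : ℕ → E →ₗ[ℂ] Q) (n : ℕ) (hn : 1 ≤ n)
    (hM : ∀ v, M 0 v = 0 → v = 0) :
    ∃ T : Set ℂ, T.Finite ∧ ∀ δ : ℂ, δ ∉ T → ∀ v : E, ∑ k ∈ range n, δ ^ k • M k v = 0 → v = 0 := by
  classical
  obtain ⟨g, hg⟩ := LinearMap.exists_leftInverse_of_injective (M 0)
    (LinearMap.ker_eq_bot'.2 hM)
  let b := Module.finBasis ℂ E
  let A : ℕ → Matrix (Fin (Module.finrank ℂ E)) (Fin (Module.finrank ℂ E)) ℂ :=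
    fun k => LinearMap.toMatrix b b (g ∘ₗ M k)
  let B : Matrix (Fin (Module.finrank ℂ E)) (Fin (Module.finrank ℂ E)) (Polynomial ℂ) :=
    ∑ k ∈ range n, (Polynomial.X ^ k : Polynomial ℂ) • (A k).map Polynomial.C
  have hB : ∀ δ : ℂ, B.det.eval δ = LinearMap.det (∑ k ∈ range n, δ ^ k • (g ∘ₗ M k)) := by
    intro δ
    rw [← LinearMap.det_toMatrix b, map_sum]
    have h1 : B.det.eval δ = (Polynomial.evalRingHom δ) B.det := rfl
    rw [h1, RingHom.map_det]
    congr 1
    ext i j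
    simp only [B, RingHom.mapMatrix_apply, Matrix.map_apply, Matrix.sum_apply, Matrix.smul_apply,
      smul_eq_mul, map_sum, Polynomial.coe_evalRingHom, map_smul]
    refine Finset.sum_congr rfl fun k _ => ?_
    rw [Polynomial.eval_mul, Polynomial.eval_pow, Polynomial.eval_X, Polynomial.eval_C]
  have h0 : B.det.eval 0 = 1 := by
    rw [hB 0]
    have h1 : ∑ k ∈ range n, (0 : ℂ) ^ k • (g ∘ₗ M k) = LinearMap.id := by
      rw [Finset.sum_eq_single_of_mem 0 (Finset.mem_range.2 hn)]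
      · rw [pow_zero, one_smul, hg]
      · intro k _ hk
        rw [zero_pow hk, zero_smul]
    rw [h1, LinearMap.det_id]
  have hne : B.det ≠ 0 := by
    intro hz
    rw [hz, Polynomial.eval_zero] at h0
    exact zero_ne_one h0
  refine ⟨{δ | B.det.IsRoot δ}, Polynomial.finite_setOfPred_isRoot hne, ?_⟩
  intro δ hδ v hv
  have hd : LinearMap.det (∑ k ∈ range n, δ ^ k • (g ∘ₗ M k)) ≠ 0 := by
    rw [← hB δ]
    exact hδ
  have hk : (∑ k ∈ range n, δ ^ k • (g ∘ₗ M k)) v = 0 := by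
    have h2 := congrArg g hv
    rw [map_zero, map_sum] at h2
    rw [LinearMap.sum_apply, ← h2]
    refine Finset.sum_congr rfl fun k _ => ?_
    rw [LinearMap.smul_apply, LinearMap.comp_apply, map_smul]
  have hki := (LinearMap.equivOfDetNeZero (∑ k ∈ range n, δ ^ k • (g ∘ₗ M k)) hd).injective
  apply hki
  rw [map_zero]
  exact hk

theorem ker_le {E Q : Type*} [AddCommGroup E] [Module ℂ E] [FiniteDimensional ℂ E]
    [AddCommGroup Q] [Module ℂ Q] (M : ℕ → E →ₗ[ℂ] Q) (n : ℕ) (hn : 1 ≤ n) :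
    ∃ T : Set ℂ, T.Finite ∧ ∀ δ : ℂ, δ ∉ T →
      Module.finrank ℂ (LinearMap.ker (∑ k ∈ range n, δ ^ k • M k)) ≤
        Module.finrank ℂ (LinearMap.ker (M 0)) := by
  obtain ⟨E', hE'⟩ := Submodule.exists_isCompl (LinearMap.ker (M 0))
  obtain ⟨T, hT, h⟩ := inj_of_inj (fun k => (M k).domRestrict E') n hn (by
    intro w hw
    have h1 : (w : E) ∈ LinearMap.ker (M 0) ⊓ E' := ⟨hw, w.2⟩
    rw [hE'.inf_eq_bot] at h1
    exact Subtype.ext ((Submodule.mem_bot ℂ).1 h1))
  refine ⟨T, hT, fun δ hδ => ?_⟩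
  have hd : Disjoint (LinearMap.ker (∑ k ∈ range n, δ ^ k • M k)) E' := by
    rw [Submodule.disjoint_def]
    intro x hx hx'
    have h2 := h δ hδ ⟨x, hx'⟩ (by
      rw [LinearMap.mem_ker, LinearMap.sum_apply] at hx
      exact hx)
    exact congrArg Subtype.val h2
  have h3 := Submodule.finrank_add_finrank_le_of_disjoint hd
  have h4 := Submodule.finrank_add_eq_of_isCompl hE'
  omega

theorem ker_lt {E Q : Type*} [AddCommGroup E] [Module ℂ E] [FiniteDimensional ℂ E]
    [AddCommGroup Q] [Module ℂ Q] (M : ℕ → E →ₗ[ℂ] Q) (n : ℕ) (hn : 2 ≤ n) (v : E)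
    (hv : M 0 v = 0) (h1 : ∀ w, M 0 w + M 1 v ≠ 0) :
    ∃ T : Set ℂ, T.Finite ∧ ∀ δ : ℂ, δ ∉ T →
      Module.finrank ℂ (LinearMap.ker (∑ k ∈ range n, δ ^ k • M k)) + 1 ≤
        Module.finrank ℂ (LinearMap.ker (M 0)) := by
  obtain ⟨E', hE'⟩ := Submodule.exists_isCompl (LinearMap.ker (M 0))
  let u : ℕ → Q := fun k => if k + 1 < n then M (k + 1) v else 0
  let N : ℕ → (ℂ × E') →ₗ[ℂ] Q := fun k =>
    (LinearMap.fst ℂ ℂ E').smulRight (u k) + (M k).domRestrict E' ∘ₗ LinearMap.snd ℂ ℂ E'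
  have hN : ∀ k c w, N k (c, w) = c • u k + M k (w : E) := fun k c w => rfl
  obtain ⟨T, hT, h⟩ := inj_of_inj N n (by omega) (by
    rintro ⟨c, w⟩ hw
    rw [hN] at hw
    have hu : u 0 = M 1 v := if_pos (by omega)
    rw [hu] at hw
    have hc : c = 0 := by
      by_contra hc
      apply h1 (c⁻¹ • (w : E))
      rw [map_smul]
      have h2 := congrArg (fun x => c⁻¹ • x) hw
      simp only [smul_add, smul_zero, inv_smul_smul₀ hc] at h2
      rw [add_comm]
      exact h2
    subst hc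
    rw [zero_smul, zero_add] at hw
    have h3 : (w : E) ∈ LinearMap.ker (M 0) ⊓ E' := ⟨hw, w.2⟩
    rw [hE'.inf_eq_bot] at h3
    have h4 : w = 0 := Subtype.ext ((Submodule.mem_bot ℂ).1 h3)
    rw [h4]
    rfl)
  refine ⟨insert 0 T, hT.insert 0, fun δ hδ => ?_⟩
  have hδ0 : δ ≠ 0 := fun h0 => hδ (Set.mem_insert_iff.2 (Or.inl h0))
  have hδT : δ ∉ T := fun h0 => hδ (Set.mem_insert_of_mem 0 h0)
  let J : (ℂ × E') →ₗ[ℂ] E :=
    (LinearMap.fst ℂ ℂ E').smulRight (δ⁻¹ • v) + E'.subtype ∘ₗ LinearMap.snd ℂ ℂ E'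
  have hJ : ∀ c w, J (c, w) = c • δ⁻¹ • v + (w : E) := fun c w => rfl
  have hMJ : ∀ x, (∑ k ∈ range n, δ ^ k • M k) (J x) = ∑ k ∈ range n, δ ^ k • N k x := by
    rintro ⟨c, w⟩
    rw [hJ, LinearMap.sum_apply]
    simp only [LinearMap.smul_apply, map_add, map_smul, smul_add, hN, Finset.sum_add_distrib]
    congr 1
    obtain ⟨m, rfl⟩ : ∃ m, n = m + 1 := ⟨n - 1, by omega⟩
    rw [Finset.sum_range_succ', Finset.sum_range_succ, hv]
    have hum : u m = 0 := if_neg (by omega)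
    rw [hum, smul_zero, smul_zero, smul_zero, smul_zero, add_zero, add_zero]
    refine Finset.sum_congr rfl fun k hk => ?_
    have huk : u k = M (k + 1) v := if_pos (by have := Finset.mem_range.1 hk; omega)
    rw [huk, smul_smul, smul_smul, smul_smul]
    congr 1
    rw [pow_succ]
    field_simp
  have hinj : ∀ x, (∑ k ∈ range n, δ ^ k • M k) (J x) = 0 → x = 0 := fun x hx =>
    h δ hδT x (by rw [← hMJ]; exact hx)
  have hJi : Function.Injective J := by
    rw [← LinearMap.ker_eq_bot, LinearMap.ker_eq_bot']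
    intro x hx
    exact hinj x (by rw [hx, map_zero])
  have hd : Disjoint (LinearMap.ker (∑ k ∈ range n, δ ^ k • M k)) (LinearMap.range J) := by
    rw [Submodule.disjoint_def]
    rintro _ hx ⟨x, rfl⟩
    rw [hinj x hx, map_zero]
  have h3 := Submodule.finrank_add_finrank_le_of_disjoint hd
  have h4 := Submodule.finrank_add_eq_of_isCompl hE'
  have h5 : Module.finrank ℂ (LinearMap.range J) = 1 + Module.finrank ℂ E' := by
    rw [LinearMap.finrank_range_of_inj hJi, Module.finrank_prod, Module.finrank_self]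
  omega

end Pool.Agent.H18.Tl
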