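import Pool.Agent.H18.Tl.Td
import Pool.Agent.H18.Tl.Lin

/-!
# Module CmpB (TL): the union of an exact block and a tiny exact block at `t = 0` is exact

Let `Pk` be as in `exists_td` for the block `L'` (height `a'`).

`cmp_blk`: let `F ∈ U b (a + a')` vanish at `L ++ scL δ L'`, `δ ≠ 0`.  `F = X^a' s + r`, `s ∈ U b a` (`exists_div`), and
`F = ∑_{k < a'+a} δ^k Pk k s` (the difference is in `U b a'` and vanishes at `scL δ L'`).  The maps
`M k : U b a → V b ⧸ vanL b L`, `s ↦ [Pk k s]`, satisfy `M 0 s = [X^a' s]`, injective (`vanL_unit`, `h.inj`).  So by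
`inj_of_inj` for almost all `δ` we get `s = 0`, `F = 0`.  The `x` are distinct if `δ ≠ 0` and `δ p'.x ≠ p.x` for all `p ∈ L`, `p' ∈ L'`
(finitely many `δ` are excluded, since `p.x ≠ 0`).
-/

namespace Pool.Agent.H18.Tl

open Finset Polynomial

variable {τ : Type} [Fintype τ] [DecidableEq τ] {b : τ → ℕ} {μ a a' : ℕ} {L L' : List (Pt τ)}

theorem cmp_blk (h : Blk b μ a L) (h' : Blk b μ a' L') (hx : ∀ p ∈ L, p.x ≠ 0) (ha' : 1 ≤ a') :
    ∃ T : Set ℂ, T.Finite ∧ ∀ δ : ℂ, δ ∉ T → Blk b μ (a + a') (L ++ scL δ L') := by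
  classical
  obtain ⟨Φ, hΦ⟩ := exists_ph h'
  obtain ⟨Pk, hP0, -, hPU, -, hPv⟩ := exists_td h' hΦ ha'
  let W : Submodule ℂ (V b) := (vanL b L).restrictScalars ℂ
  let M : ℕ → U b a →ₗ[ℂ] V b ⧸ W := fun k => W.mkQ ∘ₗ Pk k ∘ₗ (U b a).subtype
  have hMk : ∀ k v, M k v = W.mkQ (Pk k (v : V b)) := fun _ _ => rfl
  have hM : ∀ v, M 0 v = 0 → v = 0 := by
    intro v hv
    have h1 : (X : ℂ[X]) ^ a' • (v : V b) ∈ vanL b L := by
      rw [hMk, Submodule.mkQ_apply, Submodule.Quotient.mk_eq_zero, hP0] at hv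
      exact hv
    have h3 : (v : V b) ∈ vanL b L := by
      refine vanL_unit L _ (fun p hp => ?_) _ h1
      rw [eval_pow, eval_X]
      exact pow_ne_zero _ (hx p hp)
    exact Subtype.ext (h.inj _ v.2 h3)
  obtain ⟨T, hT, hTi⟩ := inj_of_inj M (a' + a) (by omega) hM
  let T3 : Set ℂ :=
    (fun q : ℂ × ℂ => q.1 / q.2) '' ({x | x ∈ L.map Pt.x} ×ˢ {x | x ∈ L'.map Pt.x})
  have hT3 : T3.Finite :=
    (Set.Finite.prod (List.finite_toSet (L.map Pt.x)) (List.finite_toSet (L'.map Pt.x))).image _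
  refine ⟨(T ∪ {0}) ∪ T3, (hT.union (Set.finite_singleton 0)).union hT3, fun δ hδ => ?_⟩
  have hδT : δ ∉ T := fun hc => hδ (Or.inl (Or.inl hc))
  have hδ0 : δ ≠ 0 := fun hc => hδ (Or.inl (Or.inr hc))
  have hδ3 : δ ∉ T3 := fun hc => hδ (Or.inr hc)
  have hsc : Blk b μ a' (scL δ L') := Blk.sc h' δ hδ0
  refine ⟨?_, ?_, ?_, ?_⟩
  · intro p hp
    rcases List.mem_append.1 hp with hp | hp
    · exact h.mult p hp
    · exact hsc.mult p hp
  · rw [List.map_append, List.nodup_append]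
    refine ⟨h.dist, hsc.dist, ?_⟩
    intro x hxL y hy hxy
    subst hxy
    obtain ⟨q, hq, hqx⟩ := List.mem_map.1 hy
    obtain ⟨p', hp', rfl⟩ := List.mem_map.1 hq
    have hqx' : δ * p'.x = x := hqx
    obtain ⟨p, hp, hpx⟩ := List.mem_map.1 hxL
    have hx0 : x ≠ 0 := by
      rw [← hpx]
      exact hx p hp
    have hp0 : p'.x ≠ 0 := by
      intro hc
      rw [hc, mul_zero] at hqx'
      exact hx0 hqx'.symm
    refine hδ3 ⟨(x, p'.x), ⟨hxL, List.mem_map.2 ⟨p', hp', rfl⟩⟩, ?_⟩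
    change x / p'.x = δ
    rw [← hqx', mul_div_assoc, div_self hp0, mul_one]
  · have h1 := h.cnt
    have h2 := hsc.cnt
    rw [List.length_append, Nat.add_mul, Nat.add_mul, h1, h2]
  · intro F hFU hFL
    rw [vanL_append] at hFL
    obtain ⟨hFL1, hFL2⟩ := hFL
    obtain ⟨s, hsr, hsc'⟩ := exists_div (b := b) a' F
    have hsU : s ∈ U b a := by
      rw [mem_U]
      intro β j hj
      rw [hsc', mem_U.1 hFU β (j + a') (by omega)]
    have hG := hPv a s hsU δ hδ0
    set G : V b := ∑ k ∈ range (a' + a), δ ^ k • Pk k s with hGdef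
    have hG0 : G - (X : ℂ[X]) ^ a' • s ∈ U b a' := by
      have h1 : G = ∑ k ∈ range (a' + a - 1), δ ^ (k + 1) • Pk (k + 1) s +
          (X : ℂ[X]) ^ a' • s := by
        have h2 : a' + a = (a' + a - 1) + 1 := by omega
        rw [hGdef]
        conv_lhs => rw [h2, Finset.sum_range_succ']
        rw [pow_zero, one_smul, hP0]
      rw [h1, add_sub_cancel_right]
      refine Submodule.sum_mem _ (fun k _ => Submodule.smul_mem _ _ (hPU _ _ (by omega)))
    have hFG : F = G := by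
      have h1 : F - G ∈ U b a' := by
        have h2 := (U b a').sub_mem hsr hG0
        rwa [sub_sub_sub_cancel_right] at h2
      have h2 : F - G ∈ vanL b (scL δ L') := (vanL b (scL δ L')).sub_mem hFL2 hG
      exact sub_eq_zero.1 (hsc.inj _ h1 h2)
    have h0 : ∑ k ∈ range (a' + a), δ ^ k • M k ⟨s, hsU⟩ = 0 := by
      have h1 : ∑ k ∈ range (a' + a), δ ^ k • M k ⟨s, hsU⟩ = W.mkQ G := by
        rw [hGdef, map_sum]
        refine Finset.sum_congr rfl (fun k _ => ?_)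
        rw [map_smul, hMk]
      rw [h1, Submodule.mkQ_apply, Submodule.Quotient.mk_eq_zero, ← hFG]
      exact hFL1
    have hs0 : s = 0 := congrArg Subtype.val (hTi δ hδT _ h0)
    rw [hFG, hGdef]
    refine Finset.sum_eq_zero (fun k _ => ?_)
    rw [hs0, map_zero, smul_zero]

end Pool.Agent.H18.Tl
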