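import Pool.Agent.H18.Tk.FinalK

/-!
# Module CntP (TL): a part of the coordinates

`bwe`: the width `c l` at the coordinates `l < s` of the form `l = e l'`, the width `d` at the others.

`cnt_bwe`: let `σ` be a permutation of `Fin (r + 1)` with `σ l = e l` (as numbers) for `l < q` (extend the injection
`Fin q → Fin (r + 1)`; e.g. `Function.Embedding` / `Equiv.Perm` extension such as `Equiv.extendSubtype`, or
`Finset.exists_equiv_extend_of_card_eq`); then `α ↦ α ∘ σ` is a bijection from `Rg n (bwe …)` onto the set counted by `cnt r q (c ∘ e) n`.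
-/

namespace Pool.Agent.H18.Tl

open Finset Function Pool.Agent.H18.Tj

open Classical in
/-- The widths for a part of the coordinates. -/
noncomputable def bwe (r d s q : ℕ) (c : Fin s → ℕ) (e : Fin q ↪ Fin s) : Fin (r + 1) → ℕ :=
  fun i => if h : ∃ l, (e l).val = i.val then c (e h.choose) else d

theorem bwe_val {r d s q : ℕ} (c : Fin s → ℕ) (e : Fin q ↪ Fin s) (l : Fin q) (i : Fin (r + 1))
    (hi : (e l).val = i.val) : bwe r d s q c e i = c (e l) := by
  have h : ∃ l, (e l).val = i.val := ⟨l, hi⟩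
  unfold bwe
  rw [dif_pos h]
  have h1 := h.choose_spec
  have h2 : e h.choose = e l := Fin.ext (h1.trans hi.symm)
  rw [h2]

theorem bwe_of_ne {r d s q : ℕ} (c : Fin s → ℕ) (e : Fin q ↪ Fin s) (i : Fin (r + 1))
    (hi : ∀ l, (e l).val ≠ i.val) : bwe r d s q c e i = d := by
  unfold bwe
  rw [dif_neg]
  rintro ⟨l, hl⟩
  exact hi l hl

private theorem CntP_perm {r s q : ℕ} (hs : s ≤ r + 1) (e : Fin q ↪ Fin s) :
    ∃ σ : Equiv.Perm (Fin (r + 1)), ∀ (i : Fin (r + 1)) (h : i.val < q),
      (σ i).val = (e ⟨i.val, h⟩).val := by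
  classical
  let f : Fin (r + 1) → Fin (r + 1) := fun i =>
    if h : i.val < q then ⟨(e ⟨i.val, h⟩).val, lt_of_lt_of_le (e ⟨i.val, h⟩).2 hs⟩ else i
  have hf : ∀ (i : Fin (r + 1)) (h : i.val < q), (f i).val = (e ⟨i.val, h⟩).val := by
    intro i h
    show (if h : i.val < q then (⟨(e ⟨i.val, h⟩).val, lt_of_lt_of_le (e ⟨i.val, h⟩).2 hs⟩ :
      Fin (r + 1)) else i).val = _
    rw [dif_pos h]
  obtain ⟨g, hg⟩ := Finset.exists_equiv_extend_of_card_eq (α := Fin (r + 1)) (β := Fin (r + 1))
    (t := univ) (by rw [card_univ]) (s := univ.filter fun i : Fin (r + 1) => i.val < q) (f := f)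
    (subset_univ _) (by
      intro i hi j hj hij
      rw [mem_coe, mem_filter] at hi hj
      have h1 := hf i hi.2
      have h2 := hf j hj.2
      rw [hij, h2] at h1
      have h3 := e.injective (Fin.ext h1)
      rw [Fin.mk.injEq] at h3
      exact Fin.ext h3.symm)
  refine ⟨g.trans (Equiv.subtypeUnivEquiv fun x => mem_univ x), fun i h => ?_⟩
  have h1 := hg i (mem_filter.2 ⟨mem_univ _, h⟩)
  rw [Equiv.trans_apply, Equiv.subtypeUnivEquiv_apply, h1]
  exact hf i h

theorem cnt_bwe {r d s q n : ℕ} (hs : s ≤ r + 1) (hn : n ≤ d) (c : Fin s → ℕ)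
    (e : Fin q ↪ Fin s) : cnt r q (fun l => c (e l)) n = (Ex.Rg n (bwe r d s q c e)).card := by
  have hq : q ≤ s := by
    have := Fintype.card_le_of_embedding e
    rwa [Fintype.card_fin, Fintype.card_fin] at this
  rw [count_eq r q d n (hq.trans hs) hn]
  obtain ⟨σ, hσ⟩ := CntP_perm hs e
  have hw : ∀ i, bwe r d s q c e (σ i) = bw r d q (fun l => c (e l)) i := by
    intro i
    unfold bw
    split_ifs with h
    · exact bwe_val c e ⟨i.val, h⟩ (σ i) (hσ i h).symm
    · apply bwe_of_ne
      intro l hl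
      have h1 : l.val < r + 1 := lt_of_lt_of_le l.2 (hq.trans hs)
      have h2 := hσ ⟨l.val, h1⟩ l.2
      have h3 : σ ⟨l.val, h1⟩ = σ i := by
        apply Fin.ext
        rw [h2]
        exact hl
      have h4 := σ.injective h3
      rw [← h4] at h
      exact h l.2
  symm
  apply Finset.card_bij' (fun α _ => α ∘ σ) (fun α _ => α ∘ σ.symm)
  · intro α hα
    rw [Ex.mem_Rg] at hα ⊢
    refine ⟨fun i => ?_, ?_⟩
    · rw [← hw i]
      exact hα.1 (σ i)
    · rw [← hα.2]
      exact Equiv.sum_comp σ α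
  · intro α hα
    rw [Ex.mem_Rg] at hα ⊢
    refine ⟨fun i => ?_, ?_⟩
    · have h1 := hw (σ.symm i)
      rw [Equiv.apply_symm_apply] at h1
      rw [h1]
      exact hα.1 (σ.symm i)
    · rw [← hα.2]
      exact Equiv.sum_comp σ.symm α
  · intro α _
    funext i
    simp
  · intro α _
    funext i
    simp

end Pool.Agent.H18.Tl
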