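import Pool.Agent.H18.Tl.Vn

/-!
# Module Dm (TL): dimensions

`Ve b e` is linearly equivalent to the functions on `Σ β, Fin (e + 1 - dg β)` (coefficients), `U b a` to the functions on
`Box b × Fin a` (or `Module.finrank_pi_fintype` with `degreeLT`).

`h0_le`, `h0_eq_zero`: `Sol b e L ≤ Ve b e`, `Submodule.finrank_mono`, `Submodule.finrank_eq_zero`.
-/

namespace Pool.Agent.H18.Tl

open Finset Polynomial

variable {τ : Type} [Fintype τ] [DecidableEq τ] {b : τ → ℕ}

/-- The submodule of the vectors with bounded degrees. -/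
private def Dm_W (b : τ → ℕ) (n : Box b → ℕ) : Submodule ℂ (V b) where
  carrier := {F | ∀ β j, n β ≤ j → (F β).coeff j = 0}
  add_mem' := by
    intro F G hF hG β j h
    rw [Pi.add_apply, coeff_add, hF β j h, hG β j h, add_zero]
  zero_mem' := fun _ _ _ => rfl
  smul_mem' := by
    intro c F hF β j h
    rw [Pi.smul_apply, coeff_smul, hF β j h, smul_zero]

/-- The coefficients. -/
private noncomputable def Dm_equiv (n : Box b → ℕ) :
    Dm_W b n ≃ₗ[ℂ] ((β : Box b) → (Polynomial.degreeLT ℂ (n β))) where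
  toFun F := fun β => ⟨F.1 β, by
    rw [Polynomial.mem_degreeLT, Polynomial.degree_lt_iff_coeff_zero]
    exact fun j hj => F.2 β j hj⟩
  map_add' _ _ := rfl
  map_smul' _ _ := rfl
  invFun G := ⟨fun β => (G β).1, by
    intro β j hj
    have := (G β).2
    rw [Polynomial.mem_degreeLT, Polynomial.degree_lt_iff_coeff_zero] at this
    exact this j hj⟩
  left_inv _ := rfl
  right_inv _ := rfl

/-- The coefficients. -/
private noncomputable def Dm_equiv2 (n : Box b → ℕ) :
    Dm_W b n ≃ₗ[ℂ] ((β : Box b) → (Fin (n β) → ℂ)) :=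
  (Dm_equiv n).trans (LinearEquiv.piCongrRight fun β => Polynomial.degreeLTEquiv ℂ (n β))

private theorem Dm_finite (n : Box b → ℕ) : FiniteDimensional ℂ (Dm_W b n) :=
  Module.Finite.equiv (Dm_equiv2 n).symm

private theorem Dm_finrank (n : Box b → ℕ) : Module.finrank ℂ (Dm_W b n) = ∑ β, n β := by
  rw [(Dm_equiv2 n).finrank_eq, Module.finrank_pi_fintype]
  simp

omit [DecidableEq τ] in
private theorem Dm_Ve (e : ℕ) : Ve b e = Dm_W b (fun β => e + 1 - dg β) := by
  ext F
  constructor
  · intro h β j hj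
    have hj' : e + 1 - dg β ≤ j := hj
    exact h β j (by omega)
  · intro h β j hj
    exact h β j (show e + 1 - dg β ≤ j by omega)

omit [Fintype τ] [DecidableEq τ] in
private theorem Dm_U (a : ℕ) : U b a = Dm_W b (fun _ => a) := rfl

instance (e : ℕ) : FiniteDimensional ℂ (Ve b e) := by
  rw [Dm_Ve]
  exact Dm_finite _

instance (a : ℕ) : FiniteDimensional ℂ (U b a) := by
  rw [Dm_U]
  exact Dm_finite _

instance (e : ℕ) (L : List (Pt τ)) : FiniteDimensional ℂ (Sol b e L) :=
  Submodule.finiteDimensional_of_le (inf_le_left : Sol b e L ≤ Ve b e)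

theorem finrank_Ve (e : ℕ) : Module.finrank ℂ (Ve b e) = Lm b (e + 1) := by
  rw [Dm_Ve, Dm_finrank, Lm]

theorem finrank_U (a : ℕ) : Module.finrank ℂ (U b a) = a * Pc b := by
  rw [Dm_U, Dm_finrank, Finset.sum_const, Finset.card_univ, smul_eq_mul, Pc, mul_comm]

theorem h0_le (e : ℕ) (L : List (Pt τ)) : h0 b e L ≤ Lm b (e + 1) := by
  rw [← finrank_Ve]
  exact Submodule.finrank_mono (inf_le_left : Sol b e L ≤ Ve b e)

/-- `h0 = 0` means that only `0` is a solution. -/
theorem h0_eq_zero (e : ℕ) (L : List (Pt τ)) : h0 b e L = 0 ↔ ∀ F ∈ Sol b e L, F = 0 := by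
  rw [h0, Submodule.finrank_eq_zero, Submodule.eq_bot_iff]

end Pool.Agent.H18.Tl
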