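import Pool.Agent.H18.Tl.Defs
import Pool.Agent.H18.Ex.Multi

/-!
# Module ExZ (TL): boxes with one active coordinate

`bx b a`: the exponents `α : Option τ → ℕ` with `α none < a`, `α (some l) ≤ b l`.

`ExB_zero`: `b = 0`.  The elements of `bx b a` are the functions `α` with `α none = j < a` and `α (some l) = 0`.  With distinct
`t`-coordinates `x_i` (e.g. `x_i = i`, all other coordinates arbitrary) the conditions `c` with `c none = j < m_i`, `c (some l) = 0`, say that
the polynomial `∑_{j<a} f_j t^j` of degree `< a` vanishes to order `m_i` at `x_i`; it is divisible by `∏ (t - x_i)^(m_i)`, of degree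
`∑ m_i ≥ a`, so it is zero (compare `Core_zero` in `Pool/Agent/H18/Ta/Core.lean` and `Thin_base`, `ThinG_base` in `Tj/Thin.lean`,
`Tk/ThinG.lean`).
-/

namespace Pool.Agent.H18.Tl

open Finset Function Pool.Agent.H18.Ex

variable {τ : Type} [Fintype τ] [DecidableEq τ]

/-- The exponents. -/
def bx (b : τ → ℕ) (a : ℕ) : Finset (Option τ → ℕ) :=
  Fintype.piFinset fun o => match o with
    | none => range a
    | some l => range (b l + 1)

theorem mem_bx {b : τ → ℕ} {a : ℕ} {α : Option τ → ℕ} :
    α ∈ bx b a ↔ α none < a ∧ ∀ l, α (some l) ≤ b l := by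
  unfold bx
  rw [Fintype.mem_piFinset]
  constructor
  · intro h
    refine ⟨mem_range.1 (h none), fun l => ?_⟩
    exact Nat.lt_succ_iff.1 (mem_range.1 (h (some l)))
  · rintro ⟨h1, h2⟩ o
    cases o with
    | none => exact mem_range.2 h1
    | some l => exact mem_range.2 (Nat.lt_succ_iff.2 (h2 l))

/-- A polynomial of small degree with many zeros vanishes. -/
private theorem ExZ_core {κ : Type} [Fintype κ] (x : κ → ℂ) (hx : Function.Injective x) (n : κ → ℕ)
    (N : ℕ) (hN : N ≤ ∑ i, n i) (b : ℕ → ℂ)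
    (h : ∀ i, ∀ α < n i, ∑ a ∈ range N, b a * ((a.choose α : ℕ) * x i ^ (a - α)) = 0) :
    ∀ a < N, b a = 0 := by
  classical
  set p : Polynomial ℂ := ∑ a ∈ range N, Polynomial.monomial a (b a) with hp
  have hcoeff : ∀ a < N, p.coeff a = b a := by
    intro a ha
    rw [hp, Polynomial.finsetSum_coeff]
    simp only [Polynomial.coeff_monomial]
    rw [sum_ite_eq' (range N) a b, if_pos (mem_range.2 ha)]
  have hdeg : p.degree < N := by
    rw [Polynomial.degree_lt_iff_coeff_zero]
    intro k hk
    rw [hp, Polynomial.finsetSum_coeff]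
    apply sum_eq_zero
    intro a ha
    rw [Polynomial.coeff_monomial, if_neg]
    rw [mem_range] at ha
    omega
  have hdvd : ∀ i, (Polynomial.X - Polynomial.C (x i)) ^ n i ∣ p := by
    intro i
    rw [Polynomial.X_sub_C_pow_dvd_iff, Polynomial.X_pow_dvd_iff]
    intro α hα
    have h1 : (p.comp (Polynomial.X + Polynomial.C (x i))).coeff α =
        (Polynomial.taylor (x i) p).coeff α := by
      rw [Polynomial.taylor_apply]
    rw [h1, Polynomial.taylor_coeff, hp, map_sum, Polynomial.eval_finsetSum, ← h i α hα]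
    refine sum_congr rfl fun a _ => ?_
    rw [Polynomial.hasseDeriv_monomial, Polynomial.eval_monomial]
    ring
  have hprod : (∏ i, (Polynomial.X - Polynomial.C (x i)) ^ n i) ∣ p := by
    apply Finset.prod_dvd_of_coprime
    · intro i _ j _ hij
      exact (Polynomial.pairwise_coprime_X_sub_C hx hij).pow
    · intro i _
      exact hdvd i
  have hp0 : p = 0 := by
    by_contra hne
    have h1 := Polynomial.degree_le_of_dvd hprod hne
    have h2 : (∏ i, (Polynomial.X - Polynomial.C (x i)) ^ n i).degree = ((∑ i, n i : ℕ) : WithBot ℕ) := by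
      rw [Polynomial.degree_prod]
      simp [Polynomial.degree_pow, Polynomial.degree_X_sub_C]
    rw [h2] at h1
    have h3 : ((∑ i, n i : ℕ) : WithBot ℕ) < N := lt_of_le_of_lt h1 hdeg
    have h4 : ∑ i, n i < N := by exact_mod_cast h3
    omega
  intro a ha
  rw [← hcoeff a ha, hp0, Polynomial.coeff_zero]

/-- the exponent `(j, 0)` -/
private def ExZ_e (j : ℕ) : Option τ → ℕ := fun o => o.elim j fun _ => 0

/-- the point `(x, 0)` -/
private def ExZ_pos (x : ℂ) : Option τ → ℂ := fun o => o.elim x fun _ => 0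

theorem ExB_zero (b : τ → ℕ) (hb : ∀ l, b l = 0) (S : Multiset ℕ) (a : ℕ) (h : a ≤ S.sum) :
    GM (bx b a) (S.map Kind.free) := by
  classical
  obtain ⟨m, t, rfl⟩ := multi_exists_fin S
  rw [Multiset.map_map, GM_iff]
  have hm : a ≤ ∑ i, t i := h
  refine ⟨fun i => ExZ_pos (i : ℂ), fun f hf => ?_⟩
  have hA : bx b a = (range a).image (ExZ_e (τ := τ)) := by
    ext α
    rw [mem_bx, mem_image]
    constructor
    · rintro ⟨h1, h2⟩
      refine ⟨α none, mem_range.2 h1, ?_⟩
      funext o
      cases o with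
      | none => rfl
      | some l =>
        have h3 := h2 l
        rw [hb l] at h3
        show 0 = α (some l)
        omega
    · rintro ⟨j, hj, rfl⟩
      exact ⟨mem_range.1 hj, fun l => Nat.zero_le _⟩
  have hinj : ∀ j ∈ range a, ∀ k ∈ range a, ExZ_e (τ := τ) j = ExZ_e k → j = k := by
    intro j _ k _ hjk
    exact congrFun hjk none
  have key := ExZ_core (κ := Fin m) (fun i => ((i : ℕ) : ℂ))
    (fun i j hij => Fin.ext (by
      have h0 : ((i : ℕ) : ℂ) = ((j : ℕ) : ℂ) := hij
      exact_mod_cast h0)) t a hm (fun j => f (ExZ_e j)) (by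
      intro i α hα
      have h1 := hf i (ExZ_e α) (by
        show ∑ o, ExZ_e (τ := τ) α o < t i
        rw [Fintype.sum_option]
        have : ∑ l : τ, ExZ_e α (some l) = 0 := sum_eq_zero fun l _ => rfl
        rw [this]
        exact hα)
      rw [hA, sum_image hinj] at h1
      rw [← h1]
      refine sum_congr rfl fun j _ => ?_
      congr 1
      unfold tcr
      rw [Fintype.prod_option]
      have h2 : ∀ l : τ, (((ExZ_e (τ := τ) j (some l)).choose (ExZ_e (τ := τ) α (some l)) : ℕ) : ℂ) *
          (Kind.free (t i)).pt (ExZ_pos (τ := τ) (i : ℂ)) (some l) ^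
            (ExZ_e (τ := τ) j (some l) - ExZ_e (τ := τ) α (some l)) = 1 := by
        intro l
        simp [ExZ_e]
      show _ = _ * ∏ l : τ, (((ExZ_e (τ := τ) j (some l)).choose (ExZ_e (τ := τ) α (some l)) : ℕ) : ℂ) *
          (Kind.free (t i)).pt (ExZ_pos (τ := τ) (i : ℂ)) (some l) ^
            (ExZ_e (τ := τ) j (some l) - ExZ_e (τ := τ) α (some l))
      rw [prod_congr rfl fun l _ => h2 l, prod_const_one, mul_one]
      rfl)
  intro α hα
  rw [hA, mem_image] at hα
  obtain ⟨j, hj, rfl⟩ := hα
  exact key j (mem_range.1 hj)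

end Pool.Agent.H18.Tl
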