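import Pool.Agent.H18.Tl.BalQ
import Pool.Agent.H18.Tl.LmC
import Pool.Agent.H18.Tl.ExZ
import Pool.Agent.H18.Tj.Layer

/-!
# Module ExB (TL): exactness of long boxes for balanced multisets

`bx b a`: the exponents `α : Option τ → ℕ` with `α none < a`, `α (some l) ≤ b l`.

Induction on the number of `l` with `0 < b l`.  Base `b = 0`: `ExB_zero` with `N = 1`; `Lm b m = m`, `Pc b = 1` (`Box b` has one element).
Step: let `0 < b y`, `ℓ = b y + 1`, `b' = update b y 0`, `N'` from the induction hypothesis for `b'`, `M`; `W m t = Lm b' (m - t)`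
(`Lm_dec`, `Lm_conv`); `D`, `n` from `weightsN ℓ M`; `N = N' * D`.  Let `S` have elements `≤ M` and `a * Pc b ≤ N * ∑_S Lm b`.  The
points: for every `m ∈ S` and `u < ℓ`, `N' * n m u` points with multiplicity `m` and `u_i = u` (altogether `N' * D = N` for each `m`; the
multiset of all pairs `(m, u)` is `P = ∑_{m ∈ S} ∑_{u<ℓ} replicate (N' * n m u) (m, u)`, and `P.map Prod.fst = N • S`).  `layers`
(`Pool/Agent/H18/Tj/Layer.lean`) with `y := some y`: the layer `s` is `bx b' a` and its multiset of multiplicities is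
`P.map (fun p => p.1 - rk ℓ p.2 0 s) = N' • S_s`, `S_s = ∑_{m ∈ S} ∑_{u<ℓ} replicate (n m u) (m - rk ℓ u 0 s)`, elements `≤ M`, and
`ℓ * ∑_{S_s} Lm b' = ∑_{m ∈ S} ℓ ∑_u n m u * Lm b' (m - rk ℓ u 0 s) = ∑_{m ∈ S} D * Lm b m` (`weightsN`, `Lm_split`), so
`ℓ * (N' * ∑_{S_s} Lm b') = N * ∑_S Lm b ≥ a * Pc b = ℓ * (a * Pc b')` (`Pc_split`).
`GM_iff` (`Pool/Agent/H18/Ex/Multi.lean`) translates between `GM` and `GI` (`thin_stepG` in `Tk/ThinG.lean` is an example).
-/

namespace Pool.Agent.H18.Tl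

open Finset Function Pool.Agent.H18.Ex

variable {τ : Type} [Fintype τ] [DecidableEq τ]

/-- the image of a sum of replicated elements -/
private theorem ExB_map {X Y : Type} (g : X → Y) (S : Multiset ℕ) (ℓ : ℕ) (n : ℕ → ℕ → ℕ)
    (f : ℕ → ℕ → X) :
    (S.map fun m => ∑ u ∈ range ℓ, Multiset.replicate (n m u) (f m u)).sum.map g =
      (S.map fun m => ∑ u ∈ range ℓ, Multiset.replicate (n m u) (g (f m u))).sum := by
  have h1 : ∀ T : Multiset X, T.map g = Multiset.mapAddMonoidHom g T := fun _ => rfl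
  rw [h1, map_multiset_sum, Multiset.map_map]
  congr 1
  refine Multiset.map_congr rfl fun m _ => ?_
  show Multiset.mapAddMonoidHom g (∑ u ∈ range ℓ, Multiset.replicate (n m u) (f m u)) = _
  rw [map_sum]
  refine sum_congr rfl fun u _ => ?_
  show (Multiset.replicate (n m u) (f m u)).map g = _
  rw [Multiset.map_replicate]

/-- multiples of a sum of replicated elements -/
private theorem ExB_smul {X : Type} (N : ℕ) (S : Multiset ℕ) (ℓ : ℕ) (n : ℕ → ℕ → ℕ)
    (f : ℕ → ℕ → X) :
    (S.map fun m => ∑ u ∈ range ℓ, Multiset.replicate (N * n m u) (f m u)).sum =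
      N • (S.map fun m => ∑ u ∈ range ℓ, Multiset.replicate (n m u) (f m u)).sum := by
  rw [← Multiset.sum_map_nsmul]
  congr 1
  refine Multiset.map_congr rfl fun m _ => ?_
  rw [Finset.smul_sum]
  refine sum_congr rfl fun u _ => ?_
  rw [Multiset.nsmul_replicate]

/-- the sum of the values of a sum of replicated elements -/
private theorem ExB_val (L : ℕ → ℕ) (S : Multiset ℕ) (ℓ : ℕ) (n : ℕ → ℕ → ℕ)
    (f : ℕ → ℕ → ℕ) :
    ((S.map fun m => ∑ u ∈ range ℓ, Multiset.replicate (n m u) (f m u)).sum.map L).sum =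
      (S.map fun m => ∑ u ∈ range ℓ, n m u * L (f m u)).sum := by
  rw [ExB_map L S ℓ n f]
  have h1 : ∀ T : Multiset ℕ, T.sum = Multiset.sumAddMonoidHom T := fun _ => rfl
  rw [h1, map_multiset_sum, Multiset.map_map]
  congr 1
  refine Multiset.map_congr rfl fun m _ => ?_
  show Multiset.sumAddMonoidHom (∑ u ∈ range ℓ, Multiset.replicate (n m u) (L (f m u))) = _
  rw [map_sum]
  refine sum_congr rfl fun u _ => ?_
  show (Multiset.replicate (n m u) (L (f m u))).sum = _
  rw [Multiset.sum_replicate, smul_eq_mul]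

private theorem ExB_mem {X : Type} {S : Multiset ℕ} {ℓ : ℕ} {n : ℕ → ℕ → ℕ}
    {f : ℕ → ℕ → X} {x : X}
    (h : x ∈ (S.map fun m => ∑ u ∈ range ℓ, Multiset.replicate (n m u) (f m u)).sum) :
    ∃ m ∈ S, ∃ u < ℓ, x = f m u := by
  obtain ⟨T, hT, hx⟩ := Multiset.mem_join.1 (show x ∈ Multiset.join _ from h)
  obtain ⟨m, hm, rfl⟩ := Multiset.mem_map.1 hT
  rw [Multiset.mem_sum] at hx
  obtain ⟨u, hu, hx⟩ := hx
  exact ⟨m, hm, u, mem_range.1 hu, Multiset.eq_of_mem_replicate hx⟩

/-- the layers of a box -/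
private theorem ExB_lyr (b : τ → ℕ) (a : ℕ) (y : τ) (s : ℕ) (hs : s ≤ b y) :
    Tj.lyr (bx b a) (some y) s = bx (update b y 0) a := by
  ext c
  unfold Tj.lyr
  rw [mem_image, mem_bx]
  constructor
  · rintro ⟨α, hα, rfl⟩
    rw [mem_filter, mem_bx] at hα
    obtain ⟨⟨h1, h2⟩, h3⟩ := hα
    refine ⟨?_, ?_⟩
    · rw [update_of_ne (by simp)]
      exact h1
    · intro l
      by_cases hl : l = y
      · subst hl
        rw [update_self, update_self]
      · rw [update_of_ne (by simpa using hl), update_of_ne hl]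
        exact h2 l
  · rintro ⟨h1, h2⟩
    have hc : c (some y) = 0 := by
      have h3 := h2 y
      rw [update_self] at h3
      omega
    refine ⟨update c (some y) s, ?_, ?_⟩
    · rw [mem_filter, mem_bx]
      refine ⟨⟨?_, ?_⟩, update_self _ _ _⟩
      · rw [update_of_ne (by simp)]
        exact h1
      · intro l
        by_cases hl : l = y
        · subst hl
          rw [update_self]
          exact hs
        · have h3 := h2 l
          rw [update_of_ne hl] at h3
          rw [update_of_ne (by simpa using hl)]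
          exact h3
    · rw [update_idem, ← hc, update_eq_self]

private theorem ExB_base (b : τ → ℕ) (hb : ∀ l, b l = 0) (m : ℕ) : Lm b m = m ∧ Pc b = 1 := by
  obtain rfl : b = fun _ => 0 := funext hb
  have : Subsingleton (Box (fun _ : τ => 0)) := ⟨fun x y => by
    funext l
    exact Subsingleton.elim (α := Fin 1) _ _⟩
  have hc : Pc (fun _ : τ => 0) = 1 := by
    unfold Pc
    exact Fintype.card_eq_one_iff.2 ⟨zb _, fun y => Subsingleton.elim _ _⟩
  refine ⟨?_, hc⟩
  unfold Lm
  have h1 : ∀ γ : Box (fun _ : τ => 0), m - dg γ = m := by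
    intro γ
    have h2 : dg γ = 0 := by
      unfold dg
      refine sum_eq_zero fun l _ => ?_
      exact Nat.lt_one_iff.1 (γ l).isLt
    rw [h2, Nat.sub_zero]
  rw [sum_congr rfl fun γ _ => h1 γ, sum_const, card_univ]
  unfold Pc at hc
  rw [hc, one_smul]

private theorem ExB_step (b : τ → ℕ) (M : ℕ) (y : τ) (_hy : 0 < b y)
    (ih : ∃ N : ℕ, 1 ≤ N ∧ ∀ (S : Multiset ℕ) (a : ℕ),
      (∀ m ∈ S, m ≤ M) → a * Pc (update b y 0) ≤ N * (S.map (Lm (update b y 0))).sum →
      GM (bx (update b y 0) a) ((N • S).map Kind.free)) :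
    ∃ N : ℕ, 1 ≤ N ∧ ∀ (S : Multiset ℕ) (a : ℕ),
    (∀ m ∈ S, m ≤ M) → a * Pc b ≤ N * (S.map (Lm b)).sum →
    GM (bx b a) ((N • S).map Kind.free) := by
  obtain ⟨N', hN', ih⟩ := ih
  obtain ⟨ℓ, hℓ⟩ : ∃ ℓ, ℓ = b y + 1 := ⟨_, rfl⟩
  obtain ⟨D, n, hD, hn⟩ := weightsN ℓ M (by omega) (fun m t => Lm (update b y 0) (m - t))
    (fun m i => Lm_dec _ m i) (fun m i => Lm_conv _ m i)
  refine ⟨N' * D, Nat.mul_pos hN' hD, ?_⟩
  intro S a hS ha
  obtain ⟨P, hP⟩ : ∃ P : Multiset (ℕ × ℕ), P =
      (S.map fun m => ∑ u ∈ range ℓ, Multiset.replicate (N' * n m u) (m, u)).sum := ⟨_, rfl⟩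
  obtain ⟨K, t, ht⟩ := multi_exists_fin P
  have htP : ∀ i, t i ∈ P := by
    intro i
    rw [← ht]
    exact Multiset.mem_map.2 ⟨i, (by rw [Finset.mem_val]; exact Finset.mem_univ _), rfl⟩
  have hfst : P.map Prod.fst = (N' * D) • S := by
    rw [hP, ExB_map]
    have h1 : (S.map fun m => ∑ u ∈ range ℓ, Multiset.replicate (N' * n m u) (m, u).1) =
        S.map fun m => (N' * D) • ({m} : Multiset ℕ) := by
      refine Multiset.map_congr rfl fun m hm => ?_
      have h2 := (hn m (hS m hm)).1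
      have h3 : ∀ u ∈ range ℓ, Multiset.replicate (N' * n m u) (m, u).1 =
          (N' * n m u) • ({m} : Multiset ℕ) := by
        intro u _
        rw [Multiset.nsmul_singleton]
      rw [sum_congr rfl h3, ← Finset.sum_smul, ← mul_sum, h2]
    rw [h1, Multiset.sum_map_nsmul, Multiset.sum_map_singleton]
  rw [← hfst, ← ht, Multiset.map_map, Multiset.map_map, GM_iff]
  refine Tj.layers (bx b a) (some y) ℓ ?_ (fun i => (t i).1) (fun i => (t i).2) ?_ ?_
  · intro α hα
    have := (mem_bx.1 hα).2 y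
    omega
  · intro i
    have h1 := htP i
    rw [hP] at h1
    obtain ⟨m, _, u, hu, h2⟩ := ExB_mem h1
    rw [h2]
    exact hu
  · intro s hs
    rw [ExB_lyr b a y s (by omega)]
    have h1 := GM_iff (bx (update b y 0) a)
      (fun i => Kind.free (ι := Option τ) ((t i).1 - Ta.rk ℓ (t i).2 0 s))
    rw [← h1]
    obtain ⟨T, hT⟩ : ∃ T : Multiset ℕ, T =
      (S.map fun m => ∑ u ∈ range ℓ, Multiset.replicate (n m u) (m - Ta.rk ℓ u 0 s)).sum :=
        ⟨_, rfl⟩
    have h2 : (univ : Finset (Fin K)).val.map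
        (fun i => Kind.free (ι := Option τ) ((t i).1 - Ta.rk ℓ (t i).2 0 s)) =
        (N' • T).map Kind.free := by
      have h3 : (univ : Finset (Fin K)).val.map
          (fun i => Kind.free (ι := Option τ) ((t i).1 - Ta.rk ℓ (t i).2 0 s)) =
          (((univ : Finset (Fin K)).val.map t).map fun p => p.1 - Ta.rk ℓ p.2 0 s).map
            Kind.free := by
        rw [Multiset.map_map, Multiset.map_map]
        rfl
      rw [h3, ht, hP, ExB_map, hT, ← ExB_smul]
    rw [h2]
    refine ih T a ?_ ?_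
    · intro x hx
      rw [hT] at hx
      obtain ⟨m, hm, u, _, rfl⟩ := ExB_mem hx
      exact (Nat.sub_le _ _).trans (hS m hm)
    · rw [hT, ExB_val]
      have h4 : ℓ * (S.map fun m => ∑ u ∈ range ℓ,
          n m u * Lm (update b y 0) (m - Ta.rk ℓ u 0 s)).sum = D * (S.map (Lm b)).sum := by
        rw [← Multiset.sum_map_mul_left, ← Multiset.sum_map_mul_left]
        congr 1
        refine Multiset.map_congr rfl fun m hm => ?_
        rw [(hn m (hS m hm)).2 s hs, Lm_split b y m, hℓ]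
      have h5 : Pc b = ℓ * Pc (update b y 0) := by
        rw [Pc_split b y, hℓ]
      rw [h5] at ha
      have h6 : 0 < ℓ := by omega
      refine Nat.le_of_mul_le_mul_left ?_ h6
      calc ℓ * (a * Pc (update b y 0)) = a * (ℓ * Pc (update b y 0)) := by ring
        _ ≤ N' * D * (S.map (Lm b)).sum := ha
        _ = N' * (D * (S.map (Lm b)).sum) := by ring
        _ = N' * (ℓ * (S.map fun m => ∑ u ∈ range ℓ,
          n m u * Lm (update b y 0) (m - Ta.rk ℓ u 0 s)).sum) := by rw [h4]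
        _ = _ := by ring

private theorem ExB_ind (M n : ℕ) : ∀ b : τ → ℕ, (univ.filter fun l => 0 < b l).card ≤ n →
    ∃ N : ℕ, 1 ≤ N ∧ ∀ (S : Multiset ℕ) (a : ℕ),
    (∀ m ∈ S, m ≤ M) → a * Pc b ≤ N * (S.map (Lm b)).sum →
    GM (bx b a) ((N • S).map Kind.free) := by
  have hbase : ∀ b : τ → ℕ, (∀ l, b l = 0) →
      ∃ N : ℕ, 1 ≤ N ∧ ∀ (S : Multiset ℕ) (a : ℕ),
      (∀ m ∈ S, m ≤ M) → a * Pc b ≤ N * (S.map (Lm b)).sum →
      GM (bx b a) ((N • S).map Kind.free) := by
    intro b hb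
    refine ⟨1, le_rfl, fun S a _ ha => ?_⟩
    rw [one_smul]
    apply ExB_zero b hb
    rw [(ExB_base b hb 0).2, mul_one, one_mul] at ha
    have h1 : S.map (Lm b) = S := by
      conv_rhs => rw [← Multiset.map_id S]
      exact Multiset.map_congr rfl fun m _ => (ExB_base b hb m).1
    rw [h1] at ha
    exact ha
  induction n with
  | zero =>
    intro b hb
    apply hbase
    intro l
    by_contra hcon
    have h1 : l ∈ univ.filter fun l => 0 < b l := mem_filter.2 ⟨mem_univ _, by omega⟩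
    have h2 := card_pos.2 ⟨l, h1⟩
    omega
  | succ n ih =>
    intro b hb
    by_cases hact : ∃ y, 0 < b y
    · obtain ⟨y, hy⟩ := hact
      apply ExB_step b M y hy
      apply ih
      have h2 : (univ.filter fun l => 0 < update b y 0 l) ⊆
          (univ.filter fun l => 0 < b l).erase y := by
        intro l hl
        obtain ⟨_, h3⟩ := mem_filter.1 hl
        have hly : l ≠ y := by
          rintro rfl
          rw [update_self] at h3
          exact absurd h3 (lt_irrefl 0)
        rw [update_of_ne hly] at h3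
        exact mem_erase.2 ⟨hly, mem_filter.2 ⟨mem_univ _, h3⟩⟩
      have h3 := card_le_card h2
      have h4 : y ∈ univ.filter fun l => 0 < b l := mem_filter.2 ⟨mem_univ _, hy⟩
      rw [card_erase_of_mem h4] at h3
      omega
    · push Not at hact
      exact hbase b fun l => by have := hact l; omega

theorem exB (b : τ → ℕ) (M : ℕ) : ∃ N : ℕ, 1 ≤ N ∧ ∀ (S : Multiset ℕ) (a : ℕ),
    (∀ m ∈ S, m ≤ M) → a * Pc b ≤ N * (S.map (Lm b)).sum →
    GM (bx b a) ((N • S).map Kind.free) :=
  ExB_ind M _ b le_rfl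

end Pool.Agent.H18.Tl
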