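import Pool.Agent.H18.Tk.FinalK

/-!
# Module FinalD (TL): the dimension from the exactness of the needed multisets

The proof is the one of the private theorem `FinalK_dim` in `Pool/Agent/H18/Tk/FinalK.lean` (there the hypothesis `hex` is assumed
for all multisets `S` with elements `≤ M`, but only used for `S = … + replicate (N - L) 1`).
-/

namespace Pool.Agent.H18.Tl

open Finset Function Pool.Agent.H18.Ex Pool.Agent.H18.Fat Pool.Agent.H18.Pr Pool.Agent.H18.Tj

/-- A free point of multiplicity one has one condition. -/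
private theorem FinalD_Lx_one {ι : Type} [Fintype ι] [DecidableEq ι] (w : ι → ℕ) :
    Lx w 1 = 1 := by
  have h1 : Ex.Rg 0 w = {fun _ => 0} := by
    ext a
    rw [Ex.mem_Rg, mem_singleton]
    refine ⟨fun h => ?_, fun h => ?_⟩
    · funext i
      have h2 : a i ≤ ∑ l, a l := single_le_sum (fun _ _ => Nat.zero_le _) (mem_univ i)
      omega
    · subst h
      exact ⟨fun _ => Nat.zero_le _, sum_const_zero⟩
  unfold Lx
  rw [if_neg one_ne_zero, Nat.sub_self, h1, card_singleton]

/-- The dimension of the reduced system. -/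
theorem finalL_dim {r k d' s M : ℕ} (hr : 2 ≤ r) (m' : Fin k → ℕ)
    (J : Fin s ↪ Fin k) (hs1 : s ≤ r + 1) (hm : ∀ i, (∀ l, J l ≠ i) → m' i ≤ M)
    (hJ : ∀ l, m' (J l) ≤ d') (hMd : M ≤ d')
    (hex : ∀ x : ℕ, (Ex.Rg d' (bw r d' s fun l => d' - m' (J l))).card ≤
        (((univ.filter fun i => ∀ l, J l ≠ i).val.map m' + Multiset.replicate x 1).map
          (Lx (bw r d' s fun l => d' - m' (J l)))).sum →
      GM (Ex.Rg d' (bw r d' s fun l => d' - m' (J l)))
        (((univ.filter fun i => ∀ l, J l ≠ i).val.map m' + Multiset.replicate x 1).map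
          Kind.free)) :
    ForGeneralPoints r k fun p =>
      (Module.finrank ℂ (fatForms r d' p m') : ℤ) =
        max 0 ((cnt r s (fun l => d' - m' (J l)) d' : ℤ) -
          ∑ i ∈ univ.filter (fun i => (∀ l, J l ≠ i) ∧ 1 ≤ m' i),
            (cnt r s (fun l => d' - m' (J l)) (m' i - 1) : ℤ)) := by
  have hsum : ∑ i ∈ univ.filter (fun i => (∀ l, J l ≠ i) ∧ 1 ≤ m' i),
      (cnt r s (fun l => d' - m' (J l)) (m' i - 1) : ℤ) =
      ((∑ i ∈ univ.filter (fun i => ∀ l, J l ≠ i),
        Lx (bw r d' s fun l => d' - m' (J l)) (m' i) : ℕ) : ℤ) := by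
    rw [Nat.cast_sum, ← filter_filter, sum_filter]
    refine sum_congr rfl fun i hi => ?_
    have hi1 : ∀ l, J l ≠ i := (mem_filter.1 hi).2
    have hi2 := hm i hi1
    unfold Lx
    by_cases h0 : m' i = 0
    · rw [if_neg (by omega), if_pos h0, Nat.cast_zero]
    · rw [if_pos (by omega), if_neg h0, count_eq r s d' (m' i - 1) hs1 (by omega)]
  rw [hsum, count_eq r s d' d' hs1 le_rfl]
  have hex1 := fun x => hex x
  generalize hLdef : ∑ i ∈ univ.filter (fun i => ∀ l, J l ≠ i),
    Lx (bw r d' s fun l => d' - m' (J l)) (m' i) = L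
  generalize hNdef : (Ex.Rg d' (bw r d' s fun l => d' - m' (J l))).card = N
  have hup := upper (r := r) (d := d') (by omega) hs1 m' J hJ (N - L) (hex1 (N - L)
    (by
      rw [Multiset.map_add, Multiset.sum_add, Multiset.map_map, Multiset.map_replicate,
        Multiset.sum_replicate, FinalD_Lx_one, hNdef]
      have h3 : (Multiset.map (Lx (bw r d' s fun l => d' - m' (J l)) ∘ m')
          (univ.filter fun i => ∀ l, J l ≠ i).val).sum = L := hLdef
      rw [h3, smul_eq_mul, mul_one]
      omega))
  have hlo := lower (r := r) (d := d') (by omega) hs1 m' J hJ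
    fun i hi => (hm i hi).trans hMd
  refine (hup.and hlo).mono fun p hp => ?_
  obtain ⟨h1, h2⟩ := hp
  rw [hLdef, hNdef] at h2
  omega

end Pool.Agent.H18.Tl
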