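import Pool.Agent.H18.Tl.Big
import Pool.Agent.H18.Tl.LmC

/-!
# Module Full (TL): surjectivity at one point gives independent conditions

`full`: for `e' ≥ e` the map `e0` on `Sol b (e' + 1) L` is surjective (`Sol b (e + 1) L ≤ Sol b (e' + 1) L`) with the kernel
`X • Sol b e' L` (`vanL_unit`, `F γ` divisible by `X`), so `h0 b (e' + 1) L = h0 b e' L + Pc b`; also `Lm b (e' + 2) = Lm b (e' + 1) + Pc b`
(`e' + 1 ≥ Bs b ≥ dg γ`).  So `Lm b (e' + 1) - h0 b e' L` does not depend on `e' ≥ e`, and for large `e'` it is `≥ cL b L` by `big`.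
-/

namespace Pool.Agent.H18.Tl

open Finset Polynomial

variable {τ : Type} [Fintype τ] [DecidableEq τ] {b : τ → ℕ} {e : ℕ} {L : List (Pt τ)}

private theorem Full_finite (e : ℕ) (L : List (Pt τ)) : Module.Finite ℂ (Sol b e L) := by
  classical
  let f : Sol b e L →ₗ[ℂ] ((Σ γ : Box b, Fin (e + 1)) → ℂ) :=
    (LinearMap.pi fun i => (lcoeff ℂ (i.2 : ℕ)) ∘ₗ (LinearMap.proj i.1 : V b →ₗ[ℂ] ℂ[X])) ∘ₗ
      (Sol b e L).subtype
  apply Module.Finite.of_injective f
  rw [← LinearMap.ker_eq_bot, LinearMap.ker_eq_bot']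
  rintro ⟨F, hF⟩ h
  apply Subtype.ext
  funext γ
  ext j
  rw [Submodule.coe_zero, Pi.zero_apply, coeff_zero]
  by_cases hj : j < e + 1
  · exact congrFun h ⟨γ, ⟨j, hj⟩⟩
  · exact (mem_Sol.mp hF).1 γ j (by omega)

private theorem Full_mono (F : V b) {e e' : ℕ} (h : e ≤ e') (hF : F ∈ Sol b e L) :
    F ∈ Sol b e' L :=
  mem_Sol.mpr ⟨fun γ j hj => (mem_Sol.mp hF).1 γ j (by omega), (mem_Sol.mp hF).2⟩

private theorem Full_X (F : V b) {e : ℕ} (hF : F ∈ Sol b e L) :
    (X : ℂ[X]) • F ∈ Sol b (e + 1) L := by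
  refine mem_Sol.mpr ⟨?_, (vanL b L).smul_mem _ (mem_Sol.mp hF).2⟩
  intro γ j hj
  rw [Pi.smul_apply, smul_eq_mul]
  rcases j with _ | j
  · exact coeff_X_mul_zero _
  · rw [coeff_X_mul]
    exact (mem_Sol.mp hF).1 γ j (by omega)

private theorem Full_coeff (F : V b) (G : Box b → V b) (hG : ∀ β, e0 (G β) = Pi.single β 1)
    (v : Box b → ℂ) (h : (X : ℂ[X]) • F + ∑ β, v β • G β = 0) : v = 0 := by
  funext γ
  have h1 : (((X : ℂ[X]) • F + ∑ β, v β • G β) γ).coeff 0 = 0 := by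
    rw [h]
    rfl
  rw [Pi.add_apply, Pi.smul_apply, smul_eq_mul, coeff_add, coeff_X_mul_zero, zero_add,
    Finset.sum_apply, finsetSum_coeff] at h1
  have h2 : ∀ β ∈ (Finset.univ : Finset (Box b)),
      ((v β • G β) γ).coeff 0 = v β * (if γ = β then 1 else 0) := by
    intro β _
    have h5 := congrFun (hG β) γ
    rw [Pi.single_apply] at h5
    have h6 : (G β γ).coeff 0 = if γ = β then 1 else 0 := h5
    rw [Pi.smul_apply, coeff_smul, smul_eq_mul, h6]
  rw [Finset.sum_congr rfl h2] at h1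
  rw [Finset.sum_eq_single γ] at h1
  · rwa [if_pos rfl, mul_one] at h1
  · intro β _ hβ
    rw [if_neg (Ne.symm hβ), mul_zero]
  · intro h7
    exact absurd (Finset.mem_univ _) h7

omit [Fintype τ] [DecidableEq τ] in
private theorem Full_X_inj (F : V b) (h : (X : ℂ[X]) • F = 0) : F = 0 := by
  funext γ
  have h8 := congrFun h γ
  rw [Pi.smul_apply, smul_eq_mul, Pi.zero_apply] at h8
  exact (mul_eq_zero.mp h8).resolve_left X_ne_zero

/-- Multiplication by `X`. -/
private noncomputable def Full_mX : V b →ₗ[ℂ] V b :=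
  (LinearMap.lsmul ℂ[X] (V b) X).restrictScalars ℂ

omit [Fintype τ] [DecidableEq τ] in
private theorem Full_mX_apply (F : V b) : Full_mX F = (X : ℂ[X]) • F := rfl

/-- The combinations. -/
private noncomputable def Full_cmb (G : Box b → V b) : (Box b → ℂ) →ₗ[ℂ] V b :=
  Fintype.linearCombination ℂ G

private theorem Full_cmb_apply (G : Box b → V b) (v : Box b → ℂ) :
    Full_cmb G v = ∑ β, v β • G β := rfl

private theorem Full_cmb_mem (G : Box b → V b) (e' : ℕ) (hG : ∀ β, G β ∈ Sol b e' L)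
    (v : Box b → ℂ) : Full_cmb G v ∈ Sol b e' L := by
  rw [Full_cmb_apply]
  exact Submodule.sum_mem _ fun β _ => Submodule.smul_mem _ _ (hG β)

private theorem Full_mX_mem (e' : ℕ) (F : V b) (hF : F ∈ Sol b e' L) :
    Full_mX F ∈ Sol b (e' + 1) L := by
  rw [Full_mX_apply]
  exact Full_X F hF

private theorem Full_step (hs : ∀ v : Box b → ℂ, ∃ G ∈ Sol b (e + 1) L, e0 G = v) (e' : ℕ)
    (he : e ≤ e') : h0 b e' L + Pc b ≤ h0 b (e' + 1) L := by
  classical
  have hfin1 := Full_finite (b := b) e' L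
  have hfin2 := Full_finite (b := b) (e' + 1) L
  choose G hG1 hG2 using fun β : Box b => hs (Pi.single β 1)
  have hG3 : ∀ β, G β ∈ Sol b (e' + 1) L := fun β => Full_mono (G β) (by omega) (hG1 β)
  let f1 : Sol b e' L →ₗ[ℂ] Sol b (e' + 1) L :=
    LinearMap.codRestrict _ (Full_mX ∘ₗ (Sol b e' L).subtype) fun F => Full_mX_mem e' F.1 F.2
  let f2 : (Box b → ℂ) →ₗ[ℂ] Sol b (e' + 1) L :=
    LinearMap.codRestrict _ (Full_cmb G) fun v => Full_cmb_mem G (e' + 1) hG3 v
  let f : (Sol b e' L × (Box b → ℂ)) →ₗ[ℂ] Sol b (e' + 1) L := LinearMap.coprod f1 f2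
  have hf : Function.Injective f := by
    rw [← LinearMap.ker_eq_bot, LinearMap.ker_eq_bot']
    rintro ⟨F, v⟩ h
    obtain ⟨F, hF⟩ := F
    have h0 : Full_mX F + Full_cmb G v = 0 := congrArg Subtype.val h
    rw [Full_mX_apply, Full_cmb_apply] at h0
    have hv : v = 0 := Full_coeff F G hG2 v h0
    have h6 : (X : ℂ[X]) • F = 0 := by
      rw [hv] at h0
      have h9 : ∑ β, (0 : Box b → ℂ) β • G β = 0 :=
        Finset.sum_eq_zero fun β _ => by rw [Pi.zero_apply, zero_smul]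
      rwa [h9, add_zero] at h0
    exact Prod.ext (Subtype.ext (Full_X_inj _ h6)) hv
  have h1 := LinearMap.finrank_le_finrank_of_injective hf
  rw [Module.finrank_prod, Module.finrank_fintype_fun_eq_card] at h1
  exact h1

theorem full (hd : (L.map Pt.x).Nodup) (hB : Bs b ≤ e + 1) (hx : ∀ p ∈ L, p.x ≠ 0)
    (hs : ∀ v : Box b → ℂ, ∃ G ∈ Sol b (e + 1) L, e0 G = v) :
    h0 b e L + cL b L ≤ Lm b (e + 1) := by
  obtain ⟨e₀, h⟩ := big (b := b) L hd
  have h1 : ∀ k : ℕ, h0 b e L + k * Pc b ≤ h0 b (e + k) L := by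
    intro k
    induction k with
    | zero => simp
    | succ k ih =>
      have h2 := Full_step hs (e + k) (by omega)
      rw [add_mul, one_mul]
      rw [← add_assoc e k 1]
      omega
  have h2 := h (e + e₀) (by omega)
  have h3 := h1 e₀
  have h4 := Lm_add b (e + 1) e₀ hB
  have h5 : e + 1 + e₀ = e + e₀ + 1 := by ring
  rw [h5] at h4
  omega

end Pool.Agent.H18.Tl
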