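import Pool.Agent.H18.Tl.Vn
import Pool.Agent.H18.Ex.Multi

/-!
# Module GeoL (TL): two long coordinates

`h ≠ y` are coordinates with `w h, w y ≥ d`; the others (`τ = {i // i ≠ h ∧ i ≠ y}`) have the widths `b = w`.
`geoL`: positions `pos i = (1 at h, x_i at y, z_i on τ)` (`L.get i`, `GM_iff` or directly the definition of `GM` with `n = L.length`).  Let
`f` satisfy the conditions.  `F β = ∑_{j ≤ d - dg β} f(α(β, j)) t^j`, `α(β, j)` = the exponent with the values `β` on `τ`, `j` at `y` and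
`d - dg β - j` at `h` (for `dg β ≤ d`, else `F β = 0`); `F ∈ Ve b d`.  By `van_iff`, `F` vanishes at the point `⟨m_i, x_i, z_i⟩`: for
`j + dg γ < m_i` the coefficient is `∑_{α ∈ Rg d w} f α * tcr (pos i) α c` with `c = (0 at h, j at y, γ on τ)` (`binom(α_h, 0) 1^(α_h) = 1`).
So `F = 0`, `f = 0` on `Rg d w`.
-/

namespace Pool.Agent.H18.Tl

open Finset Pool.Agent.H18.Ex

variable {ι : Type} [Fintype ι] [DecidableEq ι]

/-- The function with the values `u` at `h`, `v` at `y` and `q` elsewhere. -/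
private def GeoL_fn {M : Type} (h y : ι) (u v : M) (q : {i // i ≠ h ∧ i ≠ y} → M) : ι → M :=
  fun i => if hi : i = h then u else if hj : i = y then v else q ⟨i, hi, hj⟩

omit [Fintype ι] in
private theorem GeoL_fn_h {M : Type} (h y : ι) (u v : M) (q : {i // i ≠ h ∧ i ≠ y} → M) :
    GeoL_fn h y u v q h = u := by
  simp [GeoL_fn]

omit [Fintype ι] in
private theorem GeoL_fn_y {M : Type} (h y : ι) (hy : h ≠ y) (u v : M)
    (q : {i // i ≠ h ∧ i ≠ y} → M) : GeoL_fn h y u v q y = v := by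
  simp [GeoL_fn, hy.symm]

omit [Fintype ι] in
private theorem GeoL_fn_t {M : Type} (h y : ι) (u v : M) (q : {i // i ≠ h ∧ i ≠ y} → M)
    (l : {i // i ≠ h ∧ i ≠ y}) : GeoL_fn h y u v q l.1 = q l := by
  simp [GeoL_fn, l.2.1, l.2.2]

private theorem GeoL_prod {M : Type} [CommMonoid M] (h y : ι) (hy : h ≠ y) (g : ι → M) :
    ∏ i, g i = g h * (g y * ∏ l : {i // i ≠ h ∧ i ≠ y}, g l.1) := by
  rw [← mul_prod_erase univ g (mem_univ h),
    ← mul_prod_erase (univ.erase h) g (mem_erase.2 ⟨hy.symm, mem_univ y⟩)]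
  congr 2
  apply prod_subtype
  intro x
  simp only [mem_erase, mem_univ, and_true]
  exact and_comm

private theorem GeoL_sum {M : Type} [AddCommMonoid M] (h y : ι) (hy : h ≠ y) (g : ι → M) :
    ∑ i, g i = g h + (g y + ∑ l : {i // i ≠ h ∧ i ≠ y}, g l.1) := by
  rw [← add_sum_erase univ g (mem_univ h),
    ← add_sum_erase (univ.erase h) g (mem_erase.2 ⟨hy.symm, mem_univ y⟩)]
  congr 2
  apply sum_subtype
  intro x
  simp only [mem_erase, mem_univ, and_true]
  exact and_comm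

/-- The exponent `α(β, j)`. -/
private def GeoL_al (d : ℕ) (w : ι → ℕ) (h y : ι)
    (β : Box (fun l : {i // i ≠ h ∧ i ≠ y} => w l.1)) (j : ℕ) : ι → ℕ :=
  GeoL_fn h y (d - dg β - j) j (fun l => (β l : ℕ))

private theorem GeoL_tcr (d : ℕ) (w : ι → ℕ) (h y : ι) (hy : h ≠ y)
    (β γ : Box (fun l : {i // i ≠ h ∧ i ≠ y} => w l.1)) (k j : ℕ) (x : ℂ)
    (z : {i // i ≠ h ∧ i ≠ y} → ℂ) :
    tcr (GeoL_fn h y 1 x z) (GeoL_al d w h y β k) (GeoL_fn h y 0 j (fun l => (γ l : ℕ)))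
      = ((k.choose j : ℕ) : ℂ) * x ^ (k - j) * tz _ z γ β := by
  unfold tcr GeoL_al
  rw [GeoL_prod h y hy]
  simp only [GeoL_fn_h, GeoL_fn_y h y hy, GeoL_fn_t]
  rw [Nat.choose_zero_right, one_pow, Nat.cast_one, one_mul, one_mul]
  rfl

private theorem GeoL_mem (d : ℕ) (w : ι → ℕ) (h y : ι) (hy : h ≠ y) (hh : d ≤ w h)
    (hyw : d ≤ w y) (β : Box (fun l : {i // i ≠ h ∧ i ≠ y} => w l.1)) (k : ℕ)
    (hk : k + dg β ≤ d) : GeoL_al d w h y β k ∈ Ex.Rg d w := by
  rw [mem_Rg]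
  constructor
  · intro i
    by_cases hi : i = h
    · subst hi
      unfold GeoL_al
      rw [GeoL_fn_h]
      omega
    · by_cases hj : i = y
      · subst hj
        unfold GeoL_al
        rw [GeoL_fn_y _ _ hy]
        omega
      · have h1 := GeoL_fn_t h y (d - dg β - k) k (fun l => (β l : ℕ)) ⟨i, hi, hj⟩
        have h2 := (β ⟨i, hi, hj⟩).isLt
        unfold GeoL_al
        rw [h1]
        exact Nat.lt_succ_iff.1 h2
  · rw [GeoL_sum h y hy]
    unfold GeoL_al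
    simp only [GeoL_fn_h, GeoL_fn_y h y hy, GeoL_fn_t]
    have h3 : ∑ l : {i // i ≠ h ∧ i ≠ y}, (β l : ℕ) = dg β := rfl
    rw [h3]
    omega

/-- The box part of an exponent. -/
private def GeoL_be (w : ι → ℕ) (h y : ι) (a : ι → ℕ) :
    Box (fun l : {i // i ≠ h ∧ i ≠ y} => w l.1) :=
  fun l => ⟨min (a l.1) (w l.1), Nat.lt_succ_iff.2 (min_le_right _ _)⟩

omit [Fintype ι] [DecidableEq ι] in
private theorem GeoL_be_val (w : ι → ℕ) (h y : ι) (a : ι → ℕ) (ha : ∀ i, a i ≤ w i)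
    (l : {i // i ≠ h ∧ i ≠ y}) : ((GeoL_be w h y a l : Fin (w l.1 + 1)) : ℕ) = a l.1 :=
  min_eq_left (ha l.1)

private theorem GeoL_dg_be (d : ℕ) (w : ι → ℕ) (h y : ι) (hy : h ≠ y) (a : ι → ℕ)
    (ha : a ∈ Ex.Rg d w) : a h + (a y + dg (GeoL_be w h y a)) = d := by
  obtain ⟨h1, h2⟩ := mem_Rg.1 ha
  rw [GeoL_sum h y hy] at h2
  have h3 : dg (GeoL_be w h y a) = ∑ l : {i // i ≠ h ∧ i ≠ y}, a l.1 :=
    sum_congr rfl fun l _ => GeoL_be_val w h y a h1 l
  rw [h3]
  exact h2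

private theorem GeoL_al_be (d : ℕ) (w : ι → ℕ) (h y : ι) (hy : h ≠ y) (a : ι → ℕ)
    (ha : a ∈ Ex.Rg d w) : GeoL_al d w h y (GeoL_be w h y a) (a y) = a := by
  have h1 := (mem_Rg.1 ha).1
  have h2 := GeoL_dg_be d w h y hy a ha
  funext i
  unfold GeoL_al
  by_cases hi : i = h
  · subst hi
    rw [GeoL_fn_h]
    omega
  · by_cases hj : i = y
    · subst hj
      rw [GeoL_fn_y _ _ hy]
    · have h3 := GeoL_fn_t h y (d - dg (GeoL_be w h y a) - a y) (a y)
        (fun l => ((GeoL_be w h y a l : Fin (w l.1 + 1)) : ℕ)) ⟨i, hi, hj⟩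
      exact h3.trans (GeoL_be_val w h y a h1 ⟨i, hi, hj⟩)

private theorem GeoL_be_al (d : ℕ) (w : ι → ℕ) (h y : ι)
    (β : Box (fun l : {i // i ≠ h ∧ i ≠ y} => w l.1)) (k : ℕ) :
    GeoL_be w h y (GeoL_al d w h y β k) = β := by
  funext l
  apply Fin.ext
  show min (GeoL_al d w h y β k l.1) (w l.1) = (β l : ℕ)
  unfold GeoL_al
  rw [GeoL_fn_t]
  exact min_eq_left (Nat.lt_succ_iff.1 (β l).isLt)

private theorem GeoL_reindex (d : ℕ) (w : ι → ℕ) (h y : ι) (hy : h ≠ y) (hh : d ≤ w h)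
    (hyw : d ≤ w y) (g : (ι → ℕ) → ℂ) :
    ∑ a ∈ Ex.Rg d w, g a = ∑ β : Box (fun l : {i // i ≠ h ∧ i ≠ y} => w l.1),
      ∑ k ∈ range (d + 1), if k + dg β ≤ d then g (GeoL_al d w h y β k) else 0 := by
  rw [← sum_product', ← sum_filter (s := univ ×ˢ range (d + 1))
    (fun q : Box (fun l : {i // i ≠ h ∧ i ≠ y} => w l.1) × ℕ => q.2 + dg q.1 ≤ d)
    (fun q => g (GeoL_al d w h y q.1 q.2))]
  symm
  refine sum_nbij' (fun q => GeoL_al d w h y q.1 q.2) (fun a => (GeoL_be w h y a, a y))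
    ?_ ?_ ?_ ?_ ?_
  · intro q hq
    exact GeoL_mem d w h y hy hh hyw q.1 q.2 (mem_filter.1 hq).2
  · intro a ha
    have h2 := GeoL_dg_be d w h y hy a ha
    rw [mem_filter, mem_product, mem_range]
    refine ⟨⟨mem_univ _, ?_⟩, ?_⟩
    · show a y < d + 1
      omega
    · show a y + dg (GeoL_be w h y a) ≤ d
      omega
  · intro q _
    refine Prod.ext (GeoL_be_al d w h y q.1 q.2) ?_
    show GeoL_al d w h y q.1 q.2 y = q.2
    unfold GeoL_al
    rw [GeoL_fn_y _ _ hy]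
  · intro a ha
    exact GeoL_al_be d w h y hy a ha
  · intro q _
    rfl

/-- The vector of polynomials attached to `f`. -/
private noncomputable def GeoL_F (d : ℕ) (w : ι → ℕ) (h y : ι) (f : (ι → ℕ) → ℂ) :
    V (fun l : {i // i ≠ h ∧ i ≠ y} => w l.1) :=
  fun β => ∑ k ∈ range (d + 1),
    Polynomial.monomial k (if k + dg β ≤ d then f (GeoL_al d w h y β k) else 0)

private theorem GeoL_F_coeff (d : ℕ) (w : ι → ℕ) (h y : ι) (f : (ι → ℕ) → ℂ)
    (β : Box (fun l : {i // i ≠ h ∧ i ≠ y} => w l.1)) (k : ℕ) :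
    (GeoL_F d w h y f β).coeff k = if k + dg β ≤ d then f (GeoL_al d w h y β k) else 0 := by
  unfold GeoL_F
  rw [Polynomial.finsetSum_coeff]
  simp only [Polynomial.coeff_monomial]
  rw [sum_ite_eq' (range (d + 1)) k]
  by_cases hk : k ∈ range (d + 1)
  · rw [if_pos hk]
  · rw [if_neg hk, if_neg]
    rw [mem_range] at hk
    omega

private theorem GeoL_taylor (d : ℕ) (w : ι → ℕ) (h y : ι) (f : (ι → ℕ) → ℂ)
    (γ : Box (fun l : {i // i ≠ h ∧ i ≠ y} => w l.1)) (A : Mt _) (x : ℂ) (j : ℕ) :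
    (Polynomial.taylor x (act A (GeoL_F d w h y f) γ)).coeff j
      = ∑ β : Box (fun l : {i // i ≠ h ∧ i ≠ y} => w l.1), ∑ k ∈ range (d + 1),
        if k + dg β ≤ d then f (GeoL_al d w h y β k) *
          (((k.choose j : ℕ) : ℂ) * x ^ (k - j) * A γ β) else 0 := by
  rw [act_apply, map_sum, Polynomial.finsetSum_coeff]
  refine sum_congr rfl fun β _ => ?_
  rw [Polynomial.taylor_mul, Polynomial.taylor_C, Polynomial.coeff_C_mul]
  unfold GeoL_F
  rw [map_sum, Polynomial.finsetSum_coeff, mul_sum]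
  refine sum_congr rfl fun k _ => ?_
  rw [Polynomial.taylor_monomial, Polynomial.coeff_C_mul, Polynomial.coeff_X_add_C_pow]
  by_cases hk : k + dg β ≤ d
  · rw [if_pos hk, if_pos hk]
    ring
  · rw [if_neg hk, if_neg hk]
    ring

theorem geoL (d : ℕ) (w : ι → ℕ) (h y : ι) (hy : h ≠ y) (hh : d ≤ w h) (hyw : d ≤ w y)
    (L : List (Pt {i // i ≠ h ∧ i ≠ y}))
    (hL : ∀ F ∈ Sol (fun l : {i // i ≠ h ∧ i ≠ y} => w l.1) d L, F = 0) :
    GM (Ex.Rg d w) ((↑(L.map Pt.m) : Multiset ℕ).map Kind.free) := by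
  refine ⟨L.length, fun i => Kind.free (L.get i).m, ?_,
    fun i => GeoL_fn h y 1 (L.get i).x (L.get i).z, ?_⟩
  · rw [Fin.univ_val_map, Multiset.map_coe]
    congr 1
    rw [List.map_map]
    have h1 : (fun i => Kind.free (L.get i).m : Fin L.length → Kind ι)
        = (Kind.free ∘ Pt.m) ∘ L.get := rfl
    rw [h1, ← List.map_ofFn, List.ofFn_get]
  · intro f hf
    have hF : GeoL_F d w h y f = 0 := by
      apply hL
      rw [mem_Sol]
      constructor
      · rw [mem_Ve]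
        intro β j hj
        rw [GeoL_F_coeff, if_neg]
        omega
      · rw [mem_vanL]
        intro p hp
        obtain ⟨i, hi⟩ := List.get_of_mem hp
        rw [van_iff]
        intro γ j hj
        have h1 := hf i (GeoL_fn h y 0 j (fun l => (γ l : ℕ))) ?_
        · rw [GeoL_reindex d w h y hy hh hyw] at h1
          rw [GeoL_taylor]
          rw [← hi]
          refine Eq.trans ?_ h1
          refine sum_congr rfl fun β _ => sum_congr rfl fun k _ => ?_
          by_cases hk : k + dg β ≤ d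
          · rw [if_pos hk, if_pos hk]
            congr 1
            exact (GeoL_tcr d w h y hy β γ k j (L.get i).x (L.get i).z).symm
          · rw [if_neg hk, if_neg hk]
        · show ∑ i', GeoL_fn h y 0 j (fun l => (γ l : ℕ)) i' < (L.get i).m
          rw [GeoL_sum h y hy]
          simp only [GeoL_fn_h, GeoL_fn_y h y hy, GeoL_fn_t]
          rw [hi]
          have h3 : ∑ l : {i // i ≠ h ∧ i ≠ y}, (γ l : ℕ) = dg γ := rfl
          rw [h3]
          omega
    intro a ha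
    have h2 := GeoL_dg_be d w h y hy a ha
    have h3 := GeoL_F_coeff d w h y f (GeoL_be w h y a) (a y)
    rw [hF, if_pos (by omega), GeoL_al_be d w h y hy a ha] at h3
    rw [← h3]
    rfl

end Pool.Agent.H18.Tl
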