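import Pool.Agent.H18.Tl.Defs
import Pool.Agent.H18.Tj.Defs

/-!
# Module LxL (TL): the numbers of conditions with two long coordinates

`h ≠ y` are coordinates with `w h, w y ≥ d`; the others (`τ = {i // i ≠ h ∧ i ≠ y}`) have the widths `b = w`.
`Lx_eq`: an exponent of `Rg (m - 1) w` is determined by its values `γ` on `τ` (in `Box b`, `dg γ ≤ m - 1`) and its value
at `y` (any number `≤ m - 1 - dg γ`; the bounds `w y, w h ≥ d ≥ m - 1` hold): `m - dg γ` possibilities.
-/

namespace Pool.Agent.H18.Tl

open Finset Pool.Agent.H18.Ex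

variable {ι : Type} [Fintype ι] [DecidableEq ι]

private theorem LxL_split (h y : ι) (hy : h ≠ y) (f : ι → ℕ) :
    ∑ i, f i = f h + f y + ∑ l : {i // i ≠ h ∧ i ≠ y}, f l.1 := by
  have h1 : ∑ l : {i // i ≠ h ∧ i ≠ y}, f l.1 = ∑ i ∈ univ.filter (fun i => i ≠ h ∧ i ≠ y), f i := by
    rw [← Finset.sum_subtype (univ.filter (fun i => i ≠ h ∧ i ≠ y)) (fun x => by simp) f]
  have h2 : univ.filter (fun i : ι => ¬ (i ≠ h ∧ i ≠ y)) = {h, y} := by
    ext i
    simp only [mem_filter, mem_univ, true_and, mem_insert, mem_singleton]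
    tauto
  have h3 : ∑ i ∈ univ.filter (fun i : ι => ¬ (i ≠ h ∧ i ≠ y)), f i = f h + f y := by
    rw [h2, Finset.sum_pair hy]
  rw [← Finset.sum_filter_add_sum_filter_not univ (fun i : ι => i ≠ h ∧ i ≠ y) f, h1, h3]
  ring

/-- The exponent with given values. -/
private def LxL_mk (h y : ι) (γ : {i // i ≠ h ∧ i ≠ y} → ℕ) (s t : ℕ) : ι → ℕ :=
  fun i => if hi : i ≠ h ∧ i ≠ y then γ ⟨i, hi⟩ else if i = y then t else s

theorem Lx_eq (d : ℕ) (w : ι → ℕ) (h y : ι) (hy : h ≠ y) (hh : d ≤ w h) (hyw : d ≤ w y) (m : ℕ)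
    (hm : m ≤ d + 1) : Tj.Lx w m = Lm (fun l : {i // i ≠ h ∧ i ≠ y} => w l.1) m := by
  classical
  unfold Tj.Lx Lm
  by_cases hm0 : m = 0
  · rw [if_pos hm0]
    simp [hm0]
  rw [if_neg hm0]
  set b : {i // i ≠ h ∧ i ≠ y} → ℕ := fun l => w l.1 with hb
  -- the restriction
  let res : (ι → ℕ) → Box b := fun a l => ⟨min (a l.1) (b l), Nat.lt_succ_of_le (min_le_right _ _)⟩
  rw [Finset.card_eq_sum_card_fiberwise (s := Rg (m - 1) w) (f := res) (t := univ) (fun _ _ => mem_coe.2 (mem_univ _))]
  apply Finset.sum_congr rfl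
  intro γ _
  have key : ((Rg (m - 1) w).filter (fun a => res a = γ)).card = (Finset.range (m - dg γ)).card := by
    apply Finset.card_bij' (fun a _ => a y)
      (fun t _ => LxL_mk h y (fun l => (γ l : ℕ)) (m - 1 - dg γ - t) t)
    · intro a ha
      rw [mem_filter, mem_Rg] at ha
      obtain ⟨⟨ha1, ha2⟩, ha3⟩ := ha
      rw [mem_range]
      have e1 : ∑ l : {i // i ≠ h ∧ i ≠ y}, a l.1 = dg γ := by
        unfold dg
        apply Finset.sum_congr rfl
        intro l _
        rw [← ha3]
        show a l.1 = min (a l.1) (b l)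
        exact (min_eq_left (ha1 l.1)).symm
      rw [LxL_split h y hy a, e1] at ha2
      omega
    · intro t ht
      rw [mem_range] at ht
      rw [mem_filter, mem_Rg]
      refine ⟨⟨?_, ?_⟩, ?_⟩
      · intro i
        unfold LxL_mk
        split_ifs with h1 h2
        · exact Nat.le_of_lt_succ (γ ⟨i, h1⟩).2
        · rw [h2]
          omega
        · have : i = h := by
            by_contra hne
            exact h1 ⟨hne, h2⟩
          rw [this]
          omega
      · rw [LxL_split h y hy]
        have e1 : LxL_mk h y (fun l => (γ l : ℕ)) (m - 1 - dg γ - t) t h = m - 1 - dg γ - t := by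
          unfold LxL_mk
          rw [dif_neg (by tauto), if_neg hy]
        have e2 : LxL_mk h y (fun l => (γ l : ℕ)) (m - 1 - dg γ - t) t y = t := by
          unfold LxL_mk
          rw [dif_neg (by tauto), if_pos rfl]
        have e3 : ∑ l : {i // i ≠ h ∧ i ≠ y},
            LxL_mk h y (fun l => (γ l : ℕ)) (m - 1 - dg γ - t) t l.1 = dg γ := by
          unfold dg
          apply Finset.sum_congr rfl
          intro l _
          unfold LxL_mk
          rw [dif_pos l.2]
        rw [e1, e2, e3]
        omega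
      · funext l
        apply Fin.ext
        show min (LxL_mk h y (fun l => (γ l : ℕ)) (m - 1 - dg γ - t) t l.1) (b l) = (γ l : ℕ)
        unfold LxL_mk
        rw [dif_pos l.2]
        exact min_eq_left (Nat.le_of_lt_succ (γ l).2)
    · intro a ha
      rw [mem_filter, mem_Rg] at ha
      obtain ⟨⟨ha1, ha2⟩, ha3⟩ := ha
      have e0 : ∀ l : {i // i ≠ h ∧ i ≠ y}, a l.1 = (γ l : ℕ) := by
        intro l
        rw [← ha3]
        show a l.1 = min (a l.1) (b l)
        exact (min_eq_left (ha1 l.1)).symm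
      have e1 : ∑ l : {i // i ≠ h ∧ i ≠ y}, a l.1 = dg γ := by
        unfold dg
        exact Finset.sum_congr rfl fun l _ => e0 l
      rw [LxL_split h y hy a, e1] at ha2
      funext i
      unfold LxL_mk
      split_ifs with h1 h2
      · exact (e0 ⟨i, h1⟩).symm
      · rw [h2]
      · have : i = h := by
          by_contra hne
          exact h1 ⟨hne, h2⟩
        rw [this]
        omega
    · intro t ht
      show LxL_mk h y (fun l => (γ l : ℕ)) (m - 1 - dg γ - t) t y = t
      unfold LxL_mk
      rw [dif_neg (by tauto), if_pos rfl]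
  rw [key, card_range]

end Pool.Agent.H18.Tl
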