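import Pool.Agent.H18.Tl.Asm
import Pool.Agent.H18.Tl.Asm0
import Pool.Agent.H18.Tl.GeoL
import Pool.Agent.H18.Tl.LxL
import Pool.Agent.H18.Tj.GeoB

/-!
# Module HexL (TL): exactness of the regions with `r - 1` thin and two long coordinates

`w = bw r d (r - 1) b : Fin (r + 1) → ℕ`; the coordinates `h = r - 1`, `y = r` have the width `d`.  `τ = {i // i ≠ h ∧ i ≠ y}`, `b' : τ → ℕ`, `b' l = w l = b ⟨l, _⟩`
does not depend on `d`; `Bs b' = ∑ b` (bijection `τ ≃ Fin (r - 1)`).  The `b'` with values `≤ Q` form a finite set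
(`Fintype.piFinset` or `Set.Finite`), let `D` be `r Q + 1` plus the sum (or maximum) of the constants of `asm b' _ (r * Q + 1) 1` over those with `1 ≤ Bs b'`.
`(Rg d w).card = Lx w (d + 1) = Lm b' (d + 1)` (`Lx_eq`, `m = d + 1`), `Lx w m = Lm b' m` for `m ∈ S` (`m ≤ r Q + 1 ≤ d`).  If `1 ≤ Bs b'`: `asm` with
`S₀ = S.filter (Bs b' + 1 < 2 m)`, `S₁` = the rest; if `Bs b' = 0`: `asm0`.  Then `geoL`.
-/

namespace Pool.Agent.H18.Tl

open Finset Function Pool.Agent.H18.Ex Pool.Agent.H18.Tj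

/-- The constant for the widths `c`. -/
private noncomputable def HexL_D {τ : Type} [Fintype τ] [DecidableEq τ] (M : ℕ) (c : τ → ℕ) : ℕ := by
  classical
  exact if h : 1 ≤ Bs c then (asm c h M 1).choose else 0

private theorem HexL_spec {τ : Type} [Fintype τ] [DecidableEq τ] (M : ℕ) (c : τ → ℕ) (h : 1 ≤ Bs c)
    (e : ℕ) (S₀ S₁ : Multiset ℕ) (hD : HexL_D M c ≤ e) (h₀ : S₀.card ≤ 1) (hM : ∀ m ∈ S₀, m ≤ M)
    (h₁ : ∀ m ∈ S₁, 2 * m ≤ Bs c + 1) (hc : Lm c (e + 1) ≤ ((S₀ + S₁).map (Lm c)).sum) :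
    ∃ L : List (Pt τ), (↑(L.map Pt.m) : Multiset ℕ) = S₀ + S₁ ∧ ∀ F ∈ Sol c e L, F = 0 := by
  unfold HexL_D at hD
  rw [dif_pos h] at hD
  exact (asm c h M 1).choose_spec e S₀ S₁ hD h₀ hM h₁ hc

theorem hexL (r Q : ℕ) (hr : 3 ≤ r) : ∃ D : ℕ, ∀ (d : ℕ) (b : Fin (r - 1) → ℕ) (S : Multiset ℕ),
    D ≤ d → (∀ l, b l ≤ Q) → (∀ m ∈ S, m ≤ r * Q + 1) →
    (1 ≤ ∑ l, b l → (S.filter fun m => ∑ l, b l + 1 < 2 * m).card ≤ 1) →
    (Ex.Rg d (bw r d (r - 1) b)).card ≤ (S.map (Lx (bw r d (r - 1) b))).sum →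
    GM (Ex.Rg d (bw r d (r - 1) b)) (S.map Kind.free) := by
  classical
  let h : Fin (r + 1) := ⟨r - 1, by omega⟩
  let y : Fin (r + 1) := ⟨r, by omega⟩
  have hhy : h ≠ y := by
    intro he
    have h1 := congrArg Fin.val he
    simp only [h, y] at h1
    omega
  refine ⟨r * Q + 1 + ∑ c ∈ Fintype.piFinset (fun _ : {i : Fin (r + 1) // i ≠ h ∧ i ≠ y} =>
    range (Q + 1)), HexL_D (r * Q + 1) c, ?_⟩
  intro d b S hD hb hS hf hcard
  set w := bw r d (r - 1) b with hw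
  let b' : {i : Fin (r + 1) // i ≠ h ∧ i ≠ y} → ℕ := fun l => w l.1
  have hlt : ∀ l : {i : Fin (r + 1) // i ≠ h ∧ i ≠ y}, l.1.val < r - 1 := by
    intro l
    have h1 := l.2.1
    have h2 := l.2.2
    have h3 := l.1.2
    have h4 : l.1.val ≠ r - 1 := fun he => h1 (Fin.ext he)
    have h5 : l.1.val ≠ r := fun he => h2 (Fin.ext he)
    omega
  have hb' : ∀ l, b' l = b ⟨l.1.val, hlt l⟩ := by
    intro l
    change bw r d (r - 1) b l.1 = _
    unfold bw
    rw [dif_pos (hlt l)]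
  have hwh : d ≤ w h := by
    rw [hw]
    unfold bw
    rw [dif_neg (by simp [h])]
  have hwy : d ≤ w y := by
    rw [hw]
    unfold bw
    rw [dif_neg (by simp only [y]; omega)]
  have hBs : Bs b' = ∑ l, b l := by
    unfold Bs
    refine Finset.sum_bij' (fun l _ => (⟨l.1.val, hlt l⟩ : Fin (r - 1)))
      (fun l _ => ⟨⟨l.val, by omega⟩, ?_, ?_⟩) ?_ ?_ ?_ ?_ ?_
    · intro he
      have h1 := congrArg Fin.val he
      simp only [h] at h1
      omega
    · intro he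
      have h1 := congrArg Fin.val he
      simp only [y] at h1
      omega
    · intro l _
      exact mem_univ _
    · intro l _
      exact mem_univ _
    · intro l _
      rfl
    · intro l _
      rfl
    · intro l _
      exact hb' l
  have hmem : b' ∈ Fintype.piFinset (fun _ : {i : Fin (r + 1) // i ≠ h ∧ i ≠ y} =>
      range (Q + 1)) := by
    rw [Fintype.mem_piFinset]
    intro l
    rw [mem_range, hb' l]
    exact Nat.lt_succ_of_le (hb _)
  have hDb : HexL_D (r * Q + 1) b' ≤ ∑ c ∈ Fintype.piFinset (fun _ :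
      {i : Fin (r + 1) // i ≠ h ∧ i ≠ y} => range (Q + 1)), HexL_D (r * Q + 1) c :=
    single_le_sum (f := fun c => HexL_D (r * Q + 1) c) (fun _ _ => Nat.zero_le _) hmem
  have hrQ : r * Q + 1 ≤ d := le_trans (Nat.le_add_right _ _) hD
  have hcd : (Ex.Rg d w).card = Lm b' (d + 1) := by
    rw [← Lx_eq d w h y hhy hwh hwy (d + 1) le_rfl]
    unfold Lx
    rw [if_neg (Nat.succ_ne_zero d)]
    rfl
  have hmap : S.map (Lx w) = S.map (Lm b') := by
    refine Multiset.map_congr rfl fun m hm => ?_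
    exact Lx_eq d w h y hhy hwh hwy m (le_trans (hS m hm) (le_trans hrQ (Nat.le_succ d)))
  rw [hcd, hmap] at hcard
  have key : ∃ L : List (Pt {i : Fin (r + 1) // i ≠ h ∧ i ≠ y}),
      (↑(L.map Pt.m) : Multiset ℕ) = S ∧ ∀ F ∈ Sol b' d L, F = 0 := by
    rcases Nat.eq_zero_or_pos (Bs b') with hz | hp
    · exact asm0 b' hz d S hcard
    · have hsp : S.filter (fun m => ∑ l, b l + 1 < 2 * m) +
          S.filter (fun m => ¬ (∑ l, b l + 1 < 2 * m)) = S := Multiset.filter_add_not _ _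
      obtain ⟨L, hL, hL'⟩ := HexL_spec (r * Q + 1) b' hp d
        (S.filter fun m => ∑ l, b l + 1 < 2 * m)
        (S.filter fun m => ¬ (∑ l, b l + 1 < 2 * m)) (by omega)
        (hf (by rw [← hBs]; exact hp))
        (fun m hm => hS m (Multiset.mem_of_mem_filter hm))
        (fun m hm => by
          have h1 := (Multiset.mem_filter.1 hm).2
          rw [hBs]
          omega)
        (by rw [hsp]; exact hcard)
      exact ⟨L, by rw [hL, hsp], hL'⟩
  obtain ⟨L, hL, hL'⟩ := key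
  rw [← hL]
  exact geoL d w h y hhy hwh hwy L hL'

end Pool.Agent.H18.Tl
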