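import Pool.Agent.H18.Tl.Td
import Pool.Agent.H18.Tl.Lin

/-!
# Module Ins (TL): insertion of a tiny exact block at `t = 0`

Let `Pk` be as in `exists_td` for the block `L'`, `E = Ve b e`, `Q = V b ⧸ vanL b L` (as `ℂ`-spaces), `M k : E → Q` the class of `Pk k`,
`n = a + (e + 1)` (`Ve b e ≤ U b (e + 1)`), `n ≥ 2`.  For `δ ≠ 0` the map `s ↦ ∑_{k<n} δ^k Pk k s` is an isomorphism
from `ker (∑ δ^k M k)` onto `Sol b (e + a) (L ++ scL δ L')`: the value has the form `X^a s + r`, `r ∈ U b a` (so the map is injective, `s`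
is the quotient by `X^a`), it is in `Ve b (e + a)` (`j + dg β ≤ e` for the terms of `s`; `r`: `j < a`, `dg β ≤ Bs b ≤ e + 1`), it
vanishes at `scL δ L'`; and an element `G` of `Sol b (e + a) (L ++ scL δ L')` is `X^a s + r` with `s ∈ Ve b e` (`exists_div`), and
`G - ∑ δ^k Pk k s ∈ U b a` vanishes at `scL δ L'`, so it is `0` (`(Blk.sc h δ hδ).inj`).
`ker (M 0) = Sol b e L` (`X^a • s ∈ vanL b L ↔ s ∈ vanL b L`, `vanL_unit`, `hx`).
`ins_le`: `ker_le`.  `ins_lt`: `ker_lt` with `v = s`: if `M 0 w + M 1 s = 0`, then `X^a w + X^(a-1) cv (Φ₁ s(0)) ∈ vanL b L`, so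
`G = X w + cv (Φ₁ s(0)) ∈ vanL b L` by `vanL_unit`, `G ∈ Ve b (e + 1)` and `e0 G = Φ₁ (e0 s)`, against `hn`.
-/

namespace Pool.Agent.H18.Tl

open Finset Polynomial

variable {τ : Type} [Fintype τ] [DecidableEq τ] {b : τ → ℕ} {μ a e : ℕ} {L L' : List (Pt τ)}
  {Φ : Matrix (Box b) (Box b) ℂ[X]}

omit [DecidableEq τ] in
private theorem Ins_dg_le (β : Box b) : dg β ≤ Bs b :=
  Finset.sum_le_sum fun l _ => Nat.lt_succ_iff.1 (β l).2

omit [DecidableEq τ] in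
private theorem Ins_Ve_le_U {s : V b} (hs : s ∈ Ve b e) : s ∈ U b (e + 1) :=
  fun β j hj => hs β j (by omega)

/-- the class of `Pk k` -/
private noncomputable def InsM (b : τ → ℕ) (e : ℕ) (L : List (Pt τ)) (Pk : ℕ → V b →ₗ[ℂ] V b)
    (k : ℕ) : Ve b e →ₗ[ℂ] (V b ⧸ (vanL b L).restrictScalars ℂ) :=
  ((vanL b L).restrictScalars ℂ).mkQ ∘ₗ Pk k ∘ₗ (Ve b e).subtype

private theorem Ins_M_apply (Pk : ℕ → V b →ₗ[ℂ] V b) (k : ℕ) (s : Ve b e) :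
    InsM b e L Pk k s = ((vanL b L).restrictScalars ℂ).mkQ (Pk k s) := rfl

private theorem Ins_sum_apply (Pk : ℕ → V b →ₗ[ℂ] V b) (n : ℕ) (δ : ℂ) (s : Ve b e) :
    (∑ k ∈ range n, δ ^ k • InsM b e L Pk k) s =
      ((vanL b L).restrictScalars ℂ).mkQ ((∑ k ∈ range n, δ ^ k • Pk k) s) := by
  rw [LinearMap.sum_apply, LinearMap.sum_apply, map_sum]
  refine sum_congr rfl fun k _ => ?_
  rw [LinearMap.smul_apply, LinearMap.smul_apply, map_smul]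
  rfl

/-- the kernel of `M 0` -/
private theorem Ins_ker0 (hx : ∀ p ∈ L, p.x ≠ 0) (Pk : ℕ → V b →ₗ[ℂ] V b)
    (h0' : ∀ s, Pk 0 s = (X : ℂ[X]) ^ a • s) :
    Module.finrank ℂ (LinearMap.ker (InsM b e L Pk 0)) ≤ h0 b e L := by
  rw [← Submodule.finrank_map_subtype_eq (Ve b e) (LinearMap.ker (InsM b e L Pk 0)), h0]
  refine Submodule.finrank_mono ?_
  rintro _ ⟨s, hs, rfl⟩
  refine ⟨s.2, ?_⟩
  have h1 : InsM b e L Pk 0 s = 0 := hs
  rw [Ins_M_apply, Submodule.mkQ_apply, Submodule.Quotient.mk_eq_zero, h0'] at h1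
  refine vanL_unit L ((X : ℂ[X]) ^ a) (fun p hp => ?_) _ h1
  rw [eval_pow, eval_X]
  exact pow_ne_zero _ (hx p hp)

/-- the solutions come from the kernel -/
private theorem Ins_sol (h : Blk b μ a L') (Pk : ℕ → V b →ₗ[ℂ] V b)
    (h0' : ∀ s, Pk 0 s = (X : ℂ[X]) ^ a • s) (hU : ∀ k s, 1 ≤ k → Pk k s ∈ U b a)
    (hV : ∀ (n : ℕ) (s : V b), s ∈ U b n → ∀ δ : ℂ, δ ≠ 0 →
        ∑ k ∈ range (a + n), δ ^ k • Pk k s ∈ vanL b (scL δ L')) (δ : ℂ) (hδ : δ ≠ 0) :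
    h0 b (e + a) (L ++ scL δ L') ≤
      Module.finrank ℂ (LinearMap.ker (∑ k ∈ range (a + (e + 1)), δ ^ k • InsM b e L Pk k)) := by
  have hmap := Submodule.finrank_map_le
    ((∑ k ∈ range (a + (e + 1)), δ ^ k • Pk k) ∘ₗ (Ve b e).subtype)
    (LinearMap.ker (∑ k ∈ range (a + (e + 1)), δ ^ k • InsM b e L Pk k))
  refine le_trans ?_ hmap
  rw [h0]
  refine Submodule.finrank_mono ?_
  intro G hG
  obtain ⟨hG1, hG2⟩ := mem_Sol.1 hG
  obtain ⟨hG3, hG4⟩ := (vanL_append _ _ _).1 hG2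
  obtain ⟨s, hs1, hs2⟩ := exists_div a G
  have hs : s ∈ Ve b e := by
    intro β j hj
    rw [hs2]
    exact hG1 β (j + a) (by omega)
  have hap : (∑ k ∈ range (a + (e + 1)), δ ^ k • Pk k) s =
      ∑ k ∈ range (a + (e + 1)), δ ^ k • Pk k s := by
    rw [LinearMap.sum_apply]
    rfl
  have hr : (∑ k ∈ range (a + (e + 1)), δ ^ k • Pk k s) - (X : ℂ[X]) ^ a • s ∈ U b a := by
    rw [show a + (e + 1) = (a + e) + 1 by ring, sum_range_succ', pow_zero, one_smul, h0',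
      add_sub_cancel_right]
    exact Submodule.sum_mem _ fun k _ => Submodule.smul_mem _ _ (hU (k + 1) s (by omega))
  have hGs : G = ∑ k ∈ range (a + (e + 1)), δ ^ k • Pk k s := by
    have h1 : G - ∑ k ∈ range (a + (e + 1)), δ ^ k • Pk k s ∈ U b a := by
      have h2 := Submodule.sub_mem _ hs1 hr
      rwa [sub_sub_sub_cancel_right] at h2
    have h3 : G - ∑ k ∈ range (a + (e + 1)), δ ^ k • Pk k s ∈ vanL b (scL δ L') :=
      Submodule.sub_mem _ hG4 (hV (e + 1) s (Ins_Ve_le_U hs) δ hδ)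
    exact sub_eq_zero.1 ((Blk.sc h δ hδ).inj _ h1 h3)
  refine ⟨⟨s, hs⟩, ?_, ?_⟩
  · change (∑ k ∈ range (a + (e + 1)), δ ^ k • InsM b e L Pk k) ⟨s, hs⟩ = 0
    rw [Ins_sum_apply, Submodule.mkQ_apply, Submodule.Quotient.mk_eq_zero]
    change (∑ k ∈ range (a + (e + 1)), δ ^ k • Pk k) s ∈ vanL b L
    rw [hap, ← hGs]
    exact hG3
  · change (∑ k ∈ range (a + (e + 1)), δ ^ k • Pk k) s = G
    rw [hap, ← hGs]

theorem ins_le (hx : ∀ p ∈ L, p.x ≠ 0) (h : Blk b μ a L') (ha : 1 ≤ a) (hB : Bs b ≤ e + 1) :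
    ∃ T : Set ℂ, T.Finite ∧ ∀ δ : ℂ, δ ∉ T → h0 b (e + a) (L ++ scL δ L') ≤ h0 b e L := by
  obtain ⟨Φ, hΦ⟩ := exists_ph h
  obtain ⟨Pk, p0, -, pU, -, pV⟩ := exists_td h hΦ ha
  obtain ⟨T, hT, h1⟩ := ker_le (InsM b e L Pk) (a + (e + 1)) (by omega)
  refine ⟨insert 0 T, hT.insert 0, fun δ hδ => ?_⟩
  rw [Set.mem_insert_iff, not_or] at hδ
  exact (Ins_sol h Pk p0 pU pV δ hδ.1).trans ((h1 δ hδ.2).trans (Ins_ker0 hx Pk p0))

theorem ins_lt (hx : ∀ p ∈ L, p.x ≠ 0) (h : Blk b μ a L') (hΦ : Ph b a L' Φ) (ha : 1 ≤ a)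
    (hB : Bs b ≤ e + 1) (s : V b) (hs : s ∈ Sol b e L)
    (hn : ∀ G ∈ Sol b (e + 1) L, e0 G ≠ (cf Φ (a - 1)).mulVec (e0 s)) :
    ∃ T : Set ℂ, T.Finite ∧ ∀ δ : ℂ, δ ∉ T → h0 b (e + a) (L ++ scL δ L') + 1 ≤ h0 b e L := by
  obtain ⟨Pk, p0, p1, pU, -, pV⟩ := exists_td h hΦ ha
  have hv : InsM b e L Pk 0 ⟨s, hs.1⟩ = 0 := by
    rw [Ins_M_apply, Submodule.mkQ_apply, Submodule.Quotient.mk_eq_zero, p0]
    exact (vanL b L).smul_mem _ hs.2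
  have hw : ∀ w, InsM b e L Pk 0 w + InsM b e L Pk 1 ⟨s, hs.1⟩ ≠ 0 := by
    intro w hw
    rw [Ins_M_apply, Ins_M_apply, ← map_add, Submodule.mkQ_apply,
      Submodule.Quotient.mk_eq_zero, p0, p1] at hw
    have e1 : (X : ℂ[X]) ^ a • (w : V b) +
        (X : ℂ[X]) ^ (a - 1) • cv ((cf Φ (a - 1)).mulVec (e0 s)) =
        (X : ℂ[X]) ^ (a - 1) • ((X : ℂ[X]) • (w : V b) +
          cv ((cf Φ (a - 1)).mulVec (e0 s))) := by
      rw [smul_add, smul_smul, ← pow_succ, Nat.sub_add_cancel ha]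
    have hG1 : (X : ℂ[X]) • (w : V b) + cv ((cf Φ (a - 1)).mulVec (e0 s)) ∈ vanL b L := by
      refine vanL_unit L ((X : ℂ[X]) ^ (a - 1)) (fun p hp => ?_) _ ?_
      · rw [eval_pow, eval_X]
        exact pow_ne_zero _ (hx p hp)
      · rw [← e1]
        exact hw
    refine hn _ ⟨?_, hG1⟩ ?_
    · intro β j hj
      rw [Pi.add_apply, Pi.smul_apply, smul_eq_mul, coeff_add]
      rcases j with _ | j
      · have := Ins_dg_le β
        omega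
      · rw [coeff_X_mul, w.2 β j (by omega), zero_add]
        exact coeff_C_succ
    · funext β
      simp [e0, cv]
  obtain ⟨T, hT, h1⟩ := ker_lt (InsM b e L Pk) (a + (e + 1)) (by omega) ⟨s, hs.1⟩ hv hw
  refine ⟨insert 0 T, hT.insert 0, fun δ hδ => ?_⟩
  rw [Set.mem_insert_iff, not_or] at hδ
  exact (Nat.add_le_add_right (Ins_sol h Pk p0 pU pV δ hδ.1) 1).trans
    ((h1 δ hδ.2).trans (Ins_ker0 hx Pk p0))

end Pool.Agent.H18.Tl
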