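import Pool.Agent.H18.Tl.Sym
import Pool.Agent.H18.Tl.Cmp

/-!
# Module Mx (TL): the maximal span

Proof of `exists_max`.  Let `I` be the set of the `s ≥ 1` such that a block with `s` points exists; `I` is not empty.  Choose
`S ∈ I` with `finrank (Ds b μ S)` maximal (bounded by `finrank (Mt b)`; e.g. `Nat.findGreatest` or
`exists_max` for the bounded set of the values).
(1) `s, s' ∈ I → s + s' ∈ I` and `Ds b μ s ≤ Ds b μ (s + s')`: let `L`, `L'` be blocks with `s`, `s'` points, `Φ` the matrix of `L`; choose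
`c` with `p.x + c ≠ 0` for `p ∈ L`; `cmp` for `shL c L` (`Blk.sh`, `Ph.sh`), `L'` (with `Z = (ev Φ 0)⁻¹ Φ'₁ ev Φ 0`, `Ph.isUnit`) gives
`cf Φ (a - 1) - (a c) • 1 ∈ Ds b μ (s + s')` (`cf_sh`), and `1 ∈ Ds b μ (s + s')` (`cmp_blk`, `Ds_one`).
(2) So `Ds b μ S = Ds b μ (S + s)` for `s ∈ I` (`Submodule.eq_of_le_of_finrank_le`), and `Ds b μ s ≤ Ds b μ (s + S) = Ds b μ S`
(for `s ∉ I`, `s ≥ 1`, `Ds b μ s = ⊥`).
(3) `ad`: for a block `L` with `s` points and `Φ`, all `x ≠ 0`, `R = ev Φ 0` is invertible (`Ph.isUnit`); `Z = R⁻¹ Y R` is linear in `Y`; for a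
generator `Y` of `Ds b μ S` it is in `Ds b μ (s + S) = Ds b μ S` by `cmp`.
-/

namespace Pool.Agent.H18.Tl

open Finset Polynomial

variable {τ : Type} [Fintype τ] [DecidableEq τ]

omit [Fintype τ] [DecidableEq τ] in
/-- There is a shift with nonzero coordinates. -/
private theorem Mx_shift (L : List (Pt τ)) : ∃ c : ℂ, ∀ p ∈ L, p.x + c ≠ 0 := by
  classical
  obtain ⟨c, hc⟩ := Infinite.exists_notMem_finset (L.map fun p => -p.x).toFinset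
  refine ⟨c, fun p hp h => hc ?_⟩
  rw [List.mem_toFinset, List.mem_map]
  exact ⟨p, hp, by linear_combination -h⟩

omit [Fintype τ] [DecidableEq τ] in
private theorem Mx_sh_ne (L : List (Pt τ)) (c : ℂ) (hc : ∀ p ∈ L, p.x + c ≠ 0) :
    ∀ p ∈ shL c L, p.x ≠ 0 := by
  intro p hp
  rw [shL, List.mem_map] at hp
  obtain ⟨q, hq, rfl⟩ := hp
  exact hc q hq

/-- The sum of two block lengths is a block length. -/
private theorem Mx_blk {b : τ → ℕ} {μ a a' : ℕ} {L L' : List (Pt τ)} (hμ : 1 ≤ μ)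
    (h : Blk b μ a L) (h' : Blk b μ a' L') (hL' : L' ≠ []) :
    ∃ a'' L'', Blk b μ a'' L'' ∧ L''.length = L.length + L'.length := by
  obtain ⟨c, hc⟩ := Mx_shift L
  obtain ⟨T, hT, hδ⟩ := cmp_blk (h.sh c) h' (Mx_sh_ne L c hc) (h'.pos hμ hL')
  obtain ⟨δ, hδT⟩ := hT.exists_notMem
  refine ⟨_, _, hδ δ hδT, ?_⟩
  simp [shL, scL]

/-- The span grows. -/
private theorem Mx_le {b : τ → ℕ} {μ s a' : ℕ} {L' : List (Pt τ)} (hμ : 1 ≤ μ) (hs : 1 ≤ s)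
    (h' : Blk b μ a' L') (hL' : L' ≠ []) : Ds b μ s ≤ Ds b μ (s + L'.length) := by
  refine Submodule.span_le.2 ?_
  rintro Y ⟨a, L, Φ, h, hLs, hΦ, rfl⟩
  have hL : L ≠ [] := by
    rintro rfl
    rw [List.length_nil] at hLs
    omega
  obtain ⟨c, hc⟩ := Mx_shift L
  have hx := Mx_sh_ne L c hc
  obtain ⟨Φ', hΦ'⟩ := exists_ph h'
  have hu := (hΦ.sh c).isUnit (h.sh c) 0 hx
  obtain ⟨u, hu⟩ := hu
  have h1 := (cmp (h.sh c) (hΦ.sh c) h' hΦ' hx (h.pos hμ hL) (h'.pos hμ hL')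
    (((u⁻¹ : (Mt b)ˣ) : Mt b) * (cf Φ' (a' - 1) * (u : Mt b))) (by
      rw [← hu, ← mul_assoc, Units.mul_inv, one_mul])).1
  rw [cf_sh hΦ (h.pos hμ hL)] at h1
  have hlen : (shL c L).length = s := by
    rw [shL, List.length_map, hLs]
  rw [hlen] at h1
  have h2 : (1 : Mt b) ∈ Ds b μ (s + L'.length) := by
    refine Ds_one hμ (by omega) ?_
    obtain ⟨a'', L'', h'', h3⟩ := Mx_blk hμ h h' hL'
    exact ⟨a'', L'', h'', by rw [h3, hLs]⟩
  have h3 := (Ds b μ (s + L'.length)).add_mem h1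
    ((Ds b μ (s + L'.length)).smul_mem ((a : ℂ) * c) h2)
  rw [sub_add_cancel] at h3
  exact h3

/-- A length with the largest span. -/
private theorem Mx_choice {b : τ → ℕ} {μ : ℕ} (hex : ∃ a L, Blk b μ a L ∧ L ≠ []) :
    ∃ S, 1 ≤ S ∧ (∃ a L, Blk b μ a L ∧ L.length = S) ∧
      ∀ s, (∃ a L, Blk b μ a L ∧ L.length = s) → 1 ≤ s →
        Module.finrank ℂ (Ds b μ s) ≤ Module.finrank ℂ (Ds b μ S) := by
  classical
  have hmain : ∀ n : ℕ, ∀ s, (∃ a L, Blk b μ a L ∧ L.length = s) → 1 ≤ s →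
      Module.finrank ℂ (Mt b) ≤ Module.finrank ℂ (Ds b μ s) + n →
      ∃ S, 1 ≤ S ∧ (∃ a L, Blk b μ a L ∧ L.length = S) ∧
      ∀ s, (∃ a L, Blk b μ a L ∧ L.length = s) → 1 ≤ s →
        Module.finrank ℂ (Ds b μ s) ≤ Module.finrank ℂ (Ds b μ S) := by
    intro n
    induction n with
    | zero =>
      intro s hs h1 h2
      refine ⟨s, h1, hs, fun t _ _ => ?_⟩
      exact (Submodule.finrank_le _).trans h2
    | succ n ih =>
      intro s hs h1 h2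
      by_cases hh : ∀ t, (∃ a L, Blk b μ a L ∧ L.length = t) → 1 ≤ t →
          Module.finrank ℂ (Ds b μ t) ≤ Module.finrank ℂ (Ds b μ s)
      · exact ⟨s, h1, hs, hh⟩
      · push Not at hh
        obtain ⟨t, ht, ht1, ht2⟩ := hh
        exact ih t ht ht1 (by omega)
  obtain ⟨a, L, h, hL⟩ := hex
  exact hmain (Module.finrank ℂ (Mt b)) L.length ⟨a, L, h, rfl⟩
    (Nat.one_le_iff_ne_zero.2 (by simpa using hL)) (by omega)

/-- The properties of the maximal span. -/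
structure Mxl (b : τ → ℕ) (μ : ℕ) (D : Submodule ℂ (Mt b)) : Prop where
  one : (1 : Mt b) ∈ D
  tz : ∀ Y ∈ D, ∀ c : τ → ℂ, tz b (-c) * Y * tz b c ∈ D
  rv : ∀ Y ∈ D, rv b * Y * rv b ∈ D
  ad : ∀ (a : ℕ) (L : List (Pt τ)) (Φ : Matrix (Box b) (Box b) ℂ[X]), Blk b μ a L → Ph b a L Φ →
    L ≠ [] → (∀ p ∈ L, p.x ≠ 0) → ∀ Y ∈ D, ∀ Z, ev Φ 0 * Z = Y * ev Φ 0 → Z ∈ D
  ds : ∀ s, 1 ≤ s → Ds b μ s ≤ D

theorem exists_max {b : τ → ℕ} {μ : ℕ} (hμ : 1 ≤ μ) (hex : ∃ a L, Blk b μ a L ∧ L ≠ []) :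
    ∃ S, 1 ≤ S ∧ (∃ a L, Blk b μ a L ∧ L.length = S) ∧ Mxl b μ (Ds b μ S) := by
  obtain ⟨S, hS1, hS, hmax⟩ := Mx_choice hex
  have hadd : ∀ s, (∃ a L, Blk b μ a L ∧ L.length = s) → 1 ≤ s →
      Ds b μ (s + S) = Ds b μ S := by
    intro s hs hs1
    obtain ⟨a₀, L₀, h₀, hL₀⟩ := hS
    obtain ⟨a₁, L₁, h₁, hL₁⟩ := hs
    have hne : L₁ ≠ [] := by
      rintro rfl
      rw [List.length_nil] at hL₁
      omega
    have h1 : Ds b μ S ≤ Ds b μ (S + s) := by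
      have := Mx_le (s := S) hμ hS1 h₁ hne
      rwa [hL₁] at this
    have h2 := hmax (S + s) (by
      obtain ⟨a'', L'', h'', h3⟩ := Mx_blk hμ h₀ h₁ hne
      exact ⟨a'', L'', h'', by rw [h3, hL₀, hL₁]⟩) (by omega)
    rw [add_comm s S]
    exact (Submodule.eq_of_le_of_finrank_le h1 h2).symm
  refine ⟨S, hS1, hS, ?_, ?_, ?_, ?_, ?_⟩
  · exact Ds_one hμ hS1 hS
  · intro Y hY c
    exact Ds_tz c Y hY
  · intro Y hY
    exact Ds_rv Y hY
  · intro a L Φ h hΦ hL hx Y hY Z hZ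
    obtain ⟨u, hu⟩ := hΦ.isUnit h 0 hx
    rw [← hu] at hZ
    have hZ' : Z = ((u⁻¹ : (Mt b)ˣ) : Mt b) * Y * (u : Mt b) := by
      rw [mul_assoc, ← hZ, ← mul_assoc, Units.inv_mul, one_mul]
    rw [hZ']
    have hle : Ds b μ S ≤ (Ds b μ S).comap
        ((LinearMap.mulLeft ℂ ((u⁻¹ : (Mt b)ˣ) : Mt b)) ∘ₗ
          (LinearMap.mulRight ℂ (u : Mt b))) := by
      rw [Ds]
      refine Submodule.span_le.2 ?_
      rintro Y ⟨a', L', Φ', h', hLs, hΦ', rfl⟩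
      have hL' : L' ≠ [] := by
        rintro rfl
        rw [List.length_nil] at hLs
        omega
      have h1 := (cmp h hΦ h' hΦ' hx (h.pos hμ hL) (h'.pos hμ hL')
        (((u⁻¹ : (Mt b)ˣ) : Mt b) * (cf Φ' (a' - 1) * (u : Mt b))) (by
          rw [← hu, ← mul_assoc, Units.mul_inv, one_mul])).2
      rw [hLs, hadd L.length ⟨a, L, h, rfl⟩
        (Nat.one_le_iff_ne_zero.2 (by simpa using hL))] at h1
      exact h1
    have h2 := hle hY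
    rw [Submodule.mem_comap, LinearMap.comp_apply, LinearMap.mulLeft_apply,
      LinearMap.mulRight_apply, ← mul_assoc] at h2
    exact h2
  · intro s hs
    conv_lhs => rw [Ds]
    refine Submodule.span_le.2 ?_
    rintro Y ⟨a, L, Φ, h, hLs, hΦ, hY⟩
    obtain ⟨a₀, L₀, h₀, hL₀⟩ := hS
    have hne : L₀ ≠ [] := by
      rintro rfl
      rw [List.length_nil] at hL₀
      omega
    have h1 := Mx_le (s := s) hμ hs h₀ hne
    rw [hL₀, hadd s ⟨a, L, h, hLs⟩ hs] at h1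
    exact h1 (Submodule.subset_span ⟨a, L, Φ, h, hLs, hΦ, hY⟩)

/-- Conjugation by the values of `Φ` at all points. -/
theorem Mxl.adx {b : τ → ℕ} {μ : ℕ} {D : Submodule ℂ (Mt b)} (hD : Mxl b μ D) {a : ℕ}
    {L : List (Pt τ)} {Φ : Matrix (Box b) (Box b) ℂ[X]} (h : Blk b μ a L) (hΦ : Ph b a L Φ)
    (hL : L ≠ []) (x : ℂ) (hx : ∀ p ∈ L, p.x ≠ x) (Y : Mt b) (hY : Y ∈ D) (Z : Mt b)
    (hZ : ev Φ x * Z = Y * ev Φ x) : Z ∈ D := by
  have h1 := hD.ad a (shL (-x) L) (Φ.map (taylor (-(-x)))) (h.sh (-x)) (hΦ.sh (-x)) (by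
    intro h2
    rw [shL, List.map_eq_nil_iff] at h2
    exact hL h2) (Mx_sh_ne L (-x) (fun p hp h2 => hx p hp (by linear_combination h2))) Y hY Z
  rw [ev_sh, zero_sub, neg_neg] at h1
  exact h1 hZ

/-- The inverse conjugation (`Y ↦ (ev Φ x)⁻¹ * Y * ev Φ x` is injective on the finite dimensional space `D`, so it is
surjective). -/
theorem Mxl.adx' {b : τ → ℕ} {μ : ℕ} {D : Submodule ℂ (Mt b)} (hD : Mxl b μ D) {a : ℕ}
    {L : List (Pt τ)} {Φ : Matrix (Box b) (Box b) ℂ[X]} (h : Blk b μ a L) (hΦ : Ph b a L Φ)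
    (hL : L ≠ []) (x : ℂ) (hx : ∀ p ∈ L, p.x ≠ x) (Y : Mt b) (hY : Y ∈ D) (Z : Mt b)
    (hZ : Z * ev Φ x = ev Φ x * Y) : Z ∈ D := by
  obtain ⟨u, hu⟩ := hΦ.isUnit h x hx
  rw [← hu] at hZ
  have hstab : ∀ W ∈ D, ((LinearMap.mulLeft ℂ ((u⁻¹ : (Mt b)ˣ) : Mt b)) ∘ₗ
      (LinearMap.mulRight ℂ (u : Mt b))) W ∈ D := by
    intro W hW
    refine hD.adx h hΦ hL x hx W hW _ ?_
    rw [LinearMap.comp_apply, LinearMap.mulLeft_apply, LinearMap.mulRight_apply, ← hu,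
      ← mul_assoc, Units.mul_inv, one_mul]
  have hinj : Function.Injective (((LinearMap.mulLeft ℂ ((u⁻¹ : (Mt b)ˣ) : Mt b)) ∘ₗ
      (LinearMap.mulRight ℂ (u : Mt b))).restrict hstab) := by
    rw [injective_iff_map_eq_zero]
    rintro ⟨W, hW⟩ h0
    have h1 : ((u⁻¹ : (Mt b)ˣ) : Mt b) * (W * (u : Mt b)) = 0 := congrArg Subtype.val h0
    rw [Units.mul_right_eq_zero, Units.mul_left_eq_zero] at h1
    exact Subtype.ext h1
  obtain ⟨⟨W, hW⟩, hWY⟩ := LinearMap.surjective_of_injective hinj ⟨Y, hY⟩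
  have h1 : ((u⁻¹ : (Mt b)ˣ) : Mt b) * (W * (u : Mt b)) = Y := congrArg Subtype.val hWY
  have h2 : W * (u : Mt b) = (u : Mt b) * Y := by
    rw [← h1, ← mul_assoc, Units.mul_inv, one_mul]
  have h3 : Z = W := by
    rw [← Units.mul_left_inj u, hZ, h2]
  rw [h3]
  exact hW

end Pool.Agent.H18.Tl
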