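import Pool.Agent.H18.Tl.CaseB
import Pool.Agent.H18.Tl.Orb
import Pool.Agent.H18.Tl.Mov

/-!
# Module Prog (TL): the progress lemma

`D` contains a matrix which is not scalar (`exists_orig`, `mov`, `hD.ds`).
Case B (`Y (zb b) β = 0` for all `Y ∈ D`, `μ ≤ dg β`): let `u` be as in `caseB`.  All vectors `g u`, `g = tz b c * rv b * tz b c'`, are
eigenvectors of all `Y ∈ D`: `g⁻¹ Y g ∈ D` (`hD.tz`, `hD.rv`; `g⁻¹ = tz b (-c') * rv b * tz b (-c)`).  Let `Y ∈ D`, `Y u = χ u`, and suppose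
`N = Y - χ • 1 ≠ 0`.  There is `ψ₁` with `ψ₁ ᵥ* N ≠ 0` and, since `det N = 0` (`N u = 0`), `ψ₂ ≠ 0` with `ψ₂ ᵥ* N = 0`
(`Matrix.exists_vecMul_eq_zero_iff`).  By `orb2` there is `g` with `ψ₂ ⬝ᵥ g u ≠ 0` and `(ψ₁ ᵥ* N) ⬝ᵥ g u ≠ 0`.  `N (g u) = χ' (g u)`;
`0 = (ψ₂ ᵥ* N) ⬝ᵥ g u = χ' (ψ₂ ⬝ᵥ g u)`, so `χ' = 0`, `N (g u) = 0`, a contradiction.  So all `Y ∈ D` are scalar, a contradiction.
Case A: `vecMulVec v ξ ∈ D` (`caseA`).  For `w ≠ 0` suppose that `{Y w : Y ∈ D}` (a subspace) is not everything: there is `ψ ≠ 0` with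
`ψ ⬝ᵥ Y w = 0` for all `Y ∈ D`.  By `orb` there are `c`, `c'`: `g = tz b c * rv b * tz b c'`, `g * vecMulVec v ξ * g⁻¹ ∈ D` and
`ψ ⬝ᵥ (g vecMulVec v ξ g⁻¹ w) = (ψ ⬝ᵥ g v) (ξ ⬝ᵥ g⁻¹ w) ≠ 0`, a contradiction.
-/

namespace Pool.Agent.H18.Tl

open Finset Polynomial Matrix

variable {τ : Type} [Fintype τ] [DecidableEq τ] {b : τ → ℕ} {μ : ℕ}

private theorem Prog_conj {D : Submodule ℂ (Mt b)} (hD : Mxl b μ D) (Y : Mt b) (hY : Y ∈ D)
    (c c' : τ → ℂ) :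
    tz b (-c') * rv b * tz b (-c) * Y * (tz b c * rv b * tz b c') ∈ D := by
  have h1 := hD.tz _ (hD.rv _ (hD.tz Y hY c)) c'
  have h2 : tz b (-c') * rv b * tz b (-c) * Y * (tz b c * rv b * tz b c') =
      tz b (-c') * (rv b * (tz b (-c) * Y * tz b c) * rv b) * tz b c' := by
    simp only [Matrix.mul_assoc]
  rw [h2]
  exact h1

private theorem Prog_conj' {D : Submodule ℂ (Mt b)} (hD : Mxl b μ D) (Y : Mt b) (hY : Y ∈ D)
    (c c' : τ → ℂ) :
    tz b c * rv b * tz b c' * Y * (tz b (-c') * rv b * tz b (-c)) ∈ D := by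
  have h1 := Prog_conj hD Y hY (-c') (-c)
  rw [neg_neg, neg_neg] at h1
  exact h1

private theorem Prog_inv (c c' : τ → ℂ) :
    (tz b c * rv b * tz b c') * (tz b (-c') * rv b * tz b (-c)) = 1 := by
  have h2 : (tz b c * rv b * tz b c') * (tz b (-c') * rv b * tz b (-c)) =
      tz b c * (rv b * (tz b c' * tz b (-c')) * rv b) * tz b (-c) := by
    simp only [Matrix.mul_assoc]
  rw [h2, tz_mul_neg, Matrix.mul_one, rv_mul_rv, Matrix.mul_one, tz_mul_neg]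

private theorem Prog_scalar {D : Submodule ℂ (Mt b)} (hD : Mxl b μ D) (u : Box b → ℂ)
    (hu : u ≠ 0) (heig : ∀ Y ∈ D, ∃ χ : ℂ, Y.mulVec u = χ • u) (Y : Mt b) (hY : Y ∈ D) :
    ∃ c : ℂ, Y = c • (1 : Mt b) := by
  classical
  obtain ⟨χ, hχ⟩ := heig Y hY
  refine ⟨χ, ?_⟩
  by_contra hne
  have hN0 : Y - χ • (1 : Mt b) ≠ 0 := fun h1 => hne (sub_eq_zero.mp h1)
  generalize hN : Y - χ • (1 : Mt b) = N at hN0
  have hNY : ∀ x : Box b → ℂ, N.mulVec x = Y.mulVec x - χ • x := by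
    intro x
    rw [← hN, Matrix.sub_mulVec, Matrix.smul_mulVec, Matrix.one_mulVec]
  have hNu : N.mulVec u = 0 := by rw [hNY, hχ, sub_self]
  have hdet : N.det = 0 := Matrix.exists_mulVec_eq_zero_iff.mp ⟨u, hu, hNu⟩
  obtain ⟨ψ₂, hψ₂, hψ₂N⟩ := Matrix.exists_vecMul_eq_zero_iff.mpr hdet
  obtain ⟨γ, hγ⟩ : ∃ γ, N γ ≠ 0 := by
    by_contra h1
    push Not at h1
    exact hN0 (funext h1)
  have hψ₁N : (Pi.single γ 1 : Box b → ℂ) ᵥ* N ≠ 0 := by
    rw [Matrix.single_one_vecMul]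
    exact hγ
  obtain ⟨c, c', h1, h2⟩ := orb2 u ((Pi.single γ 1 : Box b → ℂ) ᵥ* N) ψ₂ hu hψ₁N hψ₂
  obtain ⟨χ', hχ'⟩ := heig _ (Prog_conj hD Y hY c c')
  have hYg : Y.mulVec ((tz b c * rv b * tz b c').mulVec u) =
      χ' • (tz b c * rv b * tz b c').mulVec u := by
    have h3 : (tz b c * rv b * tz b c').mulVec
        ((tz b (-c') * rv b * tz b (-c) * Y * (tz b c * rv b * tz b c')).mulVec u) =
        χ' • (tz b c * rv b * tz b c').mulVec u := by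
      rw [hχ', Matrix.mulVec_smul]
    rw [← h3, Matrix.mulVec_mulVec, Matrix.mulVec_mulVec]
    congr 1
    have h4 : (tz b c * rv b * tz b c') *
        (tz b (-c') * rv b * tz b (-c) * Y * (tz b c * rv b * tz b c')) =
        ((tz b c * rv b * tz b c') * (tz b (-c') * rv b * tz b (-c))) * Y *
          (tz b c * rv b * tz b c') := by
      simp only [Matrix.mul_assoc]
    rw [h4, Prog_inv, Matrix.one_mul]
  have hNg : N.mulVec ((tz b c * rv b * tz b c').mulVec u) =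
      (χ' - χ) • (tz b c * rv b * tz b c').mulVec u := by
    rw [hNY, hYg, sub_smul]
  have h5 : (χ' - χ) * (ψ₂ ⬝ᵥ (tz b c * rv b * tz b c').mulVec u) = 0 := by
    have h6 : ψ₂ ⬝ᵥ N.mulVec ((tz b c * rv b * tz b c').mulVec u) = 0 := by
      rw [Matrix.dotProduct_mulVec, hψ₂N, zero_dotProduct]
    rw [hNg, dotProduct_smul, smul_eq_mul] at h6
    exact h6
  have h7 : χ' - χ = 0 := (mul_eq_zero.mp h5).resolve_right h2
  apply h1
  rw [← Matrix.dotProduct_mulVec, hNg, h7, zero_smul, dotProduct_zero]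

theorem prog {D : Submodule ℂ (Mt b)} (hD : Mxl b μ D) (hμ : 1 ≤ μ) (hμB : 2 * μ ≤ Bs b + 1)
    (hB : 1 ≤ Bs b) (hex : ∃ a L, Blk b μ a L ∧ L ≠ []) (w : Box b → ℂ) (hw : w ≠ 0)
    (v : Box b → ℂ) : ∃ Y ∈ D, Y.mulVec w = v := by
  classical
  obtain ⟨a, L₀, h⟩ := exists_orig hex
  obtain ⟨Y₀, hY₀, hns⟩ := mov hμ hB h
  have hY₀D : Y₀ ∈ D := hD.ds _ (by omega) hY₀
  by_cases h0 : ∀ Y ∈ D, ∀ β : Box b, μ ≤ dg β → Y (zb b) β = 0
  · exfalso
    obtain ⟨u, hu, heig⟩ := caseB hD hμ hμB h h0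
    obtain ⟨c, hc⟩ := Prog_scalar hD u hu heig Y₀ hY₀D
    exact hns c hc
  · push Not at h0
    obtain ⟨Y, hY, β, hβ, hβ'⟩ := h0
    obtain ⟨v₀, ξ, hv₀, hξ, hmem⟩ := caseA hD hμ h Y hY β hβ hβ'
    let T : Mt b →ₗ[ℂ] (Box b → ℂ) :=
      { toFun := fun Y => Y.mulVec w
        map_add' := fun A B => Matrix.add_mulVec A B w
        map_smul' := fun c A => Matrix.smul_mulVec c A w }
    by_cases htop : D.map T = ⊤
    · have hv : v ∈ D.map T := by rw [htop]; exact Submodule.mem_top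
      obtain ⟨Y', hY', hv'⟩ := hv
      exact ⟨Y', hY', hv'⟩
    · exfalso
      obtain ⟨f, hf, hle⟩ := Submodule.exists_le_ker_of_lt_top (D.map T) (lt_top_iff_ne_top.mpr htop)
      have hfx : ∀ x : Box b → ℂ, f x = (fun γ : Box b => f (Pi.single γ 1)) ⬝ᵥ x := by
        intro x
        conv_lhs => rw [pi_eq_sum_univ' x]
        rw [map_sum]
        refine Finset.sum_congr rfl fun γ _ => ?_
        rw [map_smul, smul_eq_mul, mul_comm]
      have hψ : (fun γ : Box b => f (Pi.single γ 1)) ≠ 0 := by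
        intro h1
        apply hf
        ext1 γ
        ext
        have := congrFun h1 γ
        simpa using this
      obtain ⟨c, c', h1, h2⟩ := orb v₀ w _ ξ hv₀ hw hψ hξ
      have h3 : f (T (tz b c * rv b * tz b c' * vecMulVec v₀ ξ *
          (tz b (-c') * rv b * tz b (-c)))) = 0 :=
        hle (Submodule.mem_map_of_mem (Prog_conj' hD _ hmem c c'))
      have h4 : T (tz b c * rv b * tz b c' * vecMulVec v₀ ξ *
          (tz b (-c') * rv b * tz b (-c))) =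
          (ξ ⬝ᵥ (tz b (-c') * rv b * tz b (-c)).mulVec w) •
            (tz b c * rv b * tz b c').mulVec v₀ := by
        change (tz b c * rv b * tz b c' * vecMulVec v₀ ξ *
          (tz b (-c') * rv b * tz b (-c))).mulVec w = _
        rw [← Matrix.mulVec_mulVec, Matrix.mul_vecMulVec, Matrix.vecMulVec_mulVec]
        simp
      rw [h4, hfx, dotProduct_smul, smul_eq_mul] at h3
      exact (mul_ne_zero h2 h1) h3

end Pool.Agent.H18.Tl
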