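import Pool.Agent.H18.Tl.Tz

/-!
# Module Rv (TL): the reversal

Let `z_l ≠ 0` for all `l`, `z' = 1/z`.  Claim: `tz b z' * rv b = N * tz b z` with a matrix `N` such that `N γ κ = 0` unless
`κ ≤ γ`: `N γ κ = ∏_l (-1)^(κ_l) z_l^(κ_l + γ_l - b_l) binom(b_l - κ_l, γ_l - κ_l)` for `κ ≤ γ` (use `z_l^(κ_l + γ_l) / z_l^(b_l)`).
In one variable the entry `(γ, β)` of the right side is `z^(γ+β-b) ∑_κ (-1)^κ binom(b-κ, γ-κ) binom(β, κ)` and of the
left side it is `binom(b-β, γ) z^(γ+β-b)`; and `∑_{κ ≤ γ} (-1)^κ binom(b-κ, γ-κ) binom(β, κ) = binom(b-β, γ)` for `β ≤ b`: it is the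
coefficient of `η^γ` in `∑_κ binom(β,κ) (-η)^κ (1+η)^(b-κ) = (1+η)^(b-β) ((1+η)-η)^β = (1+η)^(b-β)`.  In several variables take
the product over `l` (`Finset.prod_univ_sum`).

`van_rv`: `act (tz b z') (act (rv b) F) γ = ∑_{κ ≤ γ} N γ κ • act (tz b z) F κ`, and `(X - C x)^(m - dg κ)` is divisible by
`(X - C x)^(m - dg γ)` if `κ ≤ γ`.
-/

namespace Pool.Agent.H18.Tl

open Finset Polynomial

variable {τ : Type} [Fintype τ] [DecidableEq τ] {b : τ → ℕ}

theorem rb_rb (β : Box b) : rb (rb β) = β := by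
  funext l
  simp only [rb, Fin.rev_rev]

private theorem Rv_dg (β : Box b) : dg (rb β) + dg β = Bs b := by
  unfold dg Bs
  rw [← Finset.sum_add_distrib]
  refine Finset.sum_congr rfl fun l _ => ?_
  have h : ((rb β l : Fin (b l + 1)) : ℕ) = b l + 1 - ((β l : ℕ) + 1) := by
    simp only [rb, Fin.val_rev]
  have h2 := (β l).isLt
  omega

theorem dg_rb (β : Box b) : dg (rb β) + dg β = Bs b := Rv_dg β

private theorem Rv_eq (γ β : Box b) : γ = rb β ↔ β = rb γ := by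
  constructor
  · intro h
    rw [h, rb_rb]
  · intro h
    rw [h, rb_rb]

theorem rv_mul_rv : rv b * rv b = 1 := by
  ext γ β
  rw [Matrix.mul_apply, Finset.sum_eq_single (rb β)]
  · simp only [rv, rb_rb, if_true, mul_one, Matrix.one_apply]
  · intro κ _ hκ
    simp only [rv, if_neg hκ, mul_zero]
  · intro h
    exact absurd (Finset.mem_univ _) h

theorem act_rv (F : V b) (γ : Box b) : act (rv b) F γ = F (rb γ) := by
  rw [act_apply, Finset.sum_eq_single (rb γ)]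
  · simp only [rv, rb_rb, if_true, C_1, one_mul]
  · intro κ _ hκ
    have h : ¬ γ = rb κ := fun h => hκ ((Rv_eq γ κ).1 h)
    simp only [rv, if_neg h, C_0, zero_mul]
  · intro h
    exact absurd (Finset.mem_univ _) h

theorem rv_mulVec (w : Box b → ℂ) (γ : Box b) : (rv b).mulVec w γ = w (rb γ) := by
  rw [Matrix.mulVec, dotProduct, Finset.sum_eq_single (rb γ)]
  · simp only [rv, rb_rb, if_true, one_mul]
  · intro κ _ hκ
    have h : ¬ γ = rb κ := fun h => hκ ((Rv_eq γ κ).1 h)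
    simp only [rv, if_neg h, zero_mul]
  · intro h
    exact absurd (Finset.mem_univ _) h

/-- The binomial identity. -/
private theorem Rv_binom (B β g : ℕ) (hβ : β ≤ B) :
    (((B - β).choose g : ℕ) : ℂ) = ∑ k ∈ range (β + 1),
      (if k ≤ g then ((-1) ^ k * (((B - k).choose (g - k) : ℕ) : ℂ)) else 0) *
        ((β.choose k : ℕ) : ℂ) := by
  have h1 : ((1 + X : ℂ[X])) ^ (B - β) = ∑ k ∈ range (β + 1),
      C ((-1) ^ k * ((β.choose k : ℕ) : ℂ)) * (X ^ k * (1 + X) ^ (B - k)) := by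
    have h2 : ((-X + (1 + X)) : ℂ[X]) ^ β = 1 := by
      have : (-X + (1 + X) : ℂ[X]) = 1 := by ring
      rw [this, one_pow]
    rw [add_pow] at h2
    have h5 : (1 + X : ℂ[X]) ^ (B - β) = (∑ m ∈ range (β + 1),
        (-X) ^ m * (1 + X) ^ (β - m) * ((β.choose m : ℕ) : ℂ[X])) * (1 + X) ^ (B - β) := by
      rw [h2, one_mul]
    rw [h5, Finset.sum_mul]
    refine Finset.sum_congr rfl fun k hk => ?_
    have hk' : k ≤ β := Nat.lt_succ_iff.1 (Finset.mem_range.1 hk)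
    have h3 : (1 + X : ℂ[X]) ^ (B - k) = (1 + X) ^ (β - k) * (1 + X) ^ (B - β) := by
      rw [← pow_add]
      congr 1
      omega
    rw [h3, neg_pow, C_mul, C_pow, C_neg, C_1, C_eq_natCast]
    ring
  have h4 := congrArg (fun p : ℂ[X] => p.coeff g) h1
  rw [coeff_one_add_X_pow, finsetSum_coeff] at h4
  rw [h4]
  refine Finset.sum_congr rfl fun k _ => ?_
  rw [coeff_C_mul, coeff_X_pow_mul', coeff_one_add_X_pow]
  split_ifs <;> ring

/-- One factor of the matrix `N`. -/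
private noncomputable def Rv_n (z : ℂ) (B g k : ℕ) : ℂ :=
  if k ≤ g then (-1) ^ k * (((B - k).choose (g - k) : ℕ) : ℂ) * z ^ (k + g) * (z ^ B)⁻¹ else 0

private theorem Rv_one (z : ℂ) (hz : z ≠ 0) (B β g : ℕ) (hβ : β ≤ B) :
    (((B - β).choose g : ℕ) : ℂ) * z⁻¹ ^ (B - β - g) =
      ∑ k : Fin (B + 1), Rv_n z B g (k : ℕ) * (((β.choose (k : ℕ) : ℕ) : ℂ) * z ^ (β - (k : ℕ))) := by
  have h1 : ∑ k : Fin (B + 1),
      Rv_n z B g (k : ℕ) * (((β.choose (k : ℕ) : ℕ) : ℂ) * z ^ (β - (k : ℕ))) =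
      ∑ k ∈ range (B + 1), Rv_n z B g k * (((β.choose k : ℕ) : ℂ) * z ^ (β - k)) :=
    Fin.sum_univ_eq_sum_range
      (fun k => Rv_n z B g k * (((β.choose k : ℕ) : ℂ) * z ^ (β - k))) (B + 1)
  have h2 : ∑ k ∈ range (B + 1), Rv_n z B g k * (((β.choose k : ℕ) : ℂ) * z ^ (β - k)) =
      ∑ k ∈ range (β + 1), Rv_n z B g k * (((β.choose k : ℕ) : ℂ) * z ^ (β - k)) := by
    symm
    refine Finset.sum_subset (Finset.range_mono (by omega)) fun k _ hk => ?_
    have hk' : β < k := by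
      rw [Finset.mem_range] at hk
      omega
    rw [Nat.choose_eq_zero_of_lt hk', Nat.cast_zero, zero_mul, mul_zero]
  have h3 : ∀ k ∈ range (β + 1), Rv_n z B g k * (((β.choose k : ℕ) : ℂ) * z ^ (β - k)) =
      (z ^ (β + g) * (z ^ B)⁻¹) *
        ((if k ≤ g then ((-1) ^ k * (((B - k).choose (g - k) : ℕ) : ℂ)) else 0) *
          ((β.choose k : ℕ) : ℂ)) := by
    intro k hk
    have hk' : k ≤ β := Nat.lt_succ_iff.1 (Finset.mem_range.1 hk)
    unfold Rv_n
    split_ifs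
    · have h4 : z ^ (β + g) = z ^ (k + g) * z ^ (β - k) := by
        rw [← pow_add]
        congr 1
        omega
      rw [h4]
      ring
    · ring
  rw [h1, h2, Finset.sum_congr rfl h3, ← Finset.mul_sum, ← Rv_binom B β g hβ]
  by_cases hg : g ≤ B - β
  · have h5 : z ^ B = z ^ (β + g) * z ^ (B - β - g) := by
      rw [← pow_add]
      congr 1
      omega
    rw [h5, mul_inv, ← mul_assoc (z ^ (β + g)), mul_inv_cancel₀ (pow_ne_zero _ hz), one_mul,
      inv_pow, mul_comm]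
  · rw [Nat.choose_eq_zero_of_lt (not_le.1 hg), Nat.cast_zero, zero_mul, mul_zero]

/-- The matrix `N`. -/
private noncomputable def Rv_N (b : τ → ℕ) (z : τ → ℂ) : Mt b :=
  fun γ κ => ∏ l, Rv_n (z l) (b l) (γ l : ℕ) (κ l : ℕ)

private theorem Rv_mul (z : τ → ℂ) (hz : ∀ l, z l ≠ 0) :
    tz b (fun l => (z l)⁻¹) * rv b = Rv_N b z * tz b z := by
  ext γ β
  rw [Matrix.mul_apply, Finset.sum_eq_single (rb β), Matrix.mul_apply]
  · have h1 : tz b (fun l => (z l)⁻¹) γ (rb β) * rv b (rb β) β =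
        ∏ l, ((((b l - (β l : ℕ)).choose (γ l : ℕ) : ℕ) : ℂ) *
          (z l)⁻¹ ^ (b l - (β l : ℕ) - (γ l : ℕ))) := by
      have h2 : rv b (rb β) β = 1 := by
        simp only [rv, if_true]
      rw [h2, mul_one]
      unfold tz
      refine Finset.prod_congr rfl fun l _ => ?_
      have h3 : ((rb β l : Fin (b l + 1)) : ℕ) = b l - (β l : ℕ) := by
        simp only [rb, Fin.val_rev]
        omega
      rw [h3]
    rw [h1]
    have h4 : ∀ κ : Box b, Rv_N b z γ κ * tz b z κ β = ∏ l, (Rv_n (z l) (b l) (γ l : ℕ) (κ l : ℕ) *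
        ((((β l : ℕ).choose (κ l : ℕ) : ℕ) : ℂ) * z l ^ ((β l : ℕ) - (κ l : ℕ)))) := by
      intro κ
      rw [Finset.prod_mul_distrib]
      rfl
    rw [Finset.sum_congr rfl fun κ _ => h4 κ]
    have h5 : (Finset.univ : Finset (Box b)) =
        Fintype.piFinset fun l => (Finset.univ : Finset (Fin (b l + 1))) :=
      Fintype.piFinset_univ.symm
    have h6 := Finset.prod_univ_sum (fun l => (Finset.univ : Finset (Fin (b l + 1))))
      (fun l k => Rv_n (z l) (b l) (γ l : ℕ) (k : ℕ) *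
        ((((β l : ℕ).choose (k : ℕ) : ℕ) : ℂ) * z l ^ ((β l : ℕ) - (k : ℕ))))
    rw [h5]
    refine Eq.trans (Finset.prod_congr rfl fun l _ => ?_) h6
    exact Rv_one (z l) (hz l) (b l) (β l : ℕ) (γ l : ℕ) (Nat.lt_succ_iff.1 (β l).isLt)
  · intro κ _ hκ
    simp only [rv, if_neg hκ, mul_zero]
  · intro h
    exact absurd (Finset.mem_univ _) h

theorem van_rv (p : Pt τ) (hz : ∀ l, p.z l ≠ 0) (F : V b) (hF : F ∈ van b p) :
    act (rv b) F ∈ van b ⟨p.m, p.x, fun l => (p.z l)⁻¹⟩ := by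
  rw [mem_van] at hF ⊢
  intro γ
  show (X - C p.x) ^ (p.m - dg γ) ∣ act (tz b fun l => (p.z l)⁻¹) (act (rv b) F) γ
  rw [← act_mul, Rv_mul p.z hz, act_mul, act_apply]
  refine Finset.dvd_sum fun κ _ => ?_
  by_cases h : ∀ l, (κ l : ℕ) ≤ (γ l : ℕ)
  · have h1 : dg κ ≤ dg γ := Finset.sum_le_sum fun l _ => h l
    exact Dvd.dvd.mul_left ((pow_dvd_pow _ (by omega)).trans (hF κ)) _
  · push Not at h
    obtain ⟨l, hl⟩ := h
    have h2 : Rv_N b p.z γ κ = 0 := by
      refine Finset.prod_eq_zero (Finset.mem_univ l) ?_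
      unfold Rv_n
      rw [if_neg (not_le.2 hl)]
    rw [h2, C_0, zero_mul]
    exact dvd_zero _

end Pool.Agent.H18.Tl
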