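import Pool.Agent.H18.Tl.Dv
import Pool.Agent.H18.Tl.Rv

/-!
# Module ShB (TL): transformations of blocks

`van_sh`, `van_sc`, `van_tz`, `van_rv` give the membership in `vanL` for the transformed lists; `sh c`, `comp (C δ * X)`
(`δ ≠ 0`) and `act A` preserve `U b a` and (for the injectivity) have inverses of the same kind (`sh (-c)`, `δ⁻¹`, `tz_neg_mul`,
`rv_mul_rv`; for `rv`, the inverse transformation is again an inversion, `(1/z)⁻¹ = z`).
Shifting: `F ∈ vanL b (shL c L) ↔ sh c F ∈ vanL b L`; so the columns of `Φ.map (taylor (-c))` vanish at `shL c L`; the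
coefficient of `t^(a-1)` of `Φ(t - c)` is `cf Φ (a - 1) - a c • 1`.
-/

namespace Pool.Agent.H18.Tl

open Finset Polynomial

variable {τ : Type} [Fintype τ] [DecidableEq τ] {b : τ → ℕ} {μ a : ℕ} {L : List (Pt τ)}
  {Φ : Matrix (Box b) (Box b) ℂ[X]}

private theorem ShB_tay0 (r : ℂ) (f : ℂ[X]) (n : ℕ) (h : ∀ i, n ≤ i → f.coeff i = 0) :
    (taylor r f).coeff n = 0 := by
  rw [taylor_coeff]
  have h0 : hasseDeriv n f = 0 := by
    ext i
    rw [hasseDeriv_coeff, h (i + n) (Nat.le_add_left n i), mul_zero, coeff_zero]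
  rw [h0, eval_zero]

private theorem ShB_tay (r : ℂ) (f : ℂ[X]) (a n : ℕ) (hn : n ≤ a)
    (h : ∀ i, a < i → f.coeff i = 0) :
    (taylor r f).coeff n =
      ∑ i ∈ Finset.range (a - n + 1), (((i + n).choose n : ℕ) : ℂ) * f.coeff (i + n) * r ^ i := by
  rw [taylor_coeff]
  have h1 : f.natDegree ≤ a := natDegree_le_iff_coeff_eq_zero.2 fun i hi => h i hi
  have h2 : (hasseDeriv n f).natDegree < a - n + 1 :=
    lt_of_le_of_lt (natDegree_hasseDeriv_le f n) (by omega)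
  rw [eval_eq_sum_range' h2]
  refine Finset.sum_congr rfl fun i _ => ?_
  rw [hasseDeriv_coeff]

omit [Fintype τ] [DecidableEq τ] in
private theorem ShB_sh_sh (c d : ℂ) (F : V b) : Tl.sh c (Tl.sh d F) = Tl.sh (d + c) F := by
  funext γ
  rw [sh_apply, sh_apply, sh_apply, taylor_taylor, add_comm]

omit [Fintype τ] [DecidableEq τ] in
private theorem ShB_sh_zero (F : V b) : Tl.sh 0 F = F := by
  funext γ
  rw [sh_apply, taylor_zero]

omit [Fintype τ] [DecidableEq τ] in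
private theorem ShB_sh_U (c : ℂ) (F : V b) (hF : F ∈ U b a) : Tl.sh c F ∈ U b a := by
  intro β j hj
  rw [sh_apply]
  exact ShB_tay0 c (F β) j fun i hi => hF β i (le_trans hj hi)

omit [DecidableEq τ] in
private theorem ShB_sh_Ve (c : ℂ) (e : ℕ) (F : V b) (hF : F ∈ Ve b e) : Tl.sh c F ∈ Ve b e := by
  intro β j hj
  rw [sh_apply]
  exact ShB_tay0 c (F β) j fun i hi => hF β i (by omega)

theorem vanL_sh (c : ℂ) (L : List (Pt τ)) (F : V b) :
    sh c F ∈ vanL b L ↔ F ∈ vanL b (shL c L) := by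
  rw [mem_vanL, mem_vanL]
  constructor
  · intro h q hq
    obtain ⟨p, hp, rfl⟩ := List.mem_map.1 hq
    exact (van_sh c p F).1 (h p hp)
  · intro h p hp
    exact (van_sh c p F).2 (h _ (List.mem_map.2 ⟨p, hp, rfl⟩))

theorem Blk.sh (h : Blk b μ a L) (c : ℂ) : Blk b μ a (shL c L) := by
  refine ⟨?_, ?_, ?_, ?_⟩
  · intro q hq
    obtain ⟨p, hp, rfl⟩ := List.mem_map.1 hq
    exact h.mult p hp
  · have h1 : (shL c L).map Pt.x = (L.map Pt.x).map fun x => x + c := by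
      rw [shL, List.map_map, List.map_map]
      rfl
    rw [h1]
    exact h.dist.map (add_left_injective c)
  · rw [shL, List.length_map]
    exact h.cnt
  · intro F hU hF
    have h1 : Tl.sh c F = 0 := h.inj _ (ShB_sh_U c F hU) ((vanL_sh c L F).2 hF)
    have h2 : Tl.sh (-c) (Tl.sh c F) = F := by
      rw [ShB_sh_sh, add_neg_cancel, ShB_sh_zero]
    rw [← h2, h1, map_zero]

theorem Blk.sc (h : Blk b μ a L) (δ : ℂ) (hδ : δ ≠ 0) : Blk b μ a (scL δ L) := by
  refine ⟨?_, ?_, ?_, ?_⟩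
  · intro q hq
    obtain ⟨p, hp, rfl⟩ := List.mem_map.1 hq
    exact h.mult p hp
  · have h1 : (scL δ L).map Pt.x = (L.map Pt.x).map fun x => δ * x := by
      rw [scL, List.map_map, List.map_map]
      rfl
    rw [h1]
    exact h.dist.map (mul_right_injective₀ hδ)
  · rw [scL, List.length_map]
    exact h.cnt
  · intro F hU hF
    have hc : ∀ (f : ℂ[X]) (j : ℕ), (f.comp (C δ * X)).coeff j = f.coeff j * δ ^ j := fun f j =>
      comp_C_mul_X_coeff
    have h1 : (fun γ => (F γ).comp (C δ * X)) = (0 : V b) := by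
      refine h.inj _ ?_ ?_
      · intro β j hj
        change ((F β).comp (C δ * X)).coeff j = 0
        rw [hc, hU β j hj, zero_mul]
      · intro p hp
        exact (van_sc δ hδ p F).2 (hF _ (List.mem_map.2 ⟨p, hp, rfl⟩))
    funext β
    ext j
    have h2 : ((F β).comp (C δ * X)).coeff j = 0 := by
      have h3 := congrFun h1 β
      change (F β).comp (C δ * X) = 0 at h3
      rw [h3, coeff_zero]
    rw [hc] at h2
    rw [Pi.zero_apply, coeff_zero]
    exact (mul_eq_zero.1 h2).resolve_right (pow_ne_zero j hδ)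

theorem Blk.tz (h : Blk b μ a L) (c : τ → ℂ) : Blk b μ a (tzL c L) := by
  refine ⟨?_, ?_, ?_, ?_⟩
  · intro q hq
    obtain ⟨p, hp, rfl⟩ := List.mem_map.1 hq
    exact h.mult p hp
  · have h1 : (tzL c L).map Pt.x = L.map Pt.x := by
      rw [tzL, List.map_map]
      rfl
    rw [h1]
    exact h.dist
  · rw [tzL, List.length_map]
    exact h.cnt
  · intro F hU hF
    have h1 : act (Tl.tz b c) F = 0 := by
      refine h.inj _ (act_mem_U _ a F hU) ?_
      intro p hp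
      exact (van_tz c p F).2 (hF _ (List.mem_map.2 ⟨p, hp, rfl⟩))
    have h2 : act (Tl.tz b (-c)) (act (Tl.tz b c) F) = F := by
      rw [← act_mul, tz_neg_mul, act_one]
    rw [← h2, h1, map_zero]

theorem Blk.rv (h : Blk b μ a L) (hz : ∀ p ∈ L, ∀ l, p.z l ≠ 0) : Blk b μ a (rvL L) := by
  refine ⟨?_, ?_, ?_, ?_⟩
  · intro q hq
    obtain ⟨p, hp, rfl⟩ := List.mem_map.1 hq
    exact h.mult p hp
  · have h1 : (rvL L).map Pt.x = L.map Pt.x := by
      rw [rvL, List.map_map]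
      rfl
    rw [h1]
    exact h.dist
  · rw [rvL, List.length_map]
    exact h.cnt
  · intro F hU hF
    have h1 : act (Tl.rv b) F = 0 := by
      refine h.inj _ (act_mem_U _ a F hU) ?_
      intro p hp
      have h3 := van_rv (b := b) ⟨p.m, p.x, fun l => (p.z l)⁻¹⟩ (fun l => inv_ne_zero (hz p hp l)) F
        (hF _ (List.mem_map.2 ⟨p, hp, rfl⟩))
      have h4 : (⟨p.m, p.x, fun l => ((p.z l)⁻¹)⁻¹⟩ : Pt τ) = p := by
        simp only [inv_inv]
      rw [← h4]
      exact h3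
    have h2 : act (Tl.rv b) (act (Tl.rv b) F) = F := by
      rw [← act_mul, rv_mul_rv, act_one]
    rw [← h2, h1, map_zero]

theorem Ph.sh (hΦ : Ph b a L Φ) (c : ℂ) : Ph b a (shL c L) (Φ.map (taylor (-c))) := by
  refine ⟨?_, ?_, ?_⟩
  · intro β
    have h1 : (fun γ => (Φ.map (taylor (-c))) γ β) = Tl.sh (-c) fun γ => Φ γ β := rfl
    rw [h1, ← vanL_sh, ShB_sh_sh, neg_add_cancel, ShB_sh_zero]
    exact hΦ.van β
  · intro γ β
    rw [Matrix.map_apply, ShB_tay (-c) (Φ γ β) a a le_rfl (hΦ.deg γ β), Nat.sub_self, zero_add,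
      Finset.sum_range_one, zero_add, Nat.choose_self, Nat.cast_one, one_mul, pow_zero, mul_one]
    exact hΦ.top γ β
  · intro γ β j hj
    rw [Matrix.map_apply]
    exact ShB_tay0 _ _ _ fun i hi => hΦ.deg γ β i (lt_of_lt_of_le hj hi)

theorem cf_sh (hΦ : Ph b a L Φ) (ha : 1 ≤ a) (c : ℂ) :
    cf (Φ.map (taylor (-c))) (a - 1) = cf Φ (a - 1) - ((a : ℂ) * c) • (1 : Mt b) := by
  obtain ⟨n, rfl⟩ : ∃ n, a = n + 1 := ⟨a - 1, by omega⟩
  funext γ β
  have h1 := ShB_tay (-c) (Φ γ β) (n + 1) n (Nat.le_succ n) (hΦ.deg γ β)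
  have h2 : n + 1 - n + 1 = 2 := by omega
  rw [h2, Finset.sum_range_succ, Finset.sum_range_one, zero_add, Nat.choose_self, Nat.cast_one,
    one_mul, pow_zero, mul_one, pow_one, add_comm 1 n, hΦ.top γ β, Nat.choose_succ_self_right] at h1
  rw [Matrix.sub_apply, Matrix.smul_apply, Matrix.one_apply]
  change (taylor (-c) (Φ γ β)).coeff (n + 1 - 1) = (Φ γ β).coeff (n + 1 - 1) - _
  rw [Nat.add_sub_cancel, h1, smul_eq_mul]
  ring

theorem ev_sh (Φ : Matrix (Box b) (Box b) ℂ[X]) (c x : ℂ) :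
    ev (Φ.map (taylor (-c))) x = ev Φ (x - c) := by
  funext γ β
  change (taylor (-c) (Φ γ β)).eval x = (Φ γ β).eval (x - c)
  rw [taylor_eval, sub_eq_add_neg]

private theorem ShB_col (A B : Mt b) (Φ : Matrix (Box b) (Box b) ℂ[X]) (β : Box b) :
    (fun γ => (A.map C * Φ * B.map C) γ β) = act A (Φ.mulVec (cv fun κ => B κ β)) := by
  rw [Matrix.mul_assoc]
  rfl

private theorem ShB_topdeg (A B : Mt b) (hAB : A * B = 1) (hΦ : Ph b a L Φ) :
    (∀ γ β, ((A.map C * Φ * B.map C) γ β).coeff a = if γ = β then 1 else 0) ∧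
      ∀ γ β j, a < j → ((A.map C * Φ * B.map C) γ β).coeff j = 0 := by
  constructor
  · intro γ β
    obtain ⟨-, -, h3, -⟩ := hΦ.comb fun κ => B κ β
    rw [show (A.map C * Φ * B.map C) γ β = act A (Φ.mulVec (cv fun κ => B κ β)) γ from
      congrFun (ShB_col A B Φ β) γ, coeff_act]
    have h4 : ∑ κ, A γ κ * (Φ.mulVec (cv fun κ => B κ β) κ).coeff a = (A * B) γ β := by
      rw [Matrix.mul_apply]
      exact Finset.sum_congr rfl fun κ _ => by rw [h3 κ]
    rw [h4, hAB, Matrix.one_apply]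
  · intro γ β j hj
    obtain ⟨-, h2, -, -⟩ := hΦ.comb fun κ => B κ β
    rw [show (A.map C * Φ * B.map C) γ β = act A (Φ.mulVec (cv fun κ => B κ β)) γ from
      congrFun (ShB_col A B Φ β) γ, coeff_act]
    refine Finset.sum_eq_zero fun κ _ => ?_
    rw [h2 κ j hj, mul_zero]

theorem Ph.tz (hΦ : Ph b a L Φ) (c : τ → ℂ) :
    Ph b a (tzL c L) ((Tl.tz b (-c)).map C * Φ * (Tl.tz b c).map C) := by
  obtain ⟨h1, h2⟩ := ShB_topdeg (Tl.tz b (-c)) (Tl.tz b c) (tz_neg_mul c) hΦ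
  refine ⟨?_, h1, h2⟩
  intro β q hq
  obtain ⟨p, hp, rfl⟩ := List.mem_map.1 hq
  rw [ShB_col]
  refine (van_tz c p _).1 ?_
  rw [← act_mul, tz_mul_neg, act_one]
  exact (hΦ.comb fun κ => Tl.tz b c κ β).1 p hp

theorem Ph.rv (hΦ : Ph b a L Φ) (hz : ∀ p ∈ L, ∀ l, p.z l ≠ 0) :
    Ph b a (rvL L) ((Tl.rv b).map C * Φ * (Tl.rv b).map C) := by
  obtain ⟨h1, h2⟩ := ShB_topdeg (Tl.rv b) (Tl.rv b) rv_mul_rv hΦ
  refine ⟨?_, h1, h2⟩
  intro β q hq
  obtain ⟨p, hp, rfl⟩ := List.mem_map.1 hq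
  rw [ShB_col]
  exact van_rv p (hz p hp) _ ((hΦ.comb fun κ => Tl.rv b κ β).1 p hp)

theorem cf_conj (A B : Mt b) (Φ : Matrix (Box b) (Box b) ℂ[X]) (j : ℕ) :
    cf (A.map C * Φ * B.map C) j = A * cf Φ j * B := by
  funext γ β
  change ((A.map C * Φ * B.map C) γ β).coeff j = (A * cf Φ j * B) γ β
  rw [Matrix.mul_apply, Matrix.mul_apply, finsetSum_coeff]
  refine Finset.sum_congr rfl fun κ _ => ?_
  rw [Matrix.map_apply, coeff_mul_C, Matrix.mul_apply, Matrix.mul_apply, finsetSum_coeff]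
  congr 1
  refine Finset.sum_congr rfl fun ι _ => ?_
  rw [Matrix.map_apply, coeff_C_mul]
  rfl

/-- Solutions after a translation. -/
private theorem ShB_sh_mem_Sol (c : ℂ) (e : ℕ) (L : List (Pt τ)) (F : V b) :
    Tl.sh c F ∈ Sol b e L ↔ F ∈ Sol b e (shL c L) := by
  rw [mem_Sol, mem_Sol, vanL_sh]
  refine and_congr_left fun _ => ⟨fun h => ?_, ShB_sh_Ve c e F⟩
  have h2 : Tl.sh (-c) (Tl.sh c F) = F := by
    rw [ShB_sh_sh, add_neg_cancel, ShB_sh_zero]
  rw [← h2]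
  exact ShB_sh_Ve (-c) e _ h

/-- Translations of the whole configuration do not change the dimension. -/
theorem h0_sh (c : ℂ) (e : ℕ) (L : List (Pt τ)) : h0 b e (shL c L) = h0 b e L := by
  let E : V b ≃ₗ[ℂ] V b := LinearEquiv.ofLinearMap (Tl.sh c) (Tl.sh (-c))
    (LinearMap.ext fun F => by
      rw [LinearMap.comp_apply, ShB_sh_sh, neg_add_cancel, ShB_sh_zero, LinearMap.id_apply])
    (LinearMap.ext fun F => by
      rw [LinearMap.comp_apply, ShB_sh_sh, add_neg_cancel, ShB_sh_zero, LinearMap.id_apply])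
  have h1 : (Sol b e (shL c L)).map (E : V b →ₗ[ℂ] V b) = Sol b e L := by
    ext G
    rw [Submodule.mem_map]
    constructor
    · rintro ⟨F, hF, rfl⟩
      exact (ShB_sh_mem_Sol c e L F).2 hF
    · intro hG
      refine ⟨E.symm G, (ShB_sh_mem_Sol c e L _).1 ?_, E.apply_symm_apply G⟩
      have h3 : Tl.sh c (E.symm G) = G := E.apply_symm_apply G
      rw [h3]
      exact hG
  rw [h0, h0, ← h1]
  exact (E.submoduleMap (Sol b e (shL c L))).finrank_eq

/-- Solutions after a translation. -/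
theorem sh_mem_Sol (c : ℂ) (e : ℕ) (L : List (Pt τ)) (F : V b) :
    sh c F ∈ Sol b e L ↔ F ∈ Sol b e (shL c L) :=
  ShB_sh_mem_Sol c e L F

theorem cL_sh (c : ℂ) (L : List (Pt τ)) : cL b (shL c L) = cL b L := by
  rw [cL, cL, shL, List.map_map]
  rfl

end Pool.Agent.H18.Tl
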