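import Pool.Agent.H18.Tl.Prog
import Pool.Agent.H18.Tl.Ins
import Pool.Agent.H18.Tl.Full

/-!
# Module Step (TL): one block lowers the dimension

`exists_max` gives `S` (and `a` from the existing block; all blocks with `S` points have the same height `a`, by `cnt` and
`0 < Pc b`; `1 ≤ a` by `Blk.pos`) and `D = Ds b μ S` with `Mxl b μ D`.
Given `L`, `e`, `h`.  For a block `L'` with `S` points and a translate `L₁ = shL c L` with all `x ≠ 0`, the lists `L₁ ++ scL δ L'` have distinct `x`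
for almost all `δ` (`δ ≠ 0`, `δ p'.x ≠ p.x`), and the right multiset of multiplicities (`L'` has `S` points of multiplicity `μ`).
If `h0 b e L ≤ h`: `ins_le` (and `h0_sh`).  Otherwise `h0 b e L = h + 1 > 0`; let `0 ≠ s ∈ Sol b e L`; choose `t₀` with `s(t₀) ≠ 0` and `t₀ ≠ p.x` for
`p ∈ L` (finitely many exceptions); `L₁ = shL (-t₀) L`, `s₁ = sh t₀ s ∈ Sol b e L₁` (`sh_mem_Sol`), `e0 s₁ = s(t₀) ≠ 0`.  Suppose that for every
block `(L', Φ)` with `S` points there is `G ∈ Sol b (e + 1) L₁` with `e0 G = Φ₁ (e0 s₁)`.  Then for all `Y ∈ D` there is `G ∈ Sol b (e + 1) L₁` with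
`e0 G = Y (e0 s₁)` (span induction), so by `prog` for all `v`; `full` gives `h0 b e L + cL b L ≤ Lm b (e + 1) ≤ cL b L`, so `h0 b e L = 0`, a
contradiction.  So for some block `ins_lt` applies.
-/

namespace Pool.Agent.H18.Tl

open Finset Polynomial

variable {τ : Type} [Fintype τ] [DecidableEq τ]

/-- avoid a finite set -/
private theorem Step_avoid (T : Set ℂ) (hT : T.Finite) : ∃ δ : ℂ, δ ∉ T := by
  obtain ⟨δ, hδ⟩ := hT.infinite_compl.nonempty
  exact ⟨δ, hδ⟩

omit [Fintype τ] [DecidableEq τ] in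
private theorem Step_nodup_sh (c : ℂ) {L : List (Pt τ)} (h : (L.map Pt.x).Nodup) :
    ((shL c L).map Pt.x).Nodup := by
  have e : (shL c L).map Pt.x = (L.map Pt.x).map fun x => x + c := by
    unfold shL
    rw [List.map_map, List.map_map]
    rfl
  rw [e]
  exact h.map (add_left_injective c)

omit [Fintype τ] [DecidableEq τ] in
private theorem Step_m_sh (c : ℂ) (L : List (Pt τ)) : (shL c L).map Pt.m = L.map Pt.m := by
  unfold shL
  rw [List.map_map]
  rfl

omit [Fintype τ] [DecidableEq τ] in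
private theorem Step_m_sc (c : ℂ) (L : List (Pt τ)) : (scL c L).map Pt.m = L.map Pt.m := by
  unfold scL
  rw [List.map_map]
  rfl

omit [Fintype τ] [DecidableEq τ] in
private theorem Step_sh_sh (c : ℂ) (L : List (Pt τ)) : shL c (shL (-c) L) = L := by
  unfold shL
  rw [List.map_map]
  conv_rhs => rw [← List.map_id L]
  refine List.map_congr_left fun p _ => ?_
  simp

private theorem Step_choose {b : τ → ℕ} {μ a : ℕ} {L₁ L' : List (Pt τ)}
    (hd : (L₁.map Pt.x).Nodup) (hx : ∀ p ∈ L₁, p.x ≠ 0) (h : Blk b μ a L') (T : Set ℂ)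
    (hT : T.Finite) :
    ∃ δ : ℂ, δ ∉ T ∧ ((L₁ ++ scL δ L').map Pt.x).Nodup ∧
      (↑((L₁ ++ scL δ L').map Pt.m) : Multiset ℕ) =
        ↑(L₁.map Pt.m) + Multiset.replicate L'.length μ := by
  classical
  obtain ⟨δ, hδ⟩ := Step_avoid (T ∪ ({0} ∪ ⋃ p ∈ {p | p ∈ L₁}, ⋃ q ∈ {q | q ∈ L'},
    ({p.x / q.x} : Set ℂ))) (hT.union ((Set.finite_singleton 0).union
      ((List.finite_toSet L₁).biUnion fun p _ => (List.finite_toSet L').biUnion fun q _ =>
        Set.finite_singleton _)))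
  simp only [Set.mem_union, Set.mem_singleton_iff, Set.mem_iUnion, not_or, not_exists] at hδ
  obtain ⟨h1, h2, h3⟩ := hδ
  refine ⟨δ, h1, ?_, ?_⟩
  · rw [List.map_append, List.nodup_append']
    refine ⟨hd, ?_, ?_⟩
    · have e : (scL δ L').map Pt.x = (L'.map Pt.x).map fun x => δ * x := by
        unfold scL
        rw [List.map_map, List.map_map]
        rfl
      rw [e]
      exact h.dist.map (mul_right_injective₀ h2)
    · rw [List.disjoint_left]
      intro x hx1 hx2
      rw [List.mem_map] at hx1 hx2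
      obtain ⟨p, hp, rfl⟩ := hx1
      obtain ⟨q', hq', hqp⟩ := hx2
      unfold scL at hq'
      rw [List.mem_map] at hq'
      obtain ⟨q, hq, rfl⟩ := hq'
      have h4 : δ * q.x = p.x := hqp
      have h5 : q.x ≠ 0 := by
        intro h0
        rw [h0, mul_zero] at h4
        exact hx p hp h4.symm
      exact h3 p hp q hq (by rw [← h4, mul_div_cancel_right₀ _ h5])
  · rw [List.map_append, ← Multiset.coe_add, Step_m_sc]
    congr 1
    have e : L'.map Pt.m = List.replicate L'.length μ := by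
      rw [List.eq_replicate_iff]
      refine ⟨by rw [List.length_map], fun m hm => ?_⟩
      rw [List.mem_map] at hm
      obtain ⟨q, hq, rfl⟩ := hm
      exact h.mult q hq
    rw [e, Multiset.coe_replicate]

theorem step (b : τ → ℕ) (μ : ℕ) (hμ : 1 ≤ μ) (hμB : 2 * μ ≤ Bs b + 1) (hB : 1 ≤ Bs b)
    (hex : ∃ a L, Blk b μ a L ∧ L ≠ []) :
    ∃ S a : ℕ, 1 ≤ S ∧ 1 ≤ a ∧ S * Lm b μ = a * Pc b ∧
      ∀ (L : List (Pt τ)) (e h : ℕ), (L.map Pt.x).Nodup → Bs b ≤ e + 1 →
        Lm b (e + 1) ≤ cL b L → h0 b e L ≤ h + 1 →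
        ∃ L' : List (Pt τ), (L'.map Pt.x).Nodup ∧
          (↑(L'.map Pt.m) : Multiset ℕ) = ↑(L.map Pt.m) + Multiset.replicate S μ ∧
          h0 b (e + a) L' ≤ h := by
  obtain ⟨S, hS1, ⟨a, L0, hL0, hlen⟩, hD⟩ := exists_max hμ hex
  have hne : L0 ≠ [] := by
    rintro rfl
    simp at hlen
    omega
  have ha : 1 ≤ a := hL0.pos hμ hne
  have hcnt : S * Lm b μ = a * Pc b := by
    rw [← hlen]
    exact hL0.cnt
  have hPc : 0 < Pc b := Fintype.card_pos_iff.2 ⟨zb b⟩
  have hheight : ∀ a' (L' : List (Pt τ)), Blk b μ a' L' → L'.length = S → a' = a := by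
    intro a' L' h' hl
    have h1 := h'.cnt
    rw [hl, hcnt] at h1
    exact (Nat.eq_of_mul_eq_mul_right hPc h1).symm
  refine ⟨S, a, hS1, ha, hcnt, fun L e h hnod hBe hLm hh => ?_⟩
  rcases Nat.lt_or_ge h (h0 b e L) with hlt | hle
  · -- the dimension is positive
    have hpos : h0 b e L ≠ 0 := by omega
    have hs0 : ¬ ∀ F ∈ Sol b e L, F = 0 := fun h' => hpos ((h0_eq_zero e L).2 h')
    push Not at hs0
    obtain ⟨s, hs, hsne⟩ := hs0
    obtain ⟨β, hβ⟩ := Function.ne_iff.1 hsne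
    have hβ' : s β ≠ 0 := hβ
    obtain ⟨t₀, ht₀⟩ := Step_avoid ({t | (s β).IsRoot t} ∪ {x | x ∈ L.map Pt.x})
      ((Polynomial.finite_setOfPred_isRoot hβ').union (List.finite_toSet _))
    simp only [Set.mem_union, not_or] at ht₀
    obtain ⟨hroot, hnot⟩ := ht₀
    have hx₁ : ∀ p ∈ shL (-t₀) L, p.x ≠ 0 := by
      intro p hp
      unfold shL at hp
      rw [List.mem_map] at hp
      obtain ⟨q, hq, rfl⟩ := hp
      intro h0
      have h1 : q.x + -t₀ = 0 := h0
      have h2 : q.x = t₀ := by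
        rw [← sub_eq_add_neg, sub_eq_zero] at h1
        exact h1
      exact hnot (h2 ▸ List.mem_map_of_mem hq)
    have hd₁ := Step_nodup_sh (-t₀) hnod
    have hs₁ : sh t₀ s ∈ Sol b e (shL (-t₀) L) := by
      rw [sh_mem_Sol, Step_sh_sh]
      exact hs
    have hes : e0 (sh t₀ s) ≠ 0 := by
      intro h0
      have h1 := congrFun h0 β
      have h2 : (taylor t₀ (s β)).coeff 0 = 0 := h1
      rw [taylor_coeff_zero] at h2
      exact hroot h2
    by_cases hcase : ∃ (a' : ℕ) (L' : List (Pt τ)) (Φ : Matrix (Box b) (Box b) ℂ[X]),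
        Blk b μ a' L' ∧ L'.length = S ∧ Ph b a' L' Φ ∧
        ∀ G ∈ Sol b (e + 1) (shL (-t₀) L), e0 G ≠ (cf Φ (a' - 1)).mulVec (e0 (sh t₀ s))
    · obtain ⟨a', L', Φ, hb, hl, hΦ, hn⟩ := hcase
      have haa := hheight a' L' hb hl
      subst haa
      obtain ⟨T, hT, hδ⟩ := ins_lt hx₁ hb hΦ ha hBe (sh t₀ s) hs₁ hn
      obtain ⟨δ, h1, h2, h3⟩ := Step_choose hd₁ hx₁ hb T hT
      refine ⟨_, h2, ?_, ?_⟩
      · rw [h3, Step_m_sh, hl]
      · have h4 := hδ δ h1
        rw [h0_sh] at h4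
        omega
    · exfalso
      push Not at hcase
      have key : ∀ Y ∈ Ds b μ S, ∃ G ∈ Sol b (e + 1) (shL (-t₀) L),
          e0 G = Y.mulVec (e0 (sh t₀ s)) := by
        intro Y hY
        unfold Ds at hY
        induction hY using Submodule.span_induction with
        | mem Y hY =>
          obtain ⟨a', L', Φ, hb, hl, hΦ, rfl⟩ := hY
          exact hcase a' L' Φ hb hl hΦ
        | zero => exact ⟨0, Submodule.zero_mem _, by
            rw [Matrix.zero_mulVec]
            funext γ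
            exact Polynomial.coeff_zero 0⟩
        | add Y Z _ _ h1 h2 =>
          obtain ⟨G, hG, hG'⟩ := h1
          obtain ⟨H, hH, hH'⟩ := h2
          refine ⟨G + H, Submodule.add_mem _ hG hH, ?_⟩
          rw [Matrix.add_mulVec, ← hG', ← hH']
          funext γ
          exact Polynomial.coeff_add _ _ _
        | smul c Y _ h1 =>
          obtain ⟨G, hG, hG'⟩ := h1
          refine ⟨c • G, Submodule.smul_mem _ c hG, ?_⟩
          rw [Matrix.smul_mulVec, ← hG']
          funext γ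
          exact Polynomial.coeff_smul _ _ _
      have hall : ∀ v : Box b → ℂ, ∃ G ∈ Sol b (e + 1) (shL (-t₀) L), e0 G = v := by
        intro v
        obtain ⟨Y, hY, hYv⟩ := prog hD hμ hμB hB hex _ hes v
        obtain ⟨G, hG, hG'⟩ := key Y hY
        exact ⟨G, hG, hG'.trans hYv⟩
      have h1 := full hd₁ hBe hx₁ hall
      rw [h0_sh, cL_sh] at h1
      omega
  · -- nothing to lower
    obtain ⟨c, hc⟩ := Step_avoid {x | x ∈ L.map Pt.x} (List.finite_toSet _)
    have hx₁ : ∀ p ∈ shL (-c) L, p.x ≠ 0 := by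
      intro p hp
      unfold shL at hp
      rw [List.mem_map] at hp
      obtain ⟨q, hq, rfl⟩ := hp
      intro h0
      have h1 : q.x + -c = 0 := h0
      have h2 : q.x = c := by
        rw [← sub_eq_add_neg, sub_eq_zero] at h1
        exact h1
      exact hc (h2 ▸ List.mem_map_of_mem hq)
    have hd₁ := Step_nodup_sh (-c) hnod
    obtain ⟨T, hT, hδ⟩ := ins_le (e := e) hx₁ hL0 ha hBe
    obtain ⟨δ, h1, h2, h3⟩ := Step_choose hd₁ hx₁ hL0 T hT
    refine ⟨_, h2, ?_, ?_⟩
    · rw [h3, Step_m_sh, hlen]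
    · have h4 := hδ δ h1
      rw [h0_sh] at h4
      omega

end Pool.Agent.H18.Tl
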