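import Pool.Agent.H18.Tl.ShB
import Pool.Agent.H18.Tl.Lin

/-!
# Module Sym (TL): symmetries of the spans `Ds`

`Ds_one`: for a block `L` with matrix `Φ` the generators of `L` and of `shL (-1) L` (`Ph.sh`, `cf_sh`) differ by `a • 1`, `a ≥ 1`.
`Ds_tz`: by `Submodule.span_induction` (or `Submodule.map_span_le`) for a generator: `Blk.tz`, `Ph.tz`, `cf_conj`.
`Ds_rv`: for a generator `Y = cf Φ (a - 1)` of the block `L`: for `δ` with `δ + p.z l ≠ 0` for all `p ∈ L`, `l` (almost all `δ`) the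
block `tzL (fun _ => δ) L` satisfies the hypothesis of `Blk.rv`, so `rv * tz (-c) * Y * tz c * rv ∈ Ds b μ s`, `c = fun _ => δ`.  The
entries of `tz b (fun _ => δ)` are `∏ binom * δ ^ (dg β - dg γ)`, so this is a polynomial family `∑_{k<n} δ^k • C k` of matrices with
`C 0` = the value at `δ = 0`, i.e. `rv * Y * rv` (`tz_zero`); apply `mem_of_poly` (`k = 0`).
-/

namespace Pool.Agent.H18.Tl

open Finset Polynomial

variable {τ : Type} [Fintype τ] [DecidableEq τ] {b : τ → ℕ} {μ s : ℕ}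

/-- The translations by `(δ, …, δ)` form a polynomial family. -/
theorem tz_poly (b : τ → ℕ) : ∃ (n : ℕ) (A : ℕ → Mt b), 1 ≤ n ∧ A 0 = 1 ∧
    ∀ δ : ℂ, tz b (fun _ => δ) = ∑ k ∈ range n, δ ^ k • A k := by
  classical
  let A : ℕ → Mt b := fun k γ β =>
    if ∑ l, ((β l : ℕ) - (γ l : ℕ)) = k then ∏ l, (((β l : ℕ).choose (γ l : ℕ) : ℕ) : ℂ) else 0
  have hA : ∀ δ : ℂ, tz b (fun _ => δ) = ∑ k ∈ range (Bs b + 1), δ ^ k • A k := by
    intro δ
    ext γ β
    have h1 : ∑ l, ((β l : ℕ) - (γ l : ℕ)) < Bs b + 1 := by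
      refine Nat.lt_succ_of_le ?_
      unfold Bs
      refine Finset.sum_le_sum fun l _ => ?_
      have := (β l).isLt
      omega
    rw [Matrix.sum_apply]
    have h2 : ∀ k ∈ range (Bs b + 1), (δ ^ k • A k) γ β =
        if ∑ l, ((β l : ℕ) - (γ l : ℕ)) = k then
          δ ^ k * ∏ l, (((β l : ℕ).choose (γ l : ℕ) : ℕ) : ℂ) else 0 := by
      intro k _
      rw [Matrix.smul_apply, smul_eq_mul]
      show δ ^ k * (if ∑ l, ((β l : ℕ) - (γ l : ℕ)) = k then
        ∏ l, (((β l : ℕ).choose (γ l : ℕ) : ℕ) : ℂ) else 0) = _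
      split_ifs <;> simp
    rw [Finset.sum_congr rfl h2, Finset.sum_ite_eq, if_pos (Finset.mem_range.2 h1)]
    unfold tz
    rw [Finset.prod_mul_distrib, Finset.prod_pow_eq_pow_sum, mul_comm]
  refine ⟨Bs b + 1, A, by omega, ?_, hA⟩
  have h0 := hA 0
  rw [Finset.sum_range_succ'] at h0
  have h3 : ∀ k ∈ range (Bs b), (0 : ℂ) ^ (k + 1) • A (k + 1) = 0 := by
    intro k _
    rw [zero_pow (Nat.succ_ne_zero k), zero_smul]
  rw [Finset.sum_congr rfl h3, Finset.sum_const_zero, zero_add, pow_zero, one_smul] at h0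
  rw [← h0]
  exact tz_zero

private theorem Sym_gen {a : ℕ} {L : List (Pt τ)} {Φ : Matrix (Box b) (Box b) ℂ[X]}
    (hB : Blk b μ a L) (hl : L.length = s) (hΦ : Ph b a L Φ) : cf Φ (a - 1) ∈ Ds b μ s :=
  Submodule.subset_span ⟨a, L, Φ, hB, hl, hΦ, rfl⟩

theorem Ds_one (hμ : 1 ≤ μ) (hs : 1 ≤ s) (h : ∃ a L, Blk b μ a L ∧ L.length = s) :
    (1 : Mt b) ∈ Ds b μ s := by
  obtain ⟨a, L, hB, hl⟩ := h
  have hL : L ≠ [] := by
    intro h0
    rw [h0] at hl
    simp at hl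
    omega
  have ha : 1 ≤ a := hB.pos hμ hL
  obtain ⟨Φ, hΦ⟩ := exists_ph hB
  have h1 : cf Φ (a - 1) ∈ Ds b μ s := Sym_gen hB hl hΦ
  have h2 : cf (Φ.map (taylor (-(-1 : ℂ)))) (a - 1) ∈ Ds b μ s :=
    Sym_gen (hB.sh (-1)) (by rw [shL, List.length_map, hl]) (hΦ.sh (-1))
  rw [cf_sh hΦ ha (-1)] at h2
  have h3 := (Ds b μ s).sub_mem h2 h1
  have h4 : cf Φ (a - 1) - ((a : ℂ) * (-1)) • (1 : Mt b) - cf Φ (a - 1) = (a : ℂ) • (1 : Mt b) := by
    rw [mul_neg_one, neg_smul]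
    abel
  rw [h4] at h3
  have ha' : (a : ℂ) ≠ 0 := by
    exact_mod_cast (by omega : a ≠ 0)
  have h5 := (Ds b μ s).smul_mem ((a : ℂ)⁻¹) h3
  rwa [smul_smul, inv_mul_cancel₀ ha', one_smul] at h5

theorem Ds_tz (c : τ → ℂ) (Y : Mt b) (hY : Y ∈ Ds b μ s) :
    tz b (-c) * Y * tz b c ∈ Ds b μ s := by
  unfold Ds at hY
  refine Submodule.span_induction (p := fun Y _ => tz b (-c) * Y * tz b c ∈ Ds b μ s) ?_ ?_ ?_ ?_ hY
  · rintro _ ⟨a, L, Φ, hB, hl, hΦ, rfl⟩
    rw [← cf_conj]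
    exact Sym_gen (hB.tz c) (by rw [tzL, List.length_map, hl]) (hΦ.tz c)
  · rw [mul_zero, zero_mul]
    exact (Ds b μ s).zero_mem
  · intro Y Z _ _ h1 h2
    rw [mul_add, add_mul]
    exact (Ds b μ s).add_mem h1 h2
  · intro r Y _ h1
    rw [Matrix.mul_smul, Matrix.smul_mul]
    exact (Ds b μ s).smul_mem r h1

private theorem Sym_rv_gen {a : ℕ} {L : List (Pt τ)} {Φ : Matrix (Box b) (Box b) ℂ[X]}
    (hB : Blk b μ a L) (hl : L.length = s) (hΦ : Ph b a L Φ) :
    rv b * cf Φ (a - 1) * rv b ∈ Ds b μ s := by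
  classical
  obtain ⟨n, A, hn, hA0, hA⟩ := tz_poly b
  set Y : Mt b := cf Φ (a - 1) with hY
  let T : Set ℂ := ⋃ p ∈ {p | p ∈ L}, ⋃ l : τ, {-(p.z l)}
  have hT : T.Finite := by
    refine Set.Finite.biUnion (List.finite_toSet L) fun p _ => ?_
    exact Set.finite_iUnion fun l => Set.finite_singleton _
  -- the members for good parameters
  have key : ∀ δ : ℂ, δ ∉ T →
      rv b * (tz b (-(fun _ => δ)) * Y * tz b (fun _ => δ)) * rv b ∈ Ds b μ s := by
    intro δ hδ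
    have hz : ∀ p ∈ tzL (fun _ => δ) L, ∀ l, p.z l ≠ 0 := by
      intro p hp l
      unfold tzL at hp
      rw [List.mem_map] at hp
      obtain ⟨p', hp', rfl⟩ := hp
      intro h0
      apply hδ
      have h1 : p'.z l + δ = 0 := h0
      refine Set.mem_biUnion (show p' ∈ {p | p ∈ L} from hp') ?_
      refine Set.mem_iUnion.2 ⟨l, ?_⟩
      rw [Set.mem_singleton_iff]
      exact eq_neg_of_add_eq_zero_right h1
    have h1 := hB.tz (fun _ => δ)
    have h2 := hΦ.tz (fun _ => δ)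
    have h3 := h1.rv hz
    have h4 := h2.rv hz
    have h5 : cf ((Tl.rv b).map C * ((Tl.tz b (-(fun _ => δ))).map C * Φ *
        (Tl.tz b (fun _ => δ)).map C) * (Tl.rv b).map C) (a - 1) ∈ Ds b μ s :=
      Sym_gen h3 (by rw [rvL, List.length_map, tzL, List.length_map, hl]) h4
    rw [cf_conj, cf_conj] at h5
    exact h5
  let Cf : ℕ → Mt b := fun k =>
    ∑ q ∈ (range n ×ˢ range n) with q.1 + q.2 = k, (-1 : ℂ) ^ q.1 • (rv b * (A q.1 * Y * A q.2) * rv b)
  have hsum : ∀ δ : ℂ, rv b * (tz b (-(fun _ => δ)) * Y * tz b (fun _ => δ)) * rv b =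
      ∑ k ∈ range (2 * n), δ ^ k • Cf k := by
    intro δ
    have hneg : (-(fun _ : τ => δ)) = (fun _ : τ => -δ) := rfl
    rw [hneg, hA δ, hA (-δ)]
    have h1 : rv b * ((∑ k ∈ range n, (-δ) ^ k • A k) * Y * ∑ k ∈ range n, δ ^ k • A k) * rv b =
        ∑ q ∈ range n ×ˢ range n,
          δ ^ (q.1 + q.2) • ((-1 : ℂ) ^ q.1 • (rv b * (A q.1 * Y * A q.2) * rv b)) := by
      rw [Finset.sum_mul, Finset.sum_mul_sum, Finset.mul_sum, Finset.sum_mul, Finset.sum_product]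
      refine Finset.sum_congr rfl fun i _ => ?_
      rw [Finset.mul_sum, Finset.sum_mul]
      refine Finset.sum_congr rfl fun j _ => ?_
      rw [Matrix.smul_mul, Matrix.smul_mul, Matrix.mul_smul, Matrix.mul_smul, Matrix.mul_smul,
        Matrix.smul_mul, Matrix.smul_mul, smul_smul, smul_smul]
      congr 1
      rw [neg_pow, pow_add]
      ring
    rw [h1, ← Finset.sum_fiberwise_of_maps_to (s := range n ×ˢ range n) (t := range (2 * n))
      (g := fun q => q.1 + q.2) (fun q hq => by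
        rw [Finset.mem_product, Finset.mem_range, Finset.mem_range] at hq
        rw [Finset.mem_range]
        omega)]
    refine Finset.sum_congr rfl fun k _ => ?_
    rw [Finset.smul_sum]
    refine Finset.sum_congr rfl fun q hq => ?_
    rw [(Finset.mem_filter.1 hq).2]
  have hmem := mem_of_poly (Ds b μ s) (2 * n) Cf T hT (fun δ hδ => by
    rw [← hsum δ]
    exact key δ hδ) 0 (by omega)
  have h0 : Cf 0 = rv b * Y * rv b := by
    have hf : ((range n ×ˢ range n).filter fun q => q.1 + q.2 = 0) = {((0 : ℕ), (0 : ℕ))} := by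
      ext ⟨i, j⟩
      simp only [Finset.mem_filter, Finset.mem_product, Finset.mem_range, Finset.mem_singleton,
        Prod.mk.injEq]
      omega
    show ∑ q ∈ (range n ×ˢ range n) with q.1 + q.2 = 0,
      (-1 : ℂ) ^ q.1 • (rv b * (A q.1 * Y * A q.2) * rv b) = _
    rw [hf, Finset.sum_singleton, hA0, pow_zero, one_smul, one_mul, mul_one]
  rw [h0] at hmem
  exact hmem

theorem Ds_rv (Y : Mt b) (hY : Y ∈ Ds b μ s) : rv b * Y * rv b ∈ Ds b μ s := by
  unfold Ds at hY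
  refine Submodule.span_induction (p := fun Y _ => rv b * Y * rv b ∈ Ds b μ s) ?_ ?_ ?_ ?_ hY
  · rintro _ ⟨a, L, Φ, hB, hl, hΦ, rfl⟩
    exact Sym_rv_gen hB hl hΦ
  · rw [mul_zero, zero_mul]
    exact (Ds b μ s).zero_mem
  · intro Y Z _ _ h1 h2
    rw [mul_add, add_mul]
    exact (Ds b μ s).add_mem h1 h2
  · intro r Y _ h1
    rw [Matrix.mul_smul, Matrix.smul_mul]
    exact (Ds b μ s).smul_mem r h1

end Pool.Agent.H18.Tl
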