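import Pool.Agent.H18.Tl.ShB

/-!
# Module Td (TL): tiny blocks

Let `ρ` be as in `exists_rho`.  Put `Pk 0 s = X^a • s` and for `k ≥ 1`
`Pk k s γ = ∑_{i < a, a ≤ k + i} C ((ρ (X^(k+i) • cv (fun β => (s β).coeff (k+i-a))) γ).coeff i) * X^i`.
`Pk k s = 0` for `k ≥ a + n` since `k + i - a ≥ n`.
`Pk 1 s`: only `i = a - 1`, and `ρ (X^a • cv w) = Φ.mulVec (cv w) - X^a • cv w` (both sides are in `U b a` and vanish at `L`
after adding `X^a • cv w`; `h.inj`), whose coefficient of `t^(a-1)` is `(cf Φ (a-1)).mulVec w`.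
Vanishing: let `G = ∑_{k < a+n} δ^k Pk k s`.  By `van_sc`, `G ∈ vanL b (scL δ L)` iff `G(δ t) ∈ vanL b L`, and
`G(δ t) = δ^a t^a s(δ t) + ∑_{k ≥ 1} ∑_i δ^(k+i) t^i ρ_i(t^(k+i) s_(k+i-a)) = ∑_{j<n} δ^(a+j) (t^(a+j) s_j + ρ (t^(a+j) s_j))`
(`j = k + i - a`; for given `j < n`, `i < a` the index `k = a + j - i` satisfies `1 ≤ k < a + n`; `s_j = cv (coefficients of t^j)`).
-/

namespace Pool.Agent.H18.Tl

open Finset Polynomial

variable {τ : Type} [Fintype τ] [DecidableEq τ] {b : τ → ℕ} {μ a : ℕ} {L : List (Pt τ)}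
  {Φ : Matrix (Box b) (Box b) ℂ[X]}

private theorem Td_cv_add (w w' : Box b → ℂ) : (cv (w + w') : V b) = cv w + cv w' := by
  funext β
  simp [cv]

private theorem Td_cv_smul (c : ℂ) (w : Box b → ℂ) : (cv (c • w) : V b) = c • cv w := by
  funext β
  simp [cv, smul_eq_C_mul]

private theorem Td_cv_zero : (cv (0 : Box b → ℂ) : V b) = 0 := by
  funext β
  simp [cv]

/-- The coefficient vector of `t^j`. -/
private def Td_sc (j : ℕ) (s : V b) : Box b → ℂ := fun β => (s β).coeff j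

omit [Fintype τ] [DecidableEq τ] in
private theorem Td_sc_add (j : ℕ) (s s' : V b) :
    Td_sc j (s + s') = Td_sc j s + Td_sc j s' := by
  funext β
  simp [Td_sc]

omit [Fintype τ] [DecidableEq τ] in
private theorem Td_sc_smul (j : ℕ) (c : ℂ) (s : V b) :
    Td_sc j (c • s) = c • Td_sc j s := by
  funext β
  simp [Td_sc]

private theorem Td_arg_add (m j : ℕ) (s s' : V b) :
    (X : ℂ[X]) ^ m • (cv (Td_sc j (s + s')) : V b) =
      (X : ℂ[X]) ^ m • cv (Td_sc j s) + (X : ℂ[X]) ^ m • cv (Td_sc j s') := by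
  rw [Td_sc_add, Td_cv_add, smul_add]

private theorem Td_arg_smul (m j : ℕ) (c : ℂ) (s : V b) :
    (X : ℂ[X]) ^ m • (cv (Td_sc j (c • s)) : V b) =
      c • ((X : ℂ[X]) ^ m • cv (Td_sc j s)) := by
  rw [Td_sc_smul, Td_cv_smul, smul_comm]

/-- The maps `P_k`, `k ≥ 1`. -/
private noncomputable def Td_P (a : ℕ) (ρ : V b →ₗ[ℂ] V b) (k : ℕ) : V b →ₗ[ℂ] V b where
  toFun s := fun γ => ∑ i ∈ range a,
    if a ≤ k + i then
      C ((ρ ((X : ℂ[X]) ^ (k + i) • cv (Td_sc (k + i - a) s)) γ).coeff i) * X ^ i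
    else 0
  map_add' := by
    intro s s'
    funext γ
    rw [Pi.add_apply, ← sum_add_distrib]
    refine sum_congr rfl fun i _ => ?_
    split_ifs with h
    · rw [Td_arg_add, map_add, Pi.add_apply, coeff_add, C_add, add_mul]
    · rw [add_zero]
  map_smul' := by
    intro c s
    funext γ
    rw [RingHom.id_apply, Pi.smul_apply, Finset.smul_sum]
    refine sum_congr rfl fun i _ => ?_
    split_ifs with h
    · rw [Td_arg_smul, map_smul, Pi.smul_apply, coeff_smul, smul_eq_mul, C_mul, smul_eq_C_mul,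
        mul_assoc]
    · rw [smul_zero]

private theorem Td_P_apply (a : ℕ) (ρ : V b →ₗ[ℂ] V b) (k : ℕ) (s : V b) (γ : Box b) :
    Td_P a ρ k s γ = ∑ i ∈ range a,
      if a ≤ k + i then
        C ((ρ ((X : ℂ[X]) ^ (k + i) • cv (Td_sc (k + i - a) s)) γ).coeff i) * X ^ i
      else 0 := rfl

private theorem Td_P_coeff (a : ℕ) (ρ : V b →ₗ[ℂ] V b) (k : ℕ) (s : V b) (γ : Box b) (i : ℕ) :
    (Td_P a ρ k s γ).coeff i = if i < a ∧ a ≤ k + i then
      (ρ ((X : ℂ[X]) ^ (k + i) • cv (Td_sc (k + i - a) s)) γ).coeff i else 0 := by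
  rw [Td_P_apply, finsetSum_coeff]
  have hterm : ∀ j ∈ range a, (if a ≤ k + j then
      C ((ρ ((X : ℂ[X]) ^ (k + j) • cv (Td_sc (k + j - a) s)) γ).coeff j) * X ^ j
      else (0 : ℂ[X])).coeff i =
      if i = j then (if a ≤ k + i then
        (ρ ((X : ℂ[X]) ^ (k + i) • cv (Td_sc (k + i - a) s)) γ).coeff i else 0) else 0 := by
    intro j _
    by_cases hij : i = j
    · subst hij
      rw [if_pos rfl]
      split_ifs with h
      · rw [coeff_C_mul, coeff_X_pow, if_pos rfl, mul_one]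
      · rw [coeff_zero]
    · rw [if_neg hij]
      split_ifs with h
      · rw [coeff_C_mul, coeff_X_pow, if_neg hij, mul_zero]
      · rw [coeff_zero]
  rw [sum_congr rfl hterm, Finset.sum_ite_eq]
  by_cases hi : i < a
  · rw [if_pos (mem_range.2 hi)]
    by_cases hk : a ≤ k + i
    · rw [if_pos hk, if_pos ⟨hi, hk⟩]
    · rw [if_neg hk, if_neg fun h => hk h.2]
  · rw [if_neg fun h => hi (mem_range.1 h), if_neg fun h => hi h.1]

/-- The maps `P_k`. -/
private noncomputable def Td_Q (a : ℕ) (ρ : V b →ₗ[ℂ] V b) (k : ℕ) : V b →ₗ[ℂ] V b :=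
  if k = 0 then (LinearMap.lsmul ℂ[X] (V b) ((X : ℂ[X]) ^ a)).restrictScalars ℂ else Td_P a ρ k

private theorem Td_Q_zero (a : ℕ) (ρ : V b →ₗ[ℂ] V b) (s : V b) :
    Td_Q a ρ 0 s = (X : ℂ[X]) ^ a • s := by
  rw [Td_Q, if_pos rfl]
  rfl

private theorem Td_Q_pos (a : ℕ) (ρ : V b →ₗ[ℂ] V b) {k : ℕ} (hk : 1 ≤ k) :
    Td_Q a ρ k = Td_P a ρ k := by
  rw [Td_Q, if_neg (by omega)]

private theorem Td_rho_top (h : Blk b μ a L) (hΦ : Ph b a L Φ) (ρ : V b →ₗ[ℂ] V b)
    (h1 : ∀ G, ρ G ∈ U b a) (h2 : ∀ G, G + ρ G ∈ vanL b L) (w : Box b → ℂ) :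
    ρ ((X : ℂ[X]) ^ a • cv w) = Φ.mulVec (cv w) - (X : ℂ[X]) ^ a • cv w := by
  obtain ⟨hc1, hc2, hc3, _⟩ := hΦ.comb w
  have hsub : ρ ((X : ℂ[X]) ^ a • cv w) - (Φ.mulVec (cv w) - (X : ℂ[X]) ^ a • cv w) = 0 := by
    apply h.inj
    · apply Submodule.sub_mem _ (h1 _)
      rw [mem_U]
      intro β j hj
      rw [Pi.sub_apply, coeff_sub, Pi.smul_apply, smul_eq_mul, mul_comm, cv, coeff_mul_X_pow']
      rw [if_pos hj, coeff_C]
      rcases Nat.eq_or_lt_of_le hj with hj' | hj'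
      · subst hj'
        rw [Nat.sub_self, if_pos rfl]
        have := hc3 β
        rw [this, sub_self]
      · rw [if_neg (by omega), mem_U.1 hc2 β j hj', sub_zero]
    · have h3 := (vanL b L).sub_mem (h2 ((X : ℂ[X]) ^ a • cv w)) hc1
      have h4 : ρ ((X : ℂ[X]) ^ a • cv w) - (Φ.mulVec (cv w) - (X : ℂ[X]) ^ a • cv w) =
          (X : ℂ[X]) ^ a • cv w + ρ ((X : ℂ[X]) ^ a • cv w) - Φ.mulVec (cv w) := by
        abel
      rw [h4]
      exact h3
  exact sub_eq_zero.1 hsub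

private theorem Td_sum_shift {f : ℕ → ℂ} (a n i : ℕ) (hi : i < a) (hf : ∀ j, n ≤ j → f j = 0) :
    (∑ k ∈ range (a + n), if a ≤ k + i then f (k + i - a) else 0) = ∑ j ∈ range n, f j := by
  have h1 : a + n = (a - i) + (n + i) := by omega
  rw [h1, Finset.sum_range_add, Finset.sum_range_add (fun x => if a ≤ a - i + x + i then
    f (a - i + x + i - a) else 0)]
  have h2 : (∑ x ∈ range (a - i), if a ≤ x + i then f (x + i - a) else 0) = 0 := by
    apply sum_eq_zero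
    intro x hx
    rw [mem_range] at hx
    rw [if_neg (by omega)]
  have h3 : (∑ x ∈ range i, if a ≤ a - i + (n + x) + i then f (a - i + (n + x) + i - a) else 0)
      = 0 := by
    apply sum_eq_zero
    intro x hx
    rw [mem_range] at hx
    rw [if_pos (by omega)]
    exact hf _ (by omega)
  rw [h2, h3, zero_add, add_zero]
  refine sum_congr rfl fun x hx => ?_
  rw [if_pos (by omega)]
  congr 1
  omega

private theorem Td_main (ha : 1 ≤ a) (ρ : V b →ₗ[ℂ] V b)
    (h1 : ∀ G, ρ G ∈ U b a) (n : ℕ) (s : V b) (hs : s ∈ U b n) (δ : ℂ) (γ : Box b) :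
    ((∑ k ∈ range (a + n), δ ^ k • Td_Q a ρ k s) γ).comp (C δ * X) =
      (∑ j ∈ range n, C (δ ^ (a + j)) • ((X : ℂ[X]) ^ (a + j) • cv (Td_sc j s) +
        ρ ((X : ℂ[X]) ^ (a + j) • cv (Td_sc j s)))) γ := by
  ext i
  rw [comp_C_mul_X_coeff, Finset.sum_apply, Finset.sum_apply, finsetSum_coeff, finsetSum_coeff]
  by_cases hi : i < a
  · have hl : ∀ k ∈ range (a + n), ((δ ^ k • Td_Q a ρ k s) γ).coeff i * δ ^ i =
        if a ≤ k + i then (fun j => δ ^ (a + j) *
          (ρ ((X : ℂ[X]) ^ (a + j) • cv (Td_sc j s)) γ).coeff i) (k + i - a) else 0 := by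
      intro k _
      rw [Pi.smul_apply, coeff_smul, smul_eq_mul]
      rcases Nat.eq_zero_or_pos k with hk | hk
      · subst hk
        rw [Td_Q_zero, Pi.smul_apply, smul_eq_mul, mul_comm (X ^ a) (s γ), coeff_mul_X_pow',
          if_neg (by omega), if_neg (by omega), mul_zero, zero_mul]
      · rw [Td_Q_pos a ρ hk, Td_P_coeff]
        by_cases hk2 : a ≤ k + i
        · rw [if_pos ⟨hi, hk2⟩, if_pos hk2]
          have h3 : a + (k + i - a) = k + i := by omega
          simp only [h3]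
          rw [pow_add]
          ring
        · rw [if_neg fun h => hk2 h.2, if_neg hk2, mul_zero, zero_mul]
    rw [Finset.sum_mul, sum_congr rfl hl]
    refine (Td_sum_shift (f := fun j => δ ^ (a + j) *
      (ρ ((X : ℂ[X]) ^ (a + j) • cv (Td_sc j s)) γ).coeff i) a n i hi ?_).trans ?_
    rotate_left
    · refine sum_congr rfl fun j _ => ?_
      rw [Pi.smul_apply, Pi.add_apply, smul_eq_mul, coeff_C_mul, coeff_add, Pi.smul_apply,
        smul_eq_mul, mul_comm (X ^ (a + j)) (cv (Td_sc j s) γ), coeff_mul_X_pow',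
        if_neg (by omega), zero_add]
    · intro j hj
      have h4 : Td_sc j s = 0 := by
        funext β
        exact mem_U.1 hs β j hj
      show δ ^ (a + j) * (ρ ((X : ℂ[X]) ^ (a + j) • cv (Td_sc j s)) γ).coeff i = 0
      rw [h4, Td_cv_zero, smul_zero, map_zero, Pi.zero_apply, coeff_zero, mul_zero]
  · have hi' : a ≤ i := by omega
    have hl : ∀ k ∈ range (a + n), ((δ ^ k • Td_Q a ρ k s) γ).coeff i =
        if 0 = k then (s γ).coeff (i - a) else 0 := by
      intro k _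
      rw [Pi.smul_apply, coeff_smul, smul_eq_mul]
      rcases Nat.eq_zero_or_pos k with hk | hk
      · subst hk
        rw [Td_Q_zero, Pi.smul_apply, smul_eq_mul, mul_comm (X ^ a) (s γ), coeff_mul_X_pow',
          if_pos hi', pow_zero, one_mul, if_pos rfl]
      · rw [Td_Q_pos a ρ hk, Td_P_coeff, if_neg fun h => hi h.1, if_neg (by omega), mul_zero]
    have hr : ∀ j ∈ range n, ((C (δ ^ (a + j)) • ((X : ℂ[X]) ^ (a + j) • cv (Td_sc j s) +
        ρ ((X : ℂ[X]) ^ (a + j) • cv (Td_sc j s)))) γ).coeff i =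
        if i - a = j then δ ^ i * (s γ).coeff (i - a) else 0 := by
      intro j _
      rw [Pi.smul_apply, Pi.add_apply, smul_eq_mul, coeff_C_mul, coeff_add,
        mem_U.1 (h1 _) γ i hi', add_zero, Pi.smul_apply,
        smul_eq_mul, mul_comm (X ^ (a + j)) (cv (Td_sc j s) γ), coeff_mul_X_pow', cv, coeff_C]
      by_cases hj : i - a = j
      · subst hj
        have h5 : a + (i - a) = i := by omega
        rw [h5, if_pos le_rfl, Nat.sub_self, if_pos rfl, if_pos rfl]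
        rfl
      · rw [if_neg hj]
        by_cases h6 : a + j ≤ i
        · rw [if_pos h6, if_neg (by omega), mul_zero]
        · rw [if_neg h6, mul_zero]
    rw [sum_congr rfl hl, sum_congr rfl hr, Finset.sum_ite_eq, Finset.sum_ite_eq,
      if_pos (mem_range.2 (by omega))]
    by_cases h7 : i - a < n
    · rw [if_pos (mem_range.2 h7), mul_comm]
    · rw [if_neg fun h => h7 (mem_range.1 h), mem_U.1 hs γ (i - a) (by omega), zero_mul]

theorem exists_td (h : Blk b μ a L) (hΦ : Ph b a L Φ) (ha : 1 ≤ a) :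
    ∃ Pk : ℕ → V b →ₗ[ℂ] V b,
      (∀ s, Pk 0 s = (X : ℂ[X]) ^ a • s) ∧
      (∀ s, Pk 1 s = (X : ℂ[X]) ^ (a - 1) • cv ((cf Φ (a - 1)).mulVec (e0 s))) ∧
      (∀ k s, 1 ≤ k → Pk k s ∈ U b a) ∧
      (∀ (n : ℕ) (s : V b), s ∈ U b n → ∀ k, a + n ≤ k → Pk k s = 0) ∧
      ∀ (n : ℕ) (s : V b), s ∈ U b n → ∀ δ : ℂ, δ ≠ 0 →
        ∑ k ∈ range (a + n), δ ^ k • Pk k s ∈ vanL b (scL δ L) := by
  obtain ⟨ρ, h1, h2⟩ := exists_rho h
  refine ⟨Td_Q a ρ, Td_Q_zero a ρ, ?_, ?_, ?_, ?_⟩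
  · intro s
    rw [Td_Q_pos a ρ le_rfl]
    funext γ
    ext i
    rw [Td_P_coeff, Pi.smul_apply, smul_eq_mul,
      mul_comm (X ^ (a - 1)) (cv ((cf Φ (a - 1)).mulVec (e0 s)) γ), coeff_mul_X_pow', cv, coeff_C]
    by_cases hi : i = a - 1
    · subst hi
      have h3 : 1 + (a - 1) = a := by omega
      rw [if_pos ⟨by omega, by omega⟩, if_pos le_rfl, Nat.sub_self, if_pos rfl, h3, Nat.sub_self]
      have h4 : Td_sc 0 s = e0 s := rfl
      rw [h4, Td_rho_top h hΦ ρ h1 h2, Pi.sub_apply, coeff_sub, Pi.smul_apply, smul_eq_mul,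
        mul_comm (X ^ a) (cv (e0 s) γ), coeff_mul_X_pow', if_neg (by omega), sub_zero]
      exact (hΦ.comb (e0 s)).2.2.2 γ (a - 1)
    · rw [if_neg (by omega)]
      by_cases h6 : a - 1 ≤ i
      · rw [if_pos h6, if_neg (by omega)]
      · rw [if_neg h6]
  · intro k s hk
    rw [Td_Q_pos a ρ hk, mem_U]
    intro β j hj
    rw [Td_P_coeff, if_neg (by omega)]
  · intro n s hs k hk
    rw [Td_Q_pos a ρ (by omega)]
    funext γ
    ext i
    rw [Td_P_coeff, Pi.zero_apply, coeff_zero]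
    by_cases h3 : i < a ∧ a ≤ k + i
    · rw [if_pos h3]
      have h4 : Td_sc (k + i - a) s = 0 := by
        funext β
        exact mem_U.1 hs β _ (by omega)
      rw [h4, Td_cv_zero, smul_zero, map_zero, Pi.zero_apply, coeff_zero]
    · rw [if_neg h3]
  · intro n s hs δ hδ
    rw [mem_vanL]
    intro p' hp'
    rw [scL, List.mem_map] at hp'
    obtain ⟨p, hp, rfl⟩ := hp'
    rw [← van_sc δ hδ p]
    have h3 : (fun γ => ((∑ k ∈ range (a + n), δ ^ k • Td_Q a ρ k s) γ).comp (C δ * X)) =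
        ∑ j ∈ range n, C (δ ^ (a + j)) • ((X : ℂ[X]) ^ (a + j) • cv (Td_sc j s) +
        ρ ((X : ℂ[X]) ^ (a + j) • cv (Td_sc j s))) := by
      funext γ
      exact Td_main ha ρ h1 n s hs δ γ
    rw [h3]
    apply (van b p).sum_mem
    intro j _
    exact (van b p).smul_mem _ (h2 _ p hp)

private theorem Td_iter (a : ℕ) (p : ℂ[X]) (j : ℕ) :
    ((divX (R := ℂ))^[a] p).coeff j = p.coeff (j + a) := by
  induction a generalizing j with
  | zero => rfl
  | succ a ih =>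
    rw [Function.iterate_succ_apply', coeff_divX, ih]
    congr 1
    omega

/-- Every element of `V b` is `X^a • s + r`, `r ∈ U b a`. -/
theorem exists_div (a : ℕ) (G : V b) : ∃ s : V b, G - (X : ℂ[X]) ^ a • s ∈ U b a ∧
    ∀ β j, (s β).coeff j = (G β).coeff (j + a) := by
  refine ⟨fun β => (divX (R := ℂ))^[a] (G β), ?_, fun β j => Td_iter a (G β) j⟩
  rw [mem_U]
  intro β j hj
  rw [Pi.sub_apply, coeff_sub, Pi.smul_apply, smul_eq_mul, mul_comm, coeff_mul_X_pow', if_pos hj,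
    Td_iter, Nat.sub_add_cancel hj, sub_self]

end Pool.Agent.H18.Tl
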