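import Pool.Agent.H18.Tl.Defs

/-!
# Module Tz (TL): translations

`tz_add`: the entry `(γ, β)` of the product is `∏_l` of the sums over `κ_l` (`Finset.prod_univ_sum`,
`Fintype.piFinset_univ`), and `∑_κ binom(κ,γ) z^(κ-γ) binom(β,κ) w^(β-κ) = binom(β,γ) (z+w)^(β-γ)` (coefficient of `Y^γ` in
`((Y + z) + w)^β`, or `Nat.choose_mul`).  `tz_eq_zero`: a factor `binom(β_l, γ_l)` vanishes.
`van_tz`: `act (tz b p.z) (act (tz b c) F) = act (tz b (p.z + c)) F`.
`tz_mem_Ve`: `tz b z γ β = 0` unless `γ ≤ β`, so `dg γ ≤ dg β`.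
-/

namespace Pool.Agent.H18.Tl

open Finset Polynomial

variable {τ : Type} [Fintype τ] [DecidableEq τ] {b : τ → ℕ}

theorem act_mul (A B : Mt b) (F : V b) : act (A * B) F = act A (act B F) := by
  unfold act
  rw [Matrix.map_mul, Matrix.mulVecLin_mul, LinearMap.comp_apply]

theorem act_one (F : V b) : act (1 : Mt b) F = F := by
  unfold act
  rw [Matrix.map_one _ (map_zero C) (map_one C), Matrix.mulVecLin_one, LinearMap.id_apply]

/-- The action on constant vectors. -/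
theorem act_cv (A : Mt b) (w : Box b → ℂ) : act A (cv w) = cv (A.mulVec w) := by
  funext γ
  rw [act_apply]
  unfold cv
  rw [Matrix.mulVec, dotProduct, map_sum]
  exact Finset.sum_congr rfl fun β _ => by rw [map_mul]

theorem coeff_act (A : Mt b) (F : V b) (γ : Box b) (j : ℕ) :
    (act A F γ).coeff j = ∑ β, A γ β * (F β).coeff j := by
  rw [act_apply, finsetSum_coeff]
  exact Finset.sum_congr rfl fun β _ => by rw [coeff_C_mul]

theorem tz_eq_zero (z : τ → ℂ) (γ β : Box b) (h : ¬ ∀ l, (γ l : ℕ) ≤ β l) : tz b z γ β = 0 := by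
  push Not at h
  obtain ⟨l, hl⟩ := h
  unfold tz
  refine Finset.prod_eq_zero (Finset.mem_univ l) ?_
  rw [Nat.choose_eq_zero_of_lt hl, Nat.cast_zero, zero_mul]

theorem tz_zero : tz b 0 = 1 := by
  ext γ β
  by_cases h : γ = β
  · subst h
    rw [Matrix.one_apply_eq]
    unfold tz
    refine Finset.prod_eq_one fun l _ => ?_
    rw [Nat.choose_self, Nat.sub_self, pow_zero, Nat.cast_one, mul_one]
  · rw [Matrix.one_apply_ne h]
    by_cases h2 : ∀ l, (γ l : ℕ) ≤ β l
    · obtain ⟨l, hl⟩ : ∃ l, γ l ≠ β l := by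
        by_contra hcon
        push Not at hcon
        exact h (funext hcon)
      unfold tz
      refine Finset.prod_eq_zero (Finset.mem_univ l) ?_
      have h3 : (β l : ℕ) - (γ l : ℕ) ≠ 0 := by
        have h4 := h2 l
        have h5 : (γ l : ℕ) ≠ β l := fun e => hl (Fin.ext e)
        omega
      rw [Pi.zero_apply, zero_pow h3, mul_zero]
    · exact tz_eq_zero 0 γ β h2

private theorem Tz_one (n g m : ℕ) (hg : g ≤ n) (hm : m ≤ n) (z w : ℂ) :
    ∑ k : Fin (n + 1), ((((k : ℕ).choose g : ℕ) : ℂ) * z ^ ((k : ℕ) - g)) * (((m.choose (k : ℕ) : ℕ) : ℂ) * w ^ (m - (k : ℕ))) =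
      ((m.choose g : ℕ) : ℂ) * (z + w) ^ (m - g) := by
  obtain ⟨f, hf⟩ : ∃ f : ℕ → ℂ, f = fun k => (((k.choose g : ℕ) : ℂ) * z ^ (k - g)) * (((m.choose k : ℕ) : ℂ) * w ^ (m - k)) := ⟨_, rfl⟩
  have h1 : ∑ k : Fin (n + 1), ((((k : ℕ).choose g : ℕ) : ℂ) * z ^ ((k : ℕ) - g)) *
      (((m.choose (k : ℕ) : ℕ) : ℂ) * w ^ (m - (k : ℕ))) = ∑ k ∈ Finset.range (n + 1), f k := by
    rw [Finset.sum_range, hf]
  rw [h1]
  rcases lt_or_ge m g with hmg | hmg
  · rw [Nat.choose_eq_zero_of_lt hmg, Nat.cast_zero, zero_mul]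
    refine Finset.sum_eq_zero fun k _ => ?_
    rw [hf]
    rcases lt_or_ge k g with h | h
    · simp only [Nat.choose_eq_zero_of_lt h, Nat.cast_zero, zero_mul]
    · simp only [Nat.choose_eq_zero_of_lt (show m < k by omega), Nat.cast_zero, zero_mul, mul_zero]
  · have h2 : n + 1 = g + (m - g + 1) + (n - m) := by omega
    rw [h2, Finset.sum_range_add, Finset.sum_range_add]
    have h3 : ∑ k ∈ Finset.range g, f k = 0 := by
      refine Finset.sum_eq_zero fun k hk => ?_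
      rw [hf]
      simp only [Nat.choose_eq_zero_of_lt (Finset.mem_range.1 hk), Nat.cast_zero, zero_mul]
    have h4 : ∑ k ∈ Finset.range (n - m), f (g + (m - g + 1) + k) = 0 := by
      refine Finset.sum_eq_zero fun k hk => ?_
      rw [hf]
      simp only [Nat.choose_eq_zero_of_lt (show m < g + (m - g + 1) + k by omega), Nat.cast_zero, zero_mul, mul_zero]
    rw [h3, h4, zero_add, add_zero, add_pow, Finset.mul_sum]
    refine Finset.sum_congr rfl fun i hi => ?_
    rw [hf]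
    simp only
    have hi' : i ≤ m - g := Nat.lt_succ_iff.1 (Finset.mem_range.1 hi)
    have h5 := Nat.choose_mul (n := m) (k := g + i) (s := g) (by omega)
    have h6 : g + i - g = i := by omega
    have h7 : m - (g + i) = m - g - i := by omega
    rw [h6] at h5
    rw [h6, h7]
    have h8 : ((m.choose (g + i) : ℕ) : ℂ) * (((g + i).choose g : ℕ) : ℂ) = ((m.choose g : ℕ) : ℂ) * (((m - g).choose i : ℕ) : ℂ) := by
      exact_mod_cast h5
    calc (((g + i).choose g : ℕ) : ℂ) * z ^ i * (((m.choose (g + i) : ℕ) : ℂ) * w ^ (m - g - i)) =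
        (((m.choose (g + i) : ℕ) : ℂ) * (((g + i).choose g : ℕ) : ℂ)) * (z ^ i * w ^ (m - g - i)) := by ring
      _ = _ := by rw [h8]; ring

theorem tz_add (z w : τ → ℂ) : tz b (z + w) = tz b z * tz b w := by
  ext γ β
  rw [Matrix.mul_apply]
  unfold tz
  simp only [← Finset.prod_mul_distrib]
  rw [← Fintype.piFinset_univ (α := τ) (β := fun l => Fin (b l + 1)), ← Finset.prod_univ_sum (fun l => (Finset.univ : Finset (Fin (b l + 1))))
    (fun l (k : Fin (b l + 1)) => ((((k : ℕ).choose (γ l : ℕ) : ℕ) : ℂ) * z l ^ ((k : ℕ) - (γ l : ℕ))) *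
      ((((β l : ℕ).choose (k : ℕ) : ℕ) : ℂ) * w l ^ ((β l : ℕ) - (k : ℕ))))]
  refine Finset.prod_congr rfl fun l _ => ?_
  rw [Tz_one (b l) (γ l) (β l) (Nat.lt_succ_iff.1 (γ l).2) (Nat.lt_succ_iff.1 (β l).2), Pi.add_apply]

theorem tz_neg_mul (z : τ → ℂ) : tz b (-z) * tz b z = 1 := by
  rw [← tz_add, neg_add_cancel, tz_zero]

theorem tz_mul_neg (z : τ → ℂ) : tz b z * tz b (-z) = 1 := by
  rw [← tz_add, add_neg_cancel, tz_zero]

theorem van_tz (c : τ → ℂ) (p : Pt τ) (F : V b) :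
    act (tz b c) F ∈ van b p ↔ F ∈ van b ⟨p.m, p.x, p.z + c⟩ := by
  rw [mem_van, mem_van]
  simp only [← act_mul, ← tz_add]

theorem act_mem_U (A : Mt b) (a : ℕ) (F : V b) (hF : F ∈ U b a) : act A F ∈ U b a := by
  rw [mem_U] at hF ⊢
  intro β j h
  rw [coeff_act]
  exact Finset.sum_eq_zero fun γ _ => by rw [hF γ j h, mul_zero]

theorem tz_mem_Ve (z : τ → ℂ) (e : ℕ) (F : V b) (hF : F ∈ Ve b e) : act (tz b z) F ∈ Ve b e := by
  rw [mem_Ve] at hF ⊢
  intro γ j h
  rw [coeff_act]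
  refine Finset.sum_eq_zero fun β _ => ?_
  by_cases h2 : ∀ l, (γ l : ℕ) ≤ β l
  · have h3 : dg γ ≤ dg β := Finset.sum_le_sum fun l _ => h2 l
    rw [hF β j (by omega), mul_zero]
  · rw [tz_eq_zero z γ β h2, zero_mul]

end Pool.Agent.H18.Tl
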