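import Pool.Agent.H18.Tl.Tz

/-!
# Module Vn (TL): vanishing conditions

`van_unit`: `act A (q • F) = q • act A F`, and `q`, `X - C x` are coprime (`(X - C x)^k ∣ q * G → (X - C x)^k ∣ G`,
`IsCoprime.pow_left`, `isCoprime` from `q.eval x ≠ 0`: `Polynomial.isCoprime_X_sub_C...` or `(prime_X_sub_C x).coprime_iff_not_dvd`).
`van_sh`, `van_sc`: `taylor c` and `comp (C δ * X)` are ring automorphisms of `ℂ[X]` fixing the constants (`δ ≠ 0`), so they
commute with `act A` and preserve divisibility in both directions (use the inverse automorphism).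
`van_iff`: `X_sub_C_pow_dvd_iff` and `X_pow_dvd_iff`; `taylor r f = f.comp (X + C r)`.
`van_zero_iff`: `tz_zero`, `act_one`.
-/

namespace Pool.Agent.H18.Tl

open Finset Polynomial

variable {τ : Type} [Fintype τ] [DecidableEq τ] {b : τ → ℕ}

private theorem Vn_coprime (q : ℂ[X]) (x : ℂ) (hq : q.eval x ≠ 0) (k : ℕ) (G : ℂ[X])
    (h : (X - C x) ^ k ∣ q * G) : (X - C x) ^ k ∣ G := by
  have h1 : IsCoprime (X - C x) q := by
    rw [(prime_X_sub_C x).irreducible.coprime_iff_not_dvd, dvd_iff_isRoot]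
    exact hq
  exact (h1.pow_left).dvd_of_dvd_mul_left h

theorem van_unit (p : Pt τ) (q : ℂ[X]) (hq : q.eval p.x ≠ 0) (F : V b) (h : q • F ∈ van b p) :
    F ∈ van b p := by
  rw [mem_van] at h ⊢
  intro γ
  have h1 := h γ
  rw [map_smul, Pi.smul_apply, smul_eq_mul] at h1
  exact Vn_coprime q p.x hq _ _ h1

theorem vanL_unit (L : List (Pt τ)) (q : ℂ[X]) (hq : ∀ p ∈ L, q.eval p.x ≠ 0) (F : V b)
    (h : q • F ∈ vanL b L) : F ∈ vanL b L := by
  rw [mem_vanL] at h ⊢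
  intro p hp
  exact van_unit p q (hq p hp) F (h p hp)

theorem vanL_append (L L' : List (Pt τ)) (F : V b) :
    F ∈ vanL b (L ++ L') ↔ F ∈ vanL b L ∧ F ∈ vanL b L' := by
  rw [mem_vanL, mem_vanL, mem_vanL]
  constructor
  · intro h
    exact ⟨fun p hp => h p (List.mem_append_left _ hp), fun p hp => h p (List.mem_append_right _ hp)⟩
  · rintro ⟨h1, h2⟩ p hp
    rcases List.mem_append.1 hp with hp | hp
    · exact h1 p hp
    · exact h2 p hp

private theorem Vn_taylor_mul (c : ℂ) (f g : ℂ[X]) : taylor c (f * g) = taylor c f * taylor c g := by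
  rw [taylor_apply, taylor_apply, taylor_apply, mul_comp]

private theorem Vn_taylor_act (c : ℂ) (A : Mt b) (F : V b) (γ : Box b) :
    act A (sh c F) γ = taylor c (act A F γ) := by
  rw [act_apply, act_apply, map_sum]
  refine Finset.sum_congr rfl fun β _ => ?_
  rw [Vn_taylor_mul, taylor_C, sh_apply]

private theorem Vn_taylor_dvd (c x : ℂ) (k : ℕ) (G : ℂ[X]) :
    (X - C x) ^ k ∣ taylor c G ↔ (X - C (x + c)) ^ k ∣ G := by
  rw [X_sub_C_pow_dvd_iff, X_sub_C_pow_dvd_iff, taylor_apply, comp_assoc]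
  have h : (X + C c : ℂ[X]).comp (X + C x) = X + C (x + c) := by
    rw [add_comp, X_comp, C_comp, add_assoc, ← C_add]
  rw [h]

theorem van_sh (c : ℂ) (p : Pt τ) (F : V b) :
    sh c F ∈ van b p ↔ F ∈ van b ⟨p.m, p.x + c, p.z⟩ := by
  rw [mem_van, mem_van]
  refine forall_congr' fun γ => ?_
  rw [Vn_taylor_act]
  exact Vn_taylor_dvd c p.x _ _

private theorem Vn_sc_act (δ : ℂ) (A : Mt b) (F : V b) (γ : Box b) :
    act A (fun γ => (F γ).comp (C δ * X)) γ = (act A F γ).comp (C δ * X) := by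
  rw [act_apply, act_apply, Polynomial.sum_comp]
  refine Finset.sum_congr rfl fun β _ => ?_
  rw [mul_comp, C_comp]

private theorem Vn_sc_fwd (δ x : ℂ) (k : ℕ) (G : ℂ[X])
    (h : (X - C (δ * x)) ^ k ∣ G) : (X - C x) ^ k ∣ G.comp (C δ * X) := by
  obtain ⟨H, rfl⟩ := h
  rw [mul_comp, pow_comp, sub_comp, X_comp, C_comp]
  have h1 : (C δ * X - C (δ * x) : ℂ[X]) = C δ * (X - C x) := by
    rw [C_mul]; ring
  rw [h1, mul_pow]
  exact Dvd.dvd.mul_right (Dvd.dvd.mul_left dvd_rfl _) _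

private theorem Vn_sc_comp (δ : ℂ) (hδ : δ ≠ 0) (G : ℂ[X]) :
    (G.comp (C δ * X)).comp (C δ⁻¹ * X) = G := by
  rw [comp_assoc, mul_comp, C_comp, X_comp, ← mul_assoc, ← C_mul, mul_inv_cancel₀ hδ, C_1, one_mul,
    comp_X]

private theorem Vn_sc_dvd (δ : ℂ) (hδ : δ ≠ 0) (x : ℂ) (k : ℕ) (G : ℂ[X]) :
    (X - C x) ^ k ∣ G.comp (C δ * X) ↔ (X - C (δ * x)) ^ k ∣ G := by
  constructor
  · intro h
    have h1 : (X - C (δ⁻¹ * (δ * x))) ^ k ∣ G.comp (C δ * X) := by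
      rwa [← mul_assoc, inv_mul_cancel₀ hδ, one_mul]
    have h2 := Vn_sc_fwd δ⁻¹ (δ * x) k _ h1
    rwa [Vn_sc_comp δ hδ] at h2
  · exact Vn_sc_fwd δ x k G

theorem van_sc (δ : ℂ) (hδ : δ ≠ 0) (p : Pt τ) (F : V b) :
    (fun γ => (F γ).comp (C δ * X)) ∈ van b p ↔ F ∈ van b ⟨p.m, δ * p.x, p.z⟩ := by
  rw [mem_van, mem_van]
  refine forall_congr' fun γ => ?_
  rw [Vn_sc_act]
  exact Vn_sc_dvd δ hδ p.x _ _

theorem van_iff (p : Pt τ) (F : V b) :
    F ∈ van b p ↔ ∀ (γ : Box b) (j : ℕ), j + dg γ < p.m →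
      (taylor p.x (act (tz b p.z) F γ)).coeff j = 0 := by
  rw [mem_van]
  refine forall_congr' fun γ => ?_
  rw [X_sub_C_pow_dvd_iff, X_pow_dvd_iff, taylor_apply]
  refine forall_congr' fun j => ?_
  rw [lt_tsub_iff_right]

/-- Vanishing at a point with `y = 0`. -/
theorem van_zero_iff (m : ℕ) (x : ℂ) (F : V b) :
    F ∈ van b ⟨m, x, 0⟩ ↔ ∀ γ, (X - C x) ^ (m - dg γ) ∣ F γ := by
  rw [mem_van]
  refine forall_congr' fun γ => ?_
  show (X - C x) ^ (m - dg γ) ∣ act (tz b 0) F γ ↔ _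
  rw [tz_zero, act_one]

end Pool.Agent.H18.Tl
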